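import Pool.Agent.H72.PL.HtL

/-!
# Module PF: the product formula as an inequality (paper proof: proposal 65, section 3)

`Δ ≠ 0` in the number field `L`. Mathlib: `NumberField.prod_abs_eq_one`:
`(∏ v : InfinitePlace L, v Δ ^ v.mult) * ∏ᶠ w : FinitePlace L, w Δ = 1`. Heights:
`NumberField.mulHeight₁_eq`: `mulHeight₁ x = (∏ v, max (v x) 1 ^ v.mult) * ∏ᶠ w, max (w x) 1`.
Multiply the given bounds over all places (finite products of functions with finite multiplicative
support: `finprod_mul_distrib`, `finprod_pow`, `finprod_prod_comm`; `Function.mulSupport` of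
`w ↦ max (w x) 1` is finite, see `FinitePlace.hasFiniteMulSupport` and how
`NumberField`/`Height/Basic.lean` do it; `finprod_le_finprod'`-type monotonicity: restrict everything to one
finite set of places `finprod_eq_prod_of_mulSupport_subset`, outside which all functions are `1`):
`1 ≤ C^(∑ mult) * ∏_i mulHeight₁(a i)^(m i) mulHeight₁(b i)^(w i) * ∏ᶠ e`, `∑ mult = [L:ℚ]`
(`InfinitePlace.sum_mult_eq`). Take logarithms.
-/

set_option autoImplicit false

open NumberField Module

namespace Pool.Agent.H72.PL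

private lemma pf_support {L : Type} [Field L] [NumberField L] (x : L) :
    {p : FinitePlace L | Real.posLog (p x) ≠ 0}.Finite := by
  rcases eq_or_ne x 0 with rfl | hx
  · have : {p : FinitePlace L | Real.posLog (p (0 : L)) ≠ 0} = ∅ := by
      ext p
      simp
    rw [this]
    exact Set.finite_empty
  · have h := FinitePlace.hasFiniteMulSupport (K := L) hx
    refine Set.Finite.subset h fun p hp => ?_
    rw [Function.mem_mulSupport]
    intro h1
    have h2 : p x = 1 := h1
    rw [Set.mem_ofPred_eq, h2] at hp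
    simp at hp

theorem pf_ineq {L : Type} [Field L] [NumberField L] (Δ : L) (hΔ : Δ ≠ 0) {I : Type} [Fintype I]
    (a b : I → L) (m w : I → ℕ) (C : ℝ) (hC : 1 ≤ C) (e : FinitePlace L → ℝ)
    (he0 : ∀ p, 0 < e p) (he : (Function.mulSupport e).Finite)
    (hinf : ∀ v : InfinitePlace L,
      v Δ ≤ C * ∏ i, ((max 1 (v (a i))) ^ (m i) * (max 1 (v (b i))) ^ (w i)))
    (hfin : ∀ p : FinitePlace L,
      p Δ ≤ e p * ∏ i, ((max 1 (p (a i))) ^ (m i) * (max 1 (p (b i))) ^ (w i))) :
    0 ≤ (finrank ℚ L : ℝ) * Real.log C +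
      ∑ i, ((m i : ℝ) * Height.logHeight₁ (a i) + (w i : ℝ) * Height.logHeight₁ (b i)) +
      Real.log (∏ᶠ p, e p) := by
  classical
  -- the finite set of places
  have hSΔ : {p : FinitePlace L | p Δ ≠ 1}.Finite := FinitePlace.hasFiniteMulSupport (K := L) hΔ
  have hSa : (⋃ i, {p : FinitePlace L | Real.posLog (p (a i)) ≠ 0}).Finite :=
    Set.finite_iUnion fun i => pf_support (a i)
  have hSb : (⋃ i, {p : FinitePlace L | Real.posLog (p (b i)) ≠ 0}).Finite :=
    Set.finite_iUnion fun i => pf_support (b i)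
  have hall := ((hSΔ.union he).union (hSa.union hSb))
  set S : Finset (FinitePlace L) := hall.toFinset with hS
  have hmemS : ∀ p : FinitePlace L, p ∉ S → p Δ = 1 ∧ e p = 1 ∧
      (∀ i, Real.posLog (p (a i)) = 0) ∧ ∀ i, Real.posLog (p (b i)) = 0 := by
    intro p hp
    rw [hS, Set.Finite.mem_toFinset, Set.mem_union, Set.mem_union, Set.mem_union, not_or,
      not_or, not_or] at hp
    obtain ⟨⟨h1, h2⟩, h3, h4⟩ := hp
    refine ⟨not_not.1 h1, Function.notMem_mulSupport.1 h2, fun i => ?_, fun i => ?_⟩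
    · by_contra h
      exact h3 (Set.mem_iUnion.2 ⟨i, h⟩)
    · by_contra h
      exact h4 (Set.mem_iUnion.2 ⟨i, h⟩)
  -- logarithmic heights
  have hht : ∀ x : L, (∀ p : FinitePlace L, p ∉ S → Real.posLog (p x) = 0) →
      Height.logHeight₁ x = (∑ v : InfinitePlace L, (v.mult : ℝ) * Real.posLog (v x)) +
        ∑ p ∈ S, Real.posLog (p x) := by
    intro x hx
    rw [logHeight₁_eq]
    congr 1
    refine finsum_eq_sum_of_support_subset _ fun p hp => ?_
    by_contra h
    exact hp (hx p h)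
  have hpos : ∀ x : ℝ, 0 ≤ x → Real.log (max 1 x) = Real.posLog x := fun x hx =>
    (Real.posLog_eq_log_max_one hx).symm
  have hmax : ∀ x : ℝ, (0 : ℝ) < max 1 x := fun x => lt_of_lt_of_le one_pos (le_max_left _ _)
  -- the product formula
  have hpf : ∑ v : InfinitePlace L, (v.mult : ℝ) * Real.log (v Δ) +
      ∑ p ∈ S, Real.log (p Δ) = 0 := by
    have h1 := prod_abs_eq_one (K := L) hΔ
    have h2 : (∏ᶠ p : FinitePlace L, p Δ) = ∏ p ∈ S, p Δ := by
      refine finprod_eq_prod_of_mulSupport_subset _ fun p hp => ?_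
      by_contra h
      exact hp (hmemS p h).1
    have hv : ∀ v : InfinitePlace L, v Δ ≠ 0 := fun v => (InfinitePlace.pos_iff.2 hΔ).ne'
    have hp : ∀ p : FinitePlace L, p Δ ≠ 0 := fun p => (FinitePlace.pos_iff.2 hΔ).ne'
    rw [h2] at h1
    have h3 := congrArg Real.log h1
    rw [Real.log_one, Real.log_mul (Finset.prod_ne_zero_iff.2 fun v _ => pow_ne_zero _ (hv v))
      (Finset.prod_ne_zero_iff.2 fun p _ => hp p), Real.log_prod (fun v _ => pow_ne_zero _ (hv v)),
      Real.log_prod (fun p _ => hp p)] at h3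
    rw [← h3]
    congr 1
    exact Finset.sum_congr rfl fun v _ => (Real.log_pow _ _).symm
  have hlog : ∀ (t : L → ℝ) (ht : ∀ x, 0 ≤ t x) (c : ℝ), 0 < c → 0 < t Δ →
      t Δ ≤ c * ∏ i, ((max 1 (t (a i))) ^ (m i) * (max 1 (t (b i))) ^ (w i)) →
      Real.log (t Δ) ≤ Real.log c +
        ∑ i, ((m i : ℝ) * Real.posLog (t (a i)) + (w i : ℝ) * Real.posLog (t (b i))) := by
    intro t ht c hc hpos' hle
    have hprod : (0 : ℝ) < ∏ i, ((max 1 (t (a i))) ^ (m i) * (max 1 (t (b i))) ^ (w i)) :=
      Finset.prod_pos fun i _ => mul_pos (pow_pos (hmax _) _) (pow_pos (hmax _) _)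
    refine (Real.log_le_log hpos' hle).trans (le_of_eq ?_)
    rw [Real.log_mul hc.ne' hprod.ne', Real.log_prod
      (fun i _ => (mul_pos (pow_pos (hmax _) _) (pow_pos (hmax _) _)).ne')]
    congr 1
    refine Finset.sum_congr rfl fun i _ => ?_
    rw [Real.log_mul (pow_pos (hmax _) _).ne' (pow_pos (hmax _) _).ne', Real.log_pow, Real.log_pow,
      hpos _ (ht _), hpos _ (ht _)]
  have h1 : ∀ v : InfinitePlace L, (v.mult : ℝ) * Real.log (v Δ) ≤ (v.mult : ℝ) * (Real.log C +
      ∑ i, ((m i : ℝ) * Real.posLog (v (a i)) + (w i : ℝ) * Real.posLog (v (b i)))) := by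
    intro v
    refine mul_le_mul_of_nonneg_left ?_ (Nat.cast_nonneg _)
    exact hlog (fun x => v x) (fun x => apply_nonneg v x) C (by linarith)
      (InfinitePlace.pos_iff.2 hΔ) (hinf v)
  have h2 : ∀ p : FinitePlace L, Real.log (p Δ) ≤ Real.log (e p) +
      ∑ i, ((m i : ℝ) * Real.posLog (p (a i)) + (w i : ℝ) * Real.posLog (p (b i))) := by
    intro p
    exact hlog (fun x => p x) (fun x => apply_nonneg p x) (e p) (he0 p)
      (FinitePlace.pos_iff.2 hΔ) (hfin p)
  have hmult : ∑ v : InfinitePlace L, (v.mult : ℝ) = (finrank ℚ L : ℝ) := by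
    rw [← InfinitePlace.sum_mult_eq (K := L), Nat.cast_sum]
  have hesum : Real.log (∏ᶠ p, e p) = ∑ p ∈ S, Real.log (e p) := by
    have h3 : (∏ᶠ p : FinitePlace L, e p) = ∏ p ∈ S, e p := by
      refine finprod_eq_prod_of_mulSupport_subset _ fun p hp => ?_
      by_contra h
      exact hp (hmemS p h).2.1
    rw [h3, Real.log_prod (fun p _ => (he0 p).ne')]
  have hsum : (finrank ℚ L : ℝ) * Real.log C +
      ∑ i, ((m i : ℝ) * Height.logHeight₁ (a i) + (w i : ℝ) * Height.logHeight₁ (b i)) +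
      Real.log (∏ᶠ p, e p) =
      (∑ v : InfinitePlace L, (v.mult : ℝ) * (Real.log C +
      ∑ i, ((m i : ℝ) * Real.posLog (v (a i)) + (w i : ℝ) * Real.posLog (v (b i))))) +
      ∑ p ∈ S, (Real.log (e p) +
      ∑ i, ((m i : ℝ) * Real.posLog (p (a i)) + (w i : ℝ) * Real.posLog (p (b i)))) := by
    have ha : ∀ i, Height.logHeight₁ (a i) = _ := fun i =>
      hht (a i) fun p hp => (hmemS p hp).2.2.1 i
    have hb : ∀ i, Height.logHeight₁ (b i) = _ := fun i =>
      hht (b i) fun p hp => (hmemS p hp).2.2.2 i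
    rw [hesum, ← hmult]
    simp only [ha, hb, mul_add, Finset.sum_add_distrib, Finset.mul_sum, Finset.sum_mul]
    rw [Finset.sum_comm (s := (Finset.univ : Finset I)) (t := (Finset.univ : Finset (InfinitePlace L)))
        (f := fun i v => (m i : ℝ) * ((v.mult : ℝ) * Real.posLog (v (a i)))),
      Finset.sum_comm (s := (Finset.univ : Finset I)) (t := (Finset.univ : Finset (InfinitePlace L)))
        (f := fun i v => (w i : ℝ) * ((v.mult : ℝ) * Real.posLog (v (b i)))),
      Finset.sum_comm (s := (Finset.univ : Finset I)) (t := S)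
        (f := fun i p => (m i : ℝ) * Real.posLog (p (a i))),
      Finset.sum_comm (s := (Finset.univ : Finset I)) (t := S)
        (f := fun i p => (w i : ℝ) * Real.posLog (p (b i)))]
    simp only [mul_left_comm]
    ring
  rw [hsum, ← hpf]
  exact add_le_add (Finset.sum_le_sum fun v _ => h1 v) (Finset.sum_le_sum fun p _ => h2 p)

end Pool.Agent.H72.PL
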