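import Pool.Agent.H72.PL.Defs
import Pool.Agent.H4.RR.AbsHeight
import Pool.Agent.H4.RR.BogCyc

/-!
# Module HtL: facts on heights in a number field

`height_conj`: `logHeight₁ (σ x) = logHeight₁ x` for a field automorphism (write `x = v/u` with integers,
`bogCyc_height_map` of `H4/RR/BogCyc.lean`); `absLogHeight₁ x = logHeight₁ x / [L:ℚ]` is
`absLogHeight_eq L L (RingHom.id L) x`.
`height_pos`: if `x ≠ 0` is not a root of unity then `0 < absLogHeight₁ x`: otherwise all powers `x^i` have
height zero (`Height.logHeight₁_pow`); Northcott (`NumberField.finite_setOfPred_logHeight₁_le`) says that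
only finitely many elements have height `≤ 0`, so `x^i = x^j` for some `i < j`, `x^(j-i) = 1`.
`absHeight_zpow`, `absHeight_mul`: `Height.logHeight₁_zpow`, `logHeight₁_mul_le` with `logHeight_abs`.
-/

set_option autoImplicit false

open NumberField Module

namespace Pool.Agent.H72.PL

theorem height_conj {L : Type} [Field L] [NumberField L] (σ : L ≃+* L) (x : L) :
    Height.logHeight₁ (σ x) = Height.logHeight₁ x := by
  obtain ⟨V, U, hU, rfl⟩ := IsFractionRing.div_surjective (A := 𝓞 L) x
  have hU0 : U ≠ 0 := nonZeroDivisors.ne_zero hU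
  have h := Pool.Agent.H4.RR.bogCyc_height_map L σ U V hU0
  have h2 := congrArg Real.log h
  exact h2

theorem absHeight_def {L : Type} [Field L] [NumberField L] (x : L) :
    absLogHeight₁ x = Height.logHeight₁ x / (finrank ℚ L : ℝ) := by
  have h := Pool.Agent.H4.RR.absLogHeight_eq L L (RingHom.id L) x
  exact h

theorem finrank_pos_real (L : Type) [Field L] [NumberField L] : (0 : ℝ) < (finrank ℚ L : ℝ) := by
  exact_mod_cast (finrank_pos : 0 < finrank ℚ L)

theorem logHeight_abs {L : Type} [Field L] [NumberField L] (x : L) :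
    Height.logHeight₁ x = (finrank ℚ L : ℝ) * absLogHeight₁ x := by
  have h := finrank_pos_real L
  rw [absHeight_def]
  field_simp

theorem absHeight_conj {L : Type} [Field L] [NumberField L] (σ : L ≃+* L) (x : L) :
    absLogHeight₁ (σ x) = absLogHeight₁ x := by
  rw [absHeight_def, absHeight_def, height_conj]

theorem absHeight_nonneg {L : Type} [Field L] [NumberField L] (x : L) :
    0 ≤ absLogHeight₁ x := by
  rw [absHeight_def]
  exact div_nonneg (Height.zero_le_logHeight₁ x) (finrank_pos_real L).le

theorem height_pos {L : Type} [Field L] [NumberField L] (x : L) (hx : x ≠ 0)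
    (h : ∀ n : ℕ, 1 ≤ n → x ^ n ≠ 1) : 0 < absLogHeight₁ x := by
  rcases (absHeight_nonneg x).lt_or_eq with h1 | h1
  · exact h1
  exfalso
  have h2 : Height.logHeight₁ x = 0 := by rw [logHeight_abs, ← h1, mul_zero]
  have hfin := NumberField.finite_setOfPred_logHeight₁_le (K := L) 0
  have hmem : ∀ n : ℕ, x ^ n ∈ {y : L | Height.logHeight₁ y ≤ 0} := by
    intro n
    show Height.logHeight₁ (x ^ n) ≤ 0
    rw [Height.logHeight₁_pow, h2, mul_zero]
  have hninj : ¬ Function.Injective fun n : ℕ => x ^ n := by
    intro hinj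
    exact (Set.infinite_of_injective_forall_mem hinj hmem) hfin
  rw [Function.Injective] at hninj
  push Not at hninj
  obtain ⟨i, j, hij, hne⟩ := hninj
  have key : ∀ i j : ℕ, i < j → x ^ i = x ^ j → False := by
    intro i j hlt he
    refine h (j - i) (by omega) ?_
    have h3 : x ^ j = x ^ i * x ^ (j - i) := by
      rw [← pow_add]
      congr 1
      omega
    rw [h3] at he
    have h4 : x ^ i * 1 = x ^ i * x ^ (j - i) := by rw [mul_one]; exact he
    exact (mul_left_cancel₀ (pow_ne_zero i hx) h4).symm
  rcases lt_or_gt_of_ne hne with h5 | h5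
  · exact key i j h5 hij
  · exact key j i h5 hij.symm

theorem absHeight_zpow {L : Type} [Field L] [NumberField L] (x : L) (m : ℤ) :
    absLogHeight₁ (x ^ m) = |(m : ℝ)| * absLogHeight₁ x := by
  rw [absHeight_def, absHeight_def, Height.logHeight₁_zpow, mul_div_assoc]
  congr 1
  rw [Nat.cast_natAbs, Int.cast_abs]

theorem absHeight_mul {L : Type} [Field L] [NumberField L] (x z : L) :
    absLogHeight₁ (x * z) ≤ absLogHeight₁ x + absLogHeight₁ z := by
  rw [absHeight_def, absHeight_def, absHeight_def, ← add_div]
  exact div_le_div_of_nonneg_right (Height.logHeight₁_mul_le x z) (finrank_pos_real L).le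

end Pool.Agent.H72.PL
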