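import Pool.Agent.H72.PL.Eps

/-!
# Module FrobB: arithmetic Frobenius automorphisms (paper proof: prop. 65, section 1)

`w | 𝔭`, `𝔓` the prime of `𝓞 L` belonging to `w`, `q = nrm 𝔭`.
1. There is `F ∈ Gal(L/K)` with `F z - z^q ∈ 𝔓` for all `z ∈ 𝓞 L`: Mathlib
   `Mathlib/RingTheory/Frobenius.lean`, `IsArithFrobAt.exists_of_isInvariant` (or
   `AlgHom.IsArithFrobAt...`) for the group `L ≃ₐ[K] L` acting on `𝓞 L` with invariants `𝓞 K`,
   `𝔓 ∩ 𝓞 K = 𝔭`, residue field of order `q`.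
2. `w (F z) = w z`: `F` maps `𝔓` into itself (`z ∈ 𝔓 ⟹ F z ≡ z^q ≡ 0`), so `F 𝔓 = 𝔓`; the
   absolute value `w ∘ F` belongs to the prime `F⁻¹ 𝔓 = 𝔓` with the same normalisation. (E.g.: for
   integers `z ≠ 0`: `w z = N(𝔓)^(-mult 𝔓 (z))`, and `mult 𝔓 (F z) = mult (F⁻¹ 𝔓) (z)`; then
   quotients. `FinitePlace.apply_mul_absNorm_pow_eq_one`.)
3. For `z ∈ L`, `w z ≤ 1`: `z = z₁/z₂` with `z₁, z₂ ∈ 𝓞 L`, `w z₂ = 1` (localization at `𝔓`), and
   `F z - z^q = ((F z₁ - z₁^q) z₂^q - z₁^q (F z₂ - z₂^q)) / (F z₂ z₂^q)`, so `w (F z - z^q) < 1`.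
4. `F ζ = ζ^q`: `F ζ = ζ^i`, `ζ^i - ζ^q ∈ 𝔓`, and distinct `N`-th roots of unity are distinct modulo `𝔓`
   as `N ∉ 𝔓` (`IsArithFrobAt.apply_of_pow_eq_one` or `AlgHom.IsArithFrobAt.apply_of_pow_eq_one`;
   `∏_{0<j<N} (1 - ζ^j) = N`).
5. `unit_y`: `w(y)^N = w(b) = 1` (`above_unit`).
-/

set_option autoImplicit false

open NumberField IsDedekindDomain Module

namespace Pool.Agent.H72.PL

variable {K L : Type} [Field K] [NumberField K] [Field L] [NumberField L] [Algebra K L]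

theorem fb_one_of_pow {w : FinitePlace L} {N : ℕ} (hN : 1 ≤ N) {y : L} (h : w (y ^ N) = 1) :
    w y = 1 := by
  rw [map_pow] at h
  exact (pow_eq_one_iff_of_nonneg (apply_nonneg w y) (by omega)).1 h

theorem fb_int_lt (w : FinitePlace L) (x : 𝓞 L) :
    w (x : L) < 1 ↔ x ∈ w.maximalIdeal.asIdeal := by
  rw [← FinitePlace.norm_embedding_eq]
  exact FinitePlace.norm_lt_one_iff_mem L w.maximalIdeal x

theorem fb_int_eq (w : FinitePlace L) (x : 𝓞 L) :
    w (x : L) = 1 ↔ x ∉ w.maximalIdeal.asIdeal := by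
  rw [← FinitePlace.norm_embedding_eq]
  exact FinitePlace.norm_eq_one_iff_notMem L w.maximalIdeal x

theorem fb_apply (w : FinitePlace L) (z : L) :
    w z = WithZeroMulInt.toNNReal (HeightOneSpectrum.absNorm_ne_zero w.maximalIdeal)
      (w.maximalIdeal.valuation L z) := by
  rw [← FinitePlace.norm_embedding_eq, FinitePlace.norm_embedding']

theorem fb_le_one (w : FinitePlace L) (z : L) (h : w z ≤ 1) :
    w.maximalIdeal.valuation L z ≤ 1 := by
  rw [fb_apply] at h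
  have h2 : WithZeroMulInt.toNNReal (HeightOneSpectrum.absNorm_ne_zero w.maximalIdeal)
      (w.maximalIdeal.valuation L z) ≤
      WithZeroMulInt.toNNReal (HeightOneSpectrum.absNorm_ne_zero w.maximalIdeal) 1 := by
    rw [map_one]
    exact_mod_cast h
  exact (WithZeroMulInt.toNNReal_strictMono
    (HeightOneSpectrum.one_lt_absNorm_nnreal w.maximalIdeal)).le_iff_le.1 h2

theorem fb_under (𝔭 : HeightOneSpectrum (𝓞 K)) (w : FinitePlace L) (hw : Above 𝔭 w) :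
    (w.maximalIdeal.asIdeal).under (𝓞 K) = 𝔭.asIdeal := by
  have h1 : 𝔭.asIdeal ≤ (w.maximalIdeal.asIdeal).under (𝓞 K) := Ideal.map_le_iff_le_comap.1 hw
  have h2 : (w.maximalIdeal.asIdeal).under (𝓞 K) ≠ ⊤ := by
    have := w.maximalIdeal.isPrime
    exact Ideal.IsPrime.ne_top inferInstance
  exact (𝔭.isMaximal.eq_of_le h2 h1).symm

open scoped Pointwise in
theorem fb_val (v : HeightOneSpectrum (𝓞 L)) (F : L ≃ₐ[K] L) (h : F • v.asIdeal = v.asIdeal)
    (x : 𝓞 L) : v.intValuation (F • x) = v.intValuation x := by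
  have key : ∀ n : ℕ, F • x ∈ v.asIdeal ^ n ↔ x ∈ v.asIdeal ^ n := by
    intro n
    have h1 : F • (v.asIdeal ^ n) = v.asIdeal ^ n := by rw [smul_pow', h]
    conv_lhs => rw [← h1]
    exact Ideal.smul_mem_pointwise_smul_iff
  rcases eq_or_ne x 0 with rfl | hx
  · rw [smul_zero]
  have hx' : F • x ≠ 0 := (smul_ne_zero_iff_ne F).2 hx
  apply le_antisymm
  · rw [v.intValuation_if_neg hx, v.intValuation_le_pow_iff_mem, key,
      ← v.intValuation_le_pow_iff_mem, v.intValuation_if_neg hx]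
  · rw [v.intValuation_if_neg hx', v.intValuation_le_pow_iff_mem, ← key,
      ← v.intValuation_le_pow_iff_mem, v.intValuation_if_neg hx']

open scoped Pointwise in
theorem fb_exists [IsGalois K L] (Q : Ideal (𝓞 L)) [Q.IsPrime] [Finite (𝓞 L ⧸ Q)] :
    ∃ F : L ≃ₐ[K] L, IsArithFrobAt (𝓞 K) F Q ∧ F • Q = Q := by
  obtain ⟨F, hF⟩ := IsArithFrobAt.exists_of_isInvariant (𝓞 K) (L ≃ₐ[K] L) Q
  exact ⟨F, hF, MulAction.mem_stabilizer_iff.1 hF.mem_stabilizer⟩

theorem fb_inv (w : FinitePlace L) (F : L ≃ₐ[K] L)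
    (h : ∀ x : 𝓞 L, w.maximalIdeal.intValuation (F • x) = w.maximalIdeal.intValuation x) (z : L) :
    w (F z) = w z := by
  have hint : ∀ x : 𝓞 L, w (F (x : L)) = w (x : L) := by
    intro x
    have e : F (x : L) = ((F • x : 𝓞 L) : L) := rfl
    rw [e, fb_apply, fb_apply, RingOfIntegers.coe_eq_algebraMap, RingOfIntegers.coe_eq_algebraMap,
      HeightOneSpectrum.valuation_of_algebraMap, HeightOneSpectrum.valuation_of_algebraMap, h]
  obtain ⟨a, b, hb, rfl⟩ := IsFractionRing.div_surjective (𝓞 L) z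
  have ha := hint a
  have hb' := hint b
  rw [RingOfIntegers.coe_eq_algebraMap] at ha hb'
  rw [map_div₀, map_div₀, map_div₀, ha, hb']

theorem unit_y (N : ℕ) (hN : 1 ≤ N) (y : L) (b : K) (hy : y ^ N = algebraMap K L b)
    (𝔭 : HeightOneSpectrum (𝓞 K)) (hb : 𝔭.valuation K b = 1) (w : FinitePlace L)
    (hw : Above 𝔭 w) : w y = 1 := by
  have h1 := above_unit 𝔭 w hw b hb
  rw [← hy] at h1
  exact fb_one_of_pow hN h1

/-- distinct `N`-th roots of unity are not congruent modulo primes not dividing `N` -/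
theorem root_sep (N : ℕ) (hN : 1 ≤ N) (𝔭 : HeightOneSpectrum (𝓞 K)) (hNp : (N : 𝓞 K) ∉ 𝔭.asIdeal)
    (w : FinitePlace L) (hw : Above 𝔭 w) (ω : L) (hω : ω ^ N = 1) (h : w (ω - 1) < 1) :
    ω = 1 := by
  by_contra hne
  have hw1 : w ω = 1 := fb_one_of_pow hN (by rw [hω]; exact map_one w)
  have hpow : ∀ i : ℕ, w (ω ^ i - 1) < 1 := by
    intro i
    induction i with
    | zero => rw [pow_zero, sub_self, map_zero]; exact one_pos
    | succ i ih =>
      have e : ω ^ (i + 1) - 1 = ω * (ω ^ i - 1) + (ω - 1) := by ring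
      rw [e]
      refine lt_of_le_of_lt (FinitePlace.add_le w _ _) (max_lt ?_ h)
      rw [map_mul, hw1, one_mul]
      exact ih
  have hsum : ∑ i ∈ Finset.range N, ω ^ i = 0 := by
    have h1 := geom_sum_mul ω N
    rw [hω, sub_self] at h1
    exact (mul_eq_zero.1 h1).resolve_right (sub_ne_zero.2 hne)
  have hlt : ∀ s : Finset ℕ, w (∑ i ∈ s, (ω ^ i - 1)) < 1 := by
    intro s
    classical
    induction s using Finset.induction_on with
    | empty => rw [Finset.sum_empty, map_zero]; exact one_pos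
    | insert a s ha ih =>
      rw [Finset.sum_insert ha]
      exact lt_of_le_of_lt (FinitePlace.add_le w _ _) (max_lt (hpow a) ih)
  have h2 := hlt (Finset.range N)
  rw [Finset.sum_sub_distrib, hsum, Finset.sum_const, Finset.card_range, nsmul_eq_mul, mul_one,
    zero_sub, map_neg_eq_map] at h2
  have h3 : w ((N : 𝓞 L) : L) < 1 := by
    have e : (((N : 𝓞 L)) : L) = (N : L) := by
      rw [RingOfIntegers.coe_eq_algebraMap, map_natCast]
    rw [e]
    exact h2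
  rw [fb_int_lt] at h3
  apply hNp
  rw [← fb_under 𝔭 w hw, Ideal.under_def, Ideal.mem_comap, map_natCast]
  exact h3

/-- an arithmetic Frobenius exists, and it preserves the place -/
theorem frob_basic [IsGalois K L] (𝔭 : HeightOneSpectrum (𝓞 K)) (w : FinitePlace L)
    (hw : Above 𝔭 w) :
    ∃ F : L ≃ₐ[K] L, (∀ z : L, w (F z) = w z) ∧
      (∀ z : L, w z ≤ 1 → w (F z - z ^ nrm 𝔭) < 1) ∧
      (∀ (N : ℕ) (ζ : L), IsPrimitiveRoot ζ N → 1 ≤ N → (N : 𝓞 K) ∉ 𝔭.asIdeal →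
        F ζ = ζ ^ nrm 𝔭) := by
  obtain ⟨Q, hQ⟩ : ∃ Q : Ideal (𝓞 L), Q = w.maximalIdeal.asIdeal := ⟨_, rfl⟩
  have hQp : Q.IsPrime := by rw [hQ]; exact w.maximalIdeal.isPrime
  have hQf : Finite (𝓞 L ⧸ Q) := by
    rw [hQ]
    exact w.maximalIdeal.asIdeal.finiteQuotientOfFreeOfNeBot w.maximalIdeal.ne_bot
  obtain ⟨F, hF, hstab⟩ := fb_exists (K := K) Q
  have hq : Nat.card (𝓞 K ⧸ Q.under (𝓞 K)) = nrm 𝔭 := by
    rw [hQ, fb_under 𝔭 w hw]
    rfl
  have hF1 : ∀ x : 𝓞 L, w (F (x : L) - (x : L) ^ nrm 𝔭) < 1 := by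
    intro x
    have h1 := hF x
    rw [hq] at h1
    have h2 : w (((F • x - x ^ nrm 𝔭 : 𝓞 L)) : L) < 1 := by
      rw [fb_int_lt, ← hQ]
      exact h1
    exact h2
  subst hQ
  have hinv : ∀ z : L, w (F z) = w z := fb_inv w F (fb_val w.maximalIdeal F hstab)
  have hFc : ∀ z : L, w z ≤ 1 → w (F z - z ^ nrm 𝔭) < 1 := by
    intro z hz
    obtain ⟨n, d, hnd⟩ := w.maximalIdeal.exists_primeCompl_mul_eq_of_integer z (fb_le_one w z hz)
    have hd : w (((d : 𝓞 L)) : L) = 1 := (fb_int_eq w _).2 d.2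
    have hn : w ((n : 𝓞 L) : L) ≤ 1 := by
      rw [RingOfIntegers.coe_eq_algebraMap, ← hnd, map_mul]
      rw [RingOfIntegers.coe_eq_algebraMap] at hd
      rw [hd, mul_one]
      exact hz
    have hn1 := hF1 n
    have hd1 := hF1 (d : 𝓞 L)
    obtain ⟨D, hD⟩ : ∃ D : L, D = ((d : 𝓞 L) : L) := ⟨_, rfl⟩
    obtain ⟨n', hn'⟩ : ∃ n' : L, n' = ((n : 𝓞 L) : L) := ⟨_, rfl⟩
    rw [← hD] at hd hd1
    rw [← hn'] at hn hn1
    have hzd : z * D = n' := by
      rw [hD, hn', RingOfIntegers.coe_eq_algebraMap, RingOfIntegers.coe_eq_algebraMap]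
      exact hnd
    have e : (F z - z ^ nrm 𝔭) * (F D * D ^ nrm 𝔭) =
        (F n' - n' ^ nrm 𝔭) * D ^ nrm 𝔭 + (-(n' ^ nrm 𝔭 * (F D - D ^ nrm 𝔭))) := by
      rw [← hzd, map_mul, mul_pow]
      ring
    have h1 : w ((F z - z ^ nrm 𝔭) * (F D * D ^ nrm 𝔭)) = w (F z - z ^ nrm 𝔭) := by
      rw [map_mul, map_mul, map_pow, hinv, hd, one_pow, mul_one, mul_one]
    rw [← h1, e]
    refine lt_of_le_of_lt (FinitePlace.add_le w _ _) (max_lt ?_ ?_)
    · rw [map_mul, map_pow, hd, one_pow, mul_one]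
      exact hn1
    · rw [map_neg_eq_map, map_mul, map_pow]
      calc w n' ^ nrm 𝔭 * w (F D - D ^ nrm 𝔭) ≤ 1 * w (F D - D ^ nrm 𝔭) :=
            mul_le_mul_of_nonneg_right (pow_le_one₀ (apply_nonneg w _) hn) (apply_nonneg w _)
        _ < 1 := by rw [one_mul]; exact hd1
  refine ⟨F, hinv, hFc, ?_⟩
  intro N ζ hζ hN hNp
  have hζ1 : ζ ^ N = 1 := hζ.pow_eq_one
  have hζ0 : ζ ≠ 0 := hζ.ne_zero (by omega)
  have hwζ : w ζ = 1 := fb_one_of_pow hN (by rw [hζ1]; exact map_one w)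
  have hroot : (F ζ / ζ ^ nrm 𝔭) ^ N = 1 := by
    rw [div_pow, ← map_pow, hζ1, map_one, ← pow_mul, mul_comm, pow_mul, hζ1, one_pow, div_one]
  have hlt : w (F ζ / ζ ^ nrm 𝔭 - 1) < 1 := by
    have h1 := hFc ζ hwζ.le
    have e : F ζ / ζ ^ nrm 𝔭 - 1 = (F ζ - ζ ^ nrm 𝔭) / ζ ^ nrm 𝔭 := by
      field_simp
    rw [e, map_div₀, map_pow, hwζ, one_pow, div_one]
    exact h1
  have h2 := root_sep N hN 𝔭 hNp w hw _ hroot hlt
  exact (div_eq_one_iff_eq (pow_ne_zero _ hζ0)).1 h2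

end Pool.Agent.H72.PL
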