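import Mathlib

/-!
# Module TBase: degrees over different copies of fields; exponents (prop. 65)

1. `deg_le`: `A`, `B` subfields of `Ω` in disguise, `A ⊆ B`: choose for `a : A` the unique `β a : B` with the
   same image in `Ω`; `β` is a ring homomorphism (injectivity of `algebraMap B Ω`). The image of
   `minpoly A α` under `β` is monic and vanishes at `α`, so `minpoly B α` divides it.
2. `exp_bound`: `Λ` finitely generated, every `γ ∈ Λ` has a power (`≥ 1`) in `⟨b⟩`: a common exponent.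
   Finite set of generators, product of the exponents, `Subgroup.closure_induction` (commutative group).
-/

set_option autoImplicit false

namespace Pool.Agent.H72.PL

theorem deg_le {A B Ω : Type} [Field A] [Field B] [Field Ω] [Algebra A Ω] [Algebra B Ω]
    (h : ∀ a : A, ∃ c : B, algebraMap B Ω c = algebraMap A Ω a) (α : Ω) (hα : IsIntegral A α) :
    (minpoly B α).natDegree ≤ (minpoly A α).natDegree := by
  choose β hβ using h
  have hinj : Function.Injective (algebraMap B Ω) := (algebraMap B Ω).injective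
  let f : A →+* B :=
    { toFun := β
      map_one' := hinj (by rw [hβ, map_one, map_one])
      map_mul' := fun x y => hinj (by rw [hβ, map_mul, map_mul, hβ, hβ])
      map_zero' := hinj (by rw [hβ, map_zero, map_zero])
      map_add' := fun x y => hinj (by rw [hβ, map_add, map_add, hβ, hβ]) }
  have hf : (algebraMap B Ω).comp f = algebraMap A Ω := by
    ext a
    exact hβ a
  have h1 : Polynomial.aeval α ((minpoly A α).map f) = 0 := by
    rw [Polynomial.aeval_def, Polynomial.eval₂_map, hf, ← Polynomial.aeval_def]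
    exact minpoly.aeval A α
  have h2 := minpoly.dvd B α h1
  have h3 : ((minpoly A α).map f) ≠ 0 := ((minpoly.monic hα).map f).ne_zero
  calc (minpoly B α).natDegree ≤ ((minpoly A α).map f).natDegree :=
        Polynomial.natDegree_le_of_dvd h2 h3
    _ ≤ (minpoly A α).natDegree := Polynomial.natDegree_map_le

theorem exp_bound {G : Type} [CommGroup G] (Λ : Subgroup G) (hΛ : Λ.FG) (b : G)
    (hrk : ∀ γ ∈ Λ, ∃ m : ℕ, 1 ≤ m ∧ ∃ j : ℤ, γ ^ m = b ^ j) :
    ∃ m : ℕ, 1 ≤ m ∧ ∀ γ ∈ Λ, ∃ j : ℤ, γ ^ m = b ^ j := by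
  classical
  obtain ⟨S, hS⟩ := hΛ
  have hSm : ∀ γ ∈ S, γ ∈ Λ := fun γ hγ => by
    rw [← hS]
    exact Subgroup.subset_closure hγ
  have hch : ∀ γ : G, ∃ m : ℕ, 1 ≤ m ∧ (γ ∈ S → ∃ j : ℤ, γ ^ m = b ^ j) := by
    intro γ
    by_cases hγ : γ ∈ S
    · obtain ⟨m, hm, hj⟩ := hrk γ (hSm γ hγ)
      exact ⟨m, hm, fun _ => hj⟩
    · exact ⟨1, le_rfl, fun h => absurd h hγ⟩
  choose m hm1 hm2 using hch
  refine ⟨∏ γ ∈ S, m γ, Finset.one_le_prod' fun γ _ => hm1 γ, ?_⟩
  intro γ hγ
  rw [← hS] at hγ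
  induction hγ using Subgroup.closure_induction with
  | mem x hx =>
    obtain ⟨j, hj⟩ := hm2 x hx
    obtain ⟨c, hc⟩ := Finset.dvd_prod_of_mem m hx
    refine ⟨j * c, ?_⟩
    rw [hc, pow_mul, hj, zpow_mul, zpow_natCast]
  | one => exact ⟨0, by simp⟩
  | mul x y _ _ hx hy =>
    obtain ⟨j, hj⟩ := hx
    obtain ⟨l, hl⟩ := hy
    exact ⟨j + l, by rw [mul_pow, hj, hl, zpow_add]⟩
  | inv x _ hx =>
    obtain ⟨j, hj⟩ := hx
    exact ⟨-j, by rw [inv_pow, hj, zpow_neg]⟩

end Pool.Agent.H72.PL
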