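import Pool.Agent.H72.PL.CoreMain
import Pool.Agent.H72.PL.TBase

/-!
# Module Transfer: from the core theorem to groups of rank one (prop. 65)

`Ω` algebraic closure of `K`. `exp_bound`: `m` with `γ^m ∈ ⟨b⟩` for all `γ ∈ Λ`. `K' = K(b) ≤ Ω`, a number field
(`IntermediateField.adjoin K {b}`, finite dimensional). `core_main` for `K'`, `b` gives `Z₀`;
`A = 90 [K':ℚ] + 20`.
Let `N, Γ, α` be given, `F = K(Γ)`, `D = finrank F F⟮α⟯ = natDegree (minpoly F α)`. `N' = N m`. Choose in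
`Ω` a primitive `N'`-th root of unity `ζ` and `y` with `y^N' = b`. `L` = normal closure of `K'(ζ, y, α)` in
`Ω` over `K'`, a finite Galois extension of `K'` (`IntermediateField.normalClosure`, or `adjoin` of the roots
of a product of minimal polynomials), a number field. For `γ ∈ Γ`: `γ^N' = (γ^N)^m = b^j`, so
`γ = ζ^i y^j ∈ K'(ζ, y)`: `F ⊆ K'(ζ, y)`, so by `deg_le` (with `B` = `adjoin K' {ζ, y}` inside `L`,
`minpoly B (α : Ω) = minpoly B (α : L)`, `minpoly.algebraMap_eq`) `d' ≤ D`. For `α`: `α^i ≠ b^j` for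
`i ≥ 1`, because `b^j ∈ Λ ≤ Γ`. `Z := ⌈log (3 N D)⌉ + ⌈log m⌉ + Z₀ + 1`: `log (3 N') ≤ Z`, `log d' ≤ Z`, and
`Z ≤ C log (3 N D)` with `C = Z₀ + log m + 5` (`log (3 N D) ≥ log 3 ≥ 1`). So
`1/(C log(3ND))^A ≤ d' h(α) ≤ D h(α)` (`absLogHeight₁` of `α ∈ L` and of its image in `Ω` are equal:
`Pool.Agent.H4.RR.absLogHeight_eq` twice), `c = 1/C^A`.
-/

set_option autoImplicit false

open NumberField Module

namespace Pool.Agent.H72.PL


theorem tr_height {L Ω : Type} [Field L] [NumberField L] [Field Ω] [CharZero Ω] (ι : L →+* Ω)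
    (a : L) : absLogHeight₁ (ι a) = absLogHeight₁ a := by
  rw [Pool.Agent.H4.RR.absLogHeight_eq L Ω ι a]
  have := Pool.Agent.H4.RR.absLogHeight_eq L L (RingHom.id L) a
  rw [← this]
  rfl

theorem tr_aux {K' Ω : Type} [Field K'] [NumberField K'] [Field Ω] [CharZero Ω] [Algebra K' Ω]
    [IsAlgClosed Ω] [Algebra.IsAlgebraic K' Ω] (b : K') (Z A : ℕ)
    (hcore : ∀ (L : Type) [Field L] [NumberField L] [Algebra K' L] [IsGalois K' L] (N : ℕ)
      (ζ y α : L),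
      1 ≤ N → IsPrimitiveRoot ζ N → y ^ N = algebraMap K' L b → α ≠ 0 →
      (∀ m : ℕ, 1 ≤ m → ∀ j : ℤ, α ^ m ≠ (algebraMap K' L b) ^ j) →
      Real.log (3 * N) ≤ Z →
      Real.log ((minpoly (IntermediateField.adjoin K' {ζ, y}) α).natDegree) ≤ Z →
      1 / (Z : ℝ) ^ A ≤
        ((minpoly (IntermediateField.adjoin K' {ζ, y}) α).natDegree : ℝ) * absLogHeight₁ α)
    (N : ℕ) (hN : 1 ≤ N) (ζ y α : Ω) (hζ : IsPrimitiveRoot ζ N) (hy : y ^ N = algebraMap K' Ω b)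
    (hα : α ≠ 0) (hsat : ∀ m : ℕ, 1 ≤ m → ∀ j : ℤ, α ^ m ≠ (algebraMap K' Ω b) ^ j)
    (hlogN : Real.log (3 * N) ≤ Z) {F : Type} [Field F] [Algebra F Ω] (hF : IsIntegral F α)
    (hFm : ∀ a : F, algebraMap F Ω a ∈ IntermediateField.adjoin K' ({ζ, y} : Set Ω))
    (hlogd : Real.log ((minpoly F α).natDegree) ≤ Z) :
    1 / (Z : ℝ) ^ A ≤ ((minpoly F α).natDegree : ℝ) * absLogHeight₁ α := by
  classical
  have hint : ∀ z : Ω, IsIntegral K' z := fun z =>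
    (Algebra.IsAlgebraic.isAlgebraic (R := K') z).isIntegral
  have hfin : FiniteDimensional K' (IntermediateField.adjoin K' ({ζ, y, α} : Set Ω)) := by
    apply IntermediateField.finiteDimensional_adjoin
    intro z _
    exact hint z
  have hclosure : IsAlgClosure K' Ω := ⟨inferInstance, inferInstance⟩
  have hnormal : Normal K' Ω := IsAlgClosure.normal K' Ω
  obtain ⟨L, hL⟩ : ∃ L : IntermediateField K' Ω,
    L = IntermediateField.normalClosure K' (IntermediateField.adjoin K' ({ζ, y, α} : Set Ω)) Ω :=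
    ⟨_, rfl⟩
  have hLfin : FiniteDimensional K' L := by rw [hL]; infer_instance
  have hLn : Normal K' L := by rw [hL]; infer_instance
  have hLG : IsGalois K' L := ⟨⟩
  have hLN : NumberField L := NumberField.of_module_finite K' L
  have hle : IntermediateField.adjoin K' ({ζ, y, α} : Set Ω) ≤ L := by
    rw [hL]
    exact IntermediateField.le_normalClosure _
  have hζL : ζ ∈ L := hle (IntermediateField.subset_adjoin _ _ (by simp))
  have hyL : y ∈ L := hle (IntermediateField.subset_adjoin _ _ (by simp))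
  have hαL : α ∈ L := hle (IntermediateField.subset_adjoin _ _ (by simp))
  obtain ⟨ζ', hζ'⟩ : ∃ ζ' : L, algebraMap L Ω ζ' = ζ := ⟨⟨ζ, hζL⟩, rfl⟩
  obtain ⟨y', hy'⟩ : ∃ y' : L, algebraMap L Ω y' = y := ⟨⟨y, hyL⟩, rfl⟩
  obtain ⟨α', hα'⟩ : ∃ α' : L, algebraMap L Ω α' = α := ⟨⟨α, hαL⟩, rfl⟩
  have hinj : Function.Injective (algebraMap L Ω) := (algebraMap L Ω).injective
  have hbL : ∀ c : K', algebraMap L Ω (algebraMap K' L c) = algebraMap K' Ω c := fun c =>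
    (IsScalarTower.algebraMap_apply K' L Ω c).symm
  have e1 : IsPrimitiveRoot ζ' N := by
    apply IsPrimitiveRoot.of_map_of_injective (f := algebraMap L Ω) _ hinj
    rw [hζ']; exact hζ
  have e2 : y' ^ N = algebraMap K' L b := by
    apply hinj
    rw [map_pow, hy', hbL, hy]
  have e3 : α' ≠ 0 := by
    intro h
    rw [h, map_zero] at hα'
    exact hα hα'.symm
  have e4 : ∀ m : ℕ, 1 ≤ m → ∀ j : ℤ, α' ^ m ≠ (algebraMap K' L b) ^ j := by
    intro m hm j h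
    apply hsat m hm j
    rw [← hα', ← map_pow, h, map_zpow₀, hbL]
  -- the degree
  obtain ⟨B, hB⟩ : ∃ B : IntermediateField K' L,
    B = IntermediateField.adjoin K' ({ζ', y'} : Set L) := ⟨_, rfl⟩
  have hdeg : (minpoly B α').natDegree ≤ (minpoly F α).natDegree := by
    have htower : IsScalarTower B L Ω := inferInstance
    have h1 : minpoly B (algebraMap L Ω α') = minpoly B α' := minpoly.algebraMap_eq hinj α'
    rw [← h1, hα']
    apply deg_le _ _ hF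
    intro a
    have hmem : ∀ z ∈ IntermediateField.adjoin K' ({ζ, y} : Set Ω),
        ∃ c : L, c ∈ B ∧ algebraMap L Ω c = z := by
      intro z hz
      refine IntermediateField.adjoin_induction K'
        (p := fun z _ => ∃ c : L, c ∈ B ∧ algebraMap L Ω c = z) ?_ ?_ ?_ ?_ ?_ hz
      · intro x hx
        rcases hx with h | h
        · rw [h]
          exact ⟨ζ', by rw [hB]; exact IntermediateField.subset_adjoin _ _ (by simp), hζ'⟩
        · rw [Set.mem_singleton_iff.1 h]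
          exact ⟨y', by rw [hB]; exact IntermediateField.subset_adjoin _ _ (by simp), hy'⟩
      · intro x
        exact ⟨algebraMap K' L x, B.algebraMap_mem x, hbL x⟩
      · rintro x₁ x₂ _ _ ⟨c₁, h₁, h₁'⟩ ⟨c₂, h₂, h₂'⟩
        exact ⟨c₁ + c₂, B.add_mem h₁ h₂, by rw [map_add, h₁', h₂']⟩
      · rintro x₁ _ ⟨c₁, h₁, h₁'⟩
        exact ⟨c₁⁻¹, B.inv_mem h₁, by rw [map_inv₀, h₁']⟩
      · rintro x₁ x₂ _ _ ⟨c₁, h₁, h₁'⟩ ⟨c₂, h₂, h₂'⟩
        exact ⟨c₁ * c₂, B.mul_mem h₁ h₂, by rw [map_mul, h₁', h₂']⟩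
    obtain ⟨c, hc, hc'⟩ := hmem _ (hFm a)
    refine ⟨⟨c, hc⟩, ?_⟩
    rw [IsScalarTower.algebraMap_apply B L Ω]
    exact hc'
  have hdpos : 1 ≤ (minpoly B α').natDegree :=
    minpoly.natDegree_pos (Algebra.IsIntegral.isIntegral α')
  have e5 : Real.log ((minpoly B α').natDegree) ≤ Z := by
    refine le_trans (Real.log_le_log (by exact_mod_cast hdpos) ?_) hlogd
    exact_mod_cast hdeg
  have hht : absLogHeight₁ α = absLogHeight₁ α' := by
    rw [← hα']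
    exact tr_height (algebraMap L Ω) α'
  have e6 := hcore L N ζ' y' α' hN e1 e2 e3 e4 hlogN (by rw [← hB]; exact e5)
  rw [← hB] at e6
  rw [hht]
  refine e6.trans ?_
  exact mul_le_mul_of_nonneg_right (by exact_mod_cast hdeg) (absHeight_nonneg α')

theorem final_rank_one {K : Type} [Field K] [NumberField K] {Ω : Type} [Field Ω] [CharZero Ω]
    [Algebra K Ω] [IsAlgClosed Ω] [Algebra.IsAlgebraic K Ω] (Λ : Subgroup Ωˣ) (hΛ : Λ.FG)
    (b : Ωˣ) (hb : b ∈ Λ) (hb' : ∀ n : ℕ, 1 ≤ n → b ^ n ≠ 1)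
    (hrk : ∀ γ ∈ Λ, ∃ m : ℕ, 1 ≤ m ∧ ∃ j : ℤ, γ ^ m = b ^ j) :
    ∃ (c : ℝ) (A : ℕ), 0 < c ∧ ∀ N : ℕ, 1 ≤ N → ∀ Γ : Subgroup Ωˣ, Λ ≤ Γ →
      (∀ γ ∈ Γ, γ ^ N ∈ Λ) → ∀ α : Ωˣ, (∀ n : ℕ, 1 ≤ n → α ^ n ∉ Γ) →
      c ≤ (minpoly (IntermediateField.adjoin K {y : Ω | ∃ γ ∈ Γ, y = (γ : Ω)})
            (α : Ω)).natDegree * absLogHeight₁ (α : Ω) *
          (Real.log (3 * N * (minpoly (IntermediateField.adjoin K
            {y : Ω | ∃ γ ∈ Γ, y = (γ : Ω)}) (α : Ω)).natDegree)) ^ A := by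
  classical
  obtain ⟨m, hm1, hmj⟩ := exp_bound Λ hΛ b hrk
  obtain ⟨K', hK'⟩ : ∃ K' : IntermediateField K Ω,
    K' = IntermediateField.adjoin K {(b : Ω)} := ⟨_, rfl⟩
  have hbint : IsIntegral K (b : Ω) := (Algebra.IsAlgebraic.isAlgebraic (R := K) (b : Ω)).isIntegral
  have hK'fin : FiniteDimensional K K' := by
    rw [hK']
    exact IntermediateField.adjoin.finiteDimensional hbint
  have hK'N : NumberField K' := NumberField.of_module_finite K K'
  have hK'A : Algebra.IsAlgebraic K' Ω := Algebra.IsAlgebraic.tower_top (K := K) K'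
  have hbK' : (b : Ω) ∈ K' := by
    rw [hK']
    exact IntermediateField.mem_adjoin_simple_self K (b : Ω)
  obtain ⟨β, hβ⟩ : ∃ β : K', algebraMap K' Ω β = (b : Ω) := ⟨⟨b, hbK'⟩, rfl⟩
  have hβ0 : β ≠ 0 := by
    intro h
    rw [h, map_zero] at hβ
    exact b.ne_zero hβ.symm
  have hβ1 : ∀ n : ℕ, 1 ≤ n → β ^ n ≠ 1 := by
    intro n hn h
    apply hb' n hn
    apply Units.ext
    rw [Units.val_pow_eq_pow_val, ← hβ, ← map_pow, h, map_one, Units.val_one]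
  obtain ⟨Z₀, hZ₀⟩ := core_main K' β hβ0 hβ1
  obtain ⟨A, hA⟩ : ∃ A, A = 90 * finrank ℚ K' + 20 := ⟨_, rfl⟩
  rw [← hA] at hZ₀
  have hmR : (1 : ℝ) ≤ m := by exact_mod_cast hm1
  have hlogm : 0 ≤ Real.log m := Real.log_nonneg hmR
  obtain ⟨C, hC⟩ : ∃ C : ℝ, C = Z₀ + Real.log m + 3 := ⟨_, rfl⟩
  have hCpos : 0 < C := by
    rw [hC]
    have : (0 : ℝ) ≤ Z₀ := Nat.cast_nonneg _
    linarith
  refine ⟨1 / C ^ A, A, by positivity, ?_⟩
  intro N hN Γ hΛΓ hΓ α hα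
  obtain ⟨F, hF⟩ : ∃ F : IntermediateField K Ω,
    F = IntermediateField.adjoin K {y : Ω | ∃ γ ∈ Γ, y = (γ : Ω)} := ⟨_, rfl⟩
  rw [← hF]
  have hFint : IsIntegral F (α : Ω) :=
    ((Algebra.IsAlgebraic.isAlgebraic (R := K) (α : Ω)).isIntegral).tower_top
  obtain ⟨D, hD⟩ : ∃ D, D = (minpoly F (α : Ω)).natDegree := ⟨_, rfl⟩
  have hD1 : 1 ≤ D := by rw [hD]; exact minpoly.natDegree_pos hFint
  have hDR : (1 : ℝ) ≤ D := by exact_mod_cast hD1
  have hNR : (1 : ℝ) ≤ N := by exact_mod_cast hN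
  obtain ⟨ℓ, hℓ⟩ : ∃ ℓ : ℝ, ℓ = Real.log (3 * N * D) := ⟨_, rfl⟩
  have h3ND : (3 : ℝ) ≤ 3 * N * D := by nlinarith
  have hℓ1 : 1 ≤ ℓ := by
    rw [hℓ, Real.le_log_iff_exp_le (by linarith)]
    have := Real.exp_one_lt_d9
    linarith
  -- the root of unity and the root of b
  have hNm : 1 ≤ N * m := Nat.mul_pos hN hm1
  haveI : NeZero (N * m) := ⟨by omega⟩
  haveI : NeZero ((N * m : ℕ) : Ω) := ⟨by exact_mod_cast (by omega : N * m ≠ 0)⟩
  obtain ⟨ζ, hζ⟩ := HasEnoughRootsOfUnity.exists_primitiveRoot Ω (N * m)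
  obtain ⟨y, hy⟩ := IsAlgClosed.exists_pow_nat_eq (b : Ω) (n := N * m) (by omega)
  have hy0 : y ≠ 0 := by
    rintro rfl
    rw [zero_pow (by omega)] at hy
    exact b.ne_zero hy.symm
  obtain ⟨Z, hZ⟩ : ∃ Z : ℕ, Z = Z₀ + ⌈ℓ⌉₊ + ⌈Real.log m⌉₊ := ⟨_, rfl⟩
  have hZR : (Z : ℝ) = Z₀ + (⌈ℓ⌉₊ : ℝ) + (⌈Real.log m⌉₊ : ℝ) := by rw [hZ]; push_cast; ring
  have hc1 : ℓ ≤ (⌈ℓ⌉₊ : ℝ) := Nat.le_ceil _
  have hc2 : Real.log m ≤ (⌈Real.log m⌉₊ : ℝ) := Nat.le_ceil _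
  have hc3 : (⌈ℓ⌉₊ : ℝ) < ℓ + 1 := Nat.ceil_lt_add_one (by linarith)
  have hc4 : (⌈Real.log m⌉₊ : ℝ) < Real.log m + 1 := Nat.ceil_lt_add_one hlogm
  have hZ₀0 : (0 : ℝ) ≤ Z₀ := Nat.cast_nonneg _
  have hlogN : Real.log (3 * ((N * m : ℕ) : ℝ)) ≤ Z := by
    have h1 : Real.log (3 * ((N * m : ℕ) : ℝ)) = Real.log (3 * N) + Real.log m := by
      push_cast
      rw [← mul_assoc, Real.log_mul (by positivity) (by positivity)]
    have h2 : Real.log (3 * N) ≤ ℓ := by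
      rw [hℓ]
      apply Real.log_le_log (by positivity)
      have : 3 * (N : ℝ) * 1 ≤ 3 * N * D := mul_le_mul_of_nonneg_left hDR (by positivity)
      linarith
    rw [h1, hZR]
    linarith
  have hlogD : Real.log ((minpoly F (α : Ω)).natDegree) ≤ Z := by
    rw [← hD, hZR]
    have h2 : Real.log D ≤ ℓ := by
      rw [hℓ]
      apply Real.log_le_log (by positivity)
      have : 1 * (D : ℝ) ≤ (3 * N) * D := mul_le_mul_of_nonneg_right (by linarith) (by positivity)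
      linarith
    linarith
  have hZC : (Z : ℝ) ≤ C * ℓ := by
    rw [hZR, hC]
    have : (Z₀ : ℝ) * 1 ≤ Z₀ * ℓ := mul_le_mul_of_nonneg_left hℓ1 hZ₀0
    have : Real.log m * 1 ≤ Real.log m * ℓ := mul_le_mul_of_nonneg_left hℓ1 hlogm
    nlinarith
  have hZpos : (0 : ℝ) < Z := by rw [hZR]; linarith
  -- saturation
  have hsat : ∀ i : ℕ, 1 ≤ i → ∀ j : ℤ, (α : Ω) ^ i ≠ (algebraMap K' Ω β) ^ j := by
    intro i hi j h
    rw [hβ] at h
    apply hα i hi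
    have h1 : α ^ i = b ^ j := by
      apply Units.ext
      rw [Units.val_pow_eq_pow_val, Units.val_zpow_eq_zpow_val]
      exact h
    rw [h1]
    exact hΛΓ (Subgroup.zpow_mem _ hb j)
  -- the field F lies in K'(ζ, y)
  have hFm : ∀ a : F, algebraMap F Ω a ∈ IntermediateField.adjoin K' ({ζ, y} : Set Ω) := by
    intro a
    have hζm : ζ ∈ IntermediateField.adjoin K' ({ζ, y} : Set Ω) :=
      IntermediateField.subset_adjoin _ _ (by simp)
    have hym : y ∈ IntermediateField.adjoin K' ({ζ, y} : Set Ω) :=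
      IntermediateField.subset_adjoin _ _ (by simp)
    have ha : (a : Ω) ∈ IntermediateField.adjoin K {y : Ω | ∃ γ ∈ Γ, y = (γ : Ω)} := by
      rw [← hF]; exact a.2
    refine IntermediateField.adjoin_induction K
      (p := fun z _ => z ∈ IntermediateField.adjoin K' ({ζ, y} : Set Ω)) ?_ ?_ ?_ ?_ ?_ ha
    · rintro x ⟨γ, hγ, rfl⟩
      obtain ⟨j, hj⟩ := hmj _ (hΓ γ hγ)
      have h1 : ((γ : Ω) * (y ^ j)⁻¹) ^ (N * m) = 1 := by
        have h2 : (γ : Ω) ^ (N * m) = (b : Ω) ^ j := by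
          rw [pow_mul, ← Units.val_pow_eq_pow_val, ← Units.val_pow_eq_pow_val, hj,
            Units.val_zpow_eq_zpow_val]
        rw [mul_pow, h2, inv_pow, ← zpow_natCast (y ^ j), ← zpow_mul, mul_comm j, zpow_mul,
          zpow_natCast, hy]
        exact mul_inv_cancel₀ (zpow_ne_zero _ b.ne_zero)
      obtain ⟨i, _, hi⟩ := hζ.eq_pow_of_pow_eq_one h1
      have h3 : (γ : Ω) = ζ ^ i * y ^ j := by
        rw [hi, mul_assoc, inv_mul_cancel₀ (zpow_ne_zero _ hy0), mul_one]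
      show (γ : Ω) ∈ _
      rw [h3]
      exact mul_mem (pow_mem hζm i) (zpow_mem hym j)
    · intro x
      rw [IsScalarTower.algebraMap_apply K K' Ω]
      exact IntermediateField.algebraMap_mem _ _
    · intro x₁ x₂ _ _ h₁ h₂
      exact add_mem h₁ h₂
    · intro x₁ _ h₁
      exact inv_mem h₁
    · intro x₁ x₂ _ _ h₁ h₂
      exact mul_mem h₁ h₂
  have hmain := tr_aux (Ω := Ω) β Z A (fun L _ _ _ _ => hZ₀ Z (by omega) L) (N * m) hNm ζ y
    (α : Ω) hζ (by rw [hβ]; exact hy) α.ne_zero hsat hlogN hFint hFm hlogD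
  rw [← hD] at hmain ⊢
  rw [← hℓ]
  have hpos : 0 < ℓ ^ A := by positivity
  calc 1 / C ^ A = 1 / (C * ℓ) ^ A * ℓ ^ A := by
        rw [mul_pow]
        field_simp
    _ ≤ 1 / (Z : ℝ) ^ A * ℓ ^ A := by
        gcongr
    _ ≤ (D : ℝ) * absLogHeight₁ (α : Ω) * ℓ ^ A := by gcongr

end Pool.Agent.H72.PL
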