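import Pool.Agent.H72.PL.BoxE

/-!
# Module BoxA: coefficients and evaluation of bivariate polynomials (paper proof: proposal 65)

`dY G = natDegree (swap G)` is the maximum of the `natDegree (G.coeff b)`: the coefficient of `Y^a X^b`
of `swap G` is `((swap G).coeff a).coeff b = (G.coeff b).coeff a` (`coeff_swap`, check on monomials with
`Bivariate.swap_monomial_monomial` and additivity, e.g. `Polynomial.induction_on'` twice).
Hence `dY_le`: `dY G ≤ M ↔ ∀ b, (G.coeff b).natDegree ≤ M` and `mem_box`.
* `ev_eq`: `ev` is `Polynomial.aevalAeval`, i.e. `evalEval` after mapping: `ev y x G =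
  ∑_b aeval y (G.coeff b) x^b` (`Polynomial.eval₂_eq_sum_range'`, `aeval_eq_sum_range'`).
* `ev_box`: `ev y x G = ∑_{a ≤ M, b ≤ W} (coefficient) y^a x^b`, i.e. `dot (jrow M W y x 0 0)` of the
  coefficient vector. (`jrow .. 0 0` at `(a, b)` is `1 * 1 * y^(a-0) x^(b-0)`.)
The statements on `ex`, `tw`, `mp` are in module BoxE (imported).
-/

set_option autoImplicit false

open Polynomial Module

namespace Pool.Agent.H72.PL

section ring
variable {k : Type} [CommRing k]

theorem coeff_swap (G : BP k) (a b : ℕ) :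
    ((Polynomial.Bivariate.swap G).coeff a).coeff b = (G.coeff b).coeff a := by
  induction G using Polynomial.induction_on' with
  | add p q hp hq => rw [map_add, coeff_add, coeff_add, coeff_add, coeff_add, hp, hq]
  | monomial n f =>
    induction f using Polynomial.induction_on' with
    | add p q hp hq =>
      rw [map_add (monomial n), map_add, coeff_add, coeff_add, coeff_add, coeff_add, hp, hq]
    | monomial m r =>
      rw [Polynomial.Bivariate.swap_monomial_monomial, coeff_monomial, coeff_monomial]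
      split_ifs with h1 h2 h2
      · rw [coeff_monomial, coeff_monomial, if_pos h2, if_pos h1]
      · rw [coeff_monomial, if_neg h2, coeff_zero]
      · rw [coeff_monomial, if_neg h1, coeff_zero]
      · rfl

theorem dY_le (G : BP k) (M : ℕ) : dY G ≤ M ↔ ∀ b, (G.coeff b).natDegree ≤ M := by
  unfold dY
  rw [natDegree_le_iff_coeff_eq_zero]
  constructor
  · intro h b
    rw [natDegree_le_iff_coeff_eq_zero]
    intro a ha
    rw [← coeff_swap, h a ha, coeff_zero]
  · intro h a ha
    ext b
    rw [coeff_swap, coeff_zero]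
    exact (natDegree_le_iff_coeff_eq_zero.1 (h b)) a ha

theorem mem_box (G : BP k) (M W : ℕ) : G ∈ Box k M W ↔ dY G ≤ M ∧ dX G ≤ W := by
  rw [dY_le]
  unfold dX
  rw [natDegree_le_iff_coeff_eq_zero]
  constructor
  · intro h
    refine ⟨fun b => natDegree_le_iff_coeff_eq_zero.2 fun a ha => h a b (Or.inl ha),
      fun b hb => ?_⟩
    ext a
    rw [coeff_zero]
    exact h a b (Or.inr hb)
  · rintro ⟨h1, h2⟩ a b (h | h)
    · exact natDegree_le_iff_coeff_eq_zero.1 (h1 b) a h
    · rw [h2 b h, coeff_zero]

/-- `ev` as an iterated sum -/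
theorem ev_eq {L : Type} [CommRing L] [Algebra k L] (y x : L) (G : BP k) (W : ℕ)
    (hW : dX G ≤ W) :
    ev k y x G = ∑ b ∈ Finset.range (W + 1), aeval y (G.coeff b) * x ^ b := by
  have h1 := Polynomial.as_sum_range_C_mul_X_pow' G (Nat.lt_succ_of_le hW)
  have h2 : ev k y x G = ev k y x (∑ i ∈ Finset.range (W + 1), C (G.coeff i) * X ^ i) :=
    congrArg _ h1
  rw [h2, map_sum]
  refine Finset.sum_congr rfl fun b _ => ?_
  rw [map_mul, map_pow]
  congr 1
  · exact Polynomial.aevalAeval_C y x _
  · congr 1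
    exact Polynomial.aevalAeval_Y y x

theorem ev_box {L : Type} [Field L] [Algebra k L] (y x : L) (M W : ℕ) (G : BP k)
    (hG : G ∈ Box k M W) :
    ev k y x G = dot (jrow M W y x 0 0) (fun j => algebraMap k L ((G.coeff j.2).coeff j.1)) := by
  obtain ⟨h1, h2⟩ := (mem_box G M W).1 hG
  rw [ev_eq y x G W h2]
  unfold dot
  rw [Fintype.sum_prod_type_right]
  rw [← Fin.sum_univ_eq_sum_range (fun b => aeval y (G.coeff b) * x ^ b) (W + 1)]
  refine Finset.sum_congr rfl fun b _ => ?_
  have h3 : (G.coeff b).natDegree < M + 1 := Nat.lt_succ_of_le ((dY_le G M).1 h1 b)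
  rw [aeval_eq_sum_range' h3, Finset.sum_mul,
    ← Fin.sum_univ_eq_sum_range (fun a => (G.coeff b).coeff a • y ^ a * x ^ (b : ℕ)) (M + 1)]
  refine Finset.sum_congr rfl fun a _ => ?_
  unfold jrow
  simp only [Nat.choose_zero_right, Nat.cast_one, one_mul, Nat.sub_zero]
  rw [Algebra.smul_def]
  ring

end ring

end Pool.Agent.H72.PL
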