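import Pool.Agent.H72.PL.BoxD

/-!
# Module BoxB: the box over a field (paper proof: proposal 65)

* `boxEquiv`: the coefficients give a linear isomorphism `Box k M W ≃ (Fin (M+1) × Fin (W+1) → k)`
  (inverse: `∑ monomial b (monomial a c)`), so `finrank = (M+1)(W+1)`.
* Imported statements (BoxA) may be used as given.
-/

set_option autoImplicit false

open Polynomial Module

namespace Pool.Agent.H72.PL

section field
variable {k : Type} [Field k]

theorem coeff_boxsum {M W : ℕ} (c : Fin (M + 1) × Fin (W + 1) → k) (a b : ℕ) :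
    ((∑ j : Fin (M + 1) × Fin (W + 1), monomial (j.2 : ℕ) (monomial (j.1 : ℕ) (c j)) : BP k).coeff
      b).coeff a = if h : a < M + 1 ∧ b < W + 1 then c (⟨a, h.1⟩, ⟨b, h.2⟩) else 0 := by
  rw [finsetSum_coeff, finsetSum_coeff]
  have h1 : ∀ j : Fin (M + 1) × Fin (W + 1),
      ((monomial (j.2 : ℕ) (monomial (j.1 : ℕ) (c j)) : BP k).coeff b).coeff a =
        if (j.1 : ℕ) = a ∧ (j.2 : ℕ) = b then c j else 0 := by
    intro j
    rw [coeff_monomial]
    by_cases hb : (j.2 : ℕ) = b
    · rw [if_pos hb, coeff_monomial]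
      by_cases ha : (j.1 : ℕ) = a
      · rw [if_pos ha, if_pos ⟨ha, hb⟩]
      · rw [if_neg ha, if_neg (fun h => ha h.1)]
    · rw [if_neg hb, coeff_zero, if_neg (fun h => hb h.2)]
  rw [Finset.sum_congr rfl fun j _ => h1 j]
  split_ifs with h
  · rw [Finset.sum_eq_single (⟨a, h.1⟩, ⟨b, h.2⟩)]
    · rw [if_pos ⟨rfl, rfl⟩]
    · intro j _ hj
      rw [if_neg]
      rintro ⟨h2, h3⟩
      exact hj (Prod.ext (Fin.ext h2) (Fin.ext h3))
    · intro h2
      exact absurd (Finset.mem_univ _) h2
  · refine Finset.sum_eq_zero fun j _ => if_neg ?_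
    rintro ⟨h2, h3⟩
    exact h ⟨h2 ▸ j.1.2, h3 ▸ j.2.2⟩

/-- the coefficients identify the box with a space of functions -/
noncomputable def boxEquiv (k : Type) [Field k] (M W : ℕ) :
    ↥(Box k M W) ≃ₗ[k] (Fin (M + 1) × Fin (W + 1) → k) where
  toFun G := fun j => ((G : BP k).coeff j.2).coeff j.1
  invFun c := ⟨∑ j : Fin (M + 1) × Fin (W + 1), monomial (j.2 : ℕ) (monomial (j.1 : ℕ) (c j)), by
    intro a b hab
    rw [coeff_boxsum, dif_neg]
    omega⟩
  map_add' := by
    intro G H
    funext j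
    simp
  map_smul' := by
    intro c G
    funext j
    simp
  left_inv := by
    intro G
    apply Subtype.ext
    ext b a
    rw [coeff_boxsum]
    split_ifs with h
    · rfl
    · exact (G.2 a b (by omega)).symm
  right_inv := by
    intro c
    funext j
    change ((∑ j : Fin (M + 1) × Fin (W + 1),
      monomial (j.2 : ℕ) (monomial (j.1 : ℕ) (c j)) : BP k).coeff j.2).coeff j.1 = c j
    rw [coeff_boxsum, dif_pos ⟨j.1.2, j.2.2⟩]

theorem boxEquiv_apply (M W : ℕ) (G : ↥(Box k M W)) (j : Fin (M + 1) × Fin (W + 1)) :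
    boxEquiv k M W G j = ((G : BP k).coeff j.2).coeff j.1 := rfl

theorem finrank_box (M W : ℕ) : finrank k ↥(Box k M W) = (M + 1) * (W + 1) := by
  rw [LinearEquiv.finrank_eq (boxEquiv k M W), Module.finrank_fintype_fun_eq_card,
    Fintype.card_prod, Fintype.card_fin, Fintype.card_fin]

instance finite_box (M W : ℕ) : FiniteDimensional k ↥(Box k M W) := by
  exact Module.Finite.equiv (boxEquiv k M W).symm

theorem box_mono {M W M' W' : ℕ} (hM : M ≤ M') (hW : W ≤ W') : Box k M W ≤ Box k M' W' := by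
  intro G hG a b hab
  exact hG a b (by omega)

end field

end Pool.Agent.H72.PL
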