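import Pool.Agent.H72.PL.BoxA

/-!
# Module BoxC: compositions of substitutions (paper proof: proposal 65)

All identities can be checked on the coefficients: `Polynomial.ext` twice and `coeff_ex`, `coeff_tw`,
`coeff_mp` of module BoxA; or as equalities of ring homomorphisms on the generators.
`tw_ex`: `(tw ξ (ex q G))` has coefficient `ξ.1^a ξ.2^b` times the coefficient of `ex q G`, which is zero
unless `q ∣ a`, `q ∣ b`; for `q = 0` check directly (`ex 0 G` is a constant, `coeff_ex` needs `1 ≤ q`;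
`expand_zero`).
-/

set_option autoImplicit false

open Polynomial Module

namespace Pool.Agent.H72.PL

section maps
variable {k k' k'' : Type} [CommRing k] [CommRing k'] [CommRing k'']

theorem eval_map_one {R S : Type} [CommRing R] [CommRing S] (φ : R →+* S) (p : R[X]) :
    eval 1 (p.map φ) = φ (eval 1 p) := by
  have h := Polynomial.eval_map_apply (f := φ) (p := p) (x := 1)
  rwa [map_one] at h

theorem ex_zero_eq (G : BP k) : ex 0 G = C (C (eval 1 (eval 1 G))) := by
  unfold ex
  have h1 : (Polynomial.expand (Polynomial k) 0).toRingHom.comp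
      (Polynomial.mapRingHom (Polynomial.expand k 0).toRingHom) G =
      Polynomial.expand (Polynomial k) 0 (G.map (Polynomial.expand k 0).toRingHom) := rfl
  rw [h1, expand_zero, eval_map_one]
  have h2 : (Polynomial.expand k 0).toRingHom (eval 1 G) = Polynomial.expand k 0 (eval 1 G) := rfl
  rw [h2, expand_zero]

theorem mp_mp (φ : k →+* k') (ψ : k' →+* k'') (G : BP k) : mp ψ (mp φ G) = mp (ψ.comp φ) G := by
  ext b a
  simp only [coeff_mp, RingHom.comp_apply]

theorem mp_id (G : BP k) : mp (RingHom.id k) G = G := by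
  ext b a
  simp only [coeff_mp, RingHom.id_apply]

theorem mp_ex (φ : k →+* k') (q : ℕ) (G : BP k) : mp φ (ex q G) = ex q (mp φ G) := by
  rcases Nat.eq_zero_or_pos q with rfl | hq
  · rw [ex_zero_eq, ex_zero_eq]
    unfold mp
    simp only [coe_mapRingHom, map_C, C_inj]
    rw [eval_map_one, coe_mapRingHom, eval_map_one]
  · ext b a
    rw [coeff_mp, coeff_ex q hq, coeff_ex q hq]
    split_ifs
    · rw [coeff_mp]
    · exact map_zero φ

theorem mp_tw (φ : k →+* k') (ξ : k × k) (G : BP k) :
    mp φ (tw ξ G) = tw (φ ξ.1, φ ξ.2) (mp φ G) := by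
  ext b a
  rw [coeff_mp, coeff_tw, coeff_tw, coeff_mp, map_mul, map_mul, map_pow, map_pow]

theorem mp_bin (φ : k →+* k') (u : ℤ) (v : ℕ) (ρ : k) : mp φ (bin u v ρ) = bin u v (φ ρ) := by
  unfold mp bin
  simp

theorem tw_tw (ξ η : k × k) (G : BP k) : tw ξ (tw η G) = tw (ξ * η) G := by
  ext b a
  rw [coeff_tw, coeff_tw, coeff_tw, Prod.fst_mul, Prod.snd_mul, mul_pow, mul_pow]
  ring

theorem tw_one (G : BP k) : tw (1 : k × k) G = G := by
  ext b a
  rw [coeff_tw, Prod.fst_one, Prod.snd_one, one_pow, one_pow, one_mul, one_mul]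

theorem tw_ex (ξ : k × k) (q : ℕ) (h1 : ξ.1 ^ q = 1) (h2 : ξ.2 ^ q = 1) (G : BP k) :
    tw ξ (ex q G) = ex q G := by
  rcases Nat.eq_zero_or_pos q with rfl | hq
  · rw [ex_zero_eq]
    ext b a
    rw [coeff_tw, coeff_C]
    split_ifs with hb
    · subst hb
      rw [coeff_C]
      split_ifs with ha
      · subst ha
        rw [pow_zero, pow_zero, one_mul, one_mul]
      · rw [mul_zero]
    · rw [coeff_zero, mul_zero]
  · ext b a
    rw [coeff_tw, coeff_ex q hq]
    split_ifs with h
    · obtain ⟨⟨c, rfl⟩, ⟨d, rfl⟩⟩ := h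
      rw [pow_mul, pow_mul, h1, h2, one_pow, one_pow, one_mul, one_mul]
    · rw [mul_zero]

end maps

end Pool.Agent.H72.PL
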