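import Pool.Agent.H72.PL.BoxA

/-!
# Module BoxD: degrees of products and substitutions (paper proof: proposal 65)

* `dX_mul`, `dY_mul`: `BP k` is a domain, `swap` a ring isomorphism (`natDegree_mul`).
* `dX_ex`, `dY_ex`: `coeff_ex` or `natDegree_expand`; for `dY` use `dY_le` (and `coeff_ex`), or
  `swap (ex q G) = ex q (swap G)`.
* Imported statements (BoxA, BoxE) may be used as given.
-/

set_option autoImplicit false

open Polynomial Module

namespace Pool.Agent.H72.PL

variable {k : Type} [Field k]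

theorem swap_ne {G : BP k} (hG : G ≠ 0) : Polynomial.Bivariate.swap G ≠ 0 :=
  fun h => hG (by
    have h1 := congrArg Polynomial.Bivariate.swap h
    rwa [Polynomial.Bivariate.swap_swap_apply, map_zero] at h1)

theorem dX_mul (G H : BP k) (hG : G ≠ 0) (hH : H ≠ 0) : dX (G * H) = dX G + dX H := by
  exact natDegree_mul hG hH

theorem dY_mul (G H : BP k) (hG : G ≠ 0) (hH : H ≠ 0) : dY (G * H) = dY G + dY H := by
  unfold dY
  rw [map_mul, natDegree_mul (swap_ne hG) (swap_ne hH)]

theorem dX_le_of_dvd (G H : BP k) (hH : H ≠ 0) (h : G ∣ H) : dX G ≤ dX H := by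
  exact natDegree_le_of_dvd h hH

theorem dY_le_of_dvd (G H : BP k) (hH : H ≠ 0) (h : G ∣ H) : dY G ≤ dY H := by
  obtain ⟨c, rfl⟩ := h
  rw [dY_mul G c (left_ne_zero_of_mul hH) (right_ne_zero_of_mul hH)]
  exact Nat.le_add_right _ _

theorem dX_assoc (G H : BP k) (h : Associated G H) : dX G = dX H := by
  by_cases hG : G = 0
  · subst hG
    rw [(associated_zero_iff_eq_zero H).1 h.symm]
  · have hH : H ≠ 0 := fun h0 => hG (by
      rw [h0] at h
      exact (associated_zero_iff_eq_zero G).1 h)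
    exact le_antisymm (dX_le_of_dvd G H hH h.dvd) (dX_le_of_dvd H G hG h.symm.dvd)

theorem dY_assoc (G H : BP k) (h : Associated G H) : dY G = dY H := by
  by_cases hG : G = 0
  · subst hG
    rw [(associated_zero_iff_eq_zero H).1 h.symm]
  · have hH : H ≠ 0 := fun h0 => hG (by
      rw [h0] at h
      exact (associated_zero_iff_eq_zero G).1 h)
    exact le_antisymm (dY_le_of_dvd G H hH h.dvd) (dY_le_of_dvd H G hG h.symm.dvd)

theorem dX_ex (q : ℕ) (hq : 1 ≤ q) (G : BP k) : dX (ex q G) = q * dX G := by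
  unfold dX ex
  have h1 : (Polynomial.expand (Polynomial k) q).toRingHom.comp
      (Polynomial.mapRingHom (Polynomial.expand k q).toRingHom) G =
      Polynomial.expand (Polynomial k) q (G.map (Polynomial.expand k q).toRingHom) := rfl
  rw [h1, natDegree_expand, natDegree_map_eq_of_injective (expand_injective hq), mul_comm]

theorem dY_ex (q : ℕ) (hq : 1 ≤ q) (G : BP k) : dY (ex q G) = q * dY G := by
  have h1 : Polynomial.Bivariate.swap (ex q G) = ex q (Polynomial.Bivariate.swap G) := by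
    ext a b
    rw [coeff_swap, coeff_ex q hq, coeff_ex q hq]
    by_cases h : q ∣ a ∧ q ∣ b
    · rw [if_pos h, if_pos ⟨h.2, h.1⟩, coeff_swap]
    · rw [if_neg h, if_neg (fun h' => h ⟨h'.2, h'.1⟩)]
  unfold dY
  rw [h1]
  exact dX_ex q hq _

theorem ex_ne_zero (q : ℕ) (hq : 1 ≤ q) (G : BP k) (hG : G ≠ 0) : ex q G ≠ 0 := by
  intro h0
  apply hG
  ext b a
  have h1 : ((ex q G).coeff (q * b)).coeff (q * a) = (G.coeff b).coeff a := by
    rw [coeff_ex q hq, if_pos ⟨Dvd.intro _ rfl, Dvd.intro _ rfl⟩, Nat.mul_div_cancel_left _ hq,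
      Nat.mul_div_cancel_left _ hq]
  rw [← h1, h0, coeff_zero, coeff_zero, coeff_zero, coeff_zero]

theorem dX_mp {k' : Type} [Field k'] (φ : k →+* k') (G : BP k) : dX (mp φ G) = dX G := by
  unfold dX mp
  exact natDegree_map_eq_of_injective (Polynomial.map_injective φ φ.injective) G

theorem dY_mp {k' : Type} [Field k'] (φ : k →+* k') (G : BP k) : dY (mp φ G) = dY G := by
  have h1 : Polynomial.Bivariate.swap (mp φ G) = mp φ (Polynomial.Bivariate.swap G) := by
    ext a b
    rw [coeff_swap, coeff_mp, coeff_mp, coeff_swap]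
  unfold dY
  rw [h1]
  exact dX_mp φ _

theorem mp_ne_zero {k' : Type} [Field k'] (φ : k →+* k') (G : BP k) (hG : G ≠ 0) :
    mp φ G ≠ 0 := by
  intro h0
  apply hG
  ext b a
  have h1 := coeff_mp φ G a b
  rw [h0, coeff_zero, coeff_zero] at h1
  rw [coeff_zero, coeff_zero]
  exact (map_eq_zero φ).1 h1.symm

end Pool.Agent.H72.PL
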