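import Pool.Agent.H72.PL.Defs

/-!
# Module BoxE: evaluation and coefficients of the substitutions (paper proof: proposal 65)

* `ev_mp`, `ev_ex`, `ev_tw`: both sides are ring homomorphisms in `G`; compare on constants, `C X`
  (inner variable) and `X` (outer variable).
* `coeff_ex`, `coeff_tw`, `coeff_mp`: on monomials, or `coeff_expand`, `coeff_map`, `comp_C_mul_X_coeff`.
-/

set_option autoImplicit false

open Polynomial Module

namespace Pool.Agent.H72.PL

variable {k : Type} [CommRing k]

/-- evaluation and a ring homomorphism `σ` which maps `k` to `k'` by `φ` -/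
theorem ev_mp {k' L L' : Type} [CommRing k'] [CommRing L] [Algebra k L] [CommRing L']
    [Algebra k' L'] (φ : k →+* k') (σ : L →+* L')
    (h : ∀ c, σ (algebraMap k L c) = algebraMap k' L' (φ c)) (y x : L) (G : BP k) :
    σ (ev k y x G) = ev k' (σ y) (σ x) (mp φ G) := by
  have h1 : σ.comp (ev k y x : BP k →ₐ[k] L).toRingHom =
      (ev k' (σ y) (σ x) : BP k' →ₐ[k'] L').toRingHom.comp (mp φ) := by
    refine Polynomial.ringHom_ext' (Polynomial.ringHom_ext' ?_ ?_) ?_
    · ext c
      simp [mp, h]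
    · simp [mp]
    · simp [mp]
  exact RingHom.congr_fun h1 G

theorem ev_ex {L : Type} [CommRing L] [Algebra k L] (q : ℕ) (y x : L) (G : BP k) :
    ev k y x (ex q G) = ev k (y ^ q) (x ^ q) G := by
  have h1 : (ev k y x : BP k →ₐ[k] L).toRingHom.comp (ex q) =
      (ev k (y ^ q) (x ^ q) : BP k →ₐ[k] L).toRingHom := by
    refine Polynomial.ringHom_ext' (Polynomial.ringHom_ext' ?_ ?_) ?_
    · ext c
      simp [ex]
    · simp [ex]
    · simp [ex]
  exact RingHom.congr_fun h1 G

theorem ev_tw {L : Type} [CommRing L] [Algebra k L] (ξ : k × k) (y x : L) (G : BP k) :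
    ev k y x (tw ξ G) = ev k (algebraMap k L ξ.1 * y) (algebraMap k L ξ.2 * x) G := by
  have h1 : (ev k y x : BP k →ₐ[k] L).toRingHom.comp (tw ξ) =
      (ev k (algebraMap k L ξ.1 * y) (algebraMap k L ξ.2 * x) : BP k →ₐ[k] L).toRingHom := by
    refine Polynomial.ringHom_ext' (Polynomial.ringHom_ext' ?_ ?_) ?_
    · ext c
      simp [tw]
    · simp [tw]
    · simp [tw]
  exact RingHom.congr_fun h1 G

theorem coeff_ex (q : ℕ) (hq : 1 ≤ q) (G : BP k) (a b : ℕ) :
    ((ex q G).coeff b).coeff a = if q ∣ a ∧ q ∣ b then (G.coeff (b / q)).coeff (a / q) else 0 := by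
  unfold ex
  rw [RingHom.comp_apply]
  show ((Polynomial.expand (Polynomial k) q
    (Polynomial.mapRingHom (Polynomial.expand k q).toRingHom G)).coeff b).coeff a = _
  rw [coeff_expand (by omega)]
  by_cases hb : q ∣ b
  · rw [if_pos hb, coe_mapRingHom, coeff_map]
    show (Polynomial.expand k q (G.coeff (b / q))).coeff a = _
    rw [coeff_expand (by omega)]
    by_cases ha : q ∣ a
    · rw [if_pos ha, if_pos ⟨ha, hb⟩]
    · rw [if_neg ha, if_neg (fun h => ha h.1)]
  · rw [if_neg hb, if_neg (fun h => hb h.2), coeff_zero]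

theorem coeff_tw (ξ : k × k) (G : BP k) (a b : ℕ) :
    ((tw ξ G).coeff b).coeff a = ξ.1 ^ a * ξ.2 ^ b * (G.coeff b).coeff a := by
  unfold tw
  rw [RingHom.comp_apply, coe_compRingHom_apply, comp_C_mul_X_coeff, coe_mapRingHom, coeff_map,
    coe_compRingHom_apply, ← C_pow, coeff_mul_C, comp_C_mul_X_coeff]
  ring

theorem coeff_mp {k' : Type} [CommRing k'] (φ : k →+* k') (G : BP k) (a b : ℕ) :
    ((mp φ G).coeff b).coeff a = φ ((G.coeff b).coeff a) := by
  unfold mp
  rw [coe_mapRingHom, coeff_map, coe_mapRingHom, coeff_map]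

end Pool.Agent.H72.PL
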