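import Pool.Agent.H72.PL.Doubling

/-!
# Module Drop: degrees of powers (paper proof: proposal 65, section 8)

`L/K` finite Galois, `E` an intermediate field, `α ∈ L*`, `O = {σ α : σ ∈ E.fixingSubgroup}` (the roots
of `minpoly E α`, `#O = d = natDegree (minpoly E α)`, see also module Orb). Relation: `rel m x y` iff
`x^m = y^m` for nonzero `x, y` (to have an equivalence relation on all of `L` take `rel m x y := x^m = y^m`
with `m ≥ 1`; for `m = 0` it is `True`-like, `x^0 = y^0`, also an equivalence relation).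
* monotone: `x^m = y^m ⟹ x^(m m') = y^(m m')`.
* coprime: `x^m = y^m`, `x^m' = y^m'`, `x, y ≠ 0` ⟹ `(x/y)^m = (x/y)^m' = 1` ⟹ `x = y`.
* homogeneous: `σ ∈ E.fixingSubgroup` permutes `O` and preserves the relations.
* if `natDegree (minpoly E (α^q)) ≠ d`, `q ≥ 1`: the map `O → {roots of minpoly E (α^q)}`, `z ↦ z^q`, is
  surjective (conjugates), so not injective: two distinct elements of `O` have the same `q`-th power.
So the doubling lemma gives the claim.
`natDegree_conj`: `σ ↦ F σ F⁻¹` maps `E.fixingSubgroup` onto itself if `E` is stable under all `F`; the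
conjugates of `F z` over `E` are the `F(σ z)`; or: `minpoly E (F z)` is the image of `minpoly E z` under
the automorphism of `E` induced by `F`.
`natDegree_mono`: a larger ground field gives a smaller degree.
-/

set_option autoImplicit false

open Polynomial Module

namespace Pool.Agent.H72.PL

variable {K L : Type} [Field K] [Field L] [Algebra K L] [FiniteDimensional K L] [IsGalois K L]

private theorem orb_ex (F : IntermediateField K L) (x : L) :
    ∃ S : Finset L, S.card = (minpoly F x).natDegree ∧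
      ∀ ξ, ξ ∈ S ↔ ∃ σ ∈ F.fixingSubgroup, ξ = σ x := by
  classical
  have hint : IsIntegral F x := Algebra.IsIntegral.isIntegral x
  have hne := minpoly.ne_zero hint
  refine ⟨((minpoly F x).map (algebraMap F L)).roots.toFinset, ?_, fun ξ => ?_⟩
  · have hsep : (minpoly F x).Separable := Algebra.IsSeparable.isSeparable F x
    have hspl : ((minpoly F x).map (algebraMap F L)).Splits := Normal.splits inferInstance x
    rw [Multiset.toFinset_card_of_nodup (nodup_roots hsep.map), ← hspl.natDegree_eq_card_roots,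
      natDegree_map]
  · rw [Multiset.mem_toFinset, mem_roots (by rwa [Ne, Polynomial.map_eq_zero]), IsRoot.def,
      eval_map_algebraMap]
    constructor
    · intro h
      obtain ⟨τ, hτ⟩ := minpoly.exists_algEquiv_of_root' hint.isAlgebraic h
      refine ⟨(IntermediateField.fixingSubgroupEquiv F).symm τ,
        ((IntermediateField.fixingSubgroupEquiv F).symm τ).2, ?_⟩
      exact hτ.symm
    · rintro ⟨σ, hσ, rfl⟩
      set τ := IntermediateField.fixingSubgroupEquiv F ⟨σ, hσ⟩ with hτ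
      have h1 : σ x = τ x := rfl
      rw [h1, ← AlgEquiv.coe_algHom, aeval_algHom_apply, minpoly.aeval, map_zero]

theorem drop_lemma (E : IntermediateField K L) (α : L) (hα : α ≠ 0) (S : Finset ℕ)
    (h1 : ∀ q ∈ S, 1 ≤ q) (hS : (S : Set ℕ).Pairwise Nat.Coprime)
    (hdrop : ∀ q ∈ S, (minpoly E (α ^ q)).natDegree ≠ (minpoly E α).natDegree) :
    2 ^ S.card ≤ (minpoly E α).natDegree := by
  classical
  obtain ⟨O, hOc, hO⟩ := orb_ex E α
  rw [← hOc]
  have hne : ∀ x ∈ O, x ≠ 0 := by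
    intro x hx
    obtain ⟨σ, -, rfl⟩ := (hO x).1 hx
    exact fun h => hα (σ.injective (by rw [h, map_zero]))
  refine doubling O ⟨α, (hO α).2 ⟨1, one_mem _, rfl⟩⟩ S hS (fun m x y => x ^ m = y ^ m)
    (fun m => ⟨fun _ => rfl, fun h => h.symm, fun h h' => h.trans h'⟩) ?_ ?_ ?_ ?_ ?_
  · intro m m' x y h
    rw [pow_mul, pow_mul, h]
  · intro m m' x y h
    rw [mul_comm, pow_mul, pow_mul, h]
  · intro m m' hcop x hx y hy h h'
    have hy0 := hne y hy
    have e1 : (x / y) ^ m = 1 := by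
      rw [div_pow, h, div_self (pow_ne_zero _ hy0)]
    have e2 : (x / y) ^ m' = 1 := by
      rw [div_pow, h', div_self (pow_ne_zero _ hy0)]
    have e3 : (x / y) ^ 1 = 1 := by
      have := pow_gcd_eq_one.2 ⟨e1, e2⟩
      rwa [Nat.Coprime.gcd_eq_one hcop] at this
    rw [pow_one, div_eq_one_iff_eq hy0] at e3
    exact e3
  · intro x hx y hy
    obtain ⟨σ₁, hσ₁, rfl⟩ := (hO x).1 hx
    obtain ⟨σ₂, hσ₂, rfl⟩ := (hO y).1 hy
    have hmap : ∀ τ ∈ E.fixingSubgroup, ∀ z ∈ O, τ z ∈ O := by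
      intro τ hτ z hz
      obtain ⟨σ, hσ, rfl⟩ := (hO z).1 hz
      exact (hO _).2 ⟨τ * σ, mul_mem hτ hσ, rfl⟩
    have hg : σ₂ * σ₁⁻¹ ∈ E.fixingSubgroup := mul_mem hσ₂ (inv_mem hσ₁)
    refine ⟨(σ₂ * σ₁⁻¹ : L ≃ₐ[K] L), ⟨?_, (σ₂ * σ₁⁻¹).injective.injOn, ?_⟩, ?_, ?_⟩
    · intro z hz
      exact hmap _ hg z hz
    · intro z hz
      refine ⟨(σ₂ * σ₁⁻¹)⁻¹ z, hmap _ (inv_mem hg) z hz, ?_⟩
      exact (σ₂ * σ₁⁻¹).apply_symm_apply z
    · rw [AlgEquiv.mul_apply]
      exact congrArg σ₂ (σ₁.symm_apply_apply α)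
    · intro m a _ b _
      rw [← map_pow, ← map_pow]
      exact (σ₂ * σ₁⁻¹).injective.eq_iff.symm
  · intro q hq
    obtain ⟨O', hOc', hO'⟩ := orb_ex E (α ^ q)
    by_contra hno
    push Not at hno
    refine hdrop q hq ?_
    rw [← hOc, ← hOc']
    have himg : O.image (fun z => z ^ q) = O' := by
      ext z
      rw [Finset.mem_image, hO']
      constructor
      · rintro ⟨w, hw, rfl⟩
        obtain ⟨σ, hσ, rfl⟩ := (hO w).1 hw
        exact ⟨σ, hσ, (map_pow σ α q).symm⟩
      · rintro ⟨σ, hσ, rfl⟩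
        exact ⟨σ α, (hO _).2 ⟨σ, hσ, rfl⟩, (map_pow σ α q).symm⟩
    rw [← himg]
    refine Finset.card_image_of_injOn ?_
    intro x hx y hy hxy
    by_contra hne'
    exact hno x hx y hy hne' hxy

private theorem conj_le (E : IntermediateField K L) (hE : ∀ σ : L ≃ₐ[K] L, ∀ z ∈ E, σ z ∈ E)
    (F : L ≃ₐ[K] L) (z : L) : (minpoly E z).natDegree ≤ (minpoly E (F z)).natDegree := by
  classical
  obtain ⟨O, hOc, hO⟩ := orb_ex E z
  obtain ⟨O', hOc', hO'⟩ := orb_ex E (F z)
  rw [← hOc, ← hOc', ← Finset.card_image_of_injective O F.injective]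
  refine Finset.card_le_card ?_
  intro w hw
  obtain ⟨w', hw', rfl⟩ := Finset.mem_image.1 hw
  obtain ⟨σ, hσ, rfl⟩ := (hO w').1 hw'
  refine (hO' _).2 ⟨F * σ * F⁻¹, ?_, ?_⟩
  · rw [IntermediateField.mem_fixingSubgroup_iff] at hσ ⊢
    intro x hx
    have h1 : F⁻¹ x ∈ E := hE _ x hx
    have h2 := hσ _ h1
    rw [AlgEquiv.mul_apply, AlgEquiv.mul_apply, h2]
    exact F.apply_symm_apply x
  · rw [AlgEquiv.mul_apply, AlgEquiv.mul_apply]
    exact congrArg (fun t => F (σ t)) (F.symm_apply_apply z).symm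

theorem natDegree_conj (E : IntermediateField K L) (hE : ∀ σ : L ≃ₐ[K] L, ∀ z ∈ E, σ z ∈ E)
    (F : L ≃ₐ[K] L) (z : L) : (minpoly E (F z)).natDegree = (minpoly E z).natDegree := by
  refine le_antisymm ?_ (conj_le E hE F z)
  have h := conj_le E hE F⁻¹ (F z)
  have h1 : F⁻¹ (F z) = z := F.symm_apply_apply z
  rwa [h1] at h

theorem natDegree_mono (E E' : IntermediateField K L) (h : E ≤ E') (z : L) :
    (minpoly E' z).natDegree ≤ (minpoly E z).natDegree := by
  obtain ⟨O, hOc, hO⟩ := orb_ex E z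
  obtain ⟨O', hOc', hO'⟩ := orb_ex E' z
  rw [← hOc, ← hOc']
  refine Finset.card_le_card fun w hw => ?_
  obtain ⟨σ, hσ, rfl⟩ := (hO' w).1 hw
  exact (hO _).2 ⟨σ, IntermediateField.fixingSubgroup_le h hσ, rfl⟩

/-- the orbit of `z` under `E.fixingSubgroup` has `natDegree (minpoly E z)` elements -/
theorem orbit_card (E : IntermediateField K L) (z : L) :
    (Set.range fun σ : E.fixingSubgroup => σ.1 z).ncard = (minpoly E z).natDegree := by
  obtain ⟨O, hOc, hO⟩ := orb_ex E z
  have h : (Set.range fun σ : E.fixingSubgroup => σ.1 z) = (O : Set L) := by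
    ext w
    rw [Finset.mem_coe, hO]
    constructor
    · rintro ⟨σ, rfl⟩
      exact ⟨σ.1, σ.2, rfl⟩
    · rintro ⟨σ, hσ, rfl⟩
      exact ⟨⟨σ, hσ⟩, rfl⟩
  rw [h, Set.ncard_coe_finset, hOc]

end Pool.Agent.H72.PL
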