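import Pool.Agent.H72.PL.Unram

/-!
# Module Frob: Frobenius automorphisms at primes not dividing `N b` (paper proof: prop. 65, section 1)

`frob_exists`: take `F` from `frob_basic`. For `z ∈ E = K(ζ, y)` with `w z ≤ 1`:
`w (F z - z^q) < 1`, and `F z - z^q ∈ E` (`stable_E`), so `≤ epsw` by `unram_E`.
`stable_E`: `σ ζ` is a power of `ζ`, `σ y / y` is an `N`-th root of unity, a power of `ζ` (`b ≠ 0`, so
`y ≠ 0`; if `b = 0` then `y = 0`); `IntermediateField.adjoin_induction` or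
`IntermediateField.adjoin_map`/`map_le`.
-/

set_option autoImplicit false

open NumberField IsDedekindDomain Module

namespace Pool.Agent.H72.PL

theorem stable_gen {K L : Type} [Field K] [Field L] [Algebra K L] (S : Set L) (σ : L ≃ₐ[K] L)
    (h : ∀ s ∈ S, σ s ∈ IntermediateField.adjoin K S) (z : L)
    (hz : z ∈ IntermediateField.adjoin K S) : σ z ∈ IntermediateField.adjoin K S := by
  have h1 : σ z ∈ (IntermediateField.adjoin K S).map (σ : L →ₐ[K] L) :=
    ⟨z, hz, rfl⟩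
  rw [IntermediateField.adjoin_map] at h1
  have h2 : IntermediateField.adjoin K ((σ : L →ₐ[K] L) '' S) ≤ IntermediateField.adjoin K S := by
    rw [IntermediateField.adjoin_le_iff]
    rintro _ ⟨s, hs, rfl⟩
    exact h s hs
  exact h2 h1

theorem sigma_zeta {L : Type} [Field L] (N : ℕ) (hN : 1 ≤ N) (ζ : L)
    (hζ : IsPrimitiveRoot ζ N) (ω : L) (hω : ω ^ N = 1) : ∃ i : ℕ, ω = ζ ^ i := by
  have : NeZero N := ⟨by omega⟩
  obtain ⟨i, _, hi⟩ := hζ.eq_pow_of_pow_eq_one hω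
  exact ⟨i, hi.symm⟩

theorem stable_k {K L : Type} [Field K] [Field L] [Algebra K L] (N : ℕ) (hN : 1 ≤ N) (ζ : L)
    (hζ : IsPrimitiveRoot ζ N) (σ : L ≃ₐ[K] L) (z : L)
    (hz : z ∈ IntermediateField.adjoin K {ζ}) : σ z ∈ IntermediateField.adjoin K {ζ} := by
  refine stable_gen {ζ} σ ?_ z hz
  intro s hs
  rw [Set.mem_singleton_iff] at hs
  subst hs
  obtain ⟨i, hi⟩ := sigma_zeta N hN s hζ (σ s) (by rw [← map_pow, hζ.pow_eq_one, map_one])
  rw [hi]
  exact pow_mem (IntermediateField.mem_adjoin_simple_self K s) i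

theorem stable_E {K L : Type} [Field K] [Field L] [Algebra K L] (N : ℕ) (hN : 1 ≤ N) (ζ y : L)
    (hζ : IsPrimitiveRoot ζ N) (b : K) (hy : y ^ N = algebraMap K L b) (σ : L ≃ₐ[K] L) (z : L)
    (hz : z ∈ IntermediateField.adjoin K {ζ, y}) : σ z ∈ IntermediateField.adjoin K {ζ, y} := by
  have hζm : ζ ∈ IntermediateField.adjoin K ({ζ, y} : Set L) :=
    IntermediateField.subset_adjoin K _ (by simp)
  have hym : y ∈ IntermediateField.adjoin K ({ζ, y} : Set L) :=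
    IntermediateField.subset_adjoin K _ (by simp)
  refine stable_gen {ζ, y} σ ?_ z hz
  intro s hs
  rcases hs with hs | hs
  · subst hs
    obtain ⟨i, hi⟩ := sigma_zeta N hN s hζ (σ s) (by rw [← map_pow, hζ.pow_eq_one, map_one])
    rw [hi]
    exact pow_mem hζm i
  · rw [Set.mem_singleton_iff] at hs
    subst hs
    by_cases h0 : s = 0
    · rw [h0, map_zero]; exact zero_mem _
    · obtain ⟨i, hi⟩ := sigma_zeta N hN ζ hζ (σ s / s) (by
        rw [div_pow, ← map_pow, hy, AlgEquiv.commutes, ← hy, div_self (pow_ne_zero _ h0)])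
      have h2 : σ s = ζ ^ i * s := by rw [← hi, div_mul_cancel₀ _ h0]
      rw [h2]
      exact mul_mem (pow_mem hζm i) hym

variable {K L : Type} [Field K] [NumberField K] [Field L] [NumberField L] [Algebra K L]

theorem FrobAt.mono {E E' : IntermediateField K L} {𝔭 : HeightOneSpectrum (𝓞 K)}
    {w : FinitePlace L} {F : L ≃ₐ[K] L} (h : FrobAt E 𝔭 w F) (hE : E' ≤ E) : FrobAt E' 𝔭 w F :=
  ⟨h.iso, fun z hz h1 => h.close z (hE hz) h1⟩

theorem frob_exists [IsGalois K L] (N : ℕ) (hN : 1 ≤ N) (ζ y : L) (hζ : IsPrimitiveRoot ζ N)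
    (b : K) (hy : y ^ N = algebraMap K L b) (𝔭 : HeightOneSpectrum (𝓞 K))
    (hNp : (N : 𝓞 K) ∉ 𝔭.asIdeal) (hb : 𝔭.valuation K b = 1) (w : FinitePlace L)
    (hw : Above 𝔭 w) :
    ∃ F : L ≃ₐ[K] L, FrobAt (IntermediateField.adjoin K {ζ, y}) 𝔭 w F ∧ F ζ = ζ ^ nrm 𝔭 := by
  obtain ⟨F, h1, h2, h3⟩ := frob_basic 𝔭 w hw
  refine ⟨F, ⟨h1, ?_⟩, h3 N ζ hζ hN hNp⟩
  intro z hz hz1
  exact unram_E N hN ζ y hζ b hy 𝔭 hNp hb w hw _
    (sub_mem (stable_E N hN ζ y hζ b hy F z hz) (pow_mem hz _)) (h2 z hz1)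

end Pool.Agent.H72.PL
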