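import Pool.Agent.H72.PL.Orb
import Pool.Agent.H72.PL.Drop
import Pool.Agent.H72.PL.Frob

/-!
# Module CGrid: the conjugates of the points `P_t` (paper proof: proposal 65, sections 4, 5)

`k = K(ζ)`, `E = K(ζ, y)`, `y' = (F⁻¹ y)^q`, `x' = (F⁻¹ α)^q`, `q` prime to `N`.
* `E = k ⊔ K(y')`: `F⁻¹ y = ζ^i y` (both are `N`-th roots of `b ≠ 0`), so `y' = ζ^(iq) y^q`; with
  `a q = 1 + c N` (`a, c` natural numbers, `Nat.Coprime`): `y^(a q) = y b^c`, so
  `y = y'^a ζ^(..) b^(-c) ∈ k(y')`. (`k ⊔ K(y) = E`: `adjoin_insert`/`adjoin_union`.)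
* `natDegree (minpoly k y') = natDegree (minpoly k y)`: `k(y') = k(y)` have the same degree over `k`; or
  via orbits: `σ y' = y'` iff `σ y = y` for `σ ∈ k.fixingSubgroup` (by the previous point and its converse),
  `orbit_card` and orbit-stabilizer.
* `natDegree (minpoly E x') = natDegree (minpoly E (α^q))` (`x' = F⁻¹ (α^q)`, `natDegree_conj`, `stable_E`),
  which is `natDegree (minpoly E α)` by hypothesis.
* `grid_exists` for `(y', x')`, `k`, `E`. For `η = σ y' ∈ S`: `η^N = σ (F⁻¹ (y^N))^q = b^q`.
-/

set_option autoImplicit false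

open Module

namespace Pool.Agent.H72.PL

theorem adjoin_pair {K L : Type} [Field K] [Field L] [Algebra K L] (ζ y : L) :
    IntermediateField.adjoin K {ζ, y} =
      IntermediateField.adjoin K {ζ} ⊔ IntermediateField.adjoin K {y} := by
  rw [← IntermediateField.adjoin_union, Set.singleton_union]

theorem grid_t {K L : Type} [Field K] [Field L] [Algebra K L] [FiniteDimensional K L]
    [IsGalois K L] (N : ℕ) (hN : 1 ≤ N) (ζ y : L) (hζ : IsPrimitiveRoot ζ N) (b : K)
    (hb : b ≠ 0) (hy : y ^ N = algebraMap K L b) (α : L) (F : L ≃ₐ[K] L) (q : ℕ)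
    (hq : Nat.Coprime q N)
    (hd : (minpoly (IntermediateField.adjoin K {ζ, y}) (α ^ q)).natDegree =
      (minpoly (IntermediateField.adjoin K {ζ, y}) α).natDegree) :
    ∃ (S : Finset L) (R : L → Finset L),
      IsGrid (IntermediateField.adjoin K {ζ}) ((F.symm y) ^ q) ((F.symm α) ^ q) S R
        (minpoly (IntermediateField.adjoin K {ζ}) y).natDegree
        (minpoly (IntermediateField.adjoin K {ζ, y}) α).natDegree ∧
      ∀ η ∈ S, η ^ N = (algebraMap K L b) ^ q := by
  have hb' : algebraMap K L b ≠ 0 := (map_ne_zero (algebraMap K L)).mpr hb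
  have hy0 : y ≠ 0 := by
    intro h0
    rw [h0, zero_pow (by omega)] at hy
    exact hb' hy.symm
  have hζ0 : ζ ≠ 0 := hζ.ne_zero (by omega)
  -- the conjugate of `y`
  have hFN : (F.symm y) ^ N = algebraMap K L b := by
    rw [← map_pow, hy]
    exact F.symm.commutes b
  have hNZ : NeZero N := ⟨by omega⟩
  obtain ⟨i, -, hi⟩ := hζ.eq_pow_of_pow_eq_one (ξ := F.symm y / y) (by
    rw [div_pow, hFN, hy, div_self hb'])
  have hFy : F.symm y = ζ ^ i * y := by
    rw [hi, div_mul_cancel₀ _ hy0]
  have hy' : (F.symm y) ^ q = (ζ ^ i) ^ q * y ^ q := by rw [hFy, mul_pow]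
  -- `y` in terms of `y'`
  have hback : ∃ (a e : ℕ) (c : K), y = ((F.symm y) ^ q) ^ a * (ζ ^ e)⁻¹ * algebraMap K L c := by
    rcases Nat.lt_or_ge 1 N with hN1 | hN1
    · obtain ⟨m, hm⟩ := Nat.exists_mul_mod_eq_one_of_coprime hq hN1
      refine ⟨m, i * q * m, (b ^ (q * m / N))⁻¹, ?_⟩
      have h1 : q * m = 1 + N * (q * m / N) := by
        have := Nat.mod_add_div (q * m) N
        omega
      have h2 : y ^ (q * m) = y * (algebraMap K L b) ^ (q * m / N) := by
        conv_lhs => rw [h1]
        rw [pow_add, pow_one, pow_mul, hy]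
      rw [hy', mul_pow, ← pow_mul, ← pow_mul, ← pow_mul, h2, map_inv₀, map_pow]
      have h3 : ζ ^ (i * q * m) ≠ 0 := pow_ne_zero _ hζ0
      have h4 : (algebraMap K L b) ^ (q * m / N) ≠ 0 := pow_ne_zero _ hb'
      have h5 : i * (q * m) = i * q * m := (mul_assoc _ _ _).symm
      rw [h5]
      field_simp
    · have h1 : N = 1 := by omega
      rw [h1, pow_one] at hy
      refine ⟨0, 0, b, ?_⟩
      rw [pow_zero, pow_zero, inv_one, mul_one, one_mul, hy]
  obtain ⟨a, e, c, hback⟩ := hback
  have hE : IntermediateField.adjoin K {ζ, y} =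
      IntermediateField.adjoin K {ζ} ⊔ IntermediateField.adjoin K {(F.symm y) ^ q} := by
    apply le_antisymm
    · rw [IntermediateField.adjoin_le_iff]
      have hζm : ζ ∈ IntermediateField.adjoin K {ζ} ⊔
          IntermediateField.adjoin K {(F.symm y) ^ q} :=
        (le_sup_left : IntermediateField.adjoin K {ζ} ≤ _)
          (IntermediateField.mem_adjoin_simple_self K ζ)
      have hym : (F.symm y) ^ q ∈ IntermediateField.adjoin K {ζ} ⊔
          IntermediateField.adjoin K {(F.symm y) ^ q} :=
        (le_sup_right : IntermediateField.adjoin K {(F.symm y) ^ q} ≤ _)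
          (IntermediateField.mem_adjoin_simple_self K _)
      rintro z (rfl | rfl)
      · exact hζm
      · exact (congrArg (fun w => w ∈ IntermediateField.adjoin K {ζ} ⊔
          IntermediateField.adjoin K {(F.symm z) ^ q}) hback).mpr
          (mul_mem (mul_mem (pow_mem hym a) (inv_mem (pow_mem hζm e)))
            (IntermediateField.algebraMap_mem _ c))
    · refine sup_le ?_ ?_
      · exact IntermediateField.adjoin.mono K _ _ (by
          intro z hz
          rw [Set.mem_singleton_iff] at hz
          rw [hz]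
          exact Set.mem_insert _ _)
      · rw [IntermediateField.adjoin_simple_le_iff]
        refine pow_mem (stable_E N hN ζ y hζ b hy F.symm y ?_) q
        exact IntermediateField.subset_adjoin K _ (Set.mem_insert_of_mem _ rfl)
  have hdeg1 : (minpoly (IntermediateField.adjoin K {ζ}) ((F.symm y) ^ q)).natDegree =
      (minpoly (IntermediateField.adjoin K {ζ}) y).natDegree := by
    rw [← IntermediateField.adjoin.finrank (IsIntegral.of_finite _ _),
      ← IntermediateField.adjoin.finrank (IsIntegral.of_finite _ _)]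
    have hζk : ζ ∈ IntermediateField.adjoin K {ζ} := IntermediateField.mem_adjoin_simple_self K ζ
    have hmemζ : ∀ T : IntermediateField (IntermediateField.adjoin K {ζ}) L, ζ ∈ T := fun T =>
      T.algebraMap_mem ⟨ζ, hζk⟩
    have hmemK : ∀ (T : IntermediateField (IntermediateField.adjoin K {ζ}) L) (c : K),
        algebraMap K L c ∈ T := fun T c =>
      T.algebraMap_mem ⟨algebraMap K L c, IntermediateField.algebraMap_mem _ c⟩
    have heq : IntermediateField.adjoin (IntermediateField.adjoin K {ζ}) {(F.symm y) ^ q} =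
        IntermediateField.adjoin (IntermediateField.adjoin K {ζ}) {y} := by
      apply le_antisymm
      · rw [IntermediateField.adjoin_simple_le_iff, hy']
        exact mul_mem (pow_mem (pow_mem (hmemζ _) i) q)
          (pow_mem (IntermediateField.mem_adjoin_simple_self _ y) q)
      · rw [IntermediateField.adjoin_simple_le_iff]
        have hym := IntermediateField.mem_adjoin_simple_self
          (IntermediateField.adjoin K {ζ}) ((F.symm y) ^ q)
        exact (congrArg (fun w => w ∈ IntermediateField.adjoin (IntermediateField.adjoin K {ζ})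
          {(F.symm y) ^ q}) hback).mpr
          (mul_mem (mul_mem (pow_mem hym a) (inv_mem (pow_mem (hmemζ _) e))) (hmemK _ c))
    rw [heq]
  have hdeg2 : (minpoly (IntermediateField.adjoin K {ζ, y}) ((F.symm α) ^ q)).natDegree =
      (minpoly (IntermediateField.adjoin K {ζ, y}) α).natDegree := by
    rw [← hd, ← natDegree_conj (IntermediateField.adjoin K {ζ, y})
      (fun σ z hz => stable_E N hN ζ y hζ b hy σ z hz) F.symm (α ^ q), map_pow]
  obtain ⟨S, R, hgrid, hS, -⟩ := grid_exists (IntermediateField.adjoin K {ζ})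
    (IntermediateField.adjoin K {ζ, y}) ((F.symm y) ^ q) ((F.symm α) ^ q) hE
  rw [hdeg1, hdeg2] at hgrid
  refine ⟨S, R, hgrid, fun η hη => ?_⟩
  obtain ⟨σ, -, rfl⟩ := (hS η).mp hη
  rw [← map_pow, ← pow_mul, mul_comm q N, pow_mul, hFN, map_pow]
  congr 1
  exact σ.commutes b

end Pool.Agent.H72.PL
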