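import Mathlib

/-!
# Module CNumA: the numerical consequence of the rank inequality (prop. 65, section 11)

`W₁ = Q^3 Z^(18g+20)`, `W = d W₁`, `M = n / Q` (floor), `T = Z^2`, `c = M hy + W h`.
`M hy ≤ (n/Q) hy ≤ B/Q`, `W h = W₁ (d h) ≤ 1/Q`; so `Q c ≤ B + 1`, `c ≤ B + 1`. `log qmin ≥ log 2 ≥ 1/2`. So
the bracket on the left is at least `Z^2/(2g) - (B+1) ≥ Z^2/(4g)` for `Z` large.
Logarithms: `log Q ≤ 18 g log Z`, `log W₁ ≤ (72 g + 20) log Z`, `log (W+1) ≤ 2Z`, `log (M+1) ≤ Z + 1`, so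
`log r₁ ≤ 4 Z` (if `r₁ ≥ 1`), `log (max M (max W 2)) ≤ 3 Z`. The inequality gives
`(r₁ - r₀) Z^2/(4g) ≤ r₁ 4 Z + r₀ (Z^2 * 3 Z + B + 1)`, hence
`r₁ (Z^2/(4g) - 4 Z) ≤ r₀ (Z^2/(4g) + 3 Z^3 + B + 1) ≤ r₀ 4 Z^3` and, for `Z ≥ 32 g`,
`r₁ Z^2/(8g) ≤ 4 r₀ Z^3`, `r₁ ≤ 32 g Z r₀ ≤ 32 g Z n d Z^4 ≤ n d Z^6`. (large depends on `g`, `B` only.)
-/

set_option autoImplicit false

namespace Pool.Agent.H72.PL

theorem numA_auxlog (c : ℝ) (hc : 0 ≤ c) : ∃ Z₀ : ℕ, ∀ Z : ℕ, Z₀ ≤ Z → c * Real.log Z ≤ Z := by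
  have h1 : ∀ᶠ x : ℝ in Filter.atTop, ‖Real.log x‖ ≤ (1 / (c + 1)) * ‖x‖ :=
    Real.isLittleO_log_id_atTop.bound (by positivity)
  have h2 : ∀ᶠ n : ℕ in Filter.atTop, ‖Real.log (n : ℝ)‖ ≤ (1 / (c + 1)) * ‖(n : ℝ)‖ :=
    tendsto_natCast_atTop_atTop.eventually h1
  obtain ⟨Z₀, hZ₀⟩ := Filter.eventually_atTop.1 h2
  refine ⟨Z₀, fun Z hZ => ?_⟩
  have h3 := hZ₀ Z hZ
  rw [Real.norm_eq_abs, Real.norm_eq_abs, Nat.abs_cast] at h3
  have h4 : Real.log Z ≤ (1 / (c + 1)) * (Z : ℝ) := (le_abs_self _).trans h3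
  have hZ0 : (0 : ℝ) ≤ Z := Nat.cast_nonneg Z
  calc c * Real.log Z ≤ c * ((1 / (c + 1)) * (Z : ℝ)) := mul_le_mul_of_nonneg_left h4 hc
    _ = (c / (c + 1)) * Z := by ring
    _ ≤ 1 * Z := by
        apply mul_le_mul_of_nonneg_right _ hZ0
        rw [div_le_one (by linarith)]
        linarith
    _ = Z := one_mul _

theorem core_numA (g : ℕ) (hg : 1 ≤ g) (B : ℝ) (hB : 0 ≤ B) : ∃ Z₀ : ℕ, ∀ Z : ℕ, Z₀ ≤ Z →
    ∀ (n d Q r₀ r₁ M W : ℕ) (h hy qmin : ℝ), 1 ≤ n → 1 ≤ d → 2 ≤ Q → Q ≤ Z ^ (18 * g) →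
      Real.log n ≤ Z → Real.log d ≤ Z → M = n / Q → W = d * (Q ^ 3 * Z ^ (18 * g + 20)) →
      0 ≤ hy → 0 ≤ h → hy * n ≤ B → 2 ≤ qmin → qmin ≤ Q →
      (d : ℝ) * h ≤ 1 / ((Q : ℝ) * ((Q : ℝ) ^ 3 * (Z : ℝ) ^ (18 * g + 20))) →
      r₀ ≤ n * d * (Z ^ 2) ^ 2 → r₀ ≤ r₁ → r₁ ≤ (M + 1) * (W + 1) →
      ((r₁ : ℝ) - r₀) * (((Z ^ 2 : ℕ) : ℝ) * Real.log qmin / g -
          (Q : ℝ) * ((M : ℝ) * hy + (W : ℝ) * h)) ≤
        (r₁ : ℝ) * Real.log r₁ +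
          (r₀ : ℝ) * (((Z ^ 2 : ℕ) : ℝ) * Real.log (max (M : ℝ) (max (W : ℝ) 2)) +
            ((M : ℝ) * hy + (W : ℝ) * h)) →
      r₁ ≤ n * d * Z ^ 6 := by
  obtain ⟨Z₁, hZ₁⟩ := numA_auxlog (72 * g + 20) (by positivity)
  obtain ⟨Z₂, hZ₂⟩ := exists_nat_ge (B + 1)
  refine ⟨Z₁ + Z₂ + 40 * g + 4, ?_⟩
  intro Z hZ n d Q r₀ r₁ M W h hy qmin hn hd hQ hQZ hln hld hM hW hhy hh hB' hq2 hqQ hdh hr0 hr01
    hr1 hmain
  rcases Nat.eq_zero_or_pos r₁ with hr | hr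
  · rw [hr]
    exact Nat.zero_le _
  have hlog := hZ₁ Z (by omega)
  have hBZ : B + 1 ≤ Z := by
    have : (Z₂ : ℝ) ≤ Z := by exact_mod_cast (by omega : Z₂ ≤ Z)
    linarith
  have hgZ : 40 * (g : ℝ) ≤ Z := by exact_mod_cast (by omega : 40 * g ≤ Z)
  have hZN : 1 ≤ Z := by omega
  have hZ4 : (4 : ℝ) ≤ Z := by exact_mod_cast (by omega : 4 ≤ Z)
  have hZ0 : (0 : ℝ) < Z := by linarith
  have hnR : (1 : ℝ) ≤ n := by exact_mod_cast hn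
  have hdR : (1 : ℝ) ≤ d := by exact_mod_cast hd
  have hQR : (2 : ℝ) ≤ Q := by exact_mod_cast hQ
  have hgR : (1 : ℝ) ≤ g := by exact_mod_cast hg
  have hg0 : (0 : ℝ) < g := by linarith
  have hr1R : (1 : ℝ) ≤ r₁ := by exact_mod_cast hr
  have hr0R : (0 : ℝ) ≤ r₀ := Nat.cast_nonneg _
  have hlZ : 0 ≤ Real.log Z := Real.log_nonneg (by linarith)
  have hlQ : Real.log Q ≤ 18 * g * Real.log Z := by
    have h1 : (Q : ℝ) ≤ (Z : ℝ) ^ (18 * g) := by exact_mod_cast hQZ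
    have h2 := Real.log_le_log (by linarith) h1
    rw [Real.log_pow] at h2
    push_cast at h2
    exact h2
  -- the number c
  obtain ⟨c, hc⟩ : ∃ c : ℝ, c = (M : ℝ) * hy + (W : ℝ) * h := ⟨_, rfl⟩
  have hc0 : 0 ≤ c := by rw [hc]; positivity
  have hQc : (Q : ℝ) * c ≤ B + 1 := by
    have h1 : (M : ℝ) * Q ≤ n := by
      rw [hM]
      exact_mod_cast Nat.div_mul_le_self n Q
    have h2 : (Q : ℝ) * (W * h) ≤ 1 := by
      rw [hW]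
      push_cast
      have h3 : (0 : ℝ) < (Q : ℝ) * ((Q : ℝ) ^ 3 * (Z : ℝ) ^ (18 * g + 20)) := by positivity
      rw [le_div_iff₀ h3] at hdh
      calc (Q : ℝ) * ((d : ℝ) * ((Q : ℝ) ^ 3 * (Z : ℝ) ^ (18 * g + 20)) * h) =
          d * h * (Q * ((Q : ℝ) ^ 3 * (Z : ℝ) ^ (18 * g + 20))) := by ring
        _ ≤ 1 := hdh
    have h4 : (M : ℝ) * Q * hy ≤ B :=
      (mul_le_mul_of_nonneg_right h1 hhy).trans (by linarith)
    rw [hc]
    linarith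
  have hcB : c ≤ B + 1 := by
    have h1 : 1 * c ≤ (Q : ℝ) * c := mul_le_mul_of_nonneg_right (by linarith) hc0
    linarith
  rw [← hc] at hmain
  -- logarithms
  have hlW : Real.log W ≤ 2 * Z := by
    rw [hW]
    push_cast
    rw [Real.log_mul (by positivity) (by positivity), Real.log_mul (by positivity)
      (by positivity), Real.log_pow, Real.log_pow]
    push_cast
    nlinarith
  have hW1 : (1 : ℝ) ≤ W := by
    have : 0 < W := by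
      rw [hW]
      positivity
    exact_mod_cast this
  have hl2 : Real.log 2 ≤ 1 := by
    have := Real.log_two_lt_d9
    linarith
  have hlr1 : Real.log r₁ ≤ 4 * Z := by
    have h1 : (r₁ : ℝ) ≤ (2 * n) * (2 * W) := by
      have h2 : r₁ ≤ (2 * n) * (2 * W) := by
        have h3 : M ≤ n := by
          rw [hM]
          exact Nat.div_le_self _ _
        have h4 : 1 ≤ W := by exact_mod_cast hW1
        calc r₁ ≤ (M + 1) * (W + 1) := hr1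
          _ ≤ (2 * n) * (2 * W) := Nat.mul_le_mul (by omega) (by omega)
      exact_mod_cast h2
    have h5 := Real.log_le_log (by linarith) h1
    rw [Real.log_mul (by positivity) (by positivity), Real.log_mul (by norm_num) (by positivity),
      Real.log_mul (by norm_num) (by positivity)] at h5
    linarith
  have hlmax : Real.log (max (M : ℝ) (max (W : ℝ) 2)) ≤ 4 * Z := by
    have h1 : max (M : ℝ) (max (W : ℝ) 2) ≤ 2 * (n * W) := by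
      have h3 : (M : ℝ) ≤ n := by
        rw [hM]
        exact_mod_cast Nat.div_le_self _ _
      have h4 : (1 : ℝ) ≤ n * W := one_le_mul_of_one_le_of_one_le hnR hW1
      refine max_le ?_ (max_le ?_ (by linarith))
      · nlinarith
      · nlinarith
    have h2 : (0 : ℝ) < max (M : ℝ) (max (W : ℝ) 2) :=
      lt_of_lt_of_le (by norm_num) ((le_max_right (W : ℝ) 2).trans (le_max_right _ _))
    have h5 := Real.log_le_log h2 h1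
    rw [Real.log_mul (by norm_num) (by positivity),
      Real.log_mul (by positivity) (by positivity)] at h5
    linarith
  -- the bracket
  have hL : (Z : ℝ) ^ 2 / (4 * g) ≤ ((Z ^ 2 : ℕ) : ℝ) * Real.log qmin / g - (Q : ℝ) * c := by
    have h1 : 1 / 2 ≤ Real.log qmin := by
      have h2 := Real.log_le_log (by norm_num : (0 : ℝ) < 2) hq2
      have := Real.log_two_gt_d9
      linarith
    have h3 : (Z : ℝ) ^ 2 / (2 * g) ≤ ((Z ^ 2 : ℕ) : ℝ) * Real.log qmin / g := by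
      push_cast
      rw [div_le_div_iff₀ (by positivity) hg0]
      have h6 : (Z : ℝ) ^ 2 * (1 / 2) ≤ (Z : ℝ) ^ 2 * Real.log qmin :=
        mul_le_mul_of_nonneg_left h1 (by positivity)
      calc (Z : ℝ) ^ 2 * g = ((Z : ℝ) ^ 2 * (1 / 2)) * (2 * g) := by ring
        _ ≤ ((Z : ℝ) ^ 2 * Real.log qmin) * (2 * g) :=
            mul_le_mul_of_nonneg_right h6 (by linarith)
    have h4 : B + 1 ≤ (Z : ℝ) ^ 2 / (4 * g) := by
      rw [le_div_iff₀ (by positivity)]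
      calc (B + 1) * (4 * g) ≤ Z * (4 * g) := mul_le_mul_of_nonneg_right hBZ (by linarith)
        _ ≤ Z * Z := mul_le_mul_of_nonneg_left (by linarith) hZ0.le
        _ = (Z : ℝ) ^ 2 := by ring
    have h5 : (Z : ℝ) ^ 2 / (2 * g) = (Z : ℝ) ^ 2 / (4 * g) + (Z : ℝ) ^ 2 / (4 * g) := by
      field_simp
      ring
    linarith
  have hdiff : (0 : ℝ) ≤ (r₁ : ℝ) - r₀ := by
    have : (r₀ : ℝ) ≤ r₁ := by exact_mod_cast hr01
    linarith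
  have h1 : ((r₁ : ℝ) - r₀) * ((Z : ℝ) ^ 2 / (4 * g)) ≤
      (r₁ : ℝ) * (4 * Z) + (r₀ : ℝ) * ((Z : ℝ) ^ 2 * (4 * Z) + (B + 1)) := by
    refine (mul_le_mul_of_nonneg_left hL hdiff).trans (hmain.trans ?_)
    push_cast
    gcongr
  have h2 : 4 * (Z : ℝ) ≤ (Z : ℝ) ^ 2 / (8 * g) := by
    rw [le_div_iff₀ (by positivity)]
    calc 4 * (Z : ℝ) * (8 * g) = Z * (32 * g) := by ring
      _ ≤ Z * Z := mul_le_mul_of_nonneg_left (by linarith) hZ0.le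
      _ = (Z : ℝ) ^ 2 := by ring
  have h3 : (Z : ℝ) ^ 2 / (4 * g) = (Z : ℝ) ^ 2 / (8 * g) + (Z : ℝ) ^ 2 / (8 * g) := by
    field_simp
    ring
  have h4 : (Z : ℝ) ^ 2 / (4 * g) ≤ (Z : ℝ) ^ 2 := by
    apply div_le_self (by positivity)
    linarith
  have h5 : (r₁ : ℝ) * ((Z : ℝ) ^ 2 / (8 * g)) ≤ (r₀ : ℝ) * (5 * (Z : ℝ) ^ 3) := by
    have h6 : (r₁ : ℝ) * ((Z : ℝ) ^ 2 / (8 * g)) ≤ (r₁ : ℝ) * ((Z : ℝ) ^ 2 / (4 * g) - 4 * Z) :=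
      mul_le_mul_of_nonneg_left (by linarith) (by linarith)
    have h7 : (r₀ : ℝ) * ((Z : ℝ) ^ 2 / (4 * g) + ((Z : ℝ) ^ 2 * (4 * Z) + (B + 1))) ≤
        (r₀ : ℝ) * (5 * (Z : ℝ) ^ 3) := by
      apply mul_le_mul_of_nonneg_left _ hr0R
      have h8 : B + 1 ≤ (Z : ℝ) ^ 2 := hBZ.trans (le_self_pow₀ (by linarith) (by norm_num))
      have h9 : 2 * (Z : ℝ) ^ 2 ≤ (Z : ℝ) ^ 3 := by
        calc 2 * (Z : ℝ) ^ 2 ≤ Z * (Z : ℝ) ^ 2 :=
              mul_le_mul_of_nonneg_right (by linarith) (by positivity)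
          _ = (Z : ℝ) ^ 3 := by ring
      have h10 : (Z : ℝ) ^ 2 * (4 * Z) = 4 * (Z : ℝ) ^ 3 := by ring
      linarith
    linarith
  have h6 : (r₁ : ℝ) ≤ 40 * g * Z * r₀ := by
    have h7 : (r₁ : ℝ) * (Z : ℝ) ^ 2 ≤ (40 * g * Z * r₀) * (Z : ℝ) ^ 2 := by
      rw [← mul_div_assoc, div_le_iff₀ (by positivity)] at h5
      calc (r₁ : ℝ) * (Z : ℝ) ^ 2 ≤ (r₀ : ℝ) * (5 * (Z : ℝ) ^ 3) * (8 * g) := h5
        _ = _ := by ring
    exact le_of_mul_le_mul_right h7 (by positivity)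
  have h7 : (r₁ : ℝ) ≤ n * d * Z ^ 6 := by
    have h8 : (r₀ : ℝ) ≤ n * d * (Z ^ 2) ^ 2 := by exact_mod_cast hr0
    calc (r₁ : ℝ) ≤ 40 * g * Z * r₀ := h6
      _ ≤ 40 * g * Z * (n * d * (Z ^ 2) ^ 2) := by gcongr
      _ = (40 * g) * (n * d * Z ^ 5) := by ring
      _ ≤ Z * (n * d * Z ^ 5) := by gcongr
      _ = _ := by ring
  exact_mod_cast h7

end Pool.Agent.H72.PL
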