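import Mathlib

/-!
# Module CNumB: elementary inequalities for the parameters (prop. 65, section 11)

`W₁ = Q^3 Z^(18g+20)`, `W = d W₁`, `M = n / Q`, `ρ = n d Z^6`, `A = 4 Q^2 Z^6`, `a = n / A`, `bb = d A`.
(a) `n < (M+1) Q`, so `ρ/(M+1) ≤ d Q Z^6`: `ρ = n d Z^6 < (M+1) Q d Z^6`.
(b) `2 (ρ/(M+1) + d) + 4 ≤ 2 (d Q Z^6 + d) + 4 ≤ d W₁` since `W₁ ≥ 8 Q Z^6` (`Z, Q ≥ 2`).
(c) `n < (a+1) A`, so `n d < (a+1) A d < (a+1)(d A + 1)`. `a < n` as `A ≥ 2`, `n ≥ 1`.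
(d) Let `x₀ ≤ bb`, `y₀ ≤ a`, `xf ≤ ρ/(M+1)`, `yf W ≤ 2 ρ`, `q ≤ Q`. Then `yf W₁ ≤ 2 n Z^6` (divide by `d`) and
  `x₀ (q yf) + q xf y₀ ≤ d A Q yf + Q (d Q Z^6) a`. First term: multiply by `W₁`:
  `d A Q yf W₁ ≤ d 4 Q^2 Z^6 Q 2 n Z^6 = 8 n d Q^3 Z^12`, and `W₁ ≥ 32 Q^3 Z^12`, so `4 * (first) ≤ n d`.
  Second: `a A ≤ n`, so `4 Q^2 Z^6 a ≤ n`, `4 * (second) ≤ n d`. Sum `≤ n d / 2 < n d`.
-/

set_option autoImplicit false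

namespace Pool.Agent.H72.PL

theorem numB_pow (g Z : ℕ) (hZ : 4 ≤ Z) : 32 * Z ^ 12 ≤ Z ^ (18 * g + 20) := by
  have h1 : 32 ≤ Z ^ 8 := by
    calc 32 ≤ 4 ^ 8 := by norm_num
      _ ≤ Z ^ 8 := Nat.pow_le_pow_left hZ 8
  have h2 : Z ^ 20 ≤ Z ^ (18 * g + 20) := Nat.pow_le_pow_right (by omega) (by omega)
  calc 32 * Z ^ 12 ≤ Z ^ 8 * Z ^ 12 := Nat.mul_le_mul_right _ h1
    _ = Z ^ 20 := by ring
    _ ≤ _ := h2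

theorem numB_a (g Z n d Q : ℕ) (hZ : 4 ≤ Z) (hn : 1 ≤ n) (hd : 1 ≤ d) (hQ : 2 ≤ Q) :
    (n * d * Z ^ 6) / (n / Q + 1) ≤ d * (Q * Z ^ 6) := by
  have h1 : n < Q * (n / Q + 1) := Nat.lt_mul_div_succ n (by omega)
  apply Nat.div_le_of_le_mul
  calc n * d * Z ^ 6 = n * (d * Z ^ 6) := by ring
    _ ≤ Q * (n / Q + 1) * (d * Z ^ 6) := Nat.mul_le_mul_right _ h1.le
    _ = (n / Q + 1) * (d * (Q * Z ^ 6)) := by ring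

theorem numB_b (g Z n d Q : ℕ) (hZ : 4 ≤ Z) (hn : 1 ≤ n) (hd : 1 ≤ d) (hQ : 2 ≤ Q) :
    2 * ((n * d * Z ^ 6) / (n / Q + 1) + d) + 4 ≤ d * (Q ^ 3 * Z ^ (18 * g + 20)) := by
  have h1 := numB_a g Z n d Q hZ hn hd hQ
  have h2 := numB_pow g Z hZ
  have h3 : Z ^ 6 ≤ Z ^ 12 := Nat.pow_le_pow_right (by omega) (by norm_num)
  have h4 : 1 ≤ Z ^ 6 := Nat.one_le_pow _ _ (by omega)
  have h5 : Q ≤ Q ^ 3 := Nat.le_self_pow (by norm_num) Q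
  have h6 : 1 ≤ Q * Z ^ 6 := Nat.mul_pos (by omega) (by omega)
  have h7 : 8 * (Q * Z ^ 6) ≤ Q ^ 3 * Z ^ (18 * g + 20) := by
    calc 8 * (Q * Z ^ 6) = Q * (8 * Z ^ 6) := by ring
      _ ≤ Q ^ 3 * (32 * Z ^ 12) := Nat.mul_le_mul h5 (by omega)
      _ ≤ _ := Nat.mul_le_mul_left _ h2
  calc 2 * ((n * d * Z ^ 6) / (n / Q + 1) + d) + 4 ≤ 2 * (d * (Q * Z ^ 6) + d) + 4 := by omega
    _ ≤ d * (8 * (Q * Z ^ 6)) := by nlinarith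
    _ ≤ _ := Nat.mul_le_mul_left _ h7

theorem numB_c (Z n d Q : ℕ) (hZ : 4 ≤ Z) (hn : 1 ≤ n) (hd : 1 ≤ d) (hQ : 2 ≤ Q) :
    n / (4 * Q ^ 2 * Z ^ 6) < n ∧
      n * d < (n / (4 * Q ^ 2 * Z ^ 6) + 1) * (d * (4 * Q ^ 2 * Z ^ 6) + 1) := by
  have h4 : 1 ≤ Z ^ 6 := Nat.one_le_pow _ _ (by omega)
  have h5 : 1 ≤ Q ^ 2 := Nat.one_le_pow _ _ (by omega)
  obtain ⟨A, hA⟩ : ∃ A : ℕ, A = 4 * Q ^ 2 * Z ^ 6 := ⟨_, rfl⟩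
  have hA4 : 4 ≤ A := by rw [hA]; nlinarith
  rw [← hA]
  refine ⟨Nat.div_lt_self (by omega) (by omega), ?_⟩
  have h1 : n < A * (n / A + 1) := Nat.lt_mul_div_succ n (by omega)
  calc n * d ≤ A * (n / A + 1) * d := Nat.mul_le_mul_right _ h1.le
    _ = (n / A + 1) * (d * A) := by ring
    _ < (n / A + 1) * (d * A + 1) :=
        (Nat.mul_lt_mul_left (Nat.succ_pos _)).2 (Nat.lt_succ_self _)

theorem numB_d (g Z n d Q q x₀ y₀ xf yf : ℕ) (hZ : 4 ≤ Z) (hn : 1 ≤ n) (hd : 1 ≤ d)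
    (hQ : 2 ≤ Q) (hq : q ≤ Q) (hx₀ : x₀ ≤ d * (4 * Q ^ 2 * Z ^ 6))
    (hy₀ : y₀ ≤ n / (4 * Q ^ 2 * Z ^ 6)) (hxf : xf ≤ (n * d * Z ^ 6) / (n / Q + 1))
    (hyf : yf * (d * (Q ^ 3 * Z ^ (18 * g + 20))) ≤ 2 * (n * d * Z ^ 6)) :
    x₀ * (q * yf) + q * xf * y₀ < n * d := by
  have h2 := numB_pow g Z hZ
  have h4 : 1 ≤ Z ^ 6 := Nat.one_le_pow _ _ (by omega)
  have h5 : 1 ≤ Q ^ 2 := Nat.one_le_pow _ _ (by omega)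
  have hxf' := hxf.trans (numB_a g Z n d Q hZ hn hd hQ)
  obtain ⟨W, hW⟩ : ∃ W : ℕ, W = Q ^ 3 * Z ^ (18 * g + 20) := ⟨_, rfl⟩
  rw [← hW] at hyf
  have hW0 : 0 < W := by
    rw [hW]
    exact Nat.mul_pos (Nat.pos_of_ne_zero (by positivity)) (Nat.pos_of_ne_zero (by positivity))
  have hW1 : 32 * (Q ^ 3 * Z ^ 12) ≤ W := by
    rw [hW]
    calc 32 * (Q ^ 3 * Z ^ 12) = Q ^ 3 * (32 * Z ^ 12) := by ring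
      _ ≤ _ := Nat.mul_le_mul_left _ h2
  have hnd : 0 < n * d := Nat.mul_pos (by omega) (by omega)
  have e1 : 4 * (x₀ * (q * yf)) ≤ n * d := by
    have e2 : 4 * (x₀ * (q * yf)) * W ≤ n * d * W := by
      calc 4 * (x₀ * (q * yf)) * W ≤ 4 * (d * (4 * Q ^ 2 * Z ^ 6) * (Q * yf)) * W := by
            gcongr
        _ = 16 * (Q ^ 3 * Z ^ 6) * (yf * (d * W)) := by ring
        _ ≤ 16 * (Q ^ 3 * Z ^ 6) * (2 * (n * d * Z ^ 6)) := Nat.mul_le_mul_left _ hyf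
        _ = n * d * (32 * (Q ^ 3 * Z ^ 12)) := by ring
        _ ≤ n * d * W := Nat.mul_le_mul_left _ hW1
    exact Nat.le_of_mul_le_mul_right e2 hW0
  have e3 : 4 * (q * xf * y₀) ≤ n * d := by
    have e4 : (4 * Q ^ 2 * Z ^ 6) * (n / (4 * Q ^ 2 * Z ^ 6)) ≤ n := Nat.mul_div_le _ _
    calc 4 * (q * xf * y₀) ≤ 4 * (Q * (d * (Q * Z ^ 6)) * (n / (4 * Q ^ 2 * Z ^ 6))) := by
          gcongr
      _ = ((4 * Q ^ 2 * Z ^ 6) * (n / (4 * Q ^ 2 * Z ^ 6))) * d := by ring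
      _ ≤ n * d := Nat.mul_le_mul_right _ e4
  omega

end Pool.Agent.H72.PL
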