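import Mathlib

/-!
# Module CNumC: counting the bad primes, the final contradiction (prop. 65, section 11)

`numC_count`: all large conditions on `Z` depend on `g` only. `2^e₁ ≤ d`, so `e₁ ≤ log d / log 2 ≤ 2 Z`.
`e₂ ≤ Z^6 (1 + log W)` with `W = d Q^3 Z^(18g+20)`, `log W ≤ Z + 54 g log Z + (18g+20) log Z ≤ 2 Z`, so
`e₂ ≤ Z^6 (1 + 2 Z) ≤ 3 Z^7`. `2^e₃ ≤ (2 (x₀+1)(y₀+1))^2`, `x₀ ≤ d 4 Q^2 Z^6`, `y₀ ≤ n`, so
`e₃ log 2 ≤ 2 (log 2 + log(x₀+1) + log(y₀+1)) ≤ 8 Z`, `e₃ ≤ 16 Z`. So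
`e₁ + e₂ + e₃ + 4^g Z^6 + 3 Z ≤ 3 Z^7 + 4^g Z^6 + 21 Z < Z^8`.
`numC_end`: `s v ≤ d Q Z^6`, `s |u| W₁ ≤ 2 n Z^6`: so `s (v h + |u| hy) ≤ d Q Z^6 h + 2 n Z^6 hy / W₁ ≤
Z^6 / W₁ + 2 Z^6 B / W₁ = (2B+1) Z^6/W₁` (using `d h ≤ 1/(Q W₁)`, `n hy ≤ B`), `W₁ ≥ Z^(18g+20)`, and this is
`< 1/(2Z)^(18g+7)` as soon as `(2B+1) 2^(18g+7) < Z^7`.
-/

set_option autoImplicit false

namespace Pool.Agent.H72.PL

theorem numC_aux2 (e s : ℕ) (L : ℝ) (h : 2 ^ e ≤ s) (hL : Real.log s ≤ L) :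
    (e : ℝ) * (2 / 3) ≤ L := by
  have h0 : (0 : ℝ) < (2 : ℝ) ^ e := by positivity
  have h1 : ((2 : ℝ) ^ e) ≤ s := by exact_mod_cast h
  have h2 := Real.log_le_log h0 h1
  rw [Real.log_pow] at h2
  have h3 : (e : ℝ) * (2 / 3) ≤ e * Real.log 2 := by
    apply mul_le_mul_of_nonneg_left _ (Nat.cast_nonneg e)
    have := Real.log_two_gt_d9
    linarith
  linarith

theorem numC_auxlog (c : ℝ) (hc : 0 ≤ c) : ∃ Z₀ : ℕ, ∀ Z : ℕ, Z₀ ≤ Z → c * Real.log Z ≤ Z := by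
  have h1 : ∀ᶠ x : ℝ in Filter.atTop, ‖Real.log x‖ ≤ (1 / (c + 1)) * ‖x‖ :=
    Real.isLittleO_log_id_atTop.bound (by positivity)
  have h2 : ∀ᶠ n : ℕ in Filter.atTop, ‖Real.log (n : ℝ)‖ ≤ (1 / (c + 1)) * ‖(n : ℝ)‖ :=
    tendsto_natCast_atTop_atTop.eventually h1
  obtain ⟨Z₀, hZ₀⟩ := Filter.eventually_atTop.1 h2
  refine ⟨Z₀, fun Z hZ => ?_⟩
  have h3 := hZ₀ Z hZ
  rw [Real.norm_eq_abs, Real.norm_eq_abs, Nat.abs_cast] at h3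
  have h4 : Real.log Z ≤ (1 / (c + 1)) * (Z : ℝ) := (le_abs_self _).trans h3
  have hZ0 : (0 : ℝ) ≤ Z := Nat.cast_nonneg Z
  calc c * Real.log Z ≤ c * ((1 / (c + 1)) * (Z : ℝ)) := mul_le_mul_of_nonneg_left h4 hc
    _ = (c / (c + 1)) * Z := by ring
    _ ≤ 1 * Z := by
        apply mul_le_mul_of_nonneg_right _ hZ0
        rw [div_le_one (by linarith)]
        linarith
    _ = Z := one_mul _

theorem numC_auxdiv (Z n d Q : ℕ) (hQ : 2 ≤ Q) :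
    (n * d * Z ^ 6) / (n / Q + 1) ≤ d * (Q * Z ^ 6) := by
  have h1 : n < Q * (n / Q + 1) := Nat.lt_mul_div_succ n (by omega)
  apply Nat.div_le_of_le_mul
  calc n * d * Z ^ 6 = n * (d * Z ^ 6) := by ring
    _ ≤ Q * (n / Q + 1) * (d * Z ^ 6) := Nat.mul_le_mul_right _ h1.le
    _ = (n / Q + 1) * (d * (Q * Z ^ 6)) := by ring

theorem numC_count (g : ℕ) (hg : 1 ≤ g) : ∃ Z₀ : ℕ, ∀ Z : ℕ, Z₀ ≤ Z →
    ∀ (n d Q m e₁ e₂ e₃ x₀ y₀ : ℕ), 1 ≤ n → 1 ≤ d → 2 ≤ Q → Q ≤ Z ^ (18 * g) →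
      Real.log n ≤ Z → Real.log d ≤ Z → Z ^ 8 ≤ m → 2 ^ e₁ ≤ d →
      (e₂ : ℝ) * ((n : ℝ) * d) ≤
        ((n * d * Z ^ 6 : ℕ) : ℝ) * (1 + Real.log ((d * (Q ^ 3 * Z ^ (18 * g + 20)) : ℕ) : ℝ)) →
      2 ^ e₃ ≤ (2 * ((x₀ + 1) * (y₀ + 1))) ^ 2 → x₀ ≤ d * (4 * Q ^ 2 * Z ^ 6) → y₀ ≤ n →
      e₁ + e₂ + e₃ + 4 ^ g * Z ^ 6 + 3 * Z < m := by
  obtain ⟨Z₁, hZ₁⟩ := numC_auxlog (72 * g + 20) (by positivity)
  refine ⟨Z₁ + 4 ^ g + 21, fun Z hZ n d Q m e₁ e₂ e₃ x₀ y₀ hn hd hQ hQZ hln hld hm h₁ h₂ h₃ hx hy => ?_⟩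
  have h4gN : 1 ≤ 4 ^ g := Nat.one_le_pow _ _ (by norm_num)
  have hlog := hZ₁ Z (by omega)
  have hZ21 : 4 ^ g + 21 ≤ Z := by omega
  have hZN : 1 ≤ Z := by omega
  have hZR : ((4 : ℝ) ^ g + 21) ≤ Z := by exact_mod_cast hZ21
  have h4g : (1 : ℝ) ≤ 4 ^ g := one_le_pow₀ (by norm_num)
  have hZ1 : (1 : ℝ) ≤ Z := by linarith
  have hZ0 : (0 : ℝ) < Z := by linarith
  have hnR : (1 : ℝ) ≤ n := by exact_mod_cast hn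
  have hdR : (1 : ℝ) ≤ d := by exact_mod_cast hd
  have hQR : (2 : ℝ) ≤ Q := by exact_mod_cast hQ
  have hlZ : 0 ≤ Real.log Z := Real.log_nonneg hZ1
  have hgR : (1 : ℝ) ≤ g := by exact_mod_cast hg
  have hlQ : Real.log Q ≤ 18 * g * Real.log Z := by
    have h1 : (Q : ℝ) ≤ (Z : ℝ) ^ (18 * g) := by exact_mod_cast hQZ
    have h2 := Real.log_le_log (by linarith) h1
    rw [Real.log_pow] at h2
    push_cast at h2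
    exact h2
  have hlQ0 : 0 ≤ Real.log Q := Real.log_nonneg (by linarith)
  -- first
  have e1 : (e₁ : ℝ) ≤ 2 * Z := by
    have := numC_aux2 e₁ d Z h₁ hld
    linarith
  -- second
  have e2 : (e₂ : ℝ) ≤ (Z : ℝ) ^ 6 * (1 + 2 * Z) := by
    have h5 : Real.log ((d * (Q ^ 3 * Z ^ (18 * g + 20)) : ℕ) : ℝ) ≤ 2 * Z := by
      push_cast
      rw [Real.log_mul (by positivity) (by positivity), Real.log_mul (by positivity)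
        (by positivity), Real.log_pow, Real.log_pow]
      push_cast
      nlinarith
    have hnd : (0 : ℝ) < (n : ℝ) * d := by positivity
    have h6 : (e₂ : ℝ) * ((n : ℝ) * d) ≤ ((Z : ℝ) ^ 6 * (1 + 2 * Z)) * ((n : ℝ) * d) := by
      refine h₂.trans ?_
      push_cast
      calc (n : ℝ) * d * Z ^ 6 * (1 + Real.log (d * (Q ^ 3 * Z ^ (18 * g + 20)))) ≤
          (n : ℝ) * d * Z ^ 6 * (1 + 2 * Z) := by
            apply mul_le_mul_of_nonneg_left _ (by positivity)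
            push_cast at h5
            linarith
        _ = _ := by ring
    exact le_of_mul_le_mul_right h6 hnd
  -- third
  have e3 : (e₃ : ℝ) ≤ 12 * Z := by
    have h7 : (2 * ((x₀ + 1) * (y₀ + 1))) ^ 2 ≤ (32 * (n * (d * (Q ^ 2 * Z ^ 6)))) ^ 2 := by
      apply Nat.pow_le_pow_left
      have h8 : 1 ≤ d * (Q ^ 2 * Z ^ 6) := by
        have : 0 < d * (Q ^ 2 * Z ^ 6) := by positivity
        omega
      have h9 : x₀ + 1 ≤ 5 * (d * (Q ^ 2 * Z ^ 6)) := by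
        have : d * (4 * Q ^ 2 * Z ^ 6) = 4 * (d * (Q ^ 2 * Z ^ 6)) := by ring
        omega
      have h10 : y₀ + 1 ≤ 2 * n := by omega
      calc 2 * ((x₀ + 1) * (y₀ + 1)) ≤ 2 * (5 * (d * (Q ^ 2 * Z ^ 6)) * (2 * n)) := by
            gcongr
        _ = 20 * (n * (d * (Q ^ 2 * Z ^ 6))) := by ring
        _ ≤ 32 * (n * (d * (Q ^ 2 * Z ^ 6))) := by gcongr; norm_num
    have h11 : Real.log (((32 * (n * (d * (Q ^ 2 * Z ^ 6)))) ^ 2 : ℕ) : ℝ) ≤ 8 * Z := by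
      push_cast
      rw [Real.log_pow, Real.log_mul (by norm_num) (by positivity),
        Real.log_mul (by positivity) (by positivity), Real.log_mul (by positivity) (by positivity),
        Real.log_mul (by positivity) (by positivity), Real.log_pow, Real.log_pow]
      have h12 : Real.log 32 ≤ 4 := by
        have : (32 : ℝ) = 2 ^ 5 := by norm_num
        rw [this, Real.log_pow]
        have := Real.log_two_lt_d9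
        push_cast
        linarith
      push_cast
      nlinarith
    have := numC_aux2 e₃ _ (8 * Z) (h₃.trans h7) h11
    linarith
  have hfin : (e₁ : ℝ) + e₂ + e₃ + 4 ^ g * Z ^ 6 + 3 * Z < Z ^ 8 := by
    have hZ6 : (1 : ℝ) ≤ (Z : ℝ) ^ 6 := one_le_pow₀ hZ1
    have hZ7 : (Z : ℝ) ^ 6 ≤ (Z : ℝ) ^ 7 := pow_le_pow_right₀ hZ1 (by norm_num)
    have hZ7' : (Z : ℝ) ≤ (Z : ℝ) ^ 7 := le_self_pow₀ hZ1 (by norm_num)
    have h13 : ((4 : ℝ) ^ g + 21) * (Z : ℝ) ^ 7 ≤ (Z : ℝ) ^ 8 := by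
      calc ((4 : ℝ) ^ g + 21) * (Z : ℝ) ^ 7 ≤ Z * (Z : ℝ) ^ 7 := by gcongr
        _ = (Z : ℝ) ^ 8 := by ring
    have h14 : (4 : ℝ) ^ g * (Z : ℝ) ^ 6 ≤ 4 ^ g * (Z : ℝ) ^ 7 := by gcongr
    have h15 : (Z : ℝ) ^ 6 * (1 + 2 * Z) = Z ^ 6 + 2 * Z ^ 7 := by ring
    rw [h15] at e2
    linarith
  have hfin' : e₁ + e₂ + e₃ + 4 ^ g * Z ^ 6 + 3 * Z < Z ^ 8 := by exact_mod_cast hfin
  omega

theorem numC_end (g : ℕ) (hg : 1 ≤ g) (B : ℝ) (hB : 0 ≤ B) : ∃ Z₀ : ℕ, ∀ Z : ℕ, Z₀ ≤ Z →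
    ∀ (n d Q s v u : ℕ) (h hy : ℝ), 1 ≤ n → 1 ≤ d → 2 ≤ Q → 0 ≤ h → 0 ≤ hy → hy * n ≤ B →
      (d : ℝ) * h ≤ 1 / ((Q : ℝ) * ((Q : ℝ) ^ 3 * (Z : ℝ) ^ (18 * g + 20))) →
      s * v ≤ (n * d * Z ^ 6) / (n / Q + 1) →
      s * u * (d * (Q ^ 3 * Z ^ (18 * g + 20))) ≤ 2 * (n * d * Z ^ 6) →
      (s : ℝ) * ((v : ℝ) * h + (u : ℝ) * hy) < 1 / ((2 * Z : ℕ) : ℝ) ^ (18 * g + 7) := by
  obtain ⟨Z₁, hZ₁⟩ := exists_nat_gt ((1 + 2 * B) * 2 ^ (18 * g + 7))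
  refine ⟨Z₁ + 1, fun Z hZ n d Q s v u h hy hn hd hQ hh hhy hB' hdh hsv hsu => ?_⟩
  have hZR : (Z₁ : ℝ) + 1 ≤ Z := by exact_mod_cast hZ
  have hZ₁0 : (0 : ℝ) ≤ Z₁ := Nat.cast_nonneg _
  have hZ1 : (1 : ℝ) ≤ Z := by linarith
  have hZ0 : (0 : ℝ) < Z := by linarith
  have hnR : (1 : ℝ) ≤ n := by exact_mod_cast hn
  have hdR : (1 : ℝ) ≤ d := by exact_mod_cast hd
  have hQR : (2 : ℝ) ≤ Q := by exact_mod_cast hQ
  have hQ3 : (1 : ℝ) ≤ (Q : ℝ) ^ 3 := one_le_pow₀ (by linarith)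
  obtain ⟨W, hW⟩ : ∃ W : ℝ, W = (Q : ℝ) ^ 3 * (Z : ℝ) ^ (18 * g + 20) := ⟨_, rfl⟩
  have hW0 : 0 < W := by rw [hW]; positivity
  have hWZ : (Z : ℝ) ^ (18 * g + 20) ≤ W := by
    rw [hW]
    exact le_mul_of_one_le_left (by positivity) hQ3
  rw [← hW] at hdh
  have f1 : ((s : ℝ) * v) * h ≤ (Z : ℝ) ^ 6 / W := by
    have h1 : s * v ≤ d * (Q * Z ^ 6) := hsv.trans (numC_auxdiv Z n d Q hQ)
    have h1' : (s : ℝ) * v ≤ d * (Q * Z ^ 6) := by exact_mod_cast h1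
    calc ((s : ℝ) * v) * h ≤ (d * (Q * Z ^ 6)) * h := mul_le_mul_of_nonneg_right h1' hh
      _ = (d * h) * (Q * Z ^ 6) := by ring
      _ ≤ (1 / (Q * W)) * (Q * Z ^ 6) := by gcongr
      _ = (Z : ℝ) ^ 6 / W := by field_simp
  have f2 : ((s : ℝ) * u) * hy ≤ 2 * B * (Z : ℝ) ^ 6 / W := by
    have h1 : (s : ℝ) * u * (d * W) ≤ 2 * (n * d * Z ^ 6) := by
      rw [hW]
      exact_mod_cast hsu
    have h2 : (s : ℝ) * u * W ≤ 2 * (n * Z ^ 6) := by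
      have h3 : ((s : ℝ) * u * W) * d ≤ (2 * (n * Z ^ 6)) * d := by
        calc ((s : ℝ) * u * W) * d = (s : ℝ) * u * (d * W) := by ring
          _ ≤ 2 * (n * d * Z ^ 6) := h1
          _ = _ := by ring
      exact le_of_mul_le_mul_right h3 (by linarith)
    rw [le_div_iff₀ hW0]
    calc (s : ℝ) * u * hy * W = ((s : ℝ) * u * W) * hy := by ring
      _ ≤ (2 * (n * Z ^ 6)) * hy := mul_le_mul_of_nonneg_right h2 hhy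
      _ = 2 * (hy * n) * Z ^ 6 := by ring
      _ ≤ 2 * B * Z ^ 6 := by gcongr
  have f3 : (s : ℝ) * ((v : ℝ) * h + (u : ℝ) * hy) ≤ (1 + 2 * B) * (Z : ℝ) ^ 6 / W := by
    have e : (s : ℝ) * ((v : ℝ) * h + (u : ℝ) * hy) = ((s : ℝ) * v) * h + ((s : ℝ) * u) * hy := by
      ring
    have e' : (1 + 2 * B) * (Z : ℝ) ^ 6 / W = (Z : ℝ) ^ 6 / W + 2 * B * (Z : ℝ) ^ 6 / W := by
      ring
    rw [e, e']
    exact add_le_add f1 f2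
  refine lt_of_le_of_lt f3 ?_
  have hP : (0 : ℝ) < (2 * (Z : ℝ)) ^ (18 * g + 7) := by positivity
  push_cast
  rw [div_lt_div_iff₀ hW0 hP, one_mul]
  refine lt_of_lt_of_le ?_ hWZ
  rw [mul_pow]
  have f4 : (1 + 2 * B) * 2 ^ (18 * g + 7) < (Z : ℝ) ^ 7 := by
    have h1 : (Z : ℝ) ≤ (Z : ℝ) ^ 7 := le_self_pow₀ hZ1 (by norm_num)
    linarith
  have f5 : (0 : ℝ) < (Z : ℝ) ^ (18 * g + 13) := by positivity
  calc (1 + 2 * B) * (Z : ℝ) ^ 6 * (2 ^ (18 * g + 7) * (Z : ℝ) ^ (18 * g + 7)) =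
      ((1 + 2 * B) * 2 ^ (18 * g + 7)) * (Z : ℝ) ^ (18 * g + 13) := by ring
    _ < (Z : ℝ) ^ 7 * (Z : ℝ) ^ (18 * g + 13) := mul_lt_mul_of_pos_right f4 f5
    _ = (Z : ℝ) ^ (18 * g + 20) := by ring

/-- `2^e ≤ s`, `log s ≤ 2 Z` gives `e ≤ 3 Z` -/
theorem numC_log (Z s e : ℕ) (hs : 1 ≤ s) (hlog : Real.log s ≤ 2 * Z) (h : 2 ^ e ≤ s) :
    e ≤ 3 * Z := by
  have h1 := numC_aux2 e s (2 * Z) h hlog
  have h2 : (e : ℝ) ≤ 3 * Z := by linarith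
  exact_mod_cast h2

end Pool.Agent.H72.PL
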