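import Pool.Agent.H72.PL.BoxB

/-!
# Module Codim: codimension over `k` and rank over `L` (paper proof: proposal 65, section 4)

`H = k.fixingSubgroup`. Rows `r_(σ,t) = (σ(y_t)^a σ(x_t)^b)_(a,b)`. `U` = their `L`-span in `L^J`,
`J = Fin (M+1) × Fin (W+1)`. `U` is stable under the coordinatewise action of `H` (`τ r_(σ,t) =
r_(τσ,t)`). Let `N_k = {G ∈ k^J : dot r G = 0 for all r ∈ U}`; by `ev_box` it corresponds to
`IB (vanI k P) M W` (`G(P_t) = 0` iff `σ (G(P_t)) = 0`; `boxEquiv`). To show: `#J ≤ dim_k N_k + dim_L U`.
Proof A (reduced echelon basis): choose a subset `I ⊆ J` of size `u = dim_L U` such that `U → L^I` is an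
isomorphism (as in `rank_box`), let `(e_i)_{i∈I}` be the basis of `U` dual to the coordinates in `I`. For
`τ ∈ H`, `τ e_i ∈ U` has the same coordinates in `I`, so `τ e_i = e_i`: the entries of `e_i` are fixed by
`H`, they lie in `k` (`IsGalois`: the fixed field of `k.fixingSubgroup` is `k`,
`IsGalois.fixedField_fixingSubgroup`). So `N_k` contains (is equal to) the kernel of the `u` functionals
`e_i ∈ k^J`: dimension `≥ #J - u`.
Proof B: choose a basis `ω_1..ω_m` of `L/k`, `G ∈ k^J` is killed by the row of `(1, t)` iff it is killed by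
the `k`-rational rows `(Tr(ω_c y_t^a x_t^b))_(a,b)`, `c ≤ m` (trace form nondegenerate), these rows lie in
`U` (`Tr = ∑_σ σ`) and rows in `k^J` which are `k`-independent are `L`-independent
(`LinearIndependent` base change), so their number of independent ones is `≤ dim_L U`.
-/

set_option autoImplicit false

open Polynomial Module

namespace Pool.Agent.H72.PL

/-- conjugate vectors of vectors independent over the fixed field are independent -/
theorem artin_indep {k L : Type} [Field k] [Field L] [Algebra k L] [FiniteDimensional k L]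
    [IsGalois k L] {ι κ : Type} [Fintype κ] (w : κ → ι → L) (hw : LinearIndependent k w)
    (c : κ → L) (h : ∀ (σ : L ≃ₐ[k] L) (t : ι), ∑ i, c i * σ (w i t) = 0) (i : κ) : c i = 0 := by
  have key : ∀ l : L, ∀ i, Algebra.trace k L (c i * l) = 0 := by
    intro l
    rw [Fintype.linearIndependent_iff] at hw
    apply hw
    ext t
    rw [Finset.sum_apply]
    simp only [Pi.smul_apply, Pi.zero_apply]
    simp only [Algebra.smul_def, trace_eq_sum_automorphisms, Finset.sum_mul]
    rw [Finset.sum_comm]
    apply Finset.sum_eq_zero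
    intro σ _
    have h1 := h σ.symm t
    have h2 : σ (l * ∑ i, c i * σ.symm (w i t)) = 0 := by rw [h1, mul_zero, map_zero]
    rw [← h2, map_mul, map_sum, Finset.mul_sum]
    apply Finset.sum_congr rfl
    intro i _
    rw [map_mul, map_mul, AlgEquiv.apply_symm_apply]
    ring
  exact (traceForm_nondegenerate k L).1 (c i) (fun l => by
    rw [Algebra.traceForm_apply]; exact key l i)

theorem codim_aux {k L : Type} [Field k] [Field L] [Algebra k L] [FiniteDimensional k L]
    [IsGalois k L] {ι : Type} (M W : ℕ) (P : ι → L × L) :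
    (M + 1) * (W + 1) ≤ finrank k ↥(IB (vanI k P) M W) +
      finrank L ↥(Submodule.span L (Set.range fun s : (L ≃ₐ[k] L) × ι =>
        jrow M W (s.1 (P s.2).1) (s.1 (P s.2).2) 0 0)) := by
  classical
  set U : Submodule L (Fin (M + 1) × Fin (W + 1) → L) :=
    Submodule.span L (Set.range fun s : (L ≃ₐ[k] L) × ι =>
        jrow M W (s.1 (P s.2).1) (s.1 (P s.2).2) 0 0) with hU
  -- evaluation at the points
  let E : ↥(Box k M W) →ₗ[k] (ι → L) :=
    LinearMap.pi fun t => ((ev k (P t).1 (P t).2 : BP k →ₐ[k] L).toLinearMap ∘ₗ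
      (Box k M W).subtype)
  have hE : ∀ (G : ↥(Box k M W)) t, E G t = ev k (P t).1 (P t).2 (G : BP k) := fun _ _ => rfl
  have hker : IB (vanI k P) M W = (LinearMap.ker E).map (Box k M W).subtype := by
    ext G
    rw [Submodule.mem_map]
    constructor
    · rintro ⟨h1, h2⟩
      refine ⟨⟨G, h2⟩, ?_, rfl⟩
      rw [LinearMap.mem_ker]
      ext t
      have h3 : G ∈ vanI k P := h1
      rw [vanI, Submodule.mem_iInf] at h3
      exact (RingHom.mem_ker).1 (h3 t)
    · rintro ⟨G', h1, rfl⟩
      refine ⟨?_, G'.2⟩
      show (G' : BP k) ∈ vanI k P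
      rw [vanI, Submodule.mem_iInf]
      intro t
      rw [LinearMap.mem_ker] at h1
      exact (RingHom.mem_ker).2 (congrFun h1 t)
  have hdim : finrank k ↥(LinearMap.range E) + finrank k ↥(LinearMap.ker E) =
      (M + 1) * (W + 1) := by
    have h1 := LinearMap.finrank_range_add_finrank_ker (K := k) (V := ↥(Box k M W))
      (V₂ := ι → L) E
    have h2 : finrank k ↥(Box k M W) = (M + 1) * (W + 1) := finrank_box M W
    rw [h2] at h1
    exact h1
  rw [hker, Submodule.finrank_map_subtype_eq, ← hdim, add_comm]
  apply Nat.add_le_add_left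
  -- a basis of the range
  let bs := Module.finBasis k ↥(LinearMap.range E)
  have hpre : ∀ i, ∃ G : ↥(Box k M W), E G = (bs i : ι → L) := fun i => (bs i).2
  choose v hv using hpre
  have hli : LinearIndependent k fun i => E (v i) := by
    have h1 : LinearIndependent k fun i => ((bs i : ↥(LinearMap.range E)) : ι → L) :=
      bs.linearIndependent.map' (LinearMap.range E).subtype (Submodule.ker_subtype _)
    have h2 : (fun i => E (v i)) = fun i => ((bs i : ↥(LinearMap.range E)) : ι → L) := funext hv
    rw [h2]
    exact h1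
  -- the values of the rows
  have hrow : ∀ (σ : L ≃ₐ[k] L) (t : ι) (G : ↥(Box k M W)),
      dot (jrow M W (σ (P t).1) (σ (P t).2) 0 0)
        (fun j => algebraMap k L (((G : BP k).coeff j.2).coeff j.1)) = σ (E G t) := by
    intro σ t G
    rw [hE, ev_box _ _ M W (G : BP k) G.2]
    unfold dot jrow
    rw [map_sum]
    apply Finset.sum_congr rfl
    intro j _
    simp only [map_mul, map_pow, map_natCast, AlgEquiv.commutes]
  let Ψ : ↥U →ₗ[L] (Fin (finrank k ↥(LinearMap.range E)) → L) :=
    { toFun := fun r i => dot (r : Fin (M + 1) × Fin (W + 1) → L)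
        (fun j => algebraMap k L (((v i : BP k).coeff j.2).coeff j.1))
      map_add' := by
        intro r r'
        ext i
        simp [dot, add_mul, Finset.sum_add_distrib]
      map_smul' := by
        intro c r
        ext i
        simp [dot, mul_assoc, Finset.mul_sum] }
  have hsurj : LinearMap.range Ψ = ⊤ := by
    by_contra hne
    obtain ⟨f, hf0, hf⟩ := Submodule.exists_le_ker_of_lt_top _ (lt_top_iff_ne_top.2 hne)
    apply hf0
    have hc : ∀ i, f (fun j => if i = j then 1 else 0) = 0 := by
      refine artin_indep (fun i => E (v i)) hli _ ?_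
      intro σ t
      have hmem : jrow M W (σ (P t).1) (σ (P t).2) 0 0 ∈ U :=
        Submodule.subset_span ⟨(σ, t), rfl⟩
      have h1 := hf (LinearMap.mem_range_self Ψ ⟨_, hmem⟩)
      rw [LinearMap.mem_ker, LinearMap.pi_apply_eq_sum_univ] at h1
      refine Eq.trans ?_ h1
      apply Finset.sum_congr rfl
      intro i _
      rw [smul_eq_mul, mul_comm]
      congr 1
      show σ (E (v i) t) = dot (jrow M W (σ (P t).1) (σ (P t).2) 0 0)
        (fun j => algebraMap k L (((v i : BP k).coeff j.2).coeff j.1))
      rw [hrow]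
    ext i
    simp only [LinearMap.comp_apply, LinearMap.zero_apply, LinearMap.coe_single]
    have h2 : (Pi.single i (1 : L) : Fin (finrank k ↥(LinearMap.range E)) → L) =
        fun j => if i = j then 1 else 0 := by
      ext j
      simp [Pi.single_apply, eq_comm]
    rw [h2, hc i]
  have h1 := LinearMap.finrank_range_le Ψ
  rw [hsurj, finrank_top, Module.finrank_fin_fun] at h1
  exact h1

theorem codim_le {K L : Type} [Field K] [Field L] [Algebra K L] [FiniteDimensional K L]
    [IsGalois K L] (k : IntermediateField K L) {ι : Type} [Finite ι] (M W : ℕ) (P : ι → L × L) :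
    (M + 1) * (W + 1) ≤ finrank k ↥(IB (vanI k P) M W) +
      finrank L ↥(Submodule.span L (Set.range fun s : k.fixingSubgroup × ι =>
        jrow M W (s.1.1 (P s.2).1) (s.1.1 (P s.2).2) 0 0)) := by
  have h1 := codim_aux (k := k) (L := L) M W P
  have h2 : (Set.range fun s : (L ≃ₐ[k] L) × ι => jrow M W (s.1 (P s.2).1) (s.1 (P s.2).2) 0 0) =
      Set.range fun s : k.fixingSubgroup × ι =>
        jrow M W (s.1.1 (P s.2).1) (s.1.1 (P s.2).2) 0 0 := by
    ext r
    constructor
    · rintro ⟨⟨σ, t⟩, rfl⟩
      have h3 : ∀ x : L, ((IntermediateField.fixingSubgroupEquiv k).symm σ).1 x = σ x := by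
        intro x
        have h4 : IntermediateField.fixingSubgroupEquiv k
          ((IntermediateField.fixingSubgroupEquiv k).symm σ) = σ := MulEquiv.apply_symm_apply _ _
        conv_rhs => rw [← h4]
        rfl
      refine ⟨((IntermediateField.fixingSubgroupEquiv k).symm σ, t), ?_⟩
      simp only [h3]
    · rintro ⟨⟨σ, t⟩, rfl⟩
      exact ⟨(IntermediateField.fixingSubgroupEquiv k σ, t), rfl⟩
  rw [h2] at h1
  exact h1

end Pool.Agent.H72.PL
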