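import Pool.Agent.H72.PL.Defs

/-!
# Module Corank: determinants of polynomial matrices vanish to the order of the corank

1. `corank_dvd`: `A` an `m × m` matrix over `F[X]`, `η ∈ F`, `v_1..v_d` linearly independent vectors
   with `A(η) v_i = 0`. Then `(X - η)^d ∣ det A`. Extend `v` to a basis of `F^m` (`d ≤ m`), let `B` be the
   invertible constant matrix with these columns. In `A * C(B)` the first `d` columns vanish at `η`, so are
   divisible by `X - η`, so `(X - η)^d ∣ det (A * C(B)) = det A * C (det B)`, `det B ≠ 0`. (Instead of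
   `Fin m` reindexing one can use: a basis indexed by a type `Fin d ⊕ Fin (m - d)`; or induction on `d`.)
2. `grid_le`: apply 1 over `Ω` to `A.map (mapRingHom (algebraMap k Ω))` for all `η ∈ S`: the product of the
   `(X - η)^d`, `η ∈ S`, (pairwise coprime) divides the image of `det A`, which is not zero.
3. `grid_det`: the coefficient matrix `cmat g` (rows `g_i`, columns `X^j`, `j < m`): for `x ∈ R η` the
   vector `(x^j)_j` is in the kernel of `(cmat g)(η)`, because `ev k η x (g_i) =
   ∑_{j<m} aeval η ((g_i).coeff j) x^j = 0`. `d ≤ #R η`, `d ≤ m`: `d` distinct `x` give linearly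
   independent vectors (`Matrix.vandermonde`, `det_vandermonde_ne_zero_iff`, or: a polynomial of degree
   `< m`... the vectors `(x_i^j)_{j<m}` restricted to `j < d` are the rows of a Vandermonde matrix).
4. `natDegree_cmat_det`: `natDegree (det (cmat g)) ≤ ∑ dY (g_i)`: Leibniz formula
   (`Matrix.det_apply`, `natDegree_sum_le`, `natDegree_prod_le`), `natDegree ((g_i).coeff j) ≤ dY (g_i)`
   (`dY_le` of module BoxA; here it is a hypothesis `e`).
5. `cmat_det_ne_zero`: if the `toF (g_i)` are linearly independent over `k(Y)` and have degree `< m` then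
   `det (cmat g) ≠ 0`: otherwise the image of the matrix in `k(Y)` has dependent rows
   (`Matrix.exists_vecMul_eq_zero_iff` or `Matrix.nondegenerate`..), a nontrivial relation.
-/

set_option autoImplicit false

open Polynomial Module

namespace Pool.Agent.H72.PL

theorem corank_dvd {F : Type} [Field F] {m d : ℕ} (A : Matrix (Fin m) (Fin m) F[X]) (η : F)
    (v : Fin d → Fin m → F) (hv : LinearIndependent F v)
    (h : ∀ i, (A.map (eval η)).mulVec (v i) = 0) : (X - C η) ^ d ∣ A.det := by
  classical
  have hs : LinearIndepOn F id (Set.range v) := hv.linearIndepOn_id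
  set b := Basis.extend hs with hb
  have hfi : Fintype (hs.extend (Set.subset_univ _)) := FiniteDimensional.fintypeBasisIndex b
  have hcard : Fintype.card (hs.extend (Set.subset_univ _)) = m := by
    rw [← Module.finrank_eq_card_basis b, Module.finrank_fin_fun]
  let e : (hs.extend (Set.subset_univ _)) ≃ Fin m := Fintype.equivFinOfCardEq hcard
  set b' := b.reindex e with hb'
  have hmem : ∀ i, v i ∈ hs.extend (Set.subset_univ _) := fun i =>
    hs.subset_extend (Set.subset_univ _) ⟨i, rfl⟩
  let φ : Fin d → Fin m := fun i => e ⟨v i, hmem i⟩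
  have hφ : Function.Injective φ := by
    intro i j h
    have h1 := e.injective h
    exact hv.injective (congrArg Subtype.val h1)
  have hbφ : ∀ i, b' (φ i) = v i := by
    intro i
    rw [hb', Basis.reindex_apply]
    show b (e.symm (e ⟨v i, hmem i⟩)) = v i
    rw [e.symm_apply_apply, hb, Basis.extend_apply_self]
  let B : Matrix (Fin m) (Fin m) F := (Pi.basisFun F (Fin m)).toMatrix b'
  have hBdet : IsUnit B.det := by
    have := Basis.isUnit_det (Pi.basisFun F (Fin m)) b'
    rw [Basis.det_apply] at this
    exact this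
  have hBij : ∀ i j, B i j = b' j i := by
    intro i j
    rfl
  let M' : Matrix (Fin m) (Fin m) F[X] := A * B.map C
  have hM' : ∀ i j, j ∈ (Finset.univ.image φ) → (X - C η) ∣ M' i j := by
    intro i j hj
    obtain ⟨i0, _, rfl⟩ := Finset.mem_image.1 hj
    rw [dvd_iff_isRoot, IsRoot.def]
    have h1 : M' i (φ i0) = ∑ k, A i k * C (v i0 k) := by
      show (A * B.map C) i (φ i0) = _
      rw [Matrix.mul_apply]
      refine Finset.sum_congr rfl fun k _ => ?_
      rw [Matrix.map_apply, hBij, hbφ]
    rw [h1, eval_finsetSum]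
    have h2 := congrFun (h i0) i
    rw [Matrix.mulVec, Pi.zero_apply] at h2
    rw [← h2]
    refine Finset.sum_congr rfl fun k _ => ?_
    rw [eval_mul, eval_C]
    rfl
  let w : Fin m → F[X] := fun j => if j ∈ Finset.univ.image φ then X - C η else 1
  have hN : ∀ i j, ∃ c, M' i j = w j * c := by
    intro i j
    by_cases hj : j ∈ Finset.univ.image φ
    · obtain ⟨c, hc⟩ := hM' i j hj
      refine ⟨c, ?_⟩
      show _ = (if j ∈ Finset.univ.image φ then X - C η else 1) * c
      rw [if_pos hj, hc]
    · refine ⟨M' i j, ?_⟩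
      show _ = (if j ∈ Finset.univ.image φ then X - C η else 1) * M' i j
      rw [if_neg hj, one_mul]
  choose N hN using hN
  have hdet : M'.det = (X - C η) ^ d * (Matrix.of N).det := by
    have h1 : M' = Matrix.of fun i j => w j * (Matrix.of N) i j := by
      ext1 i j
      exact hN i j
    rw [h1, Matrix.det_mul_row]
    congr 1
    show ∏ j, (if j ∈ Finset.univ.image φ then X - C η else 1) = _
    rw [Finset.prod_ite_mem, Finset.univ_inter, Finset.prod_const,
      Finset.card_image_of_injective _ hφ, Finset.card_univ, Fintype.card_fin]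
  have hdet2 : M'.det = A.det * C B.det := by
    show (A * B.map C).det = _
    rw [Matrix.det_mul]
    congr 1
    exact (RingHom.map_det C B).symm
  have hunit : IsUnit (C B.det) := hBdet.map C
  rw [← hunit.dvd_mul_right, ← hdet2, hdet]
  exact dvd_mul_right _ _

theorem grid_le {k Ω : Type} [Field k] [Field Ω] [Algebra k Ω] {m d : ℕ}
    (A : Matrix (Fin m) (Fin m) k[X]) (hA : A.det ≠ 0) (S : Finset Ω)
    (h : ∀ η ∈ S, ∃ v : Fin d → Fin m → Ω, LinearIndependent Ω v ∧
      ∀ i, (A.map (aeval η)).mulVec (v i) = 0) :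
    S.card * d ≤ A.det.natDegree := by
  classical
  set φ : k →+* Ω := algebraMap k Ω with hφ
  have hmap : (A.map (mapRingHom φ)).det = A.det.map φ := by
    rw [← Polynomial.coe_mapRingHom]
    exact (RingHom.map_det (mapRingHom φ) A).symm
  have h1 : ∏ η ∈ S, (X - C η) ^ d ∣ A.det.map φ := by
    apply Finset.prod_dvd_of_coprime
    · intro a _ b _ hab
      apply IsCoprime.pow
      exact isCoprime_X_sub_C_of_isUnit_sub (sub_ne_zero.2 hab).isUnit
    · intro η hη
      obtain ⟨v, hv, hv2⟩ := h η hη
      rw [← hmap]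
      apply corank_dvd _ η v hv
      intro i
      rw [← hv2 i]
      congr 1
      ext1 r c
      rw [Matrix.map_apply, Matrix.map_apply, Matrix.map_apply, coe_mapRingHom, aeval_def,
        eval₂_eq_eval_map]
  have hne : A.det.map φ ≠ 0 := by
    rw [Ne, Polynomial.map_eq_zero]
    exact hA
  have h2 := natDegree_le_of_dvd h1 hne
  rw [natDegree_prod_of_monic _ _ (fun η _ => (monic_X_sub_C η).pow d), natDegree_map] at h2
  refine le_trans (le_of_eq ?_) h2
  rw [Finset.sum_congr rfl (fun η _ => (monic_X_sub_C η).natDegree_pow d)]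
  simp

theorem corank_ev {k L : Type} [Field k] [Field L] [Algebra k L] (m : ℕ) (y x : L) (G : BP k)
    (hG : G.natDegree < m) : ev k y x G = ∑ j : Fin m, aeval y (G.coeff j) * x ^ (j : ℕ) := by
  have h1 : G = ∑ j ∈ Finset.range m, C (G.coeff j) * X ^ j := by
    conv_lhs => rw [G.as_sum_range' m hG]
    exact Finset.sum_congr rfl fun j _ => (C_mul_X_pow_eq_monomial).symm
  conv_lhs => rw [h1]
  rw [map_sum, ← Fin.sum_univ_eq_sum_range (fun j => ev k y x (C (G.coeff j) * X ^ j))]
  refine Finset.sum_congr rfl fun j _ => ?_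
  rw [map_mul, map_pow]
  congr 1
  · exact aevalAeval_C y x _
  · congr 1
    exact aevalAeval_Y y x

theorem grid_det {k Ω : Type} [Field k] [Field Ω] [Algebra k Ω] (m d : ℕ) (hdm : d ≤ m)
    (g : Fin m → BP k) (hg : ∀ i, (g i).natDegree < m) (hdet : (cmat g).det ≠ 0)
    (S : Finset Ω) (R : Ω → Finset Ω) (hR : ∀ η ∈ S, d ≤ (R η).card)
    (h0 : ∀ η ∈ S, ∀ x ∈ R η, ∀ i, ev k η x (g i) = 0) :
    S.card * d ≤ (cmat g).det.natDegree := by
  classical
  apply grid_le (cmat g) hdet S
  intro η hη
  have hcard : Fintype.card (Fin d) ≤ Fintype.card (R η) := by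
    rw [Fintype.card_fin, Fintype.card_coe]
    exact hR η hη
  obtain ⟨f⟩ := Function.Embedding.nonempty_of_card_le hcard
  refine ⟨fun i j => ((f i : Ω)) ^ (j : ℕ), ?_, ?_⟩
  · rw [Fintype.linearIndependent_iff]
    intro c hc
    have hinj : Function.Injective (fun i : Fin d => (f i : Ω)) := fun i j h =>
      f.injective (Subtype.ext h)
    have hV := (Matrix.det_vandermonde_ne_zero_iff (v := fun i : Fin d => (f i : Ω))).2 hinj
    have hc0 : Matrix.vecMul c (Matrix.vandermonde (fun i : Fin d => (f i : Ω))) = 0 := by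
      ext j
      have h1 := congrFun hc (Fin.castLE hdm j)
      rw [Finset.sum_apply, Pi.zero_apply] at h1
      rw [Pi.zero_apply, ← h1]
      show ∑ i, c i * Matrix.vandermonde (fun i : Fin d => (f i : Ω)) i j = _
      refine Finset.sum_congr rfl fun i _ => ?_
      rw [Matrix.vandermonde_apply]
      rfl
    have h2 := Matrix.eq_zero_of_vecMul_eq_zero hV hc0
    intro i
    rw [h2]
    rfl
  · intro i
    ext r
    have h1 := h0 η hη (f i) (f i).2 r
    rw [corank_ev m η (f i : Ω) (g r) (hg r)] at h1
    rw [Pi.zero_apply, ← h1]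
    rfl

theorem natDegree_cmat_det {k : Type} [Field k] (m : ℕ) (g : Fin m → BP k) (e : Fin m → ℕ)
    (he : ∀ i b, ((g i).coeff b).natDegree ≤ e i) :
    (cmat g).det.natDegree ≤ ∑ i, e i := by
  rw [Matrix.det_apply]
  apply natDegree_sum_le_of_forall_le
  intro σ _
  refine (natDegree_smul_le _ _).trans ?_
  refine (natDegree_prod_le _ _).trans ?_
  rw [← Equiv.sum_comp σ e]
  exact Finset.sum_le_sum fun i _ => he (σ i) i

theorem cmat_det_ne_zero {k : Type} [Field k] (m : ℕ) (g : Fin m → BP k)
    (hg : ∀ i, (g i).natDegree < m) (h : LinearIndependent (Fr k) fun i => toF (g i)) :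
    (cmat g).det ≠ 0 := by
  intro hdet
  have hB : ((cmat g).map (algebraMap k[X] (Fr k))).det = 0 := by
    rw [← RingHom.mapMatrix_apply, ← RingHom.map_det, hdet, map_zero]
  obtain ⟨v, hv, hv0⟩ := Matrix.exists_vecMul_eq_zero_iff.2 hB
  rw [Fintype.linearIndependent_iff] at h
  apply hv
  ext i
  apply h v
  ext j
  rw [finsetSum_coeff, coeff_zero]
  by_cases hj : j < m
  · have h1 := congrFun hv0 ⟨j, hj⟩
    rw [Pi.zero_apply] at h1
    rw [← h1]
    show _ = ∑ i, v i * ((cmat g).map (algebraMap k[X] (Fr k))) i ⟨j, hj⟩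
    refine Finset.sum_congr rfl fun i _ => ?_
    rw [coeff_smul, smul_eq_mul]
    congr 1
    show (Polynomial.map (algebraMap k[X] (Fr k)) (g i)).coeff j = _
    rw [coeff_map]
    rfl
  · apply Finset.sum_eq_zero
    intro i _
    rw [coeff_smul, smul_eq_mul]
    have h1 : (toF (g i)).coeff j = 0 := by
      show (Polynomial.map (algebraMap k[X] (Fr k)) (g i)).coeff j = 0
      rw [coeff_map, coeff_eq_zero_of_natDegree_lt (by have := hg i; omega), map_zero]
    rw [h1, mul_zero]

end Pool.Agent.H72.PL
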