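import Pool.Agent.H72.PL.Defs

/-!
# Module Orb: the conjugates of the point `(y, x)` (paper proof: proposal 65)

`L/K` finite Galois, `k ≤ E` intermediate fields, `E = k(y)`, `H = k.fixingSubgroup` (order `[L:k]`),
`H' = E.fixingSubgroup = {σ ∈ H : σ y = y}`. `n = [k(y) : k]`, `d = [E(x) : E]`.
* The orbit of `y` under `H` is the set of roots of `minpoly k y`, it has `n` elements
  (orbit-stabilizer: `#H / #H' = [L:k]/[L:E] = [E:k] = n`; or: `L/k` is Galois, the roots of the minimal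
  polynomial in `L` are the conjugates `σ y`, `σ : L ≃ₐ[k] L`, and are distinct).
* For `η = τ y`, `τ ∈ H`: `{σ x : σ ∈ H, σ y = η} = τ {σ x : σ ∈ H'}`, and `{σ x : σ ∈ H'}` is the set of
  roots of `minpoly E x`, with `d` elements.
So `S = {σ y}`, `R η = {σ x : σ ∈ H, σ y = η}` is a grid: if `ev k y x G = 0` then
`ev k (σ y) (σ x) G = σ (ev k y x G) = 0` for `σ ∈ H`.
The pairs `(σ y, σ x)` are `n d` in number.
(`E = k ⊔ K⟮y⟯`: an automorphism fixes `E` pointwise iff it fixes `k` and `y`.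
`IntermediateField.fixingSubgroupEquiv`, `IsGalois.card_fixingSubgroup_eq_finrank`,
`Polynomial.card_rootSet_eq_natDegree`, `minpoly.degree..`, `MulAction.card_orbit_mul_card_stabilizer_eq_card_group`.)
-/

set_option autoImplicit false

open Polynomial Module

namespace Pool.Agent.H72.PL

private theorem orb_exists {K L : Type} [Field K] [Field L] [Algebra K L] [FiniteDimensional K L]
    [IsGalois K L] (F : IntermediateField K L) (x : L) :
    ∃ S : Finset L, S.card = (minpoly F x).natDegree ∧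
      ∀ ξ, ξ ∈ S ↔ ∃ σ ∈ F.fixingSubgroup, ξ = σ x := by
  classical
  have hint : IsIntegral F x := Algebra.IsIntegral.isIntegral x
  have hne := minpoly.ne_zero hint
  refine ⟨((minpoly F x).map (algebraMap F L)).roots.toFinset, ?_, fun ξ => ?_⟩
  · have hsep : (minpoly F x).Separable := Algebra.IsSeparable.isSeparable F x
    have hspl : ((minpoly F x).map (algebraMap F L)).Splits := Normal.splits inferInstance x
    rw [Multiset.toFinset_card_of_nodup (nodup_roots hsep.map), ← hspl.natDegree_eq_card_roots,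
      natDegree_map]
  · rw [Multiset.mem_toFinset, mem_roots (by rwa [Ne, Polynomial.map_eq_zero]), IsRoot.def,
      eval_map_algebraMap]
    constructor
    · intro h
      obtain ⟨τ, hτ⟩ := minpoly.exists_algEquiv_of_root' hint.isAlgebraic h
      refine ⟨(IntermediateField.fixingSubgroupEquiv F).symm τ,
        ((IntermediateField.fixingSubgroupEquiv F).symm τ).2, ?_⟩
      exact hτ.symm
    · rintro ⟨σ, hσ, rfl⟩
      set τ := IntermediateField.fixingSubgroupEquiv F ⟨σ, hσ⟩ with hτ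
      have h1 : σ x = τ x := rfl
      rw [h1, ← AlgEquiv.coe_algHom, aeval_algHom_apply, minpoly.aeval, map_zero]

private theorem mem_fix {K L : Type} [Field K] [Field L] [Algebra K L]
    (k E : IntermediateField K L) (y : L)
    (hE : E = k ⊔ IntermediateField.adjoin K {y}) (σ : L ≃ₐ[K] L) :
    σ ∈ E.fixingSubgroup ↔ σ ∈ k.fixingSubgroup ∧ σ y = y := by
  have h : σ ∈ (IntermediateField.adjoin K {y}).fixingSubgroup ↔ σ y = y := by
    constructor
    · intro hσ
      exact hσ ⟨y, IntermediateField.mem_adjoin_simple_self K y⟩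
    · intro hσ
      rw [← Subgroup.zpowers_le, ← IntermediateField.le_iff_le, IntermediateField.adjoin_le_iff,
        Set.singleton_subset_iff]
      rintro ⟨τ, n, rfl⟩
      have h1 : σ ∈ MulAction.stabilizer (L ≃ₐ[K] L) y := hσ
      exact Subgroup.zpow_mem _ h1 n
  rw [hE, IntermediateField.fixingSubgroup_sup, Subgroup.mem_inf, h]

private theorem ev_conj {K L : Type} [Field K] [Field L] [Algebra K L]
    (k : IntermediateField K L) (y x : L) (σ : L ≃ₐ[K] L) (hσ : σ ∈ k.fixingSubgroup) (G : BP k) :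
    ev k (σ y) (σ x) G = σ (ev k y x G) := by
  set τ := IntermediateField.fixingSubgroupEquiv k ⟨σ, hσ⟩ with hτ
  have h1 : ∀ z, σ z = τ z := fun z => rfl
  have h2 : ev k (τ y) (τ x) = (τ : L →ₐ[k] L).comp (ev k y x) := by
    apply (aevalAevalEquiv k L).symm.injective
    simp [aevalAevalEquiv]
  rw [h1, h1, h1, h2]
  rfl

theorem grid_exists {K L : Type} [Field K] [Field L] [Algebra K L] [FiniteDimensional K L]
    [IsGalois K L] (k E : IntermediateField K L) (y x : L)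
    (hE : E = k ⊔ IntermediateField.adjoin K {y}) :
    ∃ (S : Finset L) (R : L → Finset L),
      IsGrid k y x S R (minpoly k y).natDegree (minpoly E x).natDegree ∧
      (∀ η, η ∈ S ↔ ∃ σ ∈ k.fixingSubgroup, η = σ y) ∧
      (∀ η ∈ S, ∀ ξ, ξ ∈ R η ↔ ∃ σ ∈ k.fixingSubgroup, η = σ y ∧ ξ = σ x) := by
  classical
  obtain ⟨S, hSc, hS⟩ := orb_exists k y
  obtain ⟨X, hXc, hX⟩ := orb_exists E x
  have hch : ∀ η, ∃ τ : L ≃ₐ[K] L, η ∈ S → τ ∈ k.fixingSubgroup ∧ η = τ y := by
    intro η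
    by_cases h : η ∈ S
    · obtain ⟨τ, h1, h2⟩ := (hS η).1 h
      exact ⟨τ, fun _ => ⟨h1, h2⟩⟩
    · exact ⟨1, fun h' => absurd h' h⟩
  choose τ hτ using hch
  have hR : ∀ η ∈ S, ∀ ξ, ξ ∈ X.image (τ η) ↔ ∃ σ ∈ k.fixingSubgroup, η = σ y ∧ ξ = σ x := by
    intro η hη ξ
    obtain ⟨h1, h2⟩ := hτ η hη
    rw [Finset.mem_image]
    constructor
    · rintro ⟨z, hz, rfl⟩
      obtain ⟨ρ, hρ, rfl⟩ := (hX z).1 hz
      obtain ⟨h3, h4⟩ := (mem_fix k E y hE ρ).1 hρ
      refine ⟨τ η * ρ, mul_mem h1 h3, ?_, rfl⟩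
      rw [AlgEquiv.mul_apply, h4]
      exact h2
    · rintro ⟨σ, hσ, h3, h4⟩
      refine ⟨((τ η)⁻¹ * σ) x, (hX _).2 ⟨(τ η)⁻¹ * σ, (mem_fix k E y hE _).2
        ⟨mul_mem (inv_mem h1) hσ, ?_⟩, rfl⟩, ?_⟩
      · rw [AlgEquiv.mul_apply, ← h3]
        nth_rw 2 [h2]
        exact (τ η).symm_apply_apply y
      · rw [h4, AlgEquiv.mul_apply]
        exact (τ η).apply_symm_apply (σ x)
  refine ⟨S, fun η => X.image (τ η), ⟨hSc, ?_, ?_⟩, hS, hR⟩
  · intro η _
    rw [Finset.card_image_of_injective _ (τ η).injective, hXc]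
  · intro η hη ξ hξ G hG
    obtain ⟨σ, hσ, rfl, rfl⟩ := (hR η hη ξ).1 hξ
    rw [ev_conj k y x σ hσ, hG, map_zero]

theorem pairs_card {K L : Type} [Field K] [Field L] [Algebra K L] [FiniteDimensional K L]
    [IsGalois K L] (k E : IntermediateField K L) (y x : L)
    (hE : E = k ⊔ IntermediateField.adjoin K {y}) :
    (Set.range fun σ : k.fixingSubgroup => (σ.1 y, σ.1 x)).ncard =
      (minpoly k y).natDegree * (minpoly E x).natDegree := by
  classical
  obtain ⟨S, R, ⟨h1, h2, h3⟩, h4, h5⟩ := grid_exists k E y x hE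
  set P : Finset (L × L) := S.biUnion fun η => (R η).image fun ξ => (η, ξ) with hP
  have hPr : (Set.range fun σ : k.fixingSubgroup => (σ.1 y, σ.1 x)) = (P : Set (L × L)) := by
    ext ⟨η, ξ⟩
    rw [Finset.mem_coe, hP, Finset.mem_biUnion, Set.mem_range]
    constructor
    · rintro ⟨σ, hσ⟩
      obtain ⟨rfl, rfl⟩ := Prod.mk.inj hσ
      have hS : σ.1 y ∈ S := (h4 _).2 ⟨σ.1, σ.2, rfl⟩
      exact ⟨σ.1 y, hS, Finset.mem_image.2 ⟨σ.1 x, (h5 _ hS _).2 ⟨σ.1, σ.2, rfl, rfl⟩, rfl⟩⟩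
    · rintro ⟨η', hη', hm⟩
      obtain ⟨ξ', hξ', heq⟩ := Finset.mem_image.1 hm
      obtain ⟨rfl, rfl⟩ := Prod.mk.inj heq
      obtain ⟨σ, hσ, rfl, rfl⟩ := (h5 _ hη' _).1 hξ'
      exact ⟨⟨σ, hσ⟩, rfl⟩
  rw [hPr, Set.ncard_coe_finset, hP, Finset.card_biUnion]
  · rw [Finset.sum_congr rfl (fun η hη => ?_), Finset.sum_const, smul_eq_mul, h1]
    rw [Finset.card_image_of_injective _ (fun a b hab => (Prod.mk.inj hab).2), h2 η hη]
  · intro η _ η' _ hne
    refine Finset.disjoint_left.2 ?_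
    rintro ⟨a, b⟩ ha hb
    obtain ⟨c, -, hc⟩ := Finset.mem_image.1 ha
    obtain ⟨c', -, hc'⟩ := Finset.mem_image.1 hb
    exact hne ((Prod.mk.inj hc).1.trans (Prod.mk.inj hc').1.symm)

end Pool.Agent.H72.PL
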