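import Pool.Agent.H72.PL.Inter
import Pool.Agent.H72.PL.Orb
import Pool.Agent.H72.PL.BoxC

/-!
# Module CoreDiv: `f₀` divides `f^F(Y^q, X^q)` (paper proof: proposal 65, section 6)

Let `φ : k → k` be the restriction of `F` (`hk`), `f_t = mp φ f ∈ BP k`, `g_t = ex q f_t ≠ 0`.
`ev k (y^q) (α^q) f_t = F (ev k (F⁻¹ y)^q (F⁻¹ α)^q f) = 0` (`ev_mp` with `σ = F`), so `ev k y α g_t = 0`
(`ev_ex`). `grid_exists` for `(y, α)` gives `S`, `R` with `#S = n`, `#R η = d`; `f₀` and `g_t` vanish at all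
these points (`IsGrid.conj`). `dX g_t = q dX f`, `dY g_t = q dY f` (`dX_ex`, `dX_mp`, ..). `inter_lemma`
(needs `d ≤ dX f₀` and `0 < dX f₀`: `d ≥ 1`) gives `f₀ ∣ g_t` in `BP k`. Let `Ω = AlgebraicClosure L` and
`σ : Ω ≃+* Ω` an extension of `F` (`IsAlgClosure.equivOfEquiv Ω Ω (F : L ≃+* L)`,
`equivOfEquiv_algebraMap`). Map the divisibility to `Ω`:
`mp (algebraMap k Ω) g_t = ex q (mp ((algebraMap k Ω).comp φ) f) = ex q (mp σ (mp (algebraMap k Ω) f))`
(`mp_ex`, `mp_mp`, `σ (algebraMap k Ω c) = algebraMap k Ω (φ c)`, with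
`IsScalarTower.algebraMap_apply k L Ω`).
-/

set_option autoImplicit false

open Module

namespace Pool.Agent.H72.PL

theorem core_div {K L : Type} [Field K] [Field L] [Algebra K L] [FiniteDimensional K L]
    [IsGalois K L] (k E : IntermediateField K L) (hk : ∀ σ : L ≃ₐ[K] L, ∀ z ∈ k, σ z ∈ k)
    (y α : L) (hE : E = k ⊔ IntermediateField.adjoin K {y}) (F : L ≃ₐ[K] L) (q : ℕ)
    (hq : 1 ≤ q) (f₀ f : BP k) (hf₀ : Irreducible f₀) (hd : (minpoly E α).natDegree ≤ dX f₀)
    (h0 : ev k y α f₀ = 0) (hf : f ≠ 0)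
    (hft : ev k ((F.symm y) ^ q) ((F.symm α) ^ q) f = 0)
    (hlt : dX f₀ * (q * dY f) + q * dX f * dY f₀ <
      (minpoly k y).natDegree * (minpoly E α).natDegree) :
    ∃ σ : AlgebraicClosure L ≃+* AlgebraicClosure L,
      mp (algebraMap k (AlgebraicClosure L)) f₀ ∣
        ex q (mp ((σ : AlgebraicClosure L ≃+* AlgebraicClosure L) :
          AlgebraicClosure L →+* AlgebraicClosure L)
          (mp (algebraMap k (AlgebraicClosure L)) f)) := by
  let φ : k →+* k :=
    { toFun := fun z => ⟨F z, hk F z z.2⟩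
      map_one' := Subtype.ext (map_one F)
      map_mul' := fun a b => Subtype.ext (map_mul F _ _)
      map_zero' := Subtype.ext (map_zero F)
      map_add' := fun a b => Subtype.ext (map_add F _ _) }
  have hφ : ∀ c : k, (F : L →+* L) (algebraMap k L c) = algebraMap k L (φ c) := fun c => rfl
  have hg0 : ex q (mp φ f) ≠ 0 := ex_ne_zero q hq _ (mp_ne_zero φ f hf)
  have hev : ev k y α (ex q (mp φ f)) = 0 := by
    rw [ev_ex]
    have h1 := ev_mp φ (F : L →+* L) hφ ((F.symm y) ^ q) ((F.symm α) ^ q) f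
    rw [hft, map_zero, map_pow, map_pow] at h1
    have h2 : ∀ z : L, (F : L →+* L) (F.symm z) = z := fun z => F.apply_symm_apply z
    rw [h2, h2] at h1
    exact h1.symm
  have hdpos : 0 < (minpoly E α).natDegree := minpoly.natDegree_pos (IsIntegral.of_finite E α)
  obtain ⟨S, R, hgrid, -, -⟩ := grid_exists k E y α hE
  have hdvd : f₀ ∣ ex q (mp φ f) := by
    refine inter_lemma f₀ _ hf₀ (lt_of_lt_of_le hdpos hd) hg0 (minpoly k y).natDegree
      (minpoly E α).natDegree hd S R hgrid.cardS.ge (fun η hη => (hgrid.cardR η hη).ge)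
      (fun η hη x hx => ⟨hgrid.conj η hη x hx _ h0, hgrid.conj η hη x hx _ hev⟩) ?_
    rw [dX_ex q hq, dY_ex q hq, dX_mp, dY_mp]
    exact hlt
  refine ⟨IsAlgClosure.equivOfEquiv (AlgebraicClosure L) (AlgebraicClosure L)
    ((F : L ≃ₐ[K] L) : L ≃+* L), ?_⟩
  have h1 := map_dvd (mp (algebraMap k (AlgebraicClosure L))) hdvd
  rw [mp_ex, mp_mp] at h1
  rw [mp_mp]
  have h2 : (algebraMap k (AlgebraicClosure L)).comp φ =
      ((IsAlgClosure.equivOfEquiv (AlgebraicClosure L) (AlgebraicClosure L)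
        ((F : L ≃ₐ[K] L) : L ≃+* L) : AlgebraicClosure L ≃+* AlgebraicClosure L) :
          AlgebraicClosure L →+* AlgebraicClosure L).comp
        (algebraMap k (AlgebraicClosure L)) := by
    ext c
    rw [RingHom.comp_apply, RingHom.comp_apply, IsScalarTower.algebraMap_apply k L
      (AlgebraicClosure L), IsScalarTower.algebraMap_apply k L (AlgebraicClosure L)]
    have h3 := IsAlgClosure.equivOfEquiv_algebraMap (AlgebraicClosure L) (AlgebraicClosure L)
      ((F : L ≃ₐ[K] L) : L ≃+* L) (algebraMap k L c)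
    exact h3.symm
  rw [← h2]
  exact h1

end Pool.Agent.H72.PL
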