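import Pool.Agent.H72.PL.ZE

/-!
# Module Exc: the exceptional points (paper proof: proposal 65, section 5)

Take `f, m, g` from `ze_main` for `I = vanI k P`. `Exc = {t ∈ G : ev (P t) f ≠ 0}`. For `t ∈ Exc`:
`f g_i ∈ I`, so `ev (P t) (f g_i) = 0`, `ev (P t) (g_i) = 0` for all `i`, hence `g_i` vanishes at all
`(η, ξ)`, `η ∈ S t`, `ξ ∈ R t η` (`IsGrid.conj`). Apply `grid_det` with `S' = ⋃_{t ∈ Exc} S t`
(`Finset.biUnion`, disjoint, cardinality `#Exc * n`) and `R' η = R t η` for the `t ∈ Exc` with `η ∈ S t`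
(choose, e.g. `if h : ∃ t ∈ Exc, η ∈ S t then R h.choose η else ∅`): `#Exc * n * d ≤ natDegree det`.
Finally `∑_{i<m} ρ/(m-i) ≤ ρ ∑_{j=1}^m 1/j ≤ ρ (1 + log m) ≤ ρ (1 + log W)` (Mathlib: `harmonic`,
`harmonic_le_one_add_log`, `Nat.cast_div_le`); if `m = 0` the sum is empty (and `log W ≥ 0`, as `W ≥ 4`).
-/

set_option autoImplicit false

open Polynomial Module

namespace Pool.Agent.H72.PL

private theorem exc_sum (ρ m : ℕ) :
    ((∑ i : Fin m, ρ / (m - (i : ℕ)) : ℕ) : ℝ) ≤ ρ * (harmonic m : ℝ) := by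
  induction m with
  | zero => simp
  | succ m ih =>
    rw [Fin.sum_univ_succ, harmonic_succ]
    have h1 : ∑ i : Fin m, ρ / (m + 1 - (i.succ : ℕ)) = ∑ i : Fin m, ρ / (m - (i : ℕ)) := by
      refine Finset.sum_congr rfl fun i _ => ?_
      rw [Fin.val_succ, Nat.add_sub_add_right]
    rw [h1]
    have h2 : ((ρ / (m + 1 - ((0 : Fin (m + 1)) : ℕ)) : ℕ) : ℝ) ≤ ρ * ((m + 1 : ℕ) : ℝ)⁻¹ := by
      have h3 := @Nat.cast_div_le ℝ _ _ _ ρ (m + 1)
      rw [Fin.val_zero, Nat.sub_zero, ← div_eq_mul_inv]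
      exact h3
    push_cast at h2 ih ⊢
    nlinarith

private theorem exc_log (ρ m W : ℕ) (hm : m ≤ W) (hW : 1 ≤ W) :
    ((∑ i : Fin m, ρ / (m - (i : ℕ)) : ℕ) : ℝ) ≤ ρ * (1 + Real.log W) := by
  refine (exc_sum ρ m).trans ?_
  refine mul_le_mul_of_nonneg_left ?_ (Nat.cast_nonneg _)
  refine (harmonic_le_one_add_log m).trans ?_
  rcases Nat.eq_zero_or_pos m with h0 | h0
  · rw [h0, Nat.cast_zero, Real.log_zero, add_zero]
    have h1 : 0 ≤ Real.log W := Real.log_nonneg (by exact_mod_cast hW)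
    linarith
  · have h1 : Real.log m ≤ Real.log W :=
      Real.log_le_log (by exact_mod_cast h0) (by exact_mod_cast hm)
    linarith

theorem exc_count {k L : Type} [Field k] [Field L] [Algebra k L] {ι : Type} [Fintype ι]
    [DecidableEq ι] (P : ι → L × L) (S : ι → Finset L) (R : ι → L → Finset L) (n d : ℕ)
    (G : Finset ι) (hgrid : ∀ t ∈ G, IsGrid k (P t).1 (P t).2 (S t) (R t) n d)
    (hdisj : ∀ s ∈ G, ∀ t ∈ G, s ≠ t → Disjoint (S s) (S t)) (M W ρ : ℕ)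
    (hcod : (M + 1) * (W + 1) ≤ finrank k ↥(IB (vanI k P) M W) + ρ)
    (hW : 2 * (ρ / (M + 1) + d) + 4 ≤ W) :
    ∃ f : BP k, f ≠ 0 ∧ dX f ≤ ρ / (M + 1) ∧ dY f * W ≤ 2 * ρ ∧
      ∃ Exc ⊆ G, (Exc.card : ℝ) * ((n : ℝ) * d) ≤ ρ * (1 + Real.log W) ∧
        ∀ t ∈ G \ Exc, ev k (P t).1 (P t).2 f = 0 := by
  classical
  obtain ⟨f, hf0, hdX, hdY, m, hdm, hmW, g, hgdeg, hdet, hgI, hdeg⟩ :=
    ze_main (vanI k P) M W ρ d hcod hW
  refine ⟨f, hf0, hdX, hdY, G.filter (fun t => ev k (P t).1 (P t).2 f ≠ 0),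
    Finset.filter_subset _ _, ?_, ?_⟩
  · set Exc : Finset ι := G.filter (fun t => ev k (P t).1 (P t).2 f ≠ 0) with hExc
    have hEG : ∀ t ∈ Exc, t ∈ G := fun t ht => (Finset.mem_filter.mp ht).1
    have hvan : ∀ t ∈ Exc, ∀ i, ev k (P t).1 (P t).2 (g i) = 0 := by
      intro t ht i
      have h1 := hgI i
      rw [vanI, Ideal.mem_iInf] at h1
      have h2 : ev k (P t).1 (P t).2 (f * g i) = 0 := h1 t
      rw [map_mul] at h2
      exact (mul_eq_zero.mp h2).resolve_left (Finset.mem_filter.mp ht).2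
    have hcard : (Exc.biUnion S).card = Exc.card * n := by
      rw [Finset.card_biUnion (fun s hs t ht hst => hdisj s (hEG s hs) t (hEG t ht) hst),
        Finset.sum_congr rfl (fun t ht => (hgrid t (hEG t ht)).cardS), Finset.sum_const,
        smul_eq_mul]
    have key := grid_det m d hdm g hgdeg hdet (Exc.biUnion S)
      (fun η => if h : ∃ t, t ∈ Exc ∧ η ∈ S t then R h.choose η else ∅) ?_ ?_
    · rw [hcard] at key
      have h3 : ((Exc.card * n * d : ℕ) : ℝ) ≤ ρ * (1 + Real.log W) :=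
        le_trans (Nat.cast_le.mpr (key.trans hdeg)) (exc_log ρ m W hmW (by omega))
      push_cast at h3
      linarith
    · intro η hη
      obtain ⟨t, ht, hηt⟩ := Finset.mem_biUnion.mp hη
      have hex : ∃ t, t ∈ Exc ∧ η ∈ S t := ⟨t, ht, hηt⟩
      show d ≤ (if h : ∃ t, t ∈ Exc ∧ η ∈ S t then R h.choose η else ∅).card
      rw [dif_pos hex]
      exact ((hgrid _ (hEG _ hex.choose_spec.1)).cardR η hex.choose_spec.2).ge
    · intro η hη x hx i
      obtain ⟨t, ht, hηt⟩ := Finset.mem_biUnion.mp hη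
      have hex : ∃ t, t ∈ Exc ∧ η ∈ S t := ⟨t, ht, hηt⟩
      rw [dif_pos hex] at hx
      exact (hgrid _ (hEG _ hex.choose_spec.1)).conj η hex.choose_spec.2 x hx (g i)
        (hvan _ hex.choose_spec.1 i)
  · intro t ht
    rw [Finset.mem_sdiff, Finset.mem_filter] at ht
    by_contra h
    exact ht.2 ⟨ht.1, h⟩

end Pool.Agent.H72.PL
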