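import Pool.Agent.H72.PL.Orb
import Pool.Agent.H72.PL.Codim

/-!
# Module RankA: bounds for the ranks of the row systems (paper proof: proposal 65, section 4)

1. `rkA_le`: the row `arow (σ, (i,l))` depends only on `(σ y, σ α)` and `(i, l)`: at most `n d` pairs
   (`pairs_card`) and at most `T^2` pairs `(i, l)`. So the range of `arow` is the image of a set with at
   most `n d T^2` elements (`Set.range f ×ˢ univ`), and `finrank_span_le_card`/`finrank_range_le_card`.
2. `codim_brow`: `codim_le` for `P t = ((F_t⁻¹ y)^(q t), (F_t⁻¹ α)^(q t))`; the rows are those of `brow`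
   (`map_pow`), their span is contained in the span of all rows.
-/

set_option autoImplicit false

open Polynomial Module

namespace Pool.Agent.H72.PL

theorem rkA_le {K L : Type} [Field K] [Field L] [Algebra K L] [FiniteDimensional K L]
    [IsGalois K L] (k E : IntermediateField K L) (y α : L)
    (hE : E = k ⊔ IntermediateField.adjoin K {y}) (M W T : ℕ) :
    rkA k M W T y α ≤ (minpoly k y).natDegree * (minpoly E α).natDegree * T ^ 2 := by
  classical
  rw [← pairs_card k E y α hE]
  set P : Set (L × L) := Set.range fun σ : k.fixingSubgroup => (σ.1 y, σ.1 α) with hP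
  have hfin : P.Finite := Set.toFinite _
  set g : (L × L) × TI T → Fin (M + 1) × Fin (W + 1) → L :=
    fun s => jrow M W s.1.1 s.1.2 s.2.1.1 s.2.1.2 with hg
  set S : Finset (Fin (M + 1) × Fin (W + 1) → L) :=
    (hfin.toFinset ×ˢ (Finset.univ : Finset (TI T))).image g with hS
  have hsub : Set.range (arow k M W T y α) ⊆ (S : Set (Fin (M + 1) × Fin (W + 1) → L)) := by
    rintro _ ⟨s, rfl⟩
    rw [hS, Finset.coe_image]
    refine ⟨((s.1.1 y, s.1.1 α), s.2), ?_, rfl⟩
    rw [Finset.mem_coe, Finset.mem_product]
    exact ⟨hfin.mem_toFinset.2 ⟨s.1, rfl⟩, Finset.mem_univ _⟩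
  have h1 : rkA k M W T y α ≤ S.card := by
    unfold rkA
    exact (Submodule.finrank_mono (Submodule.span_mono hsub)).trans (finrank_span_finset_le_card S)
  have h2 : S.card ≤ hfin.toFinset.card * (Finset.univ : Finset (TI T)).card := by
    refine Finset.card_image_le.trans ?_
    rw [Finset.card_product]
  have h3 : hfin.toFinset.card = P.ncard := (Set.ncard_eq_toFinset_card P hfin).symm
  have h4 : (Finset.univ : Finset (TI T)).card ≤ T ^ 2 := by
    rw [Finset.card_univ]
    refine (Fintype.card_subtype_le _).trans ?_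
    rw [Fintype.card_prod, Fintype.card_fin, pow_two]
  rw [h3] at h2
  exact h1.trans (h2.trans (Nat.mul_le_mul_left _ h4))

theorem codim_brow {K L : Type} [Field K] [Field L] [Algebra K L] [FiniteDimensional K L]
    [IsGalois K L] (k : IntermediateField K L) {ι : Type} [Finite ι] (M W T : ℕ) (y α : L)
    (F : ι → (L ≃ₐ[K] L)) (q : ι → ℕ) :
    (M + 1) * (W + 1) ≤ finrank k ↥(IB (vanI k fun t : ι =>
      (((F t).symm y) ^ q t, ((F t).symm α) ^ q t)) M W) + rkAB k M W T y α F q := by
  have h := codim_le k M W (fun t : ι => (((F t).symm y) ^ q t, ((F t).symm α) ^ q t))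
  have h1 : (fun s : k.fixingSubgroup × ι =>
        jrow M W (s.1.1 (((F s.2).symm y) ^ q s.2)) (s.1.1 (((F s.2).symm α) ^ q s.2)) 0 0) =
      brow k M W y α F q := by
    funext s
    unfold brow
    rw [map_pow, map_pow]
  have h2 : Set.range (fun s : k.fixingSubgroup × ι =>
        jrow M W (s.1.1 (((F s.2).symm y) ^ q s.2)) (s.1.1 (((F s.2).symm α) ^ q s.2)) 0 0) ⊆
      Set.range (arow k M W T y α) ∪ Set.range (brow k M W y α F q) := by
    rw [h1]
    exact Set.subset_union_right
  have h3 := Submodule.finrank_mono (Submodule.span_mono (R := L) h2)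
  refine h.trans ?_
  unfold rkAB
  exact Nat.add_le_add_left h3 _

end Pool.Agent.H72.PL
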