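import Pool.Agent.H72.PL.CGrid
import Pool.Agent.H72.PL.Exc
import Pool.Agent.H72.PL.RankA

/-!
# Module CoreF: the polynomial `f` (paper proof: proposal 65, section 5)

`P t = ((F_t⁻¹ y)^(q t), (F_t⁻¹ α)^(q t))`. `E₁ = {t : natDegree (minpoly E (α^(q t))) ≠ d}`: `drop_lemma` for the
finset of the `q t` (`q` injective, pairwise coprime) gives `2^#E₁ ≤ d`. For `t ∉ E₁` `grid_t` gives
`S t`, `R t` (choose; anything for `t ∈ E₁`). For `s ≠ t` not in `E₁` the sets `S s`, `S t` are disjoint: a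
common `η` has `η^N = b^(q s) = b^(q t)`, so `b^(|q s - q t|) = 1` (`b ≠ 0`), contradiction to `hb'`.
`codim_brow` and `hrk` give the hypothesis `hcod` of `exc_count` (with `G = univ \ E₁`); get `f`, `Exc = E₂`;
`G' = univ \ (E₁ ∪ E₂)`.
-/

set_option autoImplicit false

open Module

namespace Pool.Agent.H72.PL

theorem core_f {K L : Type} [Field K] [Field L] [Algebra K L] [FiniteDimensional K L]
    [IsGalois K L] (N : ℕ) (hN : 1 ≤ N) (ζ y : L) (hζ : IsPrimitiveRoot ζ N) (b : K)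
    (hb : b ≠ 0) (hb' : ∀ n : ℕ, 1 ≤ n → b ^ n ≠ 1) (hy : y ^ N = algebraMap K L b) (α : L)
    (hα : α ≠ 0) {m : ℕ} (F : Fin m → (L ≃ₐ[K] L)) (q : Fin m → ℕ)
    (hqN : ∀ t, Nat.Coprime (q t) N) (hq2 : ∀ t, 2 ≤ q t)
    (hcop : Pairwise fun s t => Nat.Coprime (q s) (q t)) (M W T ρ : ℕ)
    (hrk : rkAB (IntermediateField.adjoin K {ζ}) M W T y α F q ≤ ρ)
    (hW : 2 * (ρ / (M + 1) +
      (minpoly (IntermediateField.adjoin K {ζ, y}) α).natDegree) + 4 ≤ W) :
    ∃ f : BP (IntermediateField.adjoin K {ζ}), f ≠ 0 ∧ dX f ≤ ρ / (M + 1) ∧ dY f * W ≤ 2 * ρ ∧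
      ∃ G E₁ E₂ : Finset (Fin m), G = Finset.univ \ (E₁ ∪ E₂) ∧
        (∀ t ∈ G, ev (IntermediateField.adjoin K {ζ}) (((F t).symm y) ^ q t)
          (((F t).symm α) ^ q t) f = 0) ∧
        2 ^ E₁.card ≤ (minpoly (IntermediateField.adjoin K {ζ, y}) α).natDegree ∧
        (E₂.card : ℝ) * (((minpoly (IntermediateField.adjoin K {ζ}) y).natDegree : ℝ) *
          ((minpoly (IntermediateField.adjoin K {ζ, y}) α).natDegree : ℝ)) ≤
            ρ * (1 + Real.log W) := by
  classical
  set k : IntermediateField K L := IntermediateField.adjoin K {ζ} with hk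
  set E : IntermediateField K L := IntermediateField.adjoin K {ζ, y} with hE
  set d : ℕ := (minpoly E α).natDegree with hd
  set n : ℕ := (minpoly k y).natDegree with hn
  have hqinj : Function.Injective q := by
    intro s t hst
    by_contra hne
    have h1 := hcop hne
    have h2 : Nat.Coprime (q s) (q t) := h1
    rw [← hst, Nat.coprime_self] at h2
    have h3 := hq2 s
    omega
  set E₁ : Finset (Fin m) := Finset.univ.filter
    (fun t => (minpoly E (α ^ q t)).natDegree ≠ d) with hE₁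
  have hE₁card : 2 ^ E₁.card ≤ d := by
    have h1 : (E₁.image q).card = E₁.card := Finset.card_image_of_injective _ hqinj
    rw [← h1]
    refine drop_lemma E α hα (E₁.image q) ?_ ?_ ?_
    · intro p hp
      obtain ⟨t, -, rfl⟩ := Finset.mem_image.1 hp
      have := hq2 t
      omega
    · intro p hp p' hp' hne
      obtain ⟨t, -, rfl⟩ := Finset.mem_image.1 (Finset.mem_coe.1 hp)
      obtain ⟨t', -, rfl⟩ := Finset.mem_image.1 (Finset.mem_coe.1 hp')
      exact hcop (fun h => hne (by rw [h]))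
    · intro p hp
      obtain ⟨t, ht, rfl⟩ := Finset.mem_image.1 hp
      exact (Finset.mem_filter.1 ht).2
  have hex : ∀ t : Fin m, ∃ (S : Finset L) (R : L → Finset L), t ∉ E₁ →
      (IsGrid k (((F t).symm y) ^ q t) (((F t).symm α) ^ q t) S R n d ∧
        ∀ η ∈ S, η ^ N = (algebraMap K L b) ^ q t) := by
    intro t
    by_cases ht : t ∈ E₁
    · exact ⟨∅, fun _ => ∅, fun h => absurd ht h⟩
    · have hdt : (minpoly E (α ^ q t)).natDegree = (minpoly E α).natDegree := by
        by_contra hcon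
        exact ht (Finset.mem_filter.2 ⟨Finset.mem_univ _, hcon⟩)
      obtain ⟨S, R, h⟩ := grid_t N hN ζ y hζ b hb hy α (F t) (q t) (hqN t) hdt
      exact ⟨S, R, fun _ => h⟩
  choose S R hSR using hex
  set P : Fin m → L × L := fun t => (((F t).symm y) ^ q t, ((F t).symm α) ^ q t) with hP
  have hcod : (M + 1) * (W + 1) ≤ finrank k ↥(IB (vanI k P) M W) + ρ := by
    have h1 := codim_brow k M W T y α F q
    exact h1.trans (Nat.add_le_add_left hrk _)
  have hgrid : ∀ t ∈ Finset.univ \ E₁, IsGrid k (P t).1 (P t).2 (S t) (R t) n d := by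
    intro t ht
    exact (hSR t (Finset.mem_sdiff.1 ht).2).1
  have hpow : ∀ s t : Fin m, s ≠ t → b ^ q s ≠ b ^ q t := by
    have key : ∀ i j : ℕ, i < j → b ^ i ≠ b ^ j := by
      intro i j hij heq
      apply hb' (j - i) (by omega)
      have h1 : b ^ j = b ^ i * b ^ (j - i) := by
        rw [← pow_add]
        congr 1
        omega
      rw [h1] at heq
      have h2 : b ^ i * 1 = b ^ i * b ^ (j - i) := by rw [mul_one]; exact heq
      exact (mul_left_cancel₀ (pow_ne_zero _ hb) h2).symm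
    intro s t hst heq
    have hne : q s ≠ q t := fun h => hst (hqinj h)
    rcases lt_or_gt_of_ne hne with h | h
    · exact key _ _ h heq
    · exact key _ _ h heq.symm
  have hdisj : ∀ s ∈ Finset.univ \ E₁, ∀ t ∈ Finset.univ \ E₁, s ≠ t →
      Disjoint (S s) (S t) := by
    intro s hs t ht hst
    rw [Finset.disjoint_left]
    intro η hηs hηt
    have h1 := (hSR s (Finset.mem_sdiff.1 hs).2).2 η hηs
    have h2 := (hSR t (Finset.mem_sdiff.1 ht).2).2 η hηt
    rw [h1, ← map_pow, ← map_pow] at h2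
    exact hpow s t hst ((algebraMap K L).injective h2)
  obtain ⟨f, hf0, hfX, hfY, Exc, hExc, hcard, hev⟩ :=
    exc_count P S R n d (Finset.univ \ E₁) hgrid hdisj M W ρ hcod hW
  refine ⟨f, hf0, hfX, hfY, Finset.univ \ (E₁ ∪ Exc), E₁, Exc, rfl, ?_, hE₁card, hcard⟩
  intro t ht
  have h1 := Finset.mem_sdiff.1 ht
  have h2 : t ∉ E₁ := fun h => h1.2 (Finset.mem_union_left _ h)
  have h3 : t ∉ Exc := fun h => h1.2 (Finset.mem_union_right _ h)
  exact hev t (Finset.mem_sdiff.2 ⟨Finset.mem_sdiff.2 ⟨Finset.mem_univ _, h2⟩, h3⟩)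

end Pool.Agent.H72.PL
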