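import Pool.Agent.H72.PL.BoxB
import Pool.Agent.H72.PL.Orb

/-!
# Module FZero: the polynomial `f₀` (paper proof: proposal 65, section 6)

`k(y, x) = E(x)` has degree `n d` over `k`. The evaluation map `ev k y x` on `Box k a b`
(dimension `(a+1)(b+1) > n d`, `finrank_box`) has values in `k(y, x)`, so there is `0 ≠ G ∈ Box k a b` with
`ev k y x G = 0`. `BP k` is a factorial domain: `G` is a unit times a product of irreducible elements,
one of them, `f`, vanishes at `(y, x)` (`ev` is multiplicative, `UniqueFactorizationMonoid.factors_prod`,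
the unit has nonzero value). `f ∣ G` so `dX f ≤ dX G ≤ b`, `dY f ≤ dY G ≤ a` (`dX_le_of_dvd`,
`dY_le_of_dvd`, `mem_box`). The polynomial `f(y, X) = ∑_b aeval y (f.coeff b) X^b ∈ E[X]` is not zero:
`f ≠ 0` has a nonzero coefficient `c = f.coeff b`, `natDegree c ≤ dY f ≤ a < n` (`dY_le`), so
`aeval y c ≠ 0` (`minpoly.degree_le_of_ne_zero` or `minpoly.dvd`). It vanishes at `x` (`ev_eq`), so its
degree is at least `d`, and at most `dX f`.
(Degree of `k(y,x)` over `k`: `minpoly` degrees and the tower law; or, with module Orb: a `k`-linear map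
`Box k a b → L`, `G ↦ ev k y x G`, has rank at most the number of pairs `(σ y, σ x)`: if more, one uses the
`L`-linear independence argument; the first way is easier: `IntermediateField.adjoin.finrank`,
`Module.finrank_mul_finrank`, and `IntermediateField.extendScalars` to view `E` over `k`.)
-/

set_option autoImplicit false

open Polynomial Module

namespace Pool.Agent.H72.PL

/-- an irreducible factor vanishing at the point -/
theorem fzero_factor {k L : Type} [Field k] [Field L] [Algebra k L] (y x : L) (G : BP k)
    (hG : G ≠ 0) (h : ev k y x G = 0) : ∃ f : BP k, Irreducible f ∧ f ∣ G ∧ ev k y x f = 0 := by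
  induction G using WfDvdMonoid.induction_on_irreducible with
  | zero => exact absurd rfl hG
  | unit u hu =>
    exfalso
    have h1 : IsUnit (ev k y x u) := hu.map _
    rw [h] at h1
    exact not_isUnit_zero h1
  | mul a i ha hi ih =>
    rw [map_mul] at h
    rcases mul_eq_zero.1 h with h1 | h1
    · exact ⟨i, hi, dvd_mul_right _ _, h1⟩
    · obtain ⟨f, hf, hfa, hf0⟩ := ih ha h1
      exact ⟨f, hf, hfa.trans (dvd_mul_left _ _), hf0⟩

/-- the values of `ev` lie in a space of small dimension -/
theorem fzero_space {K L : Type} [Field K] [Field L] [Algebra K L] [FiniteDimensional K L]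
    (k E : IntermediateField K L) (y x : L)
    (hE : E = k ⊔ IntermediateField.adjoin K {y}) :
    ∃ U : IntermediateField k L, y ∈ U ∧ x ∈ U ∧
      finrank k U ≤ (minpoly k y).natDegree * (minpoly E x).natDegree := by
  have hfk : FiniteDimensional k L := FiniteDimensional.right K k L
  let F1 : IntermediateField k L := IntermediateField.adjoin k {y}
  have hf1 : FiniteDimensional F1 L := FiniteDimensional.right k F1 L
  let F2 : IntermediateField F1 L := IntermediateField.adjoin F1 {x}
  have hy1 : y ∈ F1 := IntermediateField.mem_adjoin_simple_self k y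
  have hx2 : x ∈ F2 := IntermediateField.mem_adjoin_simple_self F1 x
  have hle : E ≤ F1.restrictScalars K := by
    rw [hE, sup_le_iff]
    constructor
    · intro e he
      exact F1.algebraMap_mem ⟨e, he⟩
    · rw [IntermediateField.adjoin_simple_le_iff]
      exact hy1
  have hd : (minpoly F1 x).natDegree ≤ (minpoly E x).natDegree := by
    have hxE : IsIntegral E x := IsIntegral.of_finite E x
    let φ : E →+* F1 := (IntermediateField.inclusion hle : E →+* (F1.restrictScalars K))
    have h1 : ((minpoly E x).map φ).Monic := (minpoly.monic hxE).map φ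
    have h2 : aeval x ((minpoly E x).map φ) = 0 := by
      have h3 : aeval x (minpoly E x) = 0 := minpoly.aeval E x
      rw [aeval_def, eval₂_map]
      rw [aeval_def] at h3
      exact h3
    refine (natDegree_le_natDegree (minpoly.degree_le_of_ne_zero F1 x h1.ne_zero h2)).trans ?_
    exact natDegree_map_le
  refine ⟨F2.restrictScalars k, ?_, ?_, ?_⟩
  · exact F2.algebraMap_mem ⟨y, hy1⟩
  · exact hx2
  · have h3 : finrank k F1 * finrank F1 F2 = finrank k F2 := Module.finrank_mul_finrank k F1 F2
    have h4 : finrank k F1 = (minpoly k y).natDegree :=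
      IntermediateField.adjoin.finrank (IsIntegral.of_finite k y)
    have h5 : finrank F1 F2 = (minpoly F1 x).natDegree :=
      IntermediateField.adjoin.finrank (IsIntegral.of_finite F1 x)
    show finrank k F2 ≤ _
    rw [← h3, h4, h5]
    exact Nat.mul_le_mul_left _ hd

theorem fzero_mem {k L : Type} [Field k] [Field L] [Algebra k L] (U : IntermediateField k L)
    (y x : L) (hy : y ∈ U) (hx : x ∈ U) (G : BP k) : ev k y x G ∈ U := by
  rw [ev_eq y x G (dX G) le_rfl]
  refine sum_mem fun b _ => mul_mem ?_ (pow_mem hx b)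
  have h := (aeval (⟨y, hy⟩ : U) (G.coeff b)).2
  rwa [← IntermediateField.aeval_coe] at h

theorem fzero_ker {k V W : Type} [Field k] [AddCommGroup V] [Module k V]
    [FiniteDimensional k V] [AddCommGroup W] [Module k W] (T : V →ₗ[k] W) (U : Submodule k W)
    [FiniteDimensional k U] (h : ∀ v, T v ∈ U) (hd : finrank k U < finrank k V) :
    ∃ v, v ≠ 0 ∧ T v = 0 := by
  have h1 : LinearMap.range T ≤ U := by
    rintro _ ⟨G, rfl⟩
    exact h G
  have h2 : finrank k (LinearMap.range T) ≤ finrank k U := Submodule.finrank_mono h1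
  have h4 := LinearMap.finrank_range_add_finrank_ker T
  have h5 : LinearMap.ker T ≠ ⊥ := by
    intro h
    rw [h, finrank_bot] at h4
    omega
  obtain ⟨G, hG, hG0⟩ := Submodule.exists_mem_ne_zero_of_ne_bot h5
  exact ⟨G, hG0, hG⟩

theorem fzero_kernel {K L : Type} [Field K] [Field L] [Algebra K L] [FiniteDimensional K L]
    (k E : IntermediateField K L) (y x : L)
    (hE : E = k ⊔ IntermediateField.adjoin K {y}) (a b : ℕ)
    (hab : (minpoly k y).natDegree * (minpoly E x).natDegree < (a + 1) * (b + 1)) :
    ∃ G : BP k, G ≠ 0 ∧ G ∈ Box k a b ∧ ev k y x G = 0 := by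
  obtain ⟨U, hy, hx, hU⟩ := fzero_space k E y x hE
  have hfk : FiniteDimensional k L := FiniteDimensional.right K k L
  have hfin : FiniteDimensional k ↥(Box k a b) := finite_box a b
  have hdim : finrank k (Subalgebra.toSubmodule U.toSubalgebra) < finrank k ↥(Box k a b) := by
    rw [finrank_box]
    exact lt_of_le_of_lt hU hab
  let T : ↥(Box k a b) →ₗ[k] L := (ev k y x).toLinearMap ∘ₗ (Box k a b).subtype
  have hT : ∀ G : ↥(Box k a b), T G ∈ Subalgebra.toSubmodule U.toSubalgebra :=
    fun G => fzero_mem U y x hy hx G.1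
  obtain ⟨G, hG0, hG⟩ := fzero_ker (V := ↥(Box k a b)) T _ hT hdim
  exact ⟨G.1, fun h => hG0 (Subtype.ext h), G.2, hG⟩

theorem f0_exists {K L : Type} [Field K] [Field L] [Algebra K L] [FiniteDimensional K L]
    [IsGalois K L] (k E : IntermediateField K L) (y x : L)
    (hE : E = k ⊔ IntermediateField.adjoin K {y}) (a b : ℕ) (ha : a < (minpoly k y).natDegree)
    (hab : (minpoly k y).natDegree * (minpoly E x).natDegree < (a + 1) * (b + 1)) :
    ∃ f : BP k, Irreducible f ∧ ev k y x f = 0 ∧ dY f ≤ a ∧ dX f ≤ b ∧
      (minpoly E x).natDegree ≤ dX f := by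
  obtain ⟨G, hG0, hGB, hGe⟩ := fzero_kernel k E y x hE a b hab
  obtain ⟨f, hf, hfG, hfe⟩ := fzero_factor y x G hG0 hGe
  have hGb := (mem_box G a b).1 hGB
  have hfY : dY f ≤ a := (dY_le_of_dvd f G hG0 hfG).trans hGb.1
  have hfX : dX f ≤ b := (dX_le_of_dvd f G hG0 hfG).trans hGb.2
  refine ⟨f, hf, hfe, hfY, hfX, ?_⟩
  have hkE : k ≤ E := by
    rw [hE]
    exact le_sup_left
  have hyE : y ∈ E := by
    rw [hE]
    exact (le_sup_right : IntermediateField.adjoin K {y} ≤ _)
      (IntermediateField.mem_adjoin_simple_self K y)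
  let θ : Polynomial k →+* E :=
    Polynomial.eval₂RingHom ((IntermediateField.inclusion hkE : k →ₐ[K] E) : k →+* E) ⟨y, hyE⟩
  have hθ : ∀ c : Polynomial k, algebraMap E L (θ c) = aeval y c := by
    have h1 : (algebraMap E L).comp θ = ((aeval y : Polynomial k →ₐ[k] L) : Polynomial k →+* L) := by
      apply Polynomial.ringHom_ext
      · intro r
        simp only [θ, RingHom.comp_apply, Polynomial.coe_eval₂RingHom, Polynomial.eval₂_C]
        show _ = aeval y (C r)
        rw [aeval_C]
        rfl
      · simp only [θ, RingHom.comp_apply, Polynomial.coe_eval₂RingHom, Polynomial.eval₂_X]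
        show _ = aeval y X
        rw [aeval_X]
        rfl
    intro c
    exact congrArg (fun g : Polynomial k →+* L => g c) h1
  have hP0 : f.map θ ≠ 0 := by
    intro h
    have hfne := hf.ne_zero
    obtain ⟨j, hj⟩ : ∃ j, f.coeff j ≠ 0 := by
      by_contra hc
      push Not at hc
      exact hfne (Polynomial.ext fun j => by rw [hc j, coeff_zero])
    have h1 : θ (f.coeff j) = 0 := by
      rw [← coeff_map, h, coeff_zero]
    have h2 : aeval y (f.coeff j) = 0 := by
      rw [← hθ, h1, map_zero]
    have h3 := natDegree_le_natDegree (minpoly.degree_le_of_ne_zero k y hj h2)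
    have h4 := (dY_le f a).1 hfY j
    omega
  have hPx : aeval x (f.map θ) = 0 := by
    rw [← hfe, ev_eq y x f (dX f) le_rfl,
      aeval_eq_sum_range' (Nat.lt_succ_of_le (natDegree_map_le (f := θ) (p := f)))]
    refine Finset.sum_congr rfl fun i _ => ?_
    rw [coeff_map, Algebra.smul_def, hθ]
  exact (natDegree_le_natDegree (minpoly.degree_le_of_ne_zero E x hP0 hPx)).trans
    natDegree_map_le

end Pool.Agent.H72.PL
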