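import Pool.Agent.H72.PL.GBinA

/-!
# Module GBin: binomial curves (paper proof: proposal 65, section 7)

`bin u v ρ = X^v Y^(u⁺) - ρ Y^(u⁻)`, `v ≥ 1`, `gcd(u, v) = 1`, `ρ ≠ 0`, `Ω` algebraically closed of
characteristic 0.
1. `bin_dvd`: if `G(y', x') = 0` for all `y', x' ≠ 0` with `x'^v y'^u = ρ`, then `bin u v ρ ∣ G`. Choose `c`
   with `c^v = ρ`; for `T ∈ Ω*`: `(y', x') = (T^v, c T^(-u))` satisfies `x'^v y'^u = ρ`.
   Division with remainder by `bin` with respect to `X` (leading coefficient `Y^(u⁺)`):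
   `Y^j G = bin * Q + R`, `R = ∑_{b < v} R_b(Y) X^b`. Put `R(T^v, c T^(-u)) = 0` for all `T ≠ 0`:
   `∑_b c^b R_b(T^v) T^(-u b) = 0`; the exponents occurring for `b` are `≡ -u b mod v`, distinct classes for
   distinct `b < v` (`gcd(u,v) = 1`), so all `R_b = 0` (multiply by a power of `T` to get a polynomial
   identity, infinitely many `T`). So `bin ∣ Y^j G`, and `Y` is prime and does not divide `bin` (set
   `Y = 0`: for `u > 0` one gets `-ρ ≠ 0`, for `u ≤ 0`: `X^v` (`u < 0`) or `X^v - ρ` (`u = 0`)), so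
   `bin ∣ G`.
   (Alternative: first show that `bin u v ρ` is irreducible.)
2. `bin_push`: `bin u v ρ ∣ ex q G`. Let `x'^v y'^u = ρ^q`, choose `q`-th roots `x''`, `y''` of `x'`, `y'`;
   `ω = x''^v y''^u / ρ` satisfies `ω^q = 1`; with `s v + t u = 1`: replace `(y'', x'')` by
   `(ω^(-t) y'', ω^(-s) x'')`; then `x''^v y''^u = ρ`, so `ex q G` vanishes there, i.e.
   `G(y', x') = 0` (`ev_ex`). Apply 1 with `ρ^q`.
-/

set_option autoImplicit false

open Polynomial Module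

namespace Pool.Agent.H72.PL

variable {Ω : Type} [Field Ω]

theorem gb_ev (y x : Ω) (G : BP Ω) : ev Ω y x G = eval₂ (evalRingHom y) x G := by
  rw [eval₂_evalRingHom]
  exact congrFun (coe_aevalAeval_eq_evalEval y x) G

theorem gb_coeff (m v : ℕ) (hv : 1 ≤ v) (hg : Nat.Coprime m v) (c : Ω) (R : BP Ω) (a b : ℕ)
    (hb : b < v) :
    (∑ b' ∈ Finset.range v, C (c ^ b') * expand Ω v (R.coeff b') * X ^ (m * b')).coeff
      (v * a + m * b) = c ^ b * (R.coeff b).coeff a := by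
  rw [finsetSum_coeff, Finset.sum_eq_single b]
  · rw [coeff_mul_X_pow', if_pos (by omega), Nat.add_sub_cancel, coeff_C_mul,
      coeff_expand (by omega), if_pos (Dvd.intro a rfl), Nat.mul_div_cancel_left a (by omega)]
  · intro b' hb' hne
    have hb'v : b' < v := Finset.mem_range.1 hb'
    rw [coeff_mul_X_pow']
    split_ifs with h1
    · rw [coeff_C_mul, coeff_expand (by omega), if_neg, mul_zero]
      intro h2
      apply hne
      have h3 : (v : ℤ) ∣ (m : ℤ) * ((b : ℤ) - b') := by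
        obtain ⟨d, hd⟩ := h2
        refine ⟨(d : ℤ) - a, ?_⟩
        have h4 : ((v * a + m * b - m * b' : ℕ) : ℤ) = v * a + m * b - m * b' := by
          push_cast [Nat.cast_sub h1]
          ring
        have h5 : ((v * d : ℕ) : ℤ) = v * a + m * b - m * b' := by
          rw [← hd]
          exact h4
        push_cast at h5
        linear_combination -h5
      have h4 : IsCoprime (v : ℤ) (m : ℤ) := by
        rw [Nat.isCoprime_iff_coprime]
        exact hg.symm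
      have h5 : (v : ℤ) ∣ (b : ℤ) - b' := h4.dvd_of_dvd_mul_left h3
      have h6 : |(b : ℤ) - b'| < v := by
        rw [abs_lt]
        constructor <;> omega
      have h7 := Int.eq_zero_of_abs_lt_dvd h5 h6
      omega
    · rfl
  · intro h1
    exact absurd (Finset.mem_range.2 hb) h1

theorem gb_neg [IsAlgClosed Ω] [CharZero Ω] (m v : ℕ) (hv : 1 ≤ v) (hg : Nat.Coprime m v) (ρ : Ω)
    (hρ : ρ ≠ 0) (G : BP Ω)
    (h : ∀ y x : Ω, y ≠ 0 → x ≠ 0 → x ^ v = ρ * y ^ m → ev Ω y x G = 0) :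
    (X ^ v - C (C ρ * X ^ m) : BP Ω) ∣ G := by
  have hBm : (X ^ v - C (C ρ * X ^ m) : BP Ω).Monic := monic_X_pow_sub_C _ (by omega)
  have hBd : (X ^ v - C (C ρ * X ^ m) : BP Ω).natDegree = v := natDegree_X_pow_sub_C
  rw [← modByMonic_eq_zero_iff_dvd hBm]
  obtain ⟨R, hR⟩ : ∃ R : BP Ω, R = G %ₘ (X ^ v - C (C ρ * X ^ m) : BP Ω) := ⟨_, rfl⟩
  rw [← hR]
  have hRd : R.natDegree < v := by
    have h1 := natDegree_modByMonic_lt G hBm (by
      intro h1
      rw [h1, natDegree_one] at hBd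
      omega)
    rwa [hBd, ← hR] at h1
  have hev : ∀ y x : Ω, y ≠ 0 → x ≠ 0 → x ^ v = ρ * y ^ m → ev Ω y x R = 0 := by
    intro y x hy hx hyx
    have h1 := modByMonic_add_div G (X ^ v - C (C ρ * X ^ m) : BP Ω)
    rw [← hR] at h1
    have h2 : ev Ω y x (X ^ v - C (C ρ * X ^ m) : BP Ω) = 0 := by
      rw [gb_ev, eval₂_sub, eval₂_X_pow, eval₂_C, hyx]
      simp
    have h3 := congrArg (ev Ω y x) h1
    rw [map_add, map_mul, h2, zero_mul, add_zero, h y x hy hx hyx] at h3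
    exact h3
  obtain ⟨c, hc⟩ := IsAlgClosed.exists_pow_nat_eq ρ (by omega : 0 < v)
  have hc0 : c ≠ 0 := by
    rintro rfl
    rw [zero_pow (by omega)] at hc
    exact hρ hc.symm
  have hP0 : (∑ b ∈ Finset.range v, C (c ^ b) * expand Ω v (R.coeff b) * X ^ (m * b) : Polynomial Ω) = 0 := by
    apply eq_zero_of_infinite_isRoot
    apply ((Set.finite_singleton (0 : Ω)).infinite_compl).mono
    intro T hT
    have hT0 : T ≠ 0 := hT
    show IsRoot _ T
    rw [IsRoot.def, eval_finsetSum]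
    have h1 := hev (T ^ v) (c * T ^ m) (pow_ne_zero _ hT0) (mul_ne_zero hc0 (pow_ne_zero _ hT0))
      (by rw [mul_pow, hc, ← pow_mul, ← pow_mul, mul_comm m v])
    rw [gb_ev, eval₂_eq_sum_range' _ hRd] at h1
    rw [← h1]
    apply Finset.sum_congr rfl
    intro b _
    rw [eval_mul, eval_mul, eval_C, expand_eval, eval_pow, eval_X, coe_evalRingHom, mul_pow,
      ← pow_mul]
    ring
  apply Polynomial.ext
  intro b
  apply Polynomial.ext
  intro a
  by_cases hb : b < v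
  · have h1 := gb_coeff m v hv hg c R a b hb
    rw [hP0, coeff_zero] at h1
    rcases mul_eq_zero.1 h1.symm with h2 | h2
    · exact absurd h2 (pow_ne_zero _ hc0)
    · rw [h2]
      simp
  · rw [coeff_eq_zero_of_natDegree_lt (by omega : R.natDegree < b)]
    simp

theorem bin_dvd [IsAlgClosed Ω] [CharZero Ω] (u : ℤ) (v : ℕ) (hv : 1 ≤ v)
    (hg : Int.gcd u v = 1) (ρ : Ω) (hρ : ρ ≠ 0) (G : BP Ω)
    (h : ∀ y x : Ω, y ≠ 0 → x ≠ 0 → x ^ v * y ^ u = ρ → ev Ω y x G = 0) : bin u v ρ ∣ G := by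
  rcases le_or_gt u 0 with hu | hu
  · obtain ⟨m, hm⟩ : ∃ m : ℕ, u = -(m : ℤ) := ⟨(-u).toNat, by omega⟩
    subst hm
    have hb : bin (-(m : ℤ)) v ρ = (X ^ v - C (C ρ * X ^ m) : BP Ω) := by
      unfold bin
      have h1 : (-(m : ℤ)).toNat = 0 := by omega
      have h2 : (-(-(m : ℤ))).toNat = m := by omega
      rw [h1, h2, pow_zero, C_1, mul_one]
    rw [hb]
    apply gb_neg m v hv _ ρ hρ G
    · intro y x hy hx hyx
      apply h y x hy hx
      rw [hyx, zpow_neg, zpow_natCast, mul_assoc, mul_inv_cancel₀ (pow_ne_zero _ hy), mul_one]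
    · rw [Int.neg_gcd] at hg
      exact hg
  · obtain ⟨m, hm⟩ : ∃ m : ℕ, u = (m : ℤ) := ⟨u.toNat, by omega⟩
    subst hm
    have hb : bin (m : ℤ) v ρ = (X ^ v * C (X ^ m) - C (C ρ) : BP Ω) := by
      unfold bin
      have h1 : ((m : ℤ)).toNat = m := by omega
      have h2 : (-(m : ℤ)).toNat = 0 := by omega
      rw [h1, h2, pow_zero, mul_one]
    rw [hb]
    obtain ⟨N, hN⟩ : ∃ N : ℕ, N = G.natDegree + v := ⟨_, rfl⟩
    have hdvd : (X ^ v - C (C ρ⁻¹ * X ^ m) : BP Ω) ∣ reflect N G := by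
      apply gb_neg m v hv _ ρ⁻¹ (inv_ne_zero hρ) (reflect N G)
      · intro y x hy hx hyx
        have hx' : x⁻¹ ≠ 0 := inv_ne_zero hx
        let inst : Invertible (x⁻¹) := invertibleOfNonzero hx'
        have h1 := eval₂_reflect_mul_pow (evalRingHom y) (x⁻¹) N G (by omega)
        rw [invOf_eq_inv, inv_inv] at h1
        have h2 : ev Ω y x⁻¹ G = 0 := by
          apply h y x⁻¹ hy hx'
          rw [inv_pow, hyx, mul_inv, inv_inv, zpow_natCast, mul_assoc,
            inv_mul_cancel₀ (pow_ne_zero _ hy), mul_one]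
        rw [gb_ev] at h2 ⊢
        rw [h2] at h1
        rcases mul_eq_zero.1 h1 with h3 | h3
        · exact h3
        · exact absurd h3 (pow_ne_zero _ hx')
      · exact hg
    obtain ⟨Q, hQ⟩ := hdvd
    by_cases hQ0 : Q = 0
    · rw [hQ0, mul_zero] at hQ
      have h1 : G = 0 := by
        rw [← reflect_reflect (N := N) (p := G), hQ, reflect_zero]
      rw [h1]
      exact dvd_zero _
    · have hBm : (X ^ v - C (C ρ⁻¹ * X ^ m) : BP Ω).Monic := monic_X_pow_sub_C _ (by omega)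
      have hBd : (X ^ v - C (C ρ⁻¹ * X ^ m) : BP Ω).natDegree = v := natDegree_X_pow_sub_C
      have h1 : (reflect N G).natDegree ≤ N := by
        refine natDegree_reflect_le.trans ?_
        omega
      rw [hQ, hBm.natDegree_mul' hQ0, hBd] at h1
      have h2 : G = reflect v (X ^ v - C (C ρ⁻¹ * X ^ m) : BP Ω) * reflect (N - v) Q := by
        rw [← reflect_mul _ _ hBd.le (by omega : Q.natDegree ≤ N - v), ← hQ]
        have h3 : v + (N - v) = N := by omega
        rw [h3, reflect_reflect]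
      have h3 : reflect v (X ^ v - C (C ρ⁻¹ * X ^ m) : BP Ω) =
          (X ^ v * C (X ^ m) - C (C ρ)) * C (C (-ρ⁻¹)) := by
        have h4 : (X ^ v - C (C ρ⁻¹ * X ^ m) : BP Ω) = C 1 * X ^ v + C (-(C ρ⁻¹ * X ^ m)) := by
          rw [C_1, one_mul, C_neg, sub_eq_add_neg]
        rw [h4, reflect_add, reflect_C_mul_X_pow, reflect_C, revAt_le le_rfl, Nat.sub_self,
          pow_zero, C_1, mul_one]
        have h5 : (C (C ρ) : BP Ω) * C (C (-ρ⁻¹)) = -1 := by
          rw [← C_mul, ← C_mul, mul_neg, mul_inv_cancel₀ hρ, C_neg, C_1, C_neg, C_1]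
        rw [sub_mul, h5]
        simp only [C_neg, C_mul]
        ring
      rw [h2, h3, mul_assoc]
      exact dvd_mul_right _ _

theorem bin_push [IsAlgClosed Ω] [CharZero Ω] (u : ℤ) (v : ℕ) (hv : 1 ≤ v)
    (hg : Int.gcd u v = 1) (ρ : Ω) (hρ : ρ ≠ 0) (q : ℕ) (hq : 1 ≤ q) (G : BP Ω)
    (h : bin u v ρ ∣ ex q G) : bin u v (ρ ^ q) ∣ G := by
  apply bin_dvd u v hv hg (ρ ^ q) (pow_ne_zero _ hρ) G
  intro y x hy hx hyx
  obtain ⟨y2, hy2⟩ := IsAlgClosed.exists_pow_nat_eq y (by omega : 0 < q)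
  obtain ⟨x2, hx2⟩ := IsAlgClosed.exists_pow_nat_eq x (by omega : 0 < q)
  have hy20 : y2 ≠ 0 := by
    rintro rfl
    rw [zero_pow (by omega)] at hy2
    exact hy hy2.symm
  have hx20 : x2 ≠ 0 := by
    rintro rfl
    rw [zero_pow (by omega)] at hx2
    exact hx hx2.symm
  obtain ⟨w, hw⟩ : ∃ w : Ω, w = x2 ^ v * y2 ^ u / ρ := ⟨_, rfl⟩
  have hw0 : w ≠ 0 := by
    rw [hw]
    exact div_ne_zero (mul_ne_zero (pow_ne_zero _ hx20) (zpow_ne_zero _ hy20)) hρ
  have hwq : w ^ q = 1 := by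
    rw [hw, div_pow, mul_pow, ← pow_mul, mul_comm v q, pow_mul, hx2]
    have h1 : (y2 ^ u) ^ q = y ^ u := by
      rw [← zpow_natCast, ← zpow_mul, mul_comm, zpow_mul, zpow_natCast, hy2]
    rw [h1, hyx, div_self (pow_ne_zero _ hρ)]
  have hwz : ∀ t : ℤ, (w ^ t) ^ q = 1 := by
    intro t
    rw [← zpow_natCast, ← zpow_mul, mul_comm, zpow_mul, zpow_natCast, hwq, one_zpow]
  obtain ⟨s, t, hst⟩ : ∃ s t : ℤ, s * v + t * u = 1 := by
    refine ⟨Int.gcdB u v, Int.gcdA u v, ?_⟩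
    have h1 := Int.gcd_eq_gcd_ab u v
    rw [hg] at h1
    push_cast at h1
    linarith
  have hyq : (w ^ (-t) * y2) ^ q = y := by
    rw [mul_pow, hwz, one_mul, hy2]
  have hxq : (w ^ (-s) * x2) ^ q = x := by
    rw [mul_pow, hwz, one_mul, hx2]
  have hy3 : w ^ (-t) * y2 ≠ 0 := mul_ne_zero (zpow_ne_zero _ hw0) hy20
  have hrel : (w ^ (-s) * x2) ^ v * (w ^ (-t) * y2) ^ u = ρ := by
    rw [mul_pow, mul_zpow, ← zpow_natCast (w ^ (-s)) v, ← zpow_mul, ← zpow_mul]
    have h1 : w ^ (-s * (v : ℤ)) * x2 ^ v * (w ^ (-t * u) * y2 ^ u) =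
        (w ^ (-s * (v : ℤ)) * w ^ (-t * u)) * (x2 ^ v * y2 ^ u) := by ring
    rw [h1, ← zpow_add₀ hw0]
    have h2 : -s * (v : ℤ) + -t * u = -1 := by linarith
    have h3 : x2 ^ v * y2 ^ u = w * ρ := by
      rw [hw, div_mul_cancel₀ _ hρ]
    rw [h2, h3, zpow_neg, zpow_one, ← mul_assoc, inv_mul_cancel₀ hw0, one_mul]
  have h1 := ev_ex (k := Ω) (L := Ω) q (w ^ (-t) * y2) (w ^ (-s) * x2) G
  rw [hyq, hxq] at h1
  rw [← h1]
  obtain ⟨Q, hQ⟩ := h
  rw [hQ, map_mul, (bin_ev u v ρ _ _ hy3).2 hrel, zero_mul]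

end Pool.Agent.H72.PL
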