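import Pool.Agent.H72.PL.GPush

/-!
# Module GCaseI: counting the images (paper proof: proposal 65, section 7, case I)

For `t ∈ T`, `χ ∈ Ψ` let `π_(t,χ)` be the polynomial of `push` for `q t`, `χ` (the hypothesis `hne` is `hfree`
with `χ' = χ`). `χ ∣ ex (q t) (mp (σ t) f')` gives `π_(t,χ) ∣ mp (σ t) f'`, so
`p_(t,χ) := mp (σ t)⁻¹ π_(t,χ)` divides `f'` (`mp_mp`, `mp_id`), is irreducible, `dX = q t * δ`.
They are pairwise non-associated: different `t`: different degrees `dX` (`q` injective on `T`, `δ > 0`,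
`dX_assoc`); same `t`, `χ ≠ χ'`: if `π_(t,χ) ~ π_(t,χ')`, then `χ ∣ ex π_(t,χ) ~ ex π_(t,χ')`, so by the last
clause of `push` (for `χ'`) `χ ~ tw ξ χ'` with `ξ^q = 1`, and `hfree` gives `χ = χ'`. So the product of all
`p_(t,χ)` divides `f'` (`prod_dvd`, index set `T ×ˢ Ψ`), and `∑_t #Ψ q_t δ ≤ dX f'` (`dX_mul`, i.e.
`natDegree_prod`).
-/

set_option autoImplicit false

open Polynomial Module

namespace Pool.Agent.H72.PL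

theorem case_one {Ω : Type} [Field Ω] [IsAlgClosed Ω] [CharZero Ω] (Ψ : Finset (BP Ω)) (δ : ℕ)
    (hδ : 0 < δ) (hirr : ∀ χ ∈ Ψ, Irreducible χ ∧ dX χ = δ) {ι : Type} (T : Finset ι)
    (q : ι → ℕ) (hinj : Set.InjOn q T) (hq : ∀ t ∈ T, 1 ≤ q t) (σ : ι → (Ω ≃+* Ω)) (f' : BP Ω)
    (hf' : f' ≠ 0) (hdiv : ∀ t ∈ T, ∀ χ ∈ Ψ, χ ∣ ex (q t) (mp ((σ t : Ω ≃+* Ω) : Ω →+* Ω) f'))
    (hfree : ∀ t ∈ T, ∀ χ ∈ Ψ, ∀ χ' ∈ Ψ, ∀ ξ : Ω × Ω, ξ.1 ^ q t = 1 → ξ.2 ^ q t = 1 →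
      Associated (tw ξ χ) χ' → ξ = 1 ∧ χ = χ') :
    ∑ t ∈ T, q t * (Ψ.card * δ) ≤ dX f' := by
  classical
  have key : ∀ (t : ι) (χ : BP Ω), ∃ π : BP Ω, t ∈ T → χ ∈ Ψ →
      Irreducible π ∧ dX π = q t * dX χ ∧ χ ∣ ex (q t) π ∧
      (∀ G : BP Ω, χ ∣ ex (q t) G → π ∣ G) ∧
      ∀ χ' : BP Ω, Irreducible χ' → χ' ∣ ex (q t) π →
        ∃ ξ : Ω × Ω, ξ.1 ^ q t = 1 ∧ ξ.2 ^ q t = 1 ∧ Associated χ' (tw ξ χ) := by
    intro t χ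
    by_cases h : t ∈ T ∧ χ ∈ Ψ
    · obtain ⟨π, h1, h2, h3, h4, h5⟩ := push (q t) (hq t h.1) χ (hirr χ h.2).1
        (fun ξ e1 e2 e3 => (hfree t h.1 χ h.2 χ h.2 ξ e1 e2 e3).1)
      exact ⟨π, fun _ _ => ⟨h1, h2, h3, h4, h5⟩⟩
    · exact ⟨0, fun h1 h2 => absurd ⟨h1, h2⟩ h⟩
  choose P hP using key
  set a : ι × BP Ω → BP Ω := fun i => mp (((σ i.1).symm : Ω ≃+* Ω) : Ω →+* Ω) (P i.1 i.2) with ha
  -- the substitution in the coefficients is invertible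
  have hcomp1 : ∀ τ : Ω ≃+* Ω, ∀ G : BP Ω,
      mp ((τ.symm : Ω ≃+* Ω) : Ω →+* Ω) (mp (τ : Ω →+* Ω) G) = G := by
    intro τ G
    rw [mp_mp]
    have : ((τ.symm : Ω ≃+* Ω) : Ω →+* Ω).comp (τ : Ω →+* Ω) = RingHom.id Ω := by
      ext x; simp
    rw [this, mp_id]
  have hcomp2 : ∀ τ : Ω ≃+* Ω, ∀ G : BP Ω,
      mp (τ : Ω →+* Ω) (mp ((τ.symm : Ω ≃+* Ω) : Ω →+* Ω) G) = G := by
    intro τ G
    rw [mp_mp]
    have : (τ : Ω →+* Ω).comp ((τ.symm : Ω ≃+* Ω) : Ω →+* Ω) = RingHom.id Ω := by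
      ext x; simp
    rw [this, mp_id]
  have hirrmp : ∀ τ : Ω ≃+* Ω, ∀ G : BP Ω, Irreducible G → Irreducible (mp (τ : Ω →+* Ω) G) := by
    intro τ G hG
    let e : BP Ω ≃+* BP Ω := RingEquiv.ofRingHom (mp (τ : Ω →+* Ω))
      (mp ((τ.symm : Ω ≃+* Ω) : Ω →+* Ω)) (RingHom.ext (hcomp2 τ)) (RingHom.ext (hcomp1 τ))
    have := (MulEquiv.irreducible_iff e.toMulEquiv (x := G)).2 hG
    exact this
  have hmem : ∀ i ∈ T ×ˢ Ψ, i.1 ∈ T ∧ i.2 ∈ Ψ := fun i hi => Finset.mem_product.1 hi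
  have hdXa : ∀ i ∈ T ×ˢ Ψ, dX (a i) = q i.1 * δ := by
    intro i hi
    obtain ⟨h1, h2⟩ := hmem i hi
    rw [ha]
    simp only
    rw [dX_mp, (hP i.1 i.2 h1 h2).2.1, (hirr i.2 h2).2]
  have hirra : ∀ i ∈ T ×ˢ Ψ, Irreducible (a i) := by
    intro i hi
    obtain ⟨h1, h2⟩ := hmem i hi
    exact hirrmp (σ i.1).symm _ (hP i.1 i.2 h1 h2).1
  have hdvd : ∏ i ∈ T ×ˢ Ψ, a i ∣ f' := by
    refine prod_dvd (T ×ˢ Ψ) a f' hirra ?_ ?_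
    · intro i hi j hj hij
      obtain ⟨hi1, hi2⟩ := hmem i hi
      obtain ⟨hj1, hj2⟩ := hmem j hj
      have hd := dX_assoc _ _ hij
      rw [hdXa i hi, hdXa j hj] at hd
      have hq' : q i.1 = q j.1 := Nat.eq_of_mul_eq_mul_right hδ hd
      have hij1 : i.1 = j.1 := hinj hi1 hj1 hq'
      obtain ⟨t, χ⟩ := i
      obtain ⟨t', χ'⟩ := j
      simp only at hij1 hi1 hi2 hj1 hj2
      subst hij1
      have hass : Associated (P t χ) (P t χ') := by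
        have h2 := hij.map (mp ((σ t : Ω ≃+* Ω) : Ω →+* Ω))
        simp only [ha] at h2
        rwa [hcomp2, hcomp2] at h2
      have hdv : χ ∣ ex (q t) (P t χ') :=
        (hP t χ hi1 hi2).2.2.1.trans (map_dvd (ex (q t)) hass.dvd)
      obtain ⟨ξ, e1, e2, e3⟩ := (hP t χ' hj1 hj2).2.2.2.2 χ (hirr χ hi2).1 hdv
      have := (hfree t hi1 χ' hj2 χ hi2 ξ e1 e2 e3.symm).2
      rw [this]
    · intro i hi
      obtain ⟨h1, h2⟩ := hmem i hi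
      have h3 := (hP i.1 i.2 h1 h2).2.2.2.1 _ (hdiv i.1 h1 i.2 h2)
      have h4 := map_dvd (mp (((σ i.1).symm : Ω ≃+* Ω) : Ω →+* Ω)) h3
      rwa [hcomp1] at h4
  have hle := dX_le_of_dvd _ _ hf' hdvd
  have hsum : dX (∏ i ∈ T ×ˢ Ψ, a i) = ∑ i ∈ T ×ˢ Ψ, dX (a i) := by
    unfold dX
    exact Polynomial.natDegree_prod _ _ (fun i hi => (hirra i hi).ne_zero)
  rw [hsum, Finset.sum_congr rfl hdXa, Finset.sum_product] at hle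
  refine le_trans (le_of_eq ?_) hle
  refine Finset.sum_congr rfl fun t _ => ?_
  simp only [Finset.sum_const, smul_eq_mul]
  ring

end Pool.Agent.H72.PL
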