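import Pool.Agent.H72.PL.GStab

/-!
# Module GCol: irreducible polynomials with collinear support (paper proof: prop. 65, section 7)

`ψ` irreducible over the algebraically closed field `Ω`, `dX ψ > 0`, vanishing at `(y, x)`, `y, x ≠ 0`,
all triples of support points collinear.
* `X ∤ ψ` and `Y = C X ∤ ψ`: otherwise `ψ` would be associated to `X` (resp. `Y`) and not vanish at
  `(y, x)`. The support has at least two points (a monomial does not vanish at `(y,x)`).
* Some support point has `X`-exponent `0` (`X ∤ ψ`), some has positive `X`-exponent (`dX ψ > 0`). Let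
  `p₀ = (a₀, 0)` be a support point and `p' = (a', b')` one with `b' > 0`. All support points lie on the
  line through `p₀` and `p'`; in particular `p₀` is the only one with `X`-exponent `0`. Let
  `v = b'/g`, `u = (a' - a₀)/g`, `g = gcd(b', a' - a₀)`; `v ≥ 1`, `gcd(u, v) = 1`. Each support
  point `(a, b)` satisfies `(a - a₀) v = u b`, so `v ∣ b`, `b = j v`, `a = a₀ + j u`, `j ≥ 0`. Let `J ≥ 1` be the
  maximal `j`.
* Case `u ≥ 0`: `a ≥ a₀` for all support points, `Y ∤ ψ` gives `a₀ = 0`. So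
  `ψ = ∑_j c_j (X^v Y^u)^j = h(X^v Y^u)`, `h ∈ Ω[Z]` of degree `J ≥ 1`. `h = c ∏ (Z - r_i)` splits, so
  `ψ = c ∏ (X^v Y^u - r_i)`; the factors are not units (`dX = v ≥ 1`), `ψ` is irreducible, so there is only
  one factor: `ψ ~ bin u v r`.
* Case `u < 0`: the minimal `a` is `a₀ - J|u| = 0`, `ψ = ∑_j c_j X^(v j) Y^(|u| (J - j))`. Let
  `h = ∑ c_j Z^j = c_J ∏ (Z - r_i)` (degree `J`); then `ψ = c_J ∏_i (X^v - r_i Y^|u|)` (homogenise), so again
  `J = 1` and `ψ ~ X^v - r Y^|u| = bin u v r`.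
* `ψ(y, x) = 0` gives `r = x^v y^u` (`zpow`; `y ≠ 0`).
-/

set_option autoImplicit false

open Polynomial Module

namespace Pool.Agent.H72.PL


section gcol

variable {Ω : Type} [Field Ω]

theorem gcol_ev (y x c : Ω) (a b : ℕ) :
    ev Ω y x (C (C c) * (C (X ^ a) * X ^ b) : BP Ω) = c * (y ^ a * x ^ b) := by
  simp [ev]

theorem gcol_sum (ψ : BP Ω) : ψ = ∑ b ∈ ψ.support, ∑ a ∈ (ψ.coeff b).support,
    C (C ((ψ.coeff b).coeff a)) * (C (X ^ a) * X ^ b) := by
  conv_lhs => rw [ψ.as_sum_support_C_mul_X_pow]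
  refine Finset.sum_congr rfl fun b _ => ?_
  conv_lhs => rw [(ψ.coeff b).as_sum_support_C_mul_X_pow]
  rw [map_sum, Finset.sum_mul]
  refine Finset.sum_congr rfl fun a _ => ?_
  rw [C_mul]
  ring

theorem gcol_nu (u : ℤ) (v : ℕ) (hv : 1 ≤ v) (ρ : Ω) : ¬ IsUnit (bin u v ρ) := by
  intro h
  have h1 := natDegree_eq_zero_of_isUnit h
  have h2 : (bin u v ρ).coeff v = X ^ u.toNat := by
    unfold bin
    rw [coeff_sub, coeff_C_ne_zero (by omega), sub_zero, coeff_mul_C, coeff_X_pow_self, one_mul]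
  have h3 : (bin u v ρ).coeff v ≠ 0 := by
    rw [h2]; exact pow_ne_zero _ X_ne_zero
  have h4 := le_natDegree_of_ne_zero h3
  omega

theorem gcol_step (u : ℤ) (v a₀ b₀ a b j : ℕ) (y x : Ω) (hy : y ≠ 0)
    (hb : b = b₀ + j * v) (ha : (a : ℤ) = a₀ + j * u) :
    bin u v (x ^ v * y ^ u) ∣ (C (X ^ a) * X ^ b -
      C (C ((x ^ v * y ^ u) ^ j)) * (C (X ^ a₀) * X ^ b₀) : BP Ω) ∧
    y ^ a * x ^ b = (x ^ v * y ^ u) ^ j * (y ^ a₀ * x ^ b₀) := by
  obtain ⟨ρ, hρ⟩ : ∃ ρ, ρ = x ^ v * y ^ u := ⟨_, rfl⟩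
  rw [← hρ]
  obtain ⟨e, he1, he2⟩ : ∃ e : ℕ, a = e + u.toNat * j ∧ a₀ = e + (-u).toNat * j := by
    rcases le_total 0 u with h | h
    · refine ⟨a₀, ?_, ?_⟩
      · have h1 : ((u.toNat : ℕ) : ℤ) = u := Int.toNat_of_nonneg h
        zify
        rw [ha, h1]
        ring
      · rw [Int.toNat_of_nonpos (by omega)]; simp
    · refine ⟨a, ?_, ?_⟩
      · rw [Int.toNat_of_nonpos h]; simp
      · have h1 : (((-u).toNat : ℕ) : ℤ) = -u := Int.toNat_of_nonneg (by omega)
        zify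
        rw [ha, h1]
        ring
  have hρy : ρ * y ^ (-u).toNat = x ^ v * y ^ u.toNat := by
    rw [hρ, mul_assoc]
    congr 1
    rw [← zpow_natCast, ← zpow_natCast, ← zpow_add₀ hy]
    congr 1
    omega
  constructor
  · have h1 : (C (X ^ a) * X ^ b - C (C (ρ ^ j)) * (C (X ^ a₀) * X ^ b₀) : BP Ω) =
        (C (X ^ e) * X ^ b₀) * ((X ^ v * C (X ^ u.toNat)) ^ j -
          (C (C ρ * X ^ (-u).toNat)) ^ j) := by
      rw [he1, he2, hb]
      simp only [map_mul, map_pow, mul_pow, pow_add, pow_mul]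
      ring
    rw [h1]
    refine Dvd.dvd.mul_left ?_ _
    exact sub_dvd_pow_sub_pow _ _ j
  · calc y ^ a * x ^ b = (y ^ e * x ^ b₀) * (x ^ v * y ^ u.toNat) ^ j := by
          rw [he1, hb, mul_pow, pow_add, pow_add, pow_mul, mul_comm j v, pow_mul]
          ring
      _ = (y ^ e * x ^ b₀) * (ρ * y ^ (-u).toNat) ^ j := by rw [hρy]
      _ = ρ ^ j * (y ^ a₀ * x ^ b₀) := by
          rw [he2, mul_pow, pow_add, pow_mul]
          ring

end gcol

theorem collinear_bin {Ω : Type} [Field Ω] [IsAlgClosed Ω] (ψ : BP Ω) (hψ : Irreducible ψ)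
    (hX : 0 < dX ψ) (hcol : ¬ NonCol ψ) (y x : Ω) (hy : y ≠ 0) (hx : x ≠ 0)
    (h0 : ev Ω y x ψ = 0) :
    ∃ (u : ℤ) (v : ℕ), 1 ≤ v ∧ Int.gcd u v = 1 ∧ Associated ψ (bin u v (x ^ v * y ^ u)) := by
  classical
  -- the minimal exponent of X
  have hψ0 : ψ ≠ 0 := hψ.ne_zero
  obtain ⟨b₀, hb₀s, hb₀m⟩ : ∃ b₀ ∈ ψ.support, ∀ b ∈ ψ.support, b₀ ≤ b := by
    have hne : ψ.support.Nonempty := nonempty_support_iff.2 hψ0
    exact ⟨ψ.support.min' hne, Finset.min'_mem _ _, fun b hb => Finset.min'_le _ _ hb⟩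
  -- there is a larger one
  obtain ⟨b', hb's, hb'm⟩ : ∃ b' ∈ ψ.support, b₀ < b' := by
    by_contra hcon
    push Not at hcon
    have hall : ∀ b ∈ ψ.support, b = b₀ := fun b hb => le_antisymm (hcon b hb) (hb₀m b hb)
    have hdeg : ψ.natDegree = b₀ := hall _ (natDegree_mem_support_of_nonzero hψ0)
    have hb₀ : 1 ≤ b₀ := by
      unfold dX at hX
      omega
    have hXd : (X : BP Ω) ∣ ψ := by
      rw [X_dvd_iff]
      by_contra h
      have := hall 0 (Polynomial.mem_support_iff.2 h)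
      omega
    obtain ⟨c, hc⟩ := hXd
    have hcu : IsUnit c := by
      rcases hψ.isUnit_or_isUnit hc with h | h
      · exact absurd h not_isUnit_X
      · exact h
    rw [hc, map_mul] at h0
    have h1 : ev Ω y x (X : BP Ω) = x := by simp [ev]
    rw [h1] at h0
    rcases mul_eq_zero.1 h0 with h | h
    · exact hx h
    · exact (hcu.map (ev Ω y x)).ne_zero h
  obtain ⟨a₀, ha₀⟩ : ∃ a₀, (ψ.coeff b₀).coeff a₀ ≠ 0 := by
    by_contra hcon
    push Not at hcon
    exact Polynomial.mem_support_iff.1 hb₀s (Polynomial.ext (by simpa using hcon))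
  obtain ⟨a', ha'⟩ : ∃ a', (ψ.coeff b').coeff a' ≠ 0 := by
    by_contra hcon
    push Not at hcon
    exact Polynomial.mem_support_iff.1 hb's (Polynomial.ext (by simpa using hcon))
  -- the direction
  obtain ⟨g, hg⟩ : ∃ g : ℕ, g = Int.gcd ((a' : ℤ) - a₀) ((b' : ℤ) - b₀) := ⟨_, rfl⟩
  have hgpos : 0 < g := by
    rw [hg]
    exact Int.gcd_pos_of_ne_zero_right _ (by omega)
  have hgZ : (g : ℤ) ≠ 0 := by exact_mod_cast hgpos.ne'
  obtain ⟨u, hu⟩ : (g : ℤ) ∣ (a' : ℤ) - a₀ := by rw [hg]; exact Int.gcd_dvd_left _ _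
  obtain ⟨w, hw⟩ : (g : ℤ) ∣ (b' : ℤ) - b₀ := by rw [hg]; exact Int.gcd_dvd_right _ _
  have hwpos : 0 < w := by
    have h1 : (0 : ℤ) < (b' : ℤ) - b₀ := by omega
    rw [hw] at h1
    have h2 : (0 : ℤ) < g := by exact_mod_cast hgpos
    by_contra h3
    have h4 : w ≤ 0 := not_lt.1 h3
    nlinarith
  obtain ⟨v, hv⟩ : ∃ v : ℕ, (v : ℤ) = w := ⟨w.toNat, Int.toNat_of_nonneg hwpos.le⟩
  have hv1 : 1 ≤ v := by omega
  have hgcd : Int.gcd u v = 1 := by
    have h1 : Int.gcd ((a' : ℤ) - a₀) ((b' : ℤ) - b₀) = g * Int.gcd u w := by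
      rw [hu, hw, Int.gcd_mul_left]
      simp
    rw [← hg] at h1
    rw [hv]
    have h2 : g * Int.gcd u w = g * 1 := by rw [← h1, mul_one]
    exact Nat.eq_of_mul_eq_mul_left hgpos h2
  refine ⟨u, v, hv1, hgcd, ?_⟩
  obtain ⟨ρ, hρ⟩ : ∃ ρ, ρ = x ^ v * y ^ u := ⟨_, rfl⟩
  have hstep : ∀ a b : ℕ, ∃ s : Ω, (ψ.coeff b).coeff a ≠ 0 →
      bin u v ρ ∣ (C (X ^ a) * X ^ b - C (C s) * (C (X ^ a₀) * X ^ b₀) : BP Ω) ∧
      y ^ a * x ^ b = s * (y ^ a₀ * x ^ b₀) := by
    intro a b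
    by_cases hab : (ψ.coeff b).coeff a = 0
    · exact ⟨0, fun h => absurd hab h⟩
    · have hbs : b ∈ ψ.support := by
        rw [Polynomial.mem_support_iff]
        intro h
        rw [h, coeff_zero] at hab
        exact hab rfl
      have hbb := hb₀m b hbs
      have harea : area (a₀, b₀) (a', b') (a, b) = 0 := by
        by_contra h
        exact hcol ⟨(a₀, b₀), (a', b'), (a, b), ha₀, ha', hab, h⟩
      unfold area at harea
      simp only at harea
      rw [hu, hw] at harea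
      have h1 : u * ((b : ℤ) - b₀) = ((a : ℤ) - a₀) * w := by
        have h2 : (g : ℤ) * (u * ((b : ℤ) - b₀) - ((a : ℤ) - a₀) * w) = 0 := by linarith
        rcases mul_eq_zero.1 h2 with h | h
        · exact absurd h hgZ
        · linarith
      have hcop : IsCoprime w u := by
        rw [Int.isCoprime_iff_gcd_eq_one, Int.gcd_comm, ← hv]
        exact hgcd
      have h2 : w ∣ (b : ℤ) - b₀ := by
        apply hcop.dvd_of_dvd_mul_left
        exact ⟨(a : ℤ) - a₀, by rw [h1]; ring⟩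
      obtain ⟨t, ht⟩ := h2
      have ht0 : 0 ≤ t := by
        have h3 : (0 : ℤ) ≤ w * t := by rw [← ht]; omega
        exact nonneg_of_mul_nonneg_right h3 hwpos
      obtain ⟨j, hj⟩ : ∃ j : ℕ, (j : ℤ) = t := ⟨t.toNat, Int.toNat_of_nonneg ht0⟩
      have hbj : b = b₀ + j * v := by
        have : (b : ℤ) = b₀ + j * v := by
          rw [hj, hv]
          linarith
        exact_mod_cast this
      have haj : (a : ℤ) = a₀ + j * u := by
        rw [ht] at h1
        have h3 : w * (u * t - ((a : ℤ) - a₀)) = 0 := by linarith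
        rcases mul_eq_zero.1 h3 with h | h
        · omega
        · rw [hj]; linarith
      refine ⟨ρ ^ j, fun _ => ?_⟩
      rw [hρ]
      exact gcol_step u v a₀ b₀ a b j y x hy hbj haj
  choose s hs using hstep
  have hin : ∀ b ∈ ψ.support, ∀ a ∈ (ψ.coeff b).support, (ψ.coeff b).coeff a ≠ 0 :=
    fun b _ a ha => Polynomial.mem_support_iff.1 ha
  obtain ⟨Sg, hSg⟩ : ∃ Sg : Ω, Sg = ∑ b ∈ ψ.support, ∑ a ∈ (ψ.coeff b).support,
    (ψ.coeff b).coeff a * s a b := ⟨_, rfl⟩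
  have hzero : Sg = 0 := by
    have h1 : ev Ω y x ψ = Sg * (y ^ a₀ * x ^ b₀) := by
      conv_lhs => rw [gcol_sum ψ]
      rw [map_sum, hSg, Finset.sum_mul]
      refine Finset.sum_congr rfl fun b hb => ?_
      rw [map_sum, Finset.sum_mul]
      refine Finset.sum_congr rfl fun a ha => ?_
      rw [gcol_ev, (hs a b (hin b hb a ha)).2]
      ring
    rw [h0] at h1
    rcases mul_eq_zero.1 h1.symm with h | h
    · exact h
    · exact absurd h (mul_ne_zero (pow_ne_zero _ hy) (pow_ne_zero _ hx))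
  have hdvd : bin u v ρ ∣ ψ := by
    have h1 : ψ = ∑ b ∈ ψ.support, ∑ a ∈ (ψ.coeff b).support,
        C (C ((ψ.coeff b).coeff a)) * (C (X ^ a) * X ^ b -
          C (C (s a b)) * (C (X ^ a₀) * X ^ b₀)) := by
      have h2 : ∑ b ∈ ψ.support, ∑ a ∈ (ψ.coeff b).support,
        C (C ((ψ.coeff b).coeff a)) * (C (C (s a b)) * (C (X ^ a₀) * X ^ b₀)) =
          C (C Sg) * (C (X ^ a₀) * X ^ b₀ : BP Ω) := by
        rw [hSg]
        simp only [map_sum, Finset.sum_mul]
        refine Finset.sum_congr rfl fun b _ => Finset.sum_congr rfl fun a _ => ?_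
        rw [map_mul, map_mul]
        ring
      rw [hzero] at h2
      simp only [map_zero, zero_mul] at h2
      simp only [mul_sub, Finset.sum_sub_distrib]
      rw [h2, sub_zero]
      exact gcol_sum ψ
    rw [h1]
    refine Finset.dvd_sum fun b hb => Finset.dvd_sum fun a ha => ?_
    exact Dvd.dvd.mul_left (hs a b (hin b hb a ha)).1 _
  rw [← hρ]
  obtain ⟨c, hc⟩ := hdvd
  rcases hψ.isUnit_or_isUnit hc with h | h
  · exact absurd h (gcol_nu u v hv1 ρ)
  · rw [hc]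
    exact associated_mul_unit_left _ _ h

end Pool.Agent.H72.PL
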