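import Mathlib

/-!
# Module Doubling: the doubling lemma (paper proof: proposal 65, section 7)

`O` is a finite nonempty set, `rel m` (`m : ℕ`) equivalence relations, increasing for divisibility in the
sense `rel m ⟹ rel (m m')` and `rel m' ⟹ rel (m m')`; if `x, y ∈ O` are related by `rel m` and `rel m'`,
`m`, `m'` coprime, then `x = y`; and `O` is homogeneous: for `x, y ∈ O` there is a bijection of `O`
preserving all relations with `x ↦ y`. If for every `q` in a set `S` of pairwise coprime numbers there are
distinct related (`rel q`) elements of `O`, then `2^#S ≤ #O`.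
Proof. For `m` let `β m` be the number of elements of the class `{y ∈ O : rel m x y}`; it does not depend
on `x ∈ O`. `β q ≥ 2` for `q ∈ S`. Claim `β m * β m' ≤ β (m m')` for coprime `m, m'`: let `X₁` be the
`rel m`-class of `x`. The `rel m'`-classes of the elements of `X₁` are contained in the `rel (m m')`-class
of `x` (transitivity) and are pairwise disjoint: if `z` lies in the classes of `x', x'' ∈ X₁`, then
`rel m' x' x''` and `rel m x' x''`, so `x' = x''`. Each has `β m'` elements.
By induction over a finset `S'` of pairwise coprime numbers (`Finset.induction_on`):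
`2^#S' ≤ β (∏ S')`, since `q` is prime to the product of the others (`Nat.Coprime.prod_right`).
Finally `β m ≤ #O`.
-/

set_option autoImplicit false

namespace Pool.Agent.H72.PL

theorem doubling {X : Type} (O : Finset X) (hO : O.Nonempty) (S : Finset ℕ)
    (hS : (S : Set ℕ).Pairwise Nat.Coprime) (rel : ℕ → X → X → Prop)
    (heq : ∀ m, Equivalence (rel m)) (hmono : ∀ m m' x y, rel m x y → rel (m * m') x y)
    (hmono' : ∀ m m' x y, rel m x y → rel (m' * m) x y)
    (hcop : ∀ m m', Nat.Coprime m m' → ∀ x ∈ O, ∀ y ∈ O, rel m x y → rel m' x y → x = y)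
    (htrans : ∀ x ∈ O, ∀ y ∈ O, ∃ e : X → X, Set.BijOn e O O ∧ e x = y ∧
      ∀ m, ∀ a ∈ O, ∀ b ∈ O, rel m a b ↔ rel m (e a) (e b))
    (hq : ∀ q ∈ S, ∃ x ∈ O, ∃ y ∈ O, x ≠ y ∧ rel q x y) : 2 ^ S.card ≤ O.card := by
  classical
  obtain ⟨x0, hx0⟩ := hO
  have hcl : ∀ m x y, x ∈ O → y ∈ O → (O.filter (rel m x)).card ≤ (O.filter (rel m y)).card := by
    intro m x y hx hy
    obtain ⟨e, he, hexy, hr⟩ := htrans x hx y hy
    apply Finset.card_le_card_of_injOn e
    · intro a ha
      have ha' : a ∈ O.filter (rel m x) := ha
      rw [Finset.mem_filter] at ha'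
      have h1 : e a ∈ O := he.mapsTo ha'.1
      have h2 : rel m y (e a) := by
        rw [← hexy]
        exact (hr m x hx a ha'.1).mp ha'.2
      exact Finset.mem_coe.mpr (Finset.mem_filter.mpr ⟨h1, h2⟩)
    · intro a ha b hb hab
      have ha' : a ∈ O.filter (rel m x) := ha
      have hb' : b ∈ O.filter (rel m x) := hb
      rw [Finset.mem_filter] at ha' hb'
      exact he.injOn ha'.1 hb'.1 hab
  have hceq : ∀ m x, x ∈ O → (O.filter (rel m x)).card = (O.filter (rel m x0)).card :=
    fun m x hx => le_antisymm (hcl m x x0 hx hx0) (hcl m x0 x hx0 hx)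
  have hmul : ∀ m m', Nat.Coprime m m' → (O.filter (rel m x0)).card * (O.filter (rel m' x0)).card ≤
      (O.filter (rel (m * m') x0)).card := by
    intro m m' hc
    have h1 : ((O.filter (rel m x0)).biUnion (fun x => O.filter (rel m' x))).card =
        ∑ x ∈ O.filter (rel m x0), (O.filter (rel m' x)).card := by
      apply Finset.card_biUnion
      intro a ha b hb hab
      rw [Finset.mem_coe, Finset.mem_filter] at ha hb
      apply Finset.disjoint_left.mpr
      intro z hza hzb
      rw [Finset.mem_filter] at hza hzb
      apply hab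
      apply hcop m m' hc a ha.1 b hb.1
      · exact (heq m).trans ((heq m).symm ha.2) hb.2
      · exact (heq m').trans hza.2 ((heq m').symm hzb.2)
    have h2 : ∑ x ∈ O.filter (rel m x0), (O.filter (rel m' x)).card =
        (O.filter (rel m x0)).card * (O.filter (rel m' x0)).card := by
      rw [Finset.sum_congr rfl (fun x hx => hceq m' x (Finset.mem_filter.mp hx).1),
        Finset.sum_const, smul_eq_mul]
    rw [← h2, ← h1]
    apply Finset.card_le_card
    intro z hz
    rw [Finset.mem_biUnion] at hz
    obtain ⟨x, hx, hz⟩ := hz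
    rw [Finset.mem_filter] at hx hz ⊢
    exact ⟨hz.1, (heq _).trans (hmono m m' _ _ hx.2) (hmono' m' m _ _ hz.2)⟩
  have hind : ∀ S' : Finset ℕ, S' ⊆ S →
      2 ^ S'.card ≤ (O.filter (rel (∏ i ∈ S', i) x0)).card := by
    intro S'
    induction S' using Finset.induction_on with
    | empty =>
      intro _
      rw [Finset.card_empty, pow_zero]
      exact Finset.card_pos.mpr ⟨x0, Finset.mem_filter.mpr ⟨hx0, (heq _).refl x0⟩⟩
    | insert a s ha ih =>
      intro hs
      have hsS : s ⊆ S := fun i hi => hs (Finset.mem_insert_of_mem hi)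
      have haS : a ∈ S := hs (Finset.mem_insert_self _ _)
      have hi := ih hsS
      have hcp : Nat.Coprime a (∏ i ∈ s, i) := by
        apply Nat.Coprime.prod_right
        intro i hi
        apply hS haS (hsS hi)
        rintro rfl
        exact ha hi
      have h2 : 2 ≤ (O.filter (rel a x0)).card := by
        obtain ⟨x, hx, y, hy, hxy, hr⟩ := hq a haS
        rw [← hceq a x hx]
        have : ({x, y} : Finset X) ⊆ O.filter (rel a x) := by
          intro z hz
          rw [Finset.mem_insert, Finset.mem_singleton] at hz
          rw [Finset.mem_filter]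
          rcases hz with rfl | rfl
          · exact ⟨hx, (heq a).refl _⟩
          · exact ⟨hy, hr⟩
        calc 2 = ({x, y} : Finset X).card := (Finset.card_pair hxy).symm
          _ ≤ _ := Finset.card_le_card this
      rw [Finset.prod_insert ha, Finset.card_insert_of_notMem ha, pow_succ']
      exact (Nat.mul_le_mul h2 hi).trans (hmul _ _ hcp)
  exact (hind S (Finset.Subset.refl S)).trans (Finset.card_le_card (Finset.filter_subset _ _))

end Pool.Agent.H72.PL
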