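import Pool.Agent.H72.PL.GPush
import Pool.Agent.H72.PL.Doubling

/-!
# Module GTwBad: twists between conjugates (paper proof: proposal 65, section 7)

Apply `doubling` with `O = Ψ`, `X = BP Ω`, and `rel m F G` := there is `ξ` with `ξ.1, ξ.2 ≠ 0`,
`ξ.1^m = ξ.2^m = 1` and `Associated (tw ξ F) G`.
* equivalence relation: `ξ = 1` (`tw_one`), inverse and product of twists (`tw_tw`; `tw` of associated
  elements are associated).
* monotone: `ξ^m = 1 ⟹ ξ^(m m') = 1`.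
* coprime `m, m'`, `tw ξ F ~ G ~ tw η F`, `ξ^m = 1`, `η^m' = 1`: `tw θ F ~ F` with `θ = ξ η⁻¹`, so
  `tw (θ^j) F ~ F` for all `j`; `θ^m = η^(-m)`, and `η` is a power of `η^(-m)` (its order divides `m'`,
  prime to `m`), so `tw η F ~ F`, `F ~ G` and `F = G` (`hne`).
* homogeneous: for `F, G ∈ Ψ` there are `σ, τ ∈ Gal(Ω/k)` with `F ~ mp σ ψ`, `G ~ mp τ ψ`; `ρ = τ σ⁻¹`;
  `e A` := the element of `Ψ` associated to `mp ρ A` (exists: `A ~ mp σ' ψ`, `mp ρ A ~ mp (ρ σ') ψ`);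
  bijective (injective: `mp ρ⁻¹`; `Ψ` finite), `e F = G`, and `rel m A B ⟺ rel m (mp ρ A) (mp ρ B)` since
  `mp ρ (tw ξ A) = tw (ρ ξ) (mp ρ A)` (`mp_tw`), so it is preserved.
-/

set_option autoImplicit false

open Polynomial Module

namespace Pool.Agent.H72.PL


/-- twisted by `m`-th roots of unity -/
def TRel {Ω : Type} [Field Ω] (m : ℕ) (F G : BP Ω) : Prop :=
  ∃ ξ : Ω × Ω, ξ.1 ≠ 0 ∧ ξ.2 ≠ 0 ∧ ξ.1 ^ m = 1 ∧ ξ.2 ^ m = 1 ∧ Associated (tw ξ F) G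

section TRelLemmas

variable {Ω : Type} [Field Ω]

theorem trel_refl (m : ℕ) (F : BP Ω) : TRel m F F := by
  refine ⟨1, by simp, by simp, by simp, by simp, ?_⟩
  rw [tw_one]

theorem trel_inv (ξ : Ω × Ω) (h1 : ξ.1 ≠ 0) (h2 : ξ.2 ≠ 0) (F : BP Ω) :
    tw (ξ.1⁻¹, ξ.2⁻¹) (tw ξ F) = F := by
  rw [tw_tw]
  have : ((ξ.1⁻¹, ξ.2⁻¹) : Ω × Ω) * ξ = 1 := by
    ext
    · simp [h1]
    · simp [h2]
  rw [this, tw_one]

theorem trel_symm {m : ℕ} {F G : BP Ω} (h : TRel m F G) : TRel m G F := by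
  obtain ⟨ξ, h1, h2, h3, h4, h5⟩ := h
  refine ⟨(ξ.1⁻¹, ξ.2⁻¹), inv_ne_zero h1, inv_ne_zero h2, ?_, ?_, ?_⟩
  · show ξ.1⁻¹ ^ m = 1
    rw [inv_pow, h3, inv_one]
  · show ξ.2⁻¹ ^ m = 1
    rw [inv_pow, h4, inv_one]
  · have h6 := h5.symm.map (tw ((ξ.1⁻¹, ξ.2⁻¹) : Ω × Ω))
    rw [trel_inv ξ h1 h2] at h6
    exact h6

theorem trel_trans {m : ℕ} {F G H : BP Ω} (h : TRel m F G) (h' : TRel m G H) : TRel m F H := by
  obtain ⟨ξ, h1, h2, h3, h4, h5⟩ := h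
  obtain ⟨η, k1, k2, k3, k4, k5⟩ := h'
  refine ⟨η * ξ, mul_ne_zero k1 h1, mul_ne_zero k2 h2, ?_, ?_, ?_⟩
  · show (η.1 * ξ.1) ^ m = 1
    rw [mul_pow, k3, h3, mul_one]
  · show (η.2 * ξ.2) ^ m = 1
    rw [mul_pow, k4, h4, mul_one]
  · rw [← tw_tw]
    exact (h5.map (tw η)).trans k5

theorem trel_mul (m m' : ℕ) {F G : BP Ω} (h : TRel m F G) : TRel (m * m') F G := by
  obtain ⟨ξ, h1, h2, h3, h4, h5⟩ := h
  exact ⟨ξ, h1, h2, by rw [pow_mul, h3, one_pow], by rw [pow_mul, h4, one_pow], h5⟩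

theorem trel_pow (θ : Ω × Ω) (F : BP Ω) (h : Associated (tw θ F) F) (j : ℕ) :
    Associated (tw (θ ^ j) F) F := by
  induction j with
  | zero => rw [pow_zero, tw_one]
  | succ j ih =>
    rw [pow_succ, ← tw_tw]
    exact (h.map (tw (θ ^ j))).trans ih

theorem trel_cop {m m' : ℕ} (hc : Nat.Coprime m m') {F G : BP Ω} (h : TRel m F G)
    (h' : TRel m' F G) : Associated F G := by
  obtain ⟨ξ, h1, h2, h3, h4, h5⟩ := h
  obtain ⟨η, k1, k2, k3, k4, k5⟩ := h'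
  rcases Nat.lt_or_ge 1 m' with hm | hm
  · obtain ⟨c, _, hc⟩ := Nat.exists_mul_mod_eq_one_of_coprime hc hm
    have e1 : η.1 ^ (m * c) = η.1 := by
      rw [pow_eq_pow_mod _ k3, hc, pow_one]
    have e2 : η.2 ^ (m * c) = η.2 := by
      rw [pow_eq_pow_mod _ k4, hc, pow_one]
    have h6 : Associated (tw (((η.1⁻¹, η.2⁻¹) : Ω × Ω) * ξ) F) F := by
      rw [← tw_tw]
      have h7 := (h5.trans k5.symm).map (tw ((η.1⁻¹, η.2⁻¹) : Ω × Ω))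
      rwa [trel_inv η k1 k2] at h7
    have h8 := trel_pow _ F h6 (m * c)
    have h9 : (((η.1⁻¹, η.2⁻¹) : Ω × Ω) * ξ) ^ (m * c) = ((η.1⁻¹, η.2⁻¹) : Ω × Ω) := by
      ext
      · show (η.1⁻¹ * ξ.1) ^ (m * c) = η.1⁻¹
        rw [mul_pow, inv_pow, e1, pow_mul, h3, one_pow, mul_one]
      · show (η.2⁻¹ * ξ.2) ^ (m * c) = η.2⁻¹
        rw [mul_pow, inv_pow, e2, pow_mul, h4, one_pow, mul_one]
    rw [h9] at h8
    have h10 := h8.map (tw η)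
    rw [tw_tw] at h10
    have h11 : η * ((η.1⁻¹, η.2⁻¹) : Ω × Ω) = 1 := by
      ext
      · simp [k1]
      · simp [k2]
    rw [h11, tw_one] at h10
    exact h10.trans k5
  · have hcases : m' = 0 ∨ m' = 1 := by omega
    rcases hcases with h0 | h0
    · subst h0
      have hm1 : m = 1 := by simpa using hc
      subst hm1
      have : ξ = 1 := by
        ext
        · simpa using h3
        · simpa using h4
      rw [this, tw_one] at h5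
      exact h5
    · subst h0
      have : η = 1 := by
        ext
        · simpa using k3
        · simpa using k4
      rw [this, tw_one] at k5
      exact k5

theorem trel_mp {k : Type} [Field k] [Algebra k Ω] {m : ℕ} (ρ : Ω ≃ₐ[k] Ω) {A B A' B' : BP Ω}
    (h : TRel m A B) (hA : Associated A' (mp (ρ : Ω →+* Ω) A))
    (hB : Associated B' (mp (ρ : Ω →+* Ω) B)) : TRel m A' B' := by
  obtain ⟨ξ, h1, h2, h3, h4, h5⟩ := h
  refine ⟨(ρ ξ.1, ρ ξ.2), ?_, ?_, ?_, ?_, ?_⟩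
  · show ρ ξ.1 ≠ 0
    exact (map_ne_zero ρ).2 h1
  · show ρ ξ.2 ≠ 0
    exact (map_ne_zero ρ).2 h2
  · show (ρ ξ.1) ^ m = 1
    rw [← map_pow, h3, map_one]
  · show (ρ ξ.2) ^ m = 1
    rw [← map_pow, h4, map_one]
  · have h6 := h5.map (mp (ρ : Ω →+* Ω))
    rw [mp_tw] at h6
    exact ((hA.map (tw _)).trans h6).trans hB.symm

theorem trel_sat {k : Type} [Field k] [Algebra k Ω] (ψ : BP Ω) (Ψ : Finset (BP Ω))
    (h1 : ∀ χ ∈ Ψ, ∃ σ : Ω ≃ₐ[k] Ω, Associated χ (mp (σ : Ω →+* Ω) ψ))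
    (h2 : ∀ σ : Ω ≃ₐ[k] Ω, ∃ χ ∈ Ψ, Associated χ (mp (σ : Ω →+* Ω) ψ)) (ρ : Ω ≃ₐ[k] Ω)
    (A : BP Ω) (hA : A ∈ Ψ) : ∃ B ∈ Ψ, Associated B (mp (ρ : Ω →+* Ω) A) := by
  obtain ⟨σ, hσ⟩ := h1 A hA
  obtain ⟨B, hB, hB2⟩ := h2 (σ.trans ρ)
  refine ⟨B, hB, hB2.trans ?_⟩
  have h3 := hσ.symm.map (mp (ρ : Ω →+* Ω))
  rw [mp_mp] at h3
  have h4 : ((ρ : Ω →+* Ω).comp (σ : Ω →+* Ω)) = ((σ.trans ρ : Ω ≃ₐ[k] Ω) : Ω →+* Ω) := by
    ext x; rfl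
  rw [h4] at h3
  exact h3

theorem trel_mpinv {k : Type} [Field k] [Algebra k Ω] (ρ : Ω ≃ₐ[k] Ω) (A : BP Ω) :
    mp (ρ.symm : Ω →+* Ω) (mp (ρ : Ω →+* Ω) A) = A := by
  rw [mp_mp]
  have h4 : ((ρ.symm : Ω →+* Ω).comp (ρ : Ω →+* Ω)) = RingHom.id Ω := by
    ext x
    exact ρ.symm_apply_apply x
  rw [h4, mp_id]

theorem trel_mpinv' {k : Type} [Field k] [Algebra k Ω] (ρ : Ω ≃ₐ[k] Ω) (A : BP Ω) :
    mp (ρ : Ω →+* Ω) (mp (ρ.symm : Ω →+* Ω) A) = A := by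
  rw [mp_mp]
  have h4 : ((ρ : Ω →+* Ω).comp (ρ.symm : Ω →+* Ω)) = RingHom.id Ω := by
    ext x
    exact ρ.apply_symm_apply x
  rw [h4, mp_id]

end TRelLemmas

theorem tw_bad {k Ω : Type} [Field k] [Field Ω] [Algebra k Ω] (ψ : BP Ω) (Ψ : Finset (BP Ω))
    (hψ : ψ ∈ Ψ)
    (h1 : ∀ χ ∈ Ψ, ∃ σ : Ω ≃ₐ[k] Ω, Associated χ (mp (σ : Ω →+* Ω) ψ))
    (h2 : ∀ σ : Ω ≃ₐ[k] Ω, ∃ χ ∈ Ψ, Associated χ (mp (σ : Ω →+* Ω) ψ))
    (hne : ∀ χ ∈ Ψ, ∀ χ' ∈ Ψ, Associated χ χ' → χ = χ') (S : Finset ℕ)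
    (hS1 : ∀ q ∈ S, 1 ≤ q) (hS : (S : Set ℕ).Pairwise Nat.Coprime)
    (hbad : ∀ q ∈ S, ∃ χ ∈ Ψ, ∃ χ' ∈ Ψ, χ ≠ χ' ∧
      ∃ ξ : Ω × Ω, ξ.1 ^ q = 1 ∧ ξ.2 ^ q = 1 ∧ Associated (tw ξ χ) χ') :
    2 ^ S.card ≤ Ψ.card := by
  classical
  refine doubling Ψ ⟨ψ, hψ⟩ S hS (fun m => TRel m) ?_ ?_ ?_ ?_ ?_ ?_
  · intro m
    exact ⟨trel_refl m, trel_symm, trel_trans⟩
  · intro m m' x y h
    exact trel_mul m m' h
  · intro m m' x y h
    rw [mul_comm]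
    exact trel_mul m m' h
  · intro m m' hc x hx y hy h h'
    exact hne x hx y hy (trel_cop hc h h')
  · intro x hx y hy
    obtain ⟨σ, hσ⟩ := h1 x hx
    obtain ⟨τ, hτ⟩ := h1 y hy
    obtain ⟨ρ, hρ⟩ : ∃ ρ : Ω ≃ₐ[k] Ω, ρ = σ.symm.trans τ := ⟨_, rfl⟩
    have hex : ∀ A : BP Ω, ∃ B : BP Ω, A ∈ Ψ → B ∈ Ψ ∧ Associated B (mp (ρ : Ω →+* Ω) A) := by
      intro A
      by_cases hA : A ∈ Ψ
      · obtain ⟨B, hB, hB2⟩ := trel_sat ψ Ψ h1 h2 ρ A hA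
        exact ⟨B, fun _ => ⟨hB, hB2⟩⟩
      · exact ⟨A, fun h => absurd h hA⟩
    choose e he using hex
    refine ⟨e, ⟨?_, ?_, ?_⟩, ?_, ?_⟩
    · intro A hA
      exact (he A hA).1
    · intro A hA B hB hAB
      have h3 := (he A hA).2
      have h4 := (he B hB).2
      rw [hAB] at h3
      have h5 := (h3.symm.trans h4).map (mp (ρ.symm : Ω →+* Ω))
      rw [trel_mpinv, trel_mpinv] at h5
      exact hne A hA B hB h5
    · intro B hB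
      obtain ⟨A, hA, hA2⟩ := trel_sat ψ Ψ h1 h2 ρ.symm B hB
      refine ⟨A, hA, ?_⟩
      have h3 := hA2.map (mp (ρ : Ω →+* Ω))
      rw [trel_mpinv'] at h3
      exact hne _ (he A hA).1 _ hB ((he A hA).2.trans h3)
    · have h3 := (he x hx).2.trans (hσ.map (mp (ρ : Ω →+* Ω)))
      rw [mp_mp] at h3
      have h4 : ((ρ : Ω →+* Ω).comp (σ : Ω →+* Ω)) = (τ : Ω →+* Ω) := by
        ext z
        show ρ (σ z) = τ z
        rw [hρ]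
        show τ (σ.symm (σ z)) = τ z
        rw [σ.symm_apply_apply]
      rw [h4] at h3
      exact hne _ (he x hx).1 _ hy (h3.trans hτ.symm)
    · intro m a ha b hb
      constructor
      · intro h
        exact trel_mp ρ h (he a ha).2 (he b hb).2
      · intro h
        refine trel_mp ρ.symm h ?_ ?_
        · have h3 := ((he a ha).2.map (mp (ρ.symm : Ω →+* Ω))).symm
          rwa [trel_mpinv] at h3
        · have h3 := ((he b hb).2.map (mp (ρ.symm : Ω →+* Ω))).symm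
          rwa [trel_mpinv] at h3
  · intro q hq
    obtain ⟨χ, hχ, χ', hχ', hn, ξ, e1, e2, e3⟩ := hbad q hq
    have hq1 : q ≠ 0 := by have := hS1 q hq; omega
    refine ⟨χ, hχ, χ', hχ', hn, ξ, ?_, ?_, e1, e2, e3⟩
    · intro h0
      rw [h0, zero_pow hq1] at e1
      exact zero_ne_one e1
    · intro h0
      rw [h0, zero_pow hq1] at e2
      exact zero_ne_one e2

end Pool.Agent.H72.PL
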