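import Pool.Agent.H72.PL.GFactor
import Pool.Agent.H72.PL.GCol
import Pool.Agent.H72.PL.GBin
import Pool.Agent.H72.PL.GTwBad
import Pool.Agent.H72.PL.GCaseI

/-!
# Module Geo: the geometric theorem (paper proof: proposal 65, section 7)

Take `ψ, Ψ` from `geo_factor` (for `(y, x)`), `f' = mp (algebraMap k Ω) f ≠ 0`.
All `χ ∈ Ψ` divide `mp f₀`, hence `ex (q t) (mp (σ t) f')` for all `t`.
Case I, `NonCol ψ` with `p₀, p₁, p₂`, `D = area ≠ 0`, `|D| ≤ 2 dX ψ dY ψ` (`area_le`). Let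
`B₁ = {t : q t not coprime to D}`: `2^#B₁ ≤ |D|` (`coprime_count`). `B₂ = {t : ∃ χ ≠ χ' ∈ Ψ, ∃ ξ,
ξ^(q t) = 1, tw ξ χ ~ χ'}`: `2^#B₂ ≤ #Ψ` (`tw_bad` for the image of `B₂` under `q`, `q` is injective since
pairwise coprime and `≥ 2`). `Bad = B₁ ∪ B₂`, `2^#Bad ≤ 2 dX ψ dY ψ #Ψ ≤ (2 (dX f₀ + 1)(dY f₀ + 1))^2`.
For `t ∉ Bad`, `χ, χ' ∈ Ψ`, `tw ξ χ ~ χ'`: `χ = χ'` (not in `B₂`), and `ξ = 1`: `χ ~ mp τ ψ`, so
`tw ξ (mp τ ψ) ~ mp τ ψ`, apply `mp τ⁻¹` (`mp_tw`): `tw (τ⁻¹ ξ) ψ ~ ψ`, `stab_det` gives `τ⁻¹ ξ = 1`.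
So `case_one` with `T = Badᶜ`, `δ = dX ψ` gives `∑_{t ∉ Bad} q t * dX f₀ ≤ dX f' = dX f`.
Case II, not `NonCol ψ`: `collinear_bin`: `ψ ~ bin u v ρ`, `ρ = x^v y^u ≠ 0`. For `τ ∈ Gal(Ω/k)`:
`mp τ ψ ~ bin u v (τ ρ)` (`mp_bin`) is associated to an element of `Ψ`, so divides
`ex (q t) (mp (σ t) f')`; `bin_push`: `bin u v ((τ ρ)^(q t)) ∣ mp (σ t) f'`. The set
`S = {τ (ρ^(q t)) : τ}` is the set of roots of `minpoly k (ρ^(q t))` in `Ω`, it has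
`natDegree (minpoly k (ρ^(q t)))` elements (characteristic 0: separable; every root is a conjugate,
`IsAlgClosure`/`Normal`: `minpoly.exists_algEquiv_of_root` or similar). `bin_conj`, `dX_mp`, `dY_mp`.
-/

set_option autoImplicit false

open Polynomial Module

namespace Pool.Agent.H72.PL

theorem geo_twist_free {k Ω : Type} [Field k] [Field Ω] [Algebra k Ω] (ψ χ : BP Ω)
    (τ : Ω ≃ₐ[k] Ω) (hτ : Associated χ (mp (τ : Ω →+* Ω) ψ)) (p₀ p₁ p₂ : ℕ × ℕ)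
    (h0 : InSupp ψ p₀) (h1 : InSupp ψ p₁) (h2 : InSupp ψ p₂) (q : ℕ) (hq : 1 ≤ q)
    (hcop : IsCoprime (area p₀ p₁ p₂) (q : ℤ)) (ξ : Ω × Ω) (hξ1 : ξ.1 ^ q = 1)
    (hξ2 : ξ.2 ^ q = 1) (h : Associated (tw ξ χ) χ) : ξ = 1 := by
  -- `tw ξ (mp τ ψ) ~ mp τ ψ`
  have h3 : Associated (tw ξ (mp (τ : Ω →+* Ω) ψ)) (mp (τ : Ω →+* Ω) ψ) :=
    ((hτ.map (tw ξ)).symm.trans h).trans hτ
  -- apply the inverse
  have h4 := h3.map (mp ((τ.symm : Ω ≃ₐ[k] Ω) : Ω →+* Ω))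
  have hid : ((τ.symm : Ω ≃ₐ[k] Ω) : Ω →+* Ω).comp (τ : Ω →+* Ω) = RingHom.id Ω := by
    ext z
    simp
  rw [mp_tw, mp_mp, hid, mp_id] at h4
  have h5 := stab_det ψ p₀ p₁ p₂ h0 h1 h2 q hq hcop
    (((τ.symm : Ω ≃ₐ[k] Ω) : Ω →+* Ω) ξ.1, ((τ.symm : Ω ≃ₐ[k] Ω) : Ω →+* Ω) ξ.2)
    (by rw [← map_pow, hξ1, map_one]) (by rw [← map_pow, hξ2, map_one]) h4
  have h6 := congrArg Prod.fst h5
  have h7 := congrArg Prod.snd h5
  have hinj : Function.Injective ((τ.symm : Ω ≃ₐ[k] Ω) : Ω →+* Ω) := RingHom.injective _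
  refine Prod.ext (hinj ?_) (hinj ?_)
  · rw [Prod.fst_one, map_one]
    exact h6
  · rw [Prod.snd_one, map_one]
    exact h7

theorem geo_case_two {k Ω : Type} [Field k] [CharZero k] [Field Ω] [IsAlgClosed Ω] [Algebra k Ω]
    [Algebra.IsAlgebraic k Ω] [CharZero Ω] (ψ : BP Ω) (Ψ : Finset (BP Ω))
    (h2 : ∀ σ : Ω ≃ₐ[k] Ω, ∃ χ ∈ Ψ, Associated χ (mp (σ : Ω →+* Ω) ψ)) (u : ℤ) (v : ℕ)
    (hv : 1 ≤ v) (hg : Int.gcd u v = 1) (ρ : Ω) (hρ : ρ ≠ 0) (hassoc : Associated ψ (bin u v ρ))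
    (q : ℕ) (hq : 1 ≤ q) (G : BP Ω) (hG : G ≠ 0) (hdiv : ∀ χ ∈ Ψ, χ ∣ ex q G) :
    (minpoly k (ρ ^ q)).natDegree * v ≤ dX G ∧
      (minpoly k (ρ ^ q)).natDegree * u.natAbs ≤ dY G := by
  classical
  have halg : IsAlgebraic k (ρ ^ q) := Algebra.IsAlgebraic.isAlgebraic _
  have hint : IsIntegral k (ρ ^ q) := halg.isIntegral
  have hnorm : Normal k Ω := by
    rw [normal_iff]
    exact fun z => ⟨(Algebra.IsAlgebraic.isAlgebraic z).isIntegral, IsAlgClosed.splits _⟩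
  have hsep : (minpoly k (ρ ^ q)).Separable := (minpoly.irreducible hint).separable
  set S : Finset Ω := ((minpoly k (ρ ^ q)).rootSet Ω).toFinset with hS
  have hcard : S.card = (minpoly k (ρ ^ q)).natDegree := by
    rw [hS, Set.toFinset_card]
    exact card_rootSet_eq_natDegree hsep (IsAlgClosed.splits _)
  have hroot : ∀ ρ₁ ∈ S, ∃ τ : Ω ≃ₐ[k] Ω, τ (ρ ^ q) = ρ₁ := by
    intro ρ₁ hρ₁
    rw [hS, Set.mem_toFinset, mem_rootSet] at hρ₁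
    exact minpoly.exists_algEquiv_of_root' halg hρ₁.2
  rw [← hcard]
  refine bin_conj u v hv S ?_ G hG ?_
  · intro ρ₁ hρ₁
    obtain ⟨τ, rfl⟩ := hroot ρ₁ hρ₁
    rw [Ne, map_eq_zero_iff τ τ.injective]
    exact pow_ne_zero q hρ
  · intro ρ₁ hρ₁
    obtain ⟨τ, rfl⟩ := hroot ρ₁ hρ₁
    obtain ⟨χ, hχ, hχτ⟩ := h2 τ
    have h3 : Associated (mp (τ : Ω →+* Ω) ψ) (bin u v (τ ρ)) := by
      have h4 := hassoc.map (mp (τ : Ω →+* Ω))
      rw [mp_bin] at h4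
      exact h4
    have h5 : bin u v (τ ρ) ∣ ex q G := (hχτ.trans h3).symm.dvd.trans (hdiv χ hχ)
    have hτρ : τ ρ ≠ 0 := by
      rw [Ne, map_eq_zero_iff τ τ.injective]
      exact hρ
    rw [map_pow]
    exact bin_push u v hv hg (τ ρ) hτρ q hq G h5

theorem geo {k Ω : Type} [Field k] [CharZero k] [Field Ω] [IsAlgClosed Ω] [Algebra k Ω]
    [Algebra.IsAlgebraic k Ω] (f₀ : BP k) (hf₀ : Irreducible f₀) (hX : 0 < dX f₀) (y x : Ω)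
    (hy : y ≠ 0) (hx : x ≠ 0) (h0 : ev k y x f₀ = 0) {ι : Type} [Fintype ι] [DecidableEq ι]
    (q : ι → ℕ) (hq : ∀ t, 2 ≤ q t) (hcop : Pairwise fun s t => Nat.Coprime (q s) (q t))
    (σ : ι → (Ω ≃+* Ω)) (f : BP k) (hf : f ≠ 0)
    (hdiv : ∀ t, mp (algebraMap k Ω) f₀ ∣
      ex (q t) (mp ((σ t : Ω ≃+* Ω) : Ω →+* Ω) (mp (algebraMap k Ω) f))) :
    (∃ Bad : Finset ι, 2 ^ Bad.card ≤ (2 * ((dX f₀ + 1) * (dY f₀ + 1))) ^ 2 ∧
      ∑ t ∈ Finset.univ \ Bad, q t * dX f₀ ≤ dX f) ∨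
    (∃ (u : ℤ) (v : ℕ), 1 ≤ v ∧ ∀ t,
      (minpoly k ((x ^ v * y ^ u) ^ q t)).natDegree * v ≤ dX f ∧
      (minpoly k ((x ^ v * y ^ u) ^ q t)).natDegree * u.natAbs ≤ dY f) := by
  classical
  have hchar : CharZero Ω := charZero_of_injective_algebraMap (algebraMap k Ω).injective
  obtain ⟨ψ, Ψ, hψΨ, hψ0, hψX, hprop, hc1, hc2, hne, hdvd, hcX, hcY⟩ :=
    geo_factor f₀ hf₀ hX y x h0
  set f' : BP Ω := mp (algebraMap k Ω) f with hf'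
  have hf'0 : f' ≠ 0 := mp_ne_zero _ f hf
  have hdiv' : ∀ t, ∀ χ ∈ Ψ, χ ∣ ex (q t) (mp ((σ t : Ω ≃+* Ω) : Ω →+* Ω) f') := fun t χ hχ =>
    (hdvd χ hχ).trans (hdiv t)
  have hqinj : Function.Injective q := by
    intro a b hab
    by_contra hne'
    have h1 := hcop hne'
    simp only [hab, Nat.coprime_self] at h1
    have := hq b
    omega
  by_cases hcol : NonCol ψ
  · left
    obtain ⟨p₀, p₁, p₂, s0, s1, s2, hD⟩ := hcol
    set B₁ : Finset ι := Finset.univ.filter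
      (fun t => ¬ IsCoprime (area p₀ p₁ p₂) (q t : ℤ)) with hB₁
    set B₂ : Finset ι := Finset.univ.filter (fun t => ∃ χ ∈ Ψ, ∃ χ' ∈ Ψ, χ ≠ χ' ∧
      ∃ ξ : Ω × Ω, ξ.1 ^ q t = 1 ∧ ξ.2 ^ q t = 1 ∧ Associated (tw ξ χ) χ') with hB₂
    have hb1 : 2 ^ B₁.card ≤ 2 * (dX ψ * dY ψ) := by
      refine (coprime_count B₁ q (area p₀ p₁ p₂) hD (fun s _ t _ hst => hcop hst) ?_).trans
        (area_le ψ p₀ p₁ p₂ s0 s1 s2)
      intro t ht
      exact (Finset.mem_filter.1 ht).2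
    have hb2 : 2 ^ B₂.card ≤ Ψ.card := by
      have h1 : (B₂.image q).card = B₂.card := Finset.card_image_of_injective _ hqinj
      rw [← h1]
      refine tw_bad (k := k) ψ Ψ hψΨ hc1 hc2 hne (B₂.image q) ?_ ?_ ?_
      · intro n hn
        obtain ⟨t, -, rfl⟩ := Finset.mem_image.1 hn
        have := hq t
        omega
      · intro a ha b hb hab
        obtain ⟨s, -, rfl⟩ := Finset.mem_image.1 (Finset.mem_coe.1 ha)
        obtain ⟨t, -, rfl⟩ := Finset.mem_image.1 (Finset.mem_coe.1 hb)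
        exact hcop (fun hst => hab (by rw [hst]))
      · intro n hn
        obtain ⟨t, ht, rfl⟩ := Finset.mem_image.1 hn
        exact (Finset.mem_filter.1 ht).2
    refine ⟨B₁ ∪ B₂, ?_, ?_⟩
    · have hcard1 : 1 ≤ Ψ.card := Finset.card_pos.2 ⟨ψ, hψΨ⟩
      have hXle : dX ψ ≤ dX f₀ := by
        rw [← hcX]
        exact Nat.le_mul_of_pos_left _ hcard1
      have hYle : dY ψ ≤ dY f₀ := by
        rw [← hcY]
        exact Nat.le_mul_of_pos_left _ hcard1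
      have hCle : Ψ.card ≤ dX f₀ := by
        rw [← hcX]
        exact Nat.le_mul_of_pos_right _ hψX
      calc 2 ^ (B₁ ∪ B₂).card ≤ 2 ^ (B₁.card + B₂.card) :=
            Nat.pow_le_pow_right (by norm_num) (Finset.card_union_le _ _)
        _ = 2 ^ B₁.card * 2 ^ B₂.card := pow_add _ _ _
        _ ≤ (2 * (dX ψ * dY ψ)) * Ψ.card := Nat.mul_le_mul hb1 hb2
        _ ≤ (2 * (dX f₀ * dY f₀)) * dX f₀ := by gcongr
        _ ≤ (2 * ((dX f₀ + 1) * (dY f₀ + 1))) * (2 * ((dX f₀ + 1) * (dY f₀ + 1))) := by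
            refine Nat.mul_le_mul (by gcongr <;> omega) ?_
            nlinarith [Nat.zero_le (dX f₀), Nat.zero_le (dY f₀),
              Nat.zero_le (dX f₀ * dY f₀)]
        _ = (2 * ((dX f₀ + 1) * (dY f₀ + 1))) ^ 2 := by ring
    · have hmain := case_one Ψ (dX ψ) hψX (fun χ hχ => ⟨(hprop χ hχ).1, (hprop χ hχ).2.1⟩)
        (Finset.univ \ (B₁ ∪ B₂)) q (hqinj.injOn) (fun t _ => (by have := hq t; omega)) σ f' hf'0
        (fun t _ χ hχ => hdiv' t χ hχ) ?_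
      · rw [hcX, hf', dX_mp] at hmain
        exact hmain
      · intro t ht χ hχ χ' hχ' ξ hξ1 hξ2 hassoc
        rw [Finset.mem_sdiff, Finset.mem_union, not_or] at ht
        obtain ⟨-, ht1, ht2⟩ := ht
        have heq : χ = χ' := by
          by_contra hneq
          exact ht2 (Finset.mem_filter.2 ⟨Finset.mem_univ _, χ, hχ, χ', hχ', hneq, ξ, hξ1, hξ2,
            hassoc⟩)
        refine ⟨?_, heq⟩
        subst heq
        obtain ⟨τ, hτ⟩ := hc1 χ hχ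
        have hcp : IsCoprime (area p₀ p₁ p₂) (q t : ℤ) := by
          by_contra hncp
          exact ht1 (Finset.mem_filter.2 ⟨Finset.mem_univ _, hncp⟩)
        exact geo_twist_free ψ χ τ hτ p₀ p₁ p₂ s0 s1 s2 (q t) (by have := hq t; omega) hcp ξ
          hξ1 hξ2 hassoc
  · right
    obtain ⟨u, v, hv, hg, hassoc⟩ :=
      collinear_bin ψ (hprop ψ hψΨ).1 hψX hcol y x hy hx hψ0
    have hρ : x ^ v * y ^ u ≠ 0 := mul_ne_zero (pow_ne_zero _ hx) (zpow_ne_zero _ hy)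
    refine ⟨u, v, hv, fun t => ?_⟩
    have h1 := geo_case_two (k := k) ψ Ψ hc2 u v hv hg _ hρ hassoc (q t)
      (by have := hq t; omega) (mp ((σ t : Ω ≃+* Ω) : Ω →+* Ω) f') (mp_ne_zero _ f' hf'0)
      (hdiv' t)
    rw [dX_mp, dY_mp, hf', dX_mp, dY_mp] at h1
    exact h1

end Pool.Agent.H72.PL
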