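import Mathlib

/-!
# Module PBlock: primes in `(Z^9, 4 Z^9]` (paper proof: proposal 65, section 10)

Mathlib `NumberTheory/Chebyshev.lean`: `θ x ≤ log 4 * x` (`theta_le_log4_mul_x`) and
`θ n ≥ n log 2 - log (n+1) - 2 √n log n` (`theta_ge`). With `x = Z^9`:
`θ(4x) - θ(x) ≥ 4 x log 2 - log(4x+1) - 2 √(4x) log(4x) - 2 x log 2 ≥ x` for `x` large. The left side is the
sum of `log p` over the primes `x < p ≤ 4x` (`theta_eq_sum_Icc` or `theta_eq_sum_primesLE_log`), so it is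
at most `#{..} log (4x)`. So `#{..} ≥ x / log(4x) = Z^9 / (9 log Z + log 4) ≥ c Z^8` as soon as
`Z ≥ c (9 log Z + log 4)`.
-/

set_option autoImplicit false

namespace Pool.Agent.H72.PL

open Real in
theorem theta_diff_le (a b : ℕ) (h : a ≤ b) :
    Chebyshev.theta (b : ℝ) - Chebyshev.theta (a : ℝ) ≤
      (((Finset.Ioc a b).filter Nat.Prime).card : ℝ) * Real.log b := by
  have e : ∀ n : ℕ, Chebyshev.theta (n : ℝ) =
      ∑ p ∈ Finset.Ioc 0 n, if Nat.Prime p then Real.log p else 0 := by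
    intro n
    rw [Chebyshev.theta, Nat.floor_natCast, Finset.sum_filter]
  rw [e b, e a, ← Finset.sum_Ioc_consecutive _ (Nat.zero_le a) h, add_sub_cancel_left,
    ← Finset.sum_filter]
  calc ∑ p ∈ (Finset.Ioc a b).filter Nat.Prime, Real.log p
      ≤ ∑ _p ∈ (Finset.Ioc a b).filter Nat.Prime, Real.log b := by
        refine Finset.sum_le_sum fun p hp => ?_
        rw [Finset.mem_filter, Finset.mem_Ioc] at hp
        exact Real.log_le_log (by exact_mod_cast hp.2.pos) (by exact_mod_cast hp.1.2)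
    _ = _ := by rw [Finset.sum_const, nsmul_eq_mul]

theorem prime_block (c : ℕ) : ∃ Z₀ : ℕ, ∀ Z : ℕ, Z₀ ≤ Z →
    c * Z ^ 8 ≤ ((Finset.Ioc (Z ^ 9) (4 * Z ^ 9)).filter Nat.Prime).card := by
  set ε : ℝ := 1 / (10 * (c : ℝ) + 51) with hε
  have hden : (0 : ℝ) < 10 * (c : ℝ) + 51 := by positivity
  have hεpos : 0 < ε := by rw [hε]; positivity
  have hlog : ∀ᶠ z : ℝ in Filter.atTop, Real.log z ≤ ε * z := by
    have h1 := Real.isLittleO_log_id_atTop.bound hεpos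
    filter_upwards [h1, Filter.eventually_ge_atTop (1 : ℝ)] with z hz hz1
    have h2 : ‖Real.log z‖ = Real.log z := Real.norm_of_nonneg (Real.log_nonneg hz1)
    rw [h2] at hz
    simpa [abs_of_nonneg (by linarith : (0 : ℝ) ≤ z)] using hz
  obtain ⟨z0, hz0⟩ := Filter.eventually_atTop.1 hlog
  obtain ⟨n0, hn0⟩ := exists_nat_ge (max z0 (2 / ε))
  refine ⟨max n0 1, fun Z hZ => ?_⟩
  have hZ1 : 1 ≤ Z := le_trans (le_max_right _ _) hZ
  have hZn : (n0 : ℝ) ≤ (Z : ℝ) := by exact_mod_cast le_trans (le_max_left _ _) hZ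
  have hZr : (1 : ℝ) ≤ (Z : ℝ) := by exact_mod_cast hZ1
  have hZp : (0 : ℝ) < (Z : ℝ) := by linarith
  have hlogZ : Real.log Z ≤ ε * Z := hz0 Z ((le_max_left _ _).trans (hn0.trans hZn))
  have h2Z : 2 ≤ ε * Z := by
    have h3 : 2 / ε ≤ (Z : ℝ) := (le_max_right _ _).trans (hn0.trans hZn)
    rw [div_le_iff₀ hεpos] at h3
    linarith
  have hlogZ0 : 0 ≤ Real.log Z := Real.log_nonneg hZr
  have hlog2 : 0.6931471803 < Real.log 2 := Real.log_two_gt_d9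
  have hlog2' : Real.log 2 < 0.6931471808 := Real.log_two_lt_d9
  have hlog4 : Real.log 4 = 2 * Real.log 2 := by
    rw [show (4 : ℝ) = 2 ^ 2 by norm_num, Real.log_pow]; norm_num
  have hlog8 : Real.log 8 = 3 * Real.log 2 := by
    rw [show (8 : ℝ) = 2 ^ 3 by norm_num, Real.log_pow]; norm_num
  have hp9 : (1 : ℝ) ≤ (Z : ℝ) ^ 9 := one_le_pow₀ hZr
  have hL4 : Real.log (4 * (Z : ℝ) ^ 9) ≤ 10 * ε * Z := by
    rw [Real.log_mul (by norm_num) (by positivity), Real.log_pow, hlog4]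
    push_cast
    nlinarith
  have hL4' : 0 ≤ Real.log (4 * (Z : ℝ) ^ 9) := Real.log_nonneg (by linarith)
  have hL5 : Real.log (4 * (Z : ℝ) ^ 9 + 1) ≤ 11 * ε * Z := by
    have h4 : Real.log (4 * (Z : ℝ) ^ 9 + 1) ≤ Real.log (8 * (Z : ℝ) ^ 9) :=
      Real.log_le_log (by positivity) (by linarith)
    rw [Real.log_mul (by norm_num) (by positivity), Real.log_pow, hlog8] at h4
    push_cast at h4
    nlinarith
  have hsq : √(4 * (Z : ℝ) ^ 9) ≤ 2 * (Z : ℝ) ^ 5 := by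
    rw [Real.sqrt_le_left (by positivity)]
    have : (Z : ℝ) ^ 9 ≤ (Z : ℝ) ^ 10 := pow_le_pow_right₀ hZr (by norm_num)
    nlinarith
  have hup : Chebyshev.theta ((Z ^ 9 : ℕ) : ℝ) ≤ 2 * Real.log 2 * (Z : ℝ) ^ 9 := by
    have h5 := Chebyshev.theta_le_log4_mul_x (x := ((Z ^ 9 : ℕ) : ℝ)) (by positivity)
    rw [hlog4] at h5
    push_cast at h5 ⊢
    exact h5
  have hlow : 4 * (Z : ℝ) ^ 9 * Real.log 2 - Real.log (4 * (Z : ℝ) ^ 9 + 1) -
      2 * √(4 * (Z : ℝ) ^ 9) * Real.log (4 * (Z : ℝ) ^ 9) ≤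
        Chebyshev.theta ((4 * Z ^ 9 : ℕ) : ℝ) := by
    have h6 := Chebyshev.theta_ge (4 * Z ^ 9)
    push_cast at h6 ⊢
    exact h6
  have hdiff := theta_diff_le (Z ^ 9) (4 * Z ^ 9) (by omega)
  set N : ℕ := ((Finset.Ioc (Z ^ 9) (4 * Z ^ 9)).filter Nat.Prime).card with hN
  have hcast : ((4 * Z ^ 9 : ℕ) : ℝ) = 4 * (Z : ℝ) ^ 9 := by push_cast; ring
  have hdiff' : Chebyshev.theta ((4 * Z ^ 9 : ℕ) : ℝ) - Chebyshev.theta ((Z ^ 9 : ℕ) : ℝ) ≤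
      (N : ℝ) * Real.log (4 * (Z : ℝ) ^ 9) := by
    rw [← hcast]; exact hdiff
  have hterm : 2 * √(4 * (Z : ℝ) ^ 9) * Real.log (4 * (Z : ℝ) ^ 9) ≤
      40 * ε * (Z : ℝ) ^ 9 := by
    have h7 : (Z : ℝ) ^ 6 ≤ (Z : ℝ) ^ 9 := pow_le_pow_right₀ hZr (by norm_num)
    calc 2 * √(4 * (Z : ℝ) ^ 9) * Real.log (4 * (Z : ℝ) ^ 9)
        ≤ 2 * (2 * (Z : ℝ) ^ 5) * (10 * ε * Z) := by
          refine mul_le_mul (by linarith) hL4 hL4' (by positivity)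
      _ = 40 * ε * (Z : ℝ) ^ 6 := by ring
      _ ≤ 40 * ε * (Z : ℝ) ^ 9 := by
          exact mul_le_mul_of_nonneg_left h7 (by positivity)
  have hterm2 : Real.log (4 * (Z : ℝ) ^ 9 + 1) ≤ 11 * ε * (Z : ℝ) ^ 9 := by
    have h8 : (Z : ℝ) ≤ (Z : ℝ) ^ 9 := by
      calc (Z : ℝ) = (Z : ℝ) ^ 1 := (pow_one _).symm
        _ ≤ (Z : ℝ) ^ 9 := pow_le_pow_right₀ hZr (by norm_num)
    exact hL5.trans (mul_le_mul_of_nonneg_left h8 (by positivity))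
  have hεc : (10 * (c : ℝ) + 51) * ε = 1 := by
    rw [hε]; field_simp
  -- suppose the contrary
  by_contra hcon
  push Not at hcon
  have hcon' : (N : ℝ) ≤ (c : ℝ) * (Z : ℝ) ^ 8 := by exact_mod_cast hcon.le
  have h9 : (N : ℝ) * Real.log (4 * (Z : ℝ) ^ 9) ≤ 10 * c * ε * (Z : ℝ) ^ 9 := by
    calc (N : ℝ) * Real.log (4 * (Z : ℝ) ^ 9) ≤ ((c : ℝ) * (Z : ℝ) ^ 8) * (10 * ε * Z) :=
          mul_le_mul hcon' hL4 hL4' (by positivity)
      _ = 10 * c * ε * (Z : ℝ) ^ 9 := by ring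
  have h10 : 10 * c * ε * (Z : ℝ) ^ 9 + 40 * ε * (Z : ℝ) ^ 9 + 11 * ε * (Z : ℝ) ^ 9 =
      (Z : ℝ) ^ 9 := by
    calc _ = ((10 * (c : ℝ) + 51) * ε) * (Z : ℝ) ^ 9 := by ring
      _ = _ := by rw [hεc, one_mul]
  have h11 : 1.3 * (Z : ℝ) ^ 9 ≤ 2 * Real.log 2 * (Z : ℝ) ^ 9 := by
    refine mul_le_mul_of_nonneg_right ?_ (by positivity)
    linarith
  linarith

end Pool.Agent.H72.PL
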