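import Pool.Agent.H72.PL.Defs
import Pool.Agent.H72.PL.PBlock

/-!
# Module PSupply: many primes of small norm (paper proof: proposal 65, section 10)

`g = [K:ℚ]`. `prime_block` with `c = 2 g`: at least `2 g Z^8` primes in `(Z^9, 4 Z^9]`. Remove
* the primes dividing `N`: at most `log N / log 2 ≤ 2 Z` (`Nat.primeFactors`, `2^#(prime factors) ≤ N`),
* the primes `p` below one of the finitely many primes `𝔭` of `K` with `𝔭.valuation K b ≠ 1`
  (finitely many: `HeightOneSpectrum.Support.finite` or via numerator and denominator ideals of `b`;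
  each `𝔭` contains only one prime number). At most a constant `C_b` many.
For `Z` large at least `g Z^8` remain (`2 Z + C_b ≤ g Z^8`). For each choose a prime `𝔭_p` of `𝓞 K` containing
`p` (a maximal ideal over `p`), `nrm 𝔭_p = p^(f_p)`, `1 ≤ f_p ≤ g` (`Ideal.absNorm` of a prime over `p` divides
`p^g = absNorm (p)`: `𝔭 ∣ (p)`, `Ideal.absNorm_span_singleton`, `Algebra.norm_algebraMap`;
`(Nat.dvd_prime_pow hp).1`; `f_p ≥ 1` since the ideal is proper). Pigeonhole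
(`Finset.exists_le_card_fiber_of_mul_le_card_of_maps_to`): some `f ∈ [1, g]` occurs for at least `Z^8` primes
`p`. `Q = (4 Z^9)^f`: `nrm = p^f ≤ Q`, `Q ≤ 4^f p^f ≤ 4^g nrm`, `Q ≤ (4 Z^9)^g ≤ Z^(18 g)` for `Z ≥ 2`
(`4 ≤ Z^9`). Enumerate the primes: `Finset.equivFin`.
-/

set_option autoImplicit false

open NumberField IsDedekindDomain Module

namespace Pool.Agent.H72.PL

private theorem ps_bad_finite (K : Type) [Field K] [NumberField K] (b : K) (hb : b ≠ 0) :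
    {v : HeightOneSpectrum (𝓞 K) | v.valuation K b ≠ 1}.Finite := by
  refine ((HeightOneSpectrum.Support.finite (𝓞 K) b).union
    (HeightOneSpectrum.Support.finite (𝓞 K) b⁻¹)).subset ?_
  intro v hv
  rcases lt_or_gt_of_ne hv with h | h
  · right
    show 1 < v.valuation K b⁻¹
    rw [map_inv₀]
    have h0 : 0 < v.valuation K b := zero_lt_iff.2 ((map_ne_zero _).2 hb)
    exact (one_lt_inv₀ h0).2 h
  · left
    exact h

private theorem ps_one_prime {K : Type} [Field K] [NumberField K] (v : HeightOneSpectrum (𝓞 K))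
    {p q : ℕ} (hp : p.Prime) (hq : q.Prime) (h1 : (p : 𝓞 K) ∈ v.asIdeal)
    (h2 : (q : 𝓞 K) ∈ v.asIdeal) : p = q := by
  by_contra hne
  have hc : IsCoprime (p : ℤ) (q : ℤ) :=
    Nat.isCoprime_iff_coprime.2 ((Nat.coprime_primes hp hq).2 hne)
  obtain ⟨a, c, hac⟩ := hc
  have h3 : (a : 𝓞 K) * p + c * q = 1 := by
    exact_mod_cast congrArg (Int.cast : ℤ → 𝓞 K) hac
  have h4 : (1 : 𝓞 K) ∈ v.asIdeal := by
    rw [← h3]
    exact v.asIdeal.add_mem (v.asIdeal.mul_mem_left _ h1) (v.asIdeal.mul_mem_left _ h2)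
  exact v.isPrime.ne_top ((Ideal.eq_top_iff_one _).2 h4)

private theorem ps_above (K : Type) [Field K] [NumberField K] (p : ℕ) (hp : p.Prime) :
    ∃ (v : HeightOneSpectrum (𝓞 K)) (f : ℕ), (p : 𝓞 K) ∈ v.asIdeal ∧ 1 ≤ f ∧
      f ≤ finrank ℚ K ∧ nrm v = p ^ f := by
  have hN : Ideal.absNorm (Ideal.span {(p : 𝓞 K)}) = p ^ finrank ℚ K := by
    rw [Ideal.absNorm_span_natCast, RingOfIntegers.rank]
  have htop : Ideal.span {(p : 𝓞 K)} ≠ ⊤ := by
    intro h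
    rw [h, Ideal.absNorm_top] at hN
    have : 1 < p ^ finrank ℚ K := Nat.one_lt_pow finrank_pos.ne' hp.one_lt
    omega
  obtain ⟨M, hM, hle⟩ := Ideal.exists_le_maximal _ htop
  have hmem : (p : 𝓞 K) ∈ M := hle (Ideal.mem_span_singleton_self _)
  have hbot : M ≠ ⊥ := by
    rintro rfl
    have h0 : (p : 𝓞 K) = 0 := Ideal.mem_bot.1 hmem
    exact hp.ne_zero (by exact_mod_cast h0)
  have hdvd : Ideal.absNorm M ∣ p ^ finrank ℚ K := by
    rw [← hN]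
    exact Ideal.absNorm_dvd_absNorm_of_le hle
  obtain ⟨f, hf, hfe⟩ := (Nat.dvd_prime_pow hp).1 hdvd
  refine ⟨⟨M, hM.isPrime, hbot⟩, f, hmem, ?_, hf, hfe⟩
  by_contra h0
  have h1 : f = 0 := by omega
  rw [h1, pow_zero] at hfe
  exact hM.ne_top (Ideal.absNorm_eq_one_iff.1 hfe)

private theorem ps_card (N Z : ℕ) (hN : 1 ≤ N) (h : Real.log (3 * N) ≤ Z) :
    N.primeFactors.card ≤ 2 * Z := by
  have h1 : (2 : ℕ) ^ N.primeFactors.card ≤ N := by
    calc 2 ^ N.primeFactors.card = ∏ _p ∈ N.primeFactors, 2 := by rw [Finset.prod_const]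
      _ ≤ ∏ p ∈ N.primeFactors, p :=
        Finset.prod_le_prod' (fun p hp => (Nat.prime_of_mem_primeFactors hp).two_le)
      _ ≤ N := Nat.le_of_dvd hN (Nat.prod_primeFactors_dvd N)
  have hN0 : (0 : ℝ) < N := by exact_mod_cast hN
  have h2 : (N : ℝ) ≤ 4 ^ Z := by
    have h3 : (3 * N : ℝ) ≤ Real.exp Z := (Real.log_le_iff_le_exp (by positivity)).1 h
    have h4 : Real.exp Z ≤ 4 ^ Z := by
      rw [← Real.exp_one_pow]
      exact pow_le_pow_left₀ (Real.exp_pos 1).le (by have := Real.exp_one_lt_d9; linarith) Z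
    linarith
  have h6 : N ≤ 4 ^ Z := by exact_mod_cast h2
  have h5 : 2 ^ N.primeFactors.card ≤ 2 ^ (2 * Z) := by
    rw [pow_mul]
    exact h1.trans (by simpa using h6)
  exact (Nat.pow_le_pow_iff_right (by norm_num)).1 h5

theorem primes_supply (K : Type) [Field K] [NumberField K] (b : K) (hb : b ≠ 0) :
    ∃ Z₀ : ℕ, ∀ Z : ℕ, Z₀ ≤ Z → ∀ N : ℕ, 1 ≤ N → Real.log (3 * N) ≤ Z →
      ∃ (m Q f : ℕ) (𝔭 : Fin m → HeightOneSpectrum (𝓞 K)) (p : Fin m → ℕ),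
        Z ^ 8 ≤ m ∧ Function.Injective p ∧ 1 ≤ f ∧ 2 ≤ Q ∧ Q ≤ Z ^ (18 * finrank ℚ K) ∧
        ∀ t, (p t).Prime ∧ ((p t : ℕ) : 𝓞 K) ∈ (𝔭 t).asIdeal ∧ nrm (𝔭 t) = p t ^ f ∧
          ¬ p t ∣ N ∧ (𝔭 t).valuation K b = 1 ∧ nrm (𝔭 t) ≤ Q ∧
          Q ≤ 4 ^ finrank ℚ K * nrm (𝔭 t) := by
  classical
  obtain ⟨g, hg⟩ : ∃ g, g = finrank ℚ K := ⟨_, rfl⟩
  have hg1 : 1 ≤ g := by
    rw [hg]
    exact finrank_pos
  rw [← hg]
  obtain ⟨Z1, hZ1⟩ := prime_block (2 * g)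
  have hbad := ps_bad_finite K b hb
  have hB2 : {p : ℕ | p.Prime ∧ ∃ v : HeightOneSpectrum (𝓞 K), v.valuation K b ≠ 1 ∧
      (p : 𝓞 K) ∈ v.asIdeal}.Finite := by
    have hfin : (⋃ v ∈ {v : HeightOneSpectrum (𝓞 K) | v.valuation K b ≠ 1},
        {p : ℕ | p.Prime ∧ (p : 𝓞 K) ∈ v.asIdeal}).Finite := by
      refine hbad.biUnion (fun v _ => Set.Subsingleton.finite ?_)
      intro p hp q hq
      exact ps_one_prime v hp.1 hq.1 hp.2 hq.2
    refine hfin.subset ?_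
    rintro p ⟨hp, v, hv, hpv⟩
    exact Set.mem_biUnion (show v ∈ {v : HeightOneSpectrum (𝓞 K) | v.valuation K b ≠ 1} from hv)
      ⟨hp, hpv⟩
  obtain ⟨B2, hB2e⟩ : ∃ B : Finset ℕ, B = hB2.toFinset := ⟨_, rfl⟩
  refine ⟨max Z1 (B2.card + 2), fun Z hZ N hN hlog => ?_⟩
  have hZa : Z1 ≤ Z := le_trans (le_max_left _ _) hZ
  have hZb : B2.card + 2 ≤ Z := le_trans (le_max_right _ _) hZ
  have hZ2 : 2 ≤ Z := by omega
  have hZ7 : 2 ^ 7 ≤ Z ^ 7 := Nat.pow_le_pow_left hZ2 7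
  have hZ9 : 4 ≤ Z ^ 9 := by
    have h := Nat.pow_le_pow_left hZ2 9
    norm_num at h
    omega
  obtain ⟨P0, hP0⟩ : ∃ P, P = (Finset.Ioc (Z ^ 9) (4 * Z ^ 9)).filter Nat.Prime := ⟨_, rfl⟩
  obtain ⟨G, hGe⟩ : ∃ G, G = P0 \ (N.primeFactors ∪ B2) := ⟨_, rfl⟩
  have hG : g * Z ^ 8 ≤ G.card := by
    have h1 := hZ1 Z hZa
    rw [← hP0] at h1
    have h2 : P0.card ≤ G.card + (N.primeFactors ∪ B2).card := by
      rw [hGe]
      exact Finset.card_le_card_sdiff_add_card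
    have h3 : (N.primeFactors ∪ B2).card ≤ 2 * Z + B2.card :=
      (Finset.card_union_le _ _).trans (Nat.add_le_add_right (ps_card N Z hN hlog) _)
    have h4 : 3 * Z ≤ Z ^ 8 := by
      rw [pow_succ]
      exact Nat.mul_le_mul_right Z (by omega)
    have h5 : Z ^ 8 ≤ g * Z ^ 8 := Nat.le_mul_of_pos_left _ hg1
    have h6 : 2 * g * Z ^ 8 = 2 * (g * Z ^ 8) := by ring
    rw [h6] at h1
    omega
  have : Nonempty (HeightOneSpectrum (𝓞 K)) := ⟨(ps_above K 2 Nat.prime_two).choose⟩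
  have habove := ps_above K
  choose! v f hmem hf1 hfg hnrm using habove
  rw [← hg] at hfg
  have hGmem : ∀ p ∈ G, p.Prime ∧ Z ^ 9 < p ∧ p ≤ 4 * Z ^ 9 ∧ ¬ p ∣ N ∧ p ∉ B2 := by
    intro p hp
    rw [hGe, Finset.mem_sdiff, Finset.mem_union, hP0, Finset.mem_filter, Finset.mem_Ioc] at hp
    obtain ⟨⟨⟨h1, h2⟩, h3⟩, h4⟩ := hp
    refine ⟨h3, h1, h2, fun hd => h4 (Or.inl ?_), fun h5 => h4 (Or.inr h5)⟩
    exact Nat.mem_primeFactors.2 ⟨h3, hd, by omega⟩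
  obtain ⟨f0, hf0, hcard⟩ := Finset.exists_le_card_fiber_of_mul_le_card_of_maps_to
    (s := G) (t := Finset.Icc 1 g) (f := f) (n := Z ^ 8)
    (fun p hp => Finset.mem_Icc.2 ⟨hf1 p (hGmem p hp).1, hfg p (hGmem p hp).1⟩)
    ⟨1, Finset.mem_Icc.2 ⟨le_rfl, hg1⟩⟩ (by rw [Nat.card_Icc, Nat.add_sub_cancel]; exact hG)
  obtain ⟨P, hP⟩ : ∃ P, P = G.filter (fun p => f p = f0) := ⟨_, rfl⟩
  rw [← hP] at hcard
  obtain ⟨hf01, hf0g⟩ := Finset.mem_Icc.1 hf0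
  refine ⟨P.card, (4 * Z ^ 9) ^ f0, f0, fun t => v (P.equivFin.symm t : ℕ),
    fun t => (P.equivFin.symm t : ℕ), hcard, ?_, hf01, ?_, ?_, ?_⟩
  · intro s t hst
    exact P.equivFin.symm.injective (Subtype.ext hst)
  · calc 2 ≤ 4 * Z ^ 9 := by omega
      _ = (4 * Z ^ 9) ^ 1 := (pow_one _).symm
      _ ≤ (4 * Z ^ 9) ^ f0 := Nat.pow_le_pow_right (by omega) hf01
  · calc (4 * Z ^ 9) ^ f0 ≤ (4 * Z ^ 9) ^ g := Nat.pow_le_pow_right (by omega) hf0g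
      _ ≤ (Z ^ 18) ^ g := by
          apply Nat.pow_le_pow_left
          rw [show (18 : ℕ) = 9 + 9 by norm_num, pow_add]
          exact Nat.mul_le_mul_right _ hZ9
      _ = Z ^ (18 * g) := by rw [pow_mul]
  · intro t
    have ht : (P.equivFin.symm t : ℕ) ∈ P := (P.equivFin.symm t).2
    obtain ⟨q, hq⟩ : ∃ q : ℕ, q = (P.equivFin.symm t : ℕ) := ⟨_, rfl⟩
    rw [← hq] at ht
    simp only [← hq]
    rw [hP, Finset.mem_filter] at ht
    obtain ⟨htG, htf⟩ := ht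
    obtain ⟨h1, h2, h3, h4, h5⟩ := hGmem q htG
    have hn := hnrm q h1
    rw [htf] at hn
    refine ⟨h1, hmem q h1, hn, h4, ?_, ?_, ?_⟩
    · by_contra hval
      apply h5
      rw [hB2e, Set.Finite.mem_toFinset]
      exact ⟨h1, v q, hval, hmem q h1⟩
    · rw [hn]
      exact Nat.pow_le_pow_left h3 f0
    · rw [hn, mul_pow]
      exact Nat.mul_le_mul (Nat.pow_le_pow_right (by norm_num) hf0g)
        (Nat.pow_le_pow_left h2.le f0)

end Pool.Agent.H72.PL
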