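import Mathlib

/-!
# Module R0Num: the final numerical contradiction in one variable (prop. 65, section 9)

`r₁ = s (Z^2 + Z^6)`, `W = r₁ - 1`, `c = W h`, `0 ≤ c`, `qmax c ≤ Z^(18g) * s (Z^2+Z^6) h ≤
2 Z^(18g+6) s h ≤ 2/Z ≤ 1`. `log qmin ≥ log 2 ≥ 1/2`. So the left side is at least
`(s Z^6 + s Z^2 - s Z^4) (Z^2/(2g) - 1) ≥ s Z^6/2 * Z^2/(4g) = s Z^8/(8g)` for `Z` large (`r₀ ≤ s Z^4`; note
that `r₁ - r₀ ≥ s Z^6 - s Z^4 ≥ s Z^6/2 > 0` and the second factor is positive).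
Right side: `log r₁ ≤ log s + log (2 Z^6) ≤ Z + log 2 + 6 log Z ≤ 2 Z`; `max 0 (max W 2) ≤ r₁ + 2`, its log
`≤ 3 Z`; `c ≤ qmax c ≤ 1` if `qmax ≥ 1` (`qmax ≥ qmin ≥ 2`). So the right side is at most
`2 s Z^6 * 2 Z + s Z^4 (Z^2 * 3 Z + 1) ≤ 8 s Z^7`. For `Z > 64 g` and `Z ≥` constants this is a
contradiction. (`log Z ≤ Z/100` for large `Z` etc.; all 'large' conditions depend only on `g`.)
-/

set_option autoImplicit false

namespace Pool.Agent.H72.PL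

theorem r0_num (g : ℕ) (hg : 1 ≤ g) : ∃ Z₀ : ℕ, ∀ Z : ℕ, Z₀ ≤ Z →
    ∀ (s r₀ W : ℕ) (h qmin qmax : ℝ), 1 ≤ s → Real.log s ≤ Z → W + 1 = s * (Z ^ 2 + Z ^ 6) →
      r₀ ≤ s * Z ^ 4 → 0 ≤ h → 2 ≤ qmin → qmin ≤ qmax → qmax ≤ (Z : ℝ) ^ (18 * g) →
      (s : ℝ) * h < 1 / (Z : ℝ) ^ (18 * g + 7) →
      (((W + 1 : ℕ) : ℝ) - r₀) * (((Z ^ 2 : ℕ) : ℝ) * Real.log qmin / g -
          qmax * (((0 : ℕ) : ℝ) * 0 + W * h)) ≤
        ((W + 1 : ℕ) : ℝ) * Real.log ((W + 1 : ℕ) : ℝ) +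
          (r₀ : ℝ) * (((Z ^ 2 : ℕ) : ℝ) * Real.log (max ((0 : ℕ) : ℝ) (max (W : ℝ) 2)) +
            (((0 : ℕ) : ℝ) * 0 + W * h)) → False := by
  refine ⟨200 + 64 * g, ?_⟩
  intro Z hZ s r₀ W h qmin qmax hs hlogs hW hr₀ hh hq2 hqq hqmax hsh hineq
  -- real variables
  obtain ⟨z, hz⟩ : ∃ z : ℝ, z = (Z : ℝ) := ⟨_, rfl⟩
  obtain ⟨σ, hσ⟩ : ∃ σ : ℝ, σ = (s : ℝ) := ⟨_, rfl⟩
  obtain ⟨γ, hγ⟩ : ∃ γ : ℝ, γ = (g : ℝ) := ⟨_, rfl⟩
  have hγ1 : 1 ≤ γ := by rw [hγ]; exact_mod_cast hg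
  have hσ1 : 1 ≤ σ := by rw [hσ]; exact_mod_cast hs
  have hzg : 200 + 64 * γ ≤ z := by rw [hz, hγ]; exact_mod_cast hZ
  have hz200 : 200 ≤ z := by linarith
  have hz0 : 0 < z := by linarith
  have hzz : z ≤ z ^ 2 := by
    rw [pow_two]
    exact le_mul_of_one_le_left hz0.le (by linarith)
  have hr1 : ((W + 1 : ℕ) : ℝ) = σ * (z ^ 2 + z ^ 6) := by
    rw [hW, hσ, hz]
    push_cast
    ring
  have hWr : (W : ℝ) ≤ σ * (z ^ 2 + z ^ 6) := by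
    rw [← hr1]
    push_cast
    linarith
  have hr0r : (r₀ : ℝ) ≤ σ * z ^ 4 := by
    rw [hσ, hz]
    exact_mod_cast hr₀
  have hr00 : (0 : ℝ) ≤ r₀ := Nat.cast_nonneg _
  have hW0 : (0 : ℝ) ≤ W := Nat.cast_nonneg _
  have hz26 : z ^ 2 ≤ z ^ 6 := pow_le_pow_right₀ (by linarith) (by norm_num)
  have hlogz : Real.log 2 + 6 * Real.log z ≤ z := by
    have h1 : Real.log (z / 24) ≤ z / 24 - 1 := Real.log_le_sub_one_of_pos (by positivity)
    rw [Real.log_div hz0.ne' (by norm_num)] at h1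
    have h2 : Real.log 24 ≤ 24 - 1 := Real.log_le_sub_one_of_pos (by norm_num)
    have h3 : Real.log 2 ≤ 2 - 1 := Real.log_le_sub_one_of_pos (by norm_num)
    linarith
  have hR0 : 0 < σ * (z ^ 2 + z ^ 6) := by positivity
  have hlogr : Real.log (σ * (z ^ 2 + z ^ 6)) ≤ 2 * z := by
    have h1 : Real.log (σ * (z ^ 2 + z ^ 6)) = Real.log σ + Real.log (z ^ 2 + z ^ 6) :=
      Real.log_mul (by linarith) (by positivity)
    have h2 : Real.log (z ^ 2 + z ^ 6) ≤ Real.log (2 * z ^ 6) :=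
      Real.log_le_log (by positivity) (by linarith)
    have h3 : Real.log (2 * z ^ 6) = Real.log 2 + 6 * Real.log z := by
      rw [Real.log_mul (by norm_num) (by positivity), Real.log_pow]
      norm_num
    have h4 : Real.log σ ≤ z := by rw [hσ, hz]; exact hlogs
    linarith
  have hWh0 : 0 ≤ (W : ℝ) * h := by positivity
  have hqW : qmax * ((W : ℝ) * h) ≤ 1 := by
    have hpz : 0 < z ^ (18 * g) := by positivity
    have h1 : qmax ≤ z ^ (18 * g) := by rw [hz]; exact hqmax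
    have h2 : (W : ℝ) * h ≤ (z ^ 2 + z ^ 6) * (σ * h) := by
      calc (W : ℝ) * h ≤ (σ * (z ^ 2 + z ^ 6)) * h := mul_le_mul_of_nonneg_right hWr hh
        _ = (z ^ 2 + z ^ 6) * (σ * h) := by ring
    have h3 : σ * h ≤ 1 / z ^ (18 * g + 7) := by rw [hσ, hz]; exact hsh.le
    calc qmax * ((W : ℝ) * h) ≤ z ^ (18 * g) * ((W : ℝ) * h) :=
          mul_le_mul_of_nonneg_right h1 hWh0
      _ ≤ z ^ (18 * g) * ((z ^ 2 + z ^ 6) * (σ * h)) := mul_le_mul_of_nonneg_left h2 hpz.le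
      _ ≤ z ^ (18 * g) * ((2 * z ^ 6) * (1 / z ^ (18 * g + 7))) := by
          apply mul_le_mul_of_nonneg_left _ hpz.le
          apply mul_le_mul _ h3 (by positivity) (by positivity)
          linarith
      _ = 2 / z := by
          rw [pow_add]
          field_simp
      _ ≤ 1 := by
          rw [div_le_one hz0]
          linarith
  have hWh1 : (W : ℝ) * h ≤ 1 := by
    have h1 : 1 ≤ qmax := by linarith
    calc (W : ℝ) * h = 1 * ((W : ℝ) * h) := (one_mul _).symm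
      _ ≤ qmax * ((W : ℝ) * h) := mul_le_mul_of_nonneg_right h1 hWh0
      _ ≤ 1 := hqW
  have hlogq : 1 / 2 ≤ Real.log qmin := by
    have h1 : Real.log 2 ≤ Real.log qmin := Real.log_le_log (by norm_num) hq2
    have h2 := Real.log_two_gt_d9
    linarith
  -- the left side
  have hf1 : σ * z ^ 6 / 2 ≤ ((W + 1 : ℕ) : ℝ) - r₀ := by
    rw [hr1]
    have h1 : z ^ 4 ≤ z ^ 6 / 2 := by
      have h2 : z ^ 6 = z ^ 4 * z ^ 2 := by ring
      have h3 : 2 ≤ z ^ 2 := by linarith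
      have h4 : 0 < z ^ 4 := by positivity
      rw [h2]
      have h7 : z ^ 4 * 2 ≤ z ^ 4 * z ^ 2 := mul_le_mul_of_nonneg_left h3 h4.le
      linarith
    have h5 : σ * z ^ 4 ≤ σ * (z ^ 6 / 2) := mul_le_mul_of_nonneg_left h1 (by linarith)
    have h6 : 0 ≤ σ * z ^ 2 := by positivity
    have h7 : σ * (z ^ 2 + z ^ 6) = σ * z ^ 2 + σ * z ^ 6 := by ring
    have h8 : σ * (z ^ 6 / 2) = σ * z ^ 6 / 2 := by ring
    linarith
  have hf2 : z ^ 2 / (4 * γ) ≤ ((Z ^ 2 : ℕ) : ℝ) * Real.log qmin / g -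
      qmax * (((0 : ℕ) : ℝ) * 0 + W * h) := by
    have h1 : (((Z ^ 2 : ℕ) : ℝ)) = z ^ 2 := by rw [hz]; push_cast; ring
    rw [h1, ← hγ, mul_zero, zero_add]
    have h2 : z ^ 2 * (1 / 2) / γ ≤ z ^ 2 * Real.log qmin / γ := by gcongr
    have h3 : 1 ≤ z ^ 2 / (4 * γ) := by
      rw [le_div_iff₀ (by positivity)]
      have h5 : z ≤ z ^ 2 := hzz
      linarith
    have h4 : z ^ 2 * (1 / 2) / γ = z ^ 2 / (4 * γ) + z ^ 2 / (4 * γ) := by
      field_simp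
      norm_num
    linarith
  have hLHS : σ * z ^ 6 / 2 * (z ^ 2 / (4 * γ)) ≤ (((W + 1 : ℕ) : ℝ) - r₀) *
      (((Z ^ 2 : ℕ) : ℝ) * Real.log qmin / g - qmax * (((0 : ℕ) : ℝ) * 0 + W * h)) := by
    apply mul_le_mul hf1 hf2 (by positivity)
    exact le_trans (by positivity) hf1
  -- the right side
  have hmax : Real.log (max ((0 : ℕ) : ℝ) (max (W : ℝ) 2)) ≤ 2 * z := by
    refine le_trans (Real.log_le_log ?_ ?_) hlogr
    · exact lt_of_lt_of_le (by norm_num) ((le_max_right (W : ℝ) 2).trans (le_max_right _ _))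
    · apply max_le
      · rw [Nat.cast_zero]
        exact hR0.le
      · apply max_le hWr
        have h2 : 2 ≤ z ^ 2 := by linarith
        have h3 : 0 ≤ z ^ 6 := by positivity
        have h4 : 1 * (z ^ 2 + z ^ 6) ≤ σ * (z ^ 2 + z ^ 6) :=
          mul_le_mul_of_nonneg_right hσ1 (by positivity)
        linarith
  have hRHS : ((W + 1 : ℕ) : ℝ) * Real.log ((W + 1 : ℕ) : ℝ) +
      (r₀ : ℝ) * (((Z ^ 2 : ℕ) : ℝ) * Real.log (max ((0 : ℕ) : ℝ) (max (W : ℝ) 2)) +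
        (((0 : ℕ) : ℝ) * 0 + W * h)) ≤ 7 * σ * z ^ 7 := by
    have h1 : (((Z ^ 2 : ℕ) : ℝ)) = z ^ 2 := by rw [hz]; push_cast; ring
    rw [h1, hr1, mul_zero, zero_add]
    have h2 : σ * (z ^ 2 + z ^ 6) * Real.log (σ * (z ^ 2 + z ^ 6)) ≤
        σ * (2 * z ^ 6) * (2 * z) := by
      have h3 : σ * (z ^ 2 + z ^ 6) ≤ σ * (2 * z ^ 6) :=
        mul_le_mul_of_nonneg_left (by linarith) (by linarith)
      calc _ ≤ σ * (z ^ 2 + z ^ 6) * (2 * z) := mul_le_mul_of_nonneg_left hlogr hR0.le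
        _ ≤ σ * (2 * z ^ 6) * (2 * z) := mul_le_mul_of_nonneg_right h3 (by linarith)
    have h4 : z ^ 2 * Real.log (max ((0 : ℕ) : ℝ) (max (W : ℝ) 2)) + W * h ≤ 3 * z ^ 3 := by
      have h5 : z ^ 2 * Real.log (max ((0 : ℕ) : ℝ) (max (W : ℝ) 2)) ≤ z ^ 2 * (2 * z) :=
        mul_le_mul_of_nonneg_left hmax (by positivity)
      have h6 : 1 ≤ z ^ 3 := one_le_pow₀ (by linarith)
      have h7 : z ^ 2 * (2 * z) = 2 * z ^ 3 := by ring
      linarith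
    have h7 : (r₀ : ℝ) * (z ^ 2 * Real.log (max ((0 : ℕ) : ℝ) (max (W : ℝ) 2)) + W * h) ≤
        (σ * z ^ 4) * (3 * z ^ 3) := by
      calc _ ≤ (r₀ : ℝ) * (3 * z ^ 3) := mul_le_mul_of_nonneg_left h4 hr00
        _ ≤ (σ * z ^ 4) * (3 * z ^ 3) := mul_le_mul_of_nonneg_right hr0r (by positivity)
    calc _ ≤ σ * (2 * z ^ 6) * (2 * z) + (σ * z ^ 4) * (3 * z ^ 3) := add_le_add h2 h7
      _ = 7 * σ * z ^ 7 := by ring
  have hfin : σ * z ^ 6 / 2 * (z ^ 2 / (4 * γ)) ≤ 7 * σ * z ^ 7 :=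
    hLHS.trans (hineq.trans hRHS)
  have h1 : σ * z ^ 6 / 2 * (z ^ 2 / (4 * γ)) = σ * z ^ 7 * (z / (8 * γ)) := by
    field_simp
    norm_num
  rw [h1] at hfin
  have h2 : 0 < σ * z ^ 7 := by positivity
  have h3 : z / (8 * γ) ≤ 7 := by
    by_contra hcon
    push Not at hcon
    have h4 : σ * z ^ 7 * 7 < σ * z ^ 7 * (z / (8 * γ)) := mul_lt_mul_of_pos_left hcon h2
    linarith
  rw [div_le_iff₀ (by positivity)] at h3
  linarith

end Pool.Agent.H72.PL
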