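import Pool.Agent.H72.PL.Herm
import Pool.Agent.H72.PL.R0Num
import Pool.Agent.H72.PL.PSupply
import Pool.Agent.H72.PL.RankA

/-!
# Module RZero: the one variable theorem (paper proof: proposal 65, section 9)

`g = [K:ℚ]`, `k = K(ζ)`, `s = natDegree (minpoly k ρ) ≥ 1`. Suppose `s h(ρ) < 1/Z^(18g+7)`. Take the primes of
`primes_supply K 1` for `Z`, `N` (`m ≥ Z^8`), and `fd_exists` with `y = 1`, `b = 1`; `FD.one` gives
`FD k k 1 𝔭 F` (`N ∉ 𝔭 t`: `p t ∤ N`, `p t ∈ 𝔭 t`; `𝔭` injective: `p` injective).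
`q t = nrm (𝔭 t) = p t^f` are pairwise coprime, `≥ 2`, injective. `Bad` = the `t` with
`natDegree (minpoly k (ρ^(q t))) ≠ s`: by `drop_lemma` (finset of the `q t`, `t ∈ Bad`) `2^#Bad ≤ s`, so
`#Bad ≤ log s / log 2 ≤ 2 Z`. At least `Z^8 - 2 Z ≥ Z^6` good ones: choose an injection
`e : Fin (Z^6) → Fin m` into the good `t`; `FD.comp`. `T = Z^2`, `W + 1 = s (Z^2 + Z^6)`.
`herm`: `rkAB k 0 W T 1 ρ = W + 1`. `rkA_le` with `E = k = k ⊔ K(1)`: `rkA ≤ natDegree (minpoly k 1) * s *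
(Z^2)^2 = s Z^4`. `rank_ineq` with `qmin = min`, e.g. `qmin = 2`, `qmax = Q`, `h(1) = 0`
(`absLogHeight₁ 1 = 0`, from `logHeight_abs`, `Height.logHeight₁_one`). `r0_num` gives the contradiction.
-/

set_option autoImplicit false

open NumberField IsDedekindDomain Module

namespace Pool.Agent.H72.PL

theorem r_zero (K : Type) [Field K] [NumberField K] : ∃ Z₀ : ℕ, ∀ Z : ℕ, Z₀ ≤ Z →
    ∀ (L : Type) [Field L] [NumberField L] [Algebra K L] [IsGalois K L] (N : ℕ) (ζ ρ : L),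
      1 ≤ N → IsPrimitiveRoot ζ N → ρ ≠ 0 → (∀ n : ℕ, 1 ≤ n → ρ ^ n ≠ 1) →
      Real.log (3 * N) ≤ Z →
      Real.log ((minpoly (IntermediateField.adjoin K {ζ}) ρ).natDegree) ≤ Z →
      1 / (Z : ℝ) ^ (18 * finrank ℚ K + 7) ≤
        ((minpoly (IntermediateField.adjoin K {ζ}) ρ).natDegree : ℝ) * absLogHeight₁ ρ := by
  classical
  obtain ⟨Z1, h1⟩ := primes_supply K 1 one_ne_zero
  obtain ⟨Z2, h2⟩ := r0_num (finrank ℚ K) finrank_pos
  refine ⟨max Z1 (max Z2 2), ?_⟩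
  intro Z hZ L _ _ _ _ N ζ ρ hN hζ hρ htors hlogN hlogs
  have hZ1 : Z1 ≤ Z := (le_max_left _ _).trans hZ
  have hZ2 : Z2 ≤ Z := (le_max_left _ _).trans ((le_max_right _ _).trans hZ)
  have hZ3 : 2 ≤ Z := (le_max_right _ _).trans ((le_max_right _ _).trans hZ)
  by_contra hcon
  push Not at hcon
  obtain ⟨m, Q, f, 𝔭, p, hm, hpinj, hf, hQ2, hQ, hall⟩ := h1 Z hZ1 N hN hlogN
  set k : IntermediateField K L := IntermediateField.adjoin K {ζ} with hk
  set s : ℕ := (minpoly k ρ).natDegree with hs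
  have hρint : IsIntegral k ρ := IsIntegral.of_finite k ρ
  have hs1 : 1 ≤ s := minpoly.natDegree_pos hρint
  have hnrm : ∀ t, nrm (𝔭 t) = p t ^ f := fun t => (hall t).2.2.1
  have h𝔭inj : Function.Injective 𝔭 := by
    intro t t' htt
    apply hpinj
    have h3 : p t ^ f = p t' ^ f := by rw [← hnrm, ← hnrm, htt]
    exact Nat.pow_left_injective (by omega) h3
  have hN𝔭 : ∀ t, (N : 𝓞 K) ∉ (𝔭 t).asIdeal := by
    intro t hmem
    obtain ⟨hpr, hpm, -, hnd, -, -, -⟩ := hall t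
    have hcop : IsCoprime ((p t : ℕ) : ℤ) ((N : ℕ) : ℤ) :=
      Nat.isCoprime_iff_coprime.2 ((Nat.Prime.coprime_iff_not_dvd hpr).2 hnd)
    obtain ⟨u, v, huv⟩ := hcop.map (Int.castRingHom (𝓞 K))
    simp only [map_natCast] at huv
    apply (𝔭 t).isPrime.ne_top
    rw [Ideal.eq_top_iff_one, ← huv]
    exact Ideal.add_mem _ (Ideal.mul_mem_left _ _ hpm) (Ideal.mul_mem_left _ _ hmem)
  obtain ⟨F, hFD, -⟩ := fd_exists (K := K) (L := L) N hN ζ 1 hζ 1
    (by rw [one_pow, map_one]) 𝔭 h𝔭inj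
    (fun t => ⟨p t, f, (hall t).1, hf, (hall t).2.1, hnrm t⟩) hN𝔭 (fun t => (hall t).2.2.2.2.1)
  have hFD1 := hFD.one
  -- the bad indices
  have hq2 : ∀ t, 2 ≤ nrm (𝔭 t) := by
    intro t
    rw [hnrm]
    calc 2 ≤ p t := (hall t).1.two_le
      _ = p t ^ 1 := (pow_one _).symm
      _ ≤ p t ^ f := Nat.pow_le_pow_right (hall t).1.pos hf
  have hqinj : Function.Injective (fun t => nrm (𝔭 t)) := by
    intro t t' htt
    apply hpinj
    have h3 : p t ^ f = p t' ^ f := by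
      rw [← hnrm, ← hnrm]
      exact htt
    exact Nat.pow_left_injective (by omega) h3
  let bad : Finset (Fin m) := Finset.univ.filter
    (fun t => (minpoly k (ρ ^ nrm (𝔭 t))).natDegree ≠ s)
  have hbad : 2 ^ bad.card ≤ s := by
    have h3 := drop_lemma k ρ hρ (bad.image (fun t => nrm (𝔭 t))) ?_ ?_ ?_
    · rwa [Finset.card_image_of_injective _ hqinj] at h3
    · intro q hq
      obtain ⟨t, -, rfl⟩ := Finset.mem_image.1 hq
      exact le_trans (by norm_num) (hq2 t)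
    · intro q hq q' hq' hne
      obtain ⟨t, -, rfl⟩ := Finset.mem_image.1 (Finset.mem_coe.1 hq)
      obtain ⟨t', -, rfl⟩ := Finset.mem_image.1 (Finset.mem_coe.1 hq')
      simp only [hnrm]
      apply Nat.Coprime.pow
      rw [Nat.coprime_primes (hall t).1 (hall t').1]
      intro h4
      apply hne
      rw [hnrm, hnrm, h4]
    · intro q hq
      obtain ⟨t, ht, rfl⟩ := Finset.mem_image.1 hq
      exact (Finset.mem_filter.1 ht).2
  have hbadZ : bad.card ≤ 2 * Z := by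
    have h3 : ((2 : ℝ) ^ bad.card) ≤ s := by exact_mod_cast hbad
    have h4 : (bad.card : ℝ) * Real.log 2 ≤ Real.log s := by
      rw [← Real.log_pow]
      exact Real.log_le_log (by positivity) h3
    have h5 : (1 / 2 : ℝ) ≤ Real.log 2 := by
      have := Real.log_two_gt_d9
      linarith
    have h6 : (bad.card : ℝ) * (1 / 2) ≤ bad.card * Real.log 2 :=
      mul_le_mul_of_nonneg_left h5 (Nat.cast_nonneg _)
    have h7 : (bad.card : ℝ) ≤ 2 * Z := by linarith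
    exact_mod_cast h7
  have hgood : Z ^ 6 ≤ (Finset.univ \ bad).card := by
    rw [Finset.card_sdiff_of_subset (Finset.subset_univ _), Finset.card_univ, Fintype.card_fin]
    have h3 : Z ^ 6 + 2 * Z ≤ Z ^ 8 := by
      have h4 : Z ≤ Z ^ 6 := by
        calc Z = Z ^ 1 := (pow_one _).symm
          _ ≤ Z ^ 6 := Nat.pow_le_pow_right (by omega) (by norm_num)
      have h5 : 4 * Z ^ 6 ≤ Z ^ 8 := by
        calc 4 * Z ^ 6 = 2 ^ 2 * Z ^ 6 := by norm_num
          _ ≤ Z ^ 2 * Z ^ 6 := Nat.mul_le_mul_right _ (Nat.pow_le_pow_left hZ3 2)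
          _ = Z ^ 8 := by ring
      omega
    omega
  obtain ⟨G, hGsub, hGcard⟩ := Finset.exists_subset_card_eq hgood
  let e : Fin (Z ^ 6) → Fin m := fun i => ((G.equivFinOfCardEq hGcard).symm i : Fin m)
  have heinj : Function.Injective e := by
    intro i j hij
    exact (G.equivFinOfCardEq hGcard).symm.injective (Subtype.ext hij)
  have hegood : ∀ i, (minpoly k (ρ ^ nrm (𝔭 (e i)))).natDegree = s := by
    intro i
    have h3 : e i ∈ Finset.univ \ bad := hGsub ((G.equivFinOfCardEq hGcard).symm i).2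
    rw [Finset.mem_sdiff, Finset.mem_filter] at h3
    by_contra h4
    exact h3.2 ⟨Finset.mem_univ _, h4⟩
  have hFD2 := hFD1.comp e heinj
  -- the parameters
  obtain ⟨W, hW⟩ : ∃ W : ℕ, W + 1 = s * (Z ^ 2 + Z ^ 6) := by
    refine ⟨s * (Z ^ 2 + Z ^ 6) - 1, ?_⟩
    have : 0 < s * (Z ^ 2 + Z ^ 6) := by positivity
    omega
  have hherm : rkAB k 0 W (Z ^ 2) 1 ρ (fun i => F (e i)) (fun i => nrm (𝔭 (e i))) = W + 1 := by
    refine herm k hFD1.stabk ρ hρ htors (fun i => F (e i)) (fun i => nrm (𝔭 (e i)))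
      (fun i => hq2 (e i)) ?_ hegood (Z ^ 2) W ?_
    · intro i j hij
      exact heinj (hqinj hij)
    · rw [Fintype.card_fin, hW]
  have hrkA : rkA k 0 W (Z ^ 2) 1 ρ ≤ s * Z ^ 4 := by
    have hE : k = k ⊔ IntermediateField.adjoin K {(1 : L)} := by
      symm
      rw [sup_eq_left, IntermediateField.adjoin_le_iff]
      intro x hx
      rw [Set.mem_singleton_iff] at hx
      rw [hx]
      exact k.one_mem
    have h3 := rkA_le k k 1 ρ hE 0 W (Z ^ 2)
    have h4 : (minpoly k (1 : L)).natDegree = 1 := by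
      rw [minpoly.one, ← Polynomial.C_1, Polynomial.natDegree_X_sub_C]
    rw [h4, one_mul] at h3
    calc rkA k 0 W (Z ^ 2) 1 ρ ≤ s * (Z ^ 2) ^ 2 := h3
      _ = s * Z ^ 4 := by ring
  have hineq := rank_ineq hFD2 0 W (Z ^ 2) ρ 2 Q (by norm_num)
    (fun i => by exact_mod_cast hq2 (e i))
    (fun i => by exact_mod_cast (hall (e i)).2.2.2.2.2.1)
    (by exact_mod_cast hQ2)
  rw [hherm] at hineq
  have e0 : ((0 : ℕ) : ℝ) * absLogHeight₁ (1 : L) = ((0 : ℕ) : ℝ) * 0 := by simp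
  rw [e0] at hineq
  exact h2 Z hZ2 s (rkA k 0 W (Z ^ 2) 1 ρ) W (absLogHeight₁ ρ) 2 Q hs1 hlogs hW hrkA
    (absHeight_nonneg ρ) le_rfl (by exact_mod_cast hQ2) (by exact_mod_cast hQ) hcon hineq

end Pool.Agent.H72.PL
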