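import Pool.Agent.H72.PL.CoreF
import Pool.Agent.H72.PL.CoreDiv
import Pool.Agent.H72.PL.FZero
import Pool.Agent.H72.PL.Geo
import Pool.Agent.H72.PL.RZero
import Pool.Agent.H72.PL.CNumA
import Pool.Agent.H72.PL.CNumB
import Pool.Agent.H72.PL.CNumC

/-!
# Module CoreMain: assembly of the core theorem (paper proof: proposal 65, section 11)
-/

set_option autoImplicit false

open NumberField IsDedekindDomain Module

namespace Pool.Agent.H72.PL

section aux

variable {K L : Type} [Field K] [Field L] [Algebra K L]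

theorem rkA_le_rkAB [FiniteDimensional K L] (k : IntermediateField K L) {ι : Type} (M W T : ℕ)
    (y α : L) (F : ι → (L ≃ₐ[K] L)) (q : ι → ℕ) : rkA k M W T y α ≤ rkAB k M W T y α F q :=
  Submodule.finrank_mono (Submodule.span_mono Set.subset_union_left)

theorem rkAB_le (k : IntermediateField K L) {ι : Type} (M W T : ℕ)
    (y α : L) (F : ι → (L ≃ₐ[K] L)) (q : ι → ℕ) :
    rkAB k M W T y α F q ≤ (M + 1) * (W + 1) := by
  refine (Submodule.finrank_le _).trans ?_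
  rw [Module.finrank_fintype_fun_eq_card]
  simp

/-- the degree of an element of `k(y, α)` is at most `n d` -/
theorem deg_rho_le [FiniteDimensional K L] [IsGalois K L] (k E : IntermediateField K L)
    (y α : L) (hE : E = k ⊔ IntermediateField.adjoin K {y}) (v : ℕ) (u : ℤ) :
    (minpoly k (α ^ v * y ^ u)).natDegree ≤
      (minpoly k y).natDegree * (minpoly E α).natDegree := by
  rw [← orbit_card k (α ^ v * y ^ u), ← pairs_card k E y α hE]
  have h : (Set.range fun σ : k.fixingSubgroup => σ.1 (α ^ v * y ^ u)) =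
      (fun z : L × L => z.2 ^ v * z.1 ^ u) ''
        (Set.range fun σ : k.fixingSubgroup => (σ.1 y, σ.1 α)) := by
    ext z
    constructor
    · rintro ⟨σ, rfl⟩
      exact ⟨_, ⟨σ, rfl⟩, by simp⟩
    · rintro ⟨_, ⟨σ, rfl⟩, rfl⟩
      exact ⟨σ, by simp⟩
  rw [h]
  exact Set.ncard_image_le (Set.finite_range _)

end aux

theorem core_main (K : Type) [Field K] [NumberField K] (b : K) (hb : b ≠ 0)
    (hb' : ∀ n : ℕ, 1 ≤ n → b ^ n ≠ 1) : ∃ Z₀ : ℕ, ∀ Z : ℕ, Z₀ ≤ Z →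
    ∀ (L : Type) [Field L] [NumberField L] [Algebra K L] [IsGalois K L] (N : ℕ) (ζ y α : L),
      1 ≤ N → IsPrimitiveRoot ζ N → y ^ N = algebraMap K L b → α ≠ 0 →
      (∀ m : ℕ, 1 ≤ m → ∀ j : ℤ, α ^ m ≠ (algebraMap K L b) ^ j) →
      Real.log (3 * N) ≤ Z →
      Real.log ((minpoly (IntermediateField.adjoin K {ζ, y}) α).natDegree) ≤ Z →
      1 / (Z : ℝ) ^ (90 * finrank ℚ K + 20) ≤
        ((minpoly (IntermediateField.adjoin K {ζ, y}) α).natDegree : ℝ) * absLogHeight₁ α := by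
  classical
  obtain ⟨g, hgdef⟩ : ∃ g, g = finrank ℚ K := ⟨_, rfl⟩
  have hg : 1 ≤ g := by rw [hgdef]; exact Module.finrank_pos
  obtain ⟨B, hBdef⟩ : ∃ B : ℝ, B = Height.logHeight₁ b / finrank ℚ K := ⟨_, rfl⟩
  have hB : 0 ≤ B := by
    rw [hBdef]
    exact div_nonneg (Height.zero_le_logHeight₁ b) (Nat.cast_nonneg _)
  obtain ⟨Z₁, hZ₁⟩ := core_numA g hg B hB
  obtain ⟨Z₂, hZ₂⟩ := numC_count g hg
  obtain ⟨Z₃, hZ₃⟩ := numC_end g hg B hB
  obtain ⟨Z₄, hZ₄⟩ := r_zero K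
  obtain ⟨Z₅, hZ₅⟩ := primes_supply K b hb
  refine ⟨Z₁ + Z₂ + Z₃ + Z₄ + Z₅ + 4, fun Z hZ L _ _ _ _ N ζ y α hN hζ hy hα hsat hlogN hlogd => ?_⟩
  have hZ4 : 4 ≤ Z := by omega
  obtain ⟨k, hk⟩ : ∃ k, k = IntermediateField.adjoin K {ζ} := ⟨_, rfl⟩
  obtain ⟨E, hEdef⟩ : ∃ E, E = IntermediateField.adjoin K {ζ, y} := ⟨_, rfl⟩
  rw [← hEdef] at hlogd ⊢
  have hE : E = k ⊔ IntermediateField.adjoin K {y} := by
    rw [hEdef, hk]
    exact adjoin_pair ζ y
  rw [← hgdef]
  obtain ⟨d, hd⟩ : ∃ d, d = (minpoly E α).natDegree := ⟨_, rfl⟩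
  obtain ⟨n, hn⟩ : ∃ n, n = (minpoly k y).natDegree := ⟨_, rfl⟩
  rw [← hd] at hlogd ⊢
  by_contra hlt
  rw [not_le] at hlt
  have hd1 : 1 ≤ d := by
    rw [hd]
    exact minpoly.natDegree_pos (Algebra.IsIntegral.isIntegral α)
  have hn1 : 1 ≤ n := by
    rw [hn]
    exact minpoly.natDegree_pos (Algebra.IsIntegral.isIntegral y)
  have hy0 : y ≠ 0 := by
    rintro rfl
    rw [zero_pow (by omega)] at hy
    exact hb ((map_eq_zero (algebraMap K L)).1 hy.symm)
  -- the degree n is at most N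
  have hnN : n ≤ N := by
    rw [hn]
    have hroot : Polynomial.aeval y (Polynomial.X ^ N - Polynomial.C (algebraMap K k b) :
        Polynomial k) = 0 := by
      simp only [map_sub, map_pow, Polynomial.aeval_X, Polynomial.aeval_C, hy]
      rw [← IsScalarTower.algebraMap_apply K k L]
      exact sub_self _
    have hne : (Polynomial.X ^ N - Polynomial.C (algebraMap K k b) : Polynomial k) ≠ 0 :=
      (Polynomial.monic_X_pow_sub_C _ (by omega)).ne_zero
    calc (minpoly k y).natDegree ≤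
        (Polynomial.X ^ N - Polynomial.C (algebraMap K k b) : Polynomial k).natDegree :=
          Polynomial.natDegree_le_of_dvd (minpoly.dvd k y hroot) hne
      _ = N := Polynomial.natDegree_X_pow_sub_C
  have hlogNN : Real.log N ≤ Z := by
    refine le_trans (Real.log_le_log (by exact_mod_cast hN) ?_) hlogN
    have : (0 : ℝ) ≤ N := Nat.cast_nonneg _
    linarith
  have hlogn : Real.log n ≤ Z := by
    refine le_trans (Real.log_le_log (by exact_mod_cast hn1) ?_) hlogNN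
    exact_mod_cast hnN
  -- heights
  have hhy : (N : ℝ) * absLogHeight₁ y = B := by
    have h1 : absLogHeight₁ (y ^ N) = N * absLogHeight₁ y := by
      have := absHeight_zpow y (N : ℤ)
      simpa using this
    rw [← h1, hy, hBdef]
    exact Pool.Agent.H4.RR.absLogHeight_eq K L (algebraMap K L) b
  have hhy0 : 0 ≤ absLogHeight₁ y := absHeight_nonneg y
  have hhα0 : 0 ≤ absLogHeight₁ α := absHeight_nonneg α
  have hhyn : absLogHeight₁ y * n ≤ B := by
    rw [← hhy, mul_comm]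
    exact mul_le_mul_of_nonneg_right (by exact_mod_cast hnN) hhy0
  -- primes
  obtain ⟨m, Q, f, 𝔭, p, hm, hpinj, hf, hQ2, hQZ, hp⟩ := hZ₅ Z (by omega) N hN hlogN
  have hQZ' : Q ≤ Z ^ (18 * g) := by rw [hgdef]; exact hQZ
  have hQR : (Q : ℝ) ≤ (Z : ℝ) ^ (18 * g) := by exact_mod_cast hQZ'
  have hQ0 : (0 : ℝ) < Q := by exact_mod_cast (by omega : 0 < Q)
  have hZ0 : (0 : ℝ) < Z := by exact_mod_cast (by omega : 0 < Z)
  have hsmall : (d : ℝ) * absLogHeight₁ α ≤
      1 / ((Q : ℝ) * ((Q : ℝ) ^ 3 * (Z : ℝ) ^ (18 * g + 20))) := by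
    refine hlt.le.trans ?_
    apply one_div_le_one_div_of_le (by positivity)
    calc (Q : ℝ) * ((Q : ℝ) ^ 3 * (Z : ℝ) ^ (18 * g + 20)) = (Q : ℝ) ^ 4 * (Z : ℝ) ^ (18 * g + 20) := by
          ring
      _ ≤ ((Z : ℝ) ^ (18 * g)) ^ 4 * (Z : ℝ) ^ (18 * g + 20) := by gcongr
      _ = (Z : ℝ) ^ (90 * g + 20) := by
          rw [← pow_mul, ← pow_add]
          congr 1
          ring
  have hqdef : ∀ t, nrm (𝔭 t) = p t ^ f := fun t => (hp t).2.2.1
  have hq2 : ∀ t, 2 ≤ nrm (𝔭 t) := fun t => nrm_pos (𝔭 t)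
  have hcop : Pairwise fun s t => Nat.Coprime (nrm (𝔭 s)) (nrm (𝔭 t)) := by
    intro s t hst
    simp only [hqdef]
    exact Nat.Coprime.pow _ _ ((Nat.coprime_primes (hp s).1 (hp t).1).2 fun h => hst (hpinj h))
  have hqN : ∀ t, Nat.Coprime (nrm (𝔭 t)) N := by
    intro t
    rw [hqdef]
    exact Nat.Coprime.pow_left _ (((hp t).1.coprime_iff_not_dvd).2 (hp t).2.2.2.1)
  have h𝔭inj : Function.Injective 𝔭 := by
    intro s t hst
    by_contra hne
    have h1 : ((p s : ℕ) : 𝓞 K) ∈ (𝔭 t).asIdeal := hst ▸ (hp s).2.1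
    have h2 : ((p t : ℕ) : 𝓞 K) ∈ (𝔭 t).asIdeal := (hp t).2.1
    have hco : Nat.Coprime (p s) (p t) :=
      (Nat.coprime_primes (hp s).1 (hp t).1).2 fun h => hne (hpinj h)
    have hco' : IsCoprime ((p s : ℕ) : 𝓞 K) ((p t : ℕ) : 𝓞 K) := by
      have h3 := (Nat.isCoprime_iff_coprime.2 hco).map (Int.castRingHom (𝓞 K))
      simpa using h3
    obtain ⟨a, c, hac⟩ := hco'
    apply (𝔭 t).isPrime.ne_top
    rw [Ideal.eq_top_iff_one, ← hac]
    exact Ideal.add_mem _ (Ideal.mul_mem_left _ _ h1) (Ideal.mul_mem_left _ _ h2)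
  have hN𝔭 : ∀ t, (N : 𝓞 K) ∉ (𝔭 t).asIdeal := by
    intro t hmem
    have h2 : ((p t : ℕ) : 𝓞 K) ∈ (𝔭 t).asIdeal := (hp t).2.1
    have hco : Nat.Coprime N (p t) := (((hp t).1.coprime_iff_not_dvd).2 (hp t).2.2.2.1).symm
    have hco' : IsCoprime ((N : ℕ) : 𝓞 K) ((p t : ℕ) : 𝓞 K) := by
      have h3 := (Nat.isCoprime_iff_coprime.2 hco).map (Int.castRingHom (𝓞 K))
      simpa using h3
    obtain ⟨a, c, hac⟩ := hco'
    apply (𝔭 t).isPrime.ne_top
    rw [Ideal.eq_top_iff_one, ← hac]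
    exact Ideal.add_mem _ (Ideal.mul_mem_left _ _ hmem) (Ideal.mul_mem_left _ _ h2)
  obtain ⟨F, hFD, hFζ⟩ := fd_exists N hN ζ y hζ b hy 𝔭 h𝔭inj
    (fun t => ⟨p t, f, (hp t).1, hf, (hp t).2.1, hqdef t⟩) hN𝔭 (fun t => (hp t).2.2.2.2.1)
  rw [← hk, ← hEdef] at hFD
  -- parameters
  obtain ⟨M, hM⟩ : ∃ M, M = n / Q := ⟨_, rfl⟩
  obtain ⟨W, hW⟩ : ∃ W, W = d * (Q ^ 3 * Z ^ (18 * g + 20)) := ⟨_, rfl⟩
  have hRI := rank_ineq hFD M W (Z ^ 2) α 2 Q (by norm_num) (fun t => by exact_mod_cast hq2 t)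
    (fun t => by exact_mod_cast (hp t).2.2.2.2.2.1) (by exact_mod_cast hQ2)
  have hrA := rkA_le k E y α hE M W (Z ^ 2)
  rw [← hn, ← hd] at hrA
  have hr1 : rkAB k M W (Z ^ 2) y α F (fun t => nrm (𝔭 t)) ≤ n * d * Z ^ 6 := by
    refine hZ₁ Z (by omega) n d Q (rkA k M W (Z ^ 2) y α)
      (rkAB k M W (Z ^ 2) y α F (fun t => nrm (𝔭 t))) M W (absLogHeight₁ α) (absLogHeight₁ y) 2
      hn1 hd1 hQ2 hQZ' hlogn hlogd hM hW hhy0 hhα0 hhyn (le_refl _) (by exact_mod_cast hQ2)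
      hsmall hrA (rkA_le_rkAB k M W (Z ^ 2) y α F _) (rkAB_le k M W (Z ^ 2) y α F _) ?_
    rw [hgdef]
    exact hRI
  have hWbig : 2 * ((n * d * Z ^ 6) / (M + 1) + d) + 4 ≤ W := by
    rw [hM, hW]
    exact numB_b g Z n d Q hZ4 hn1 hd1 hQ2
  have hcf := core_f N hN ζ y hζ b hb hb' hy α hα F (fun t => nrm (𝔭 t)) hqN hq2 hcop M W (Z ^ 2)
    (n * d * Z ^ 6)
  rw [← hk, ← hEdef, ← hn, ← hd] at hcf
  obtain ⟨fp, hf0, hfX, hfY, G, E₁, E₂, hG, hGev, hE₁, hE₂⟩ := hcf hr1 hWbig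
  -- f₀
  obtain ⟨ha, hab⟩ := numB_c Z n d Q hZ4 hn1 hd1 hQ2
  obtain ⟨f₀, hf₀, hf₀ev, hf₀Y, hf₀X, hf₀d⟩ := f0_exists k E y α hE
    (n / (4 * Q ^ 2 * Z ^ 6)) (d * (4 * Q ^ 2 * Z ^ 6)) (by rw [← hn]; exact ha)
    (by rw [← hn, ← hd]; exact hab)
  rw [← hd] at hf₀d
  have hdiv : ∀ t : {t // t ∈ G}, ∃ σ : AlgebraicClosure L ≃+* AlgebraicClosure L,
      mp (algebraMap k (AlgebraicClosure L)) f₀ ∣
        ex (nrm (𝔭 t.1)) (mp ((σ : AlgebraicClosure L ≃+* AlgebraicClosure L) :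
          AlgebraicClosure L →+* AlgebraicClosure L)
          (mp (algebraMap k (AlgebraicClosure L)) fp)) := by
    intro t
    refine core_div k E hFD.stabk y α hE (F t.1) (nrm (𝔭 t.1)) (by have := hq2 t.1; omega) f₀ fp
      hf₀ (by rw [← hd]; exact hf₀d) hf₀ev hf0 (hGev t.1 t.2) ?_
    rw [← hn, ← hd]
    refine numB_d g Z n d Q (nrm (𝔭 t.1)) (dX f₀) (dY f₀) (dX fp) (dY fp) hZ4 hn1 hd1 hQ2
      (hp t.1).2.2.2.2.2.1 hf₀X hf₀Y ?_ ?_
    · rw [← hM]; exact hfX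
    · rw [← hW]; exact hfY
  choose σ hσ using hdiv
  have hXpos : 0 < dX f₀ := lt_of_lt_of_le hd1 hf₀d
  have hinjL : Function.Injective (algebraMap L (AlgebraicClosure L)) :=
    (algebraMap L (AlgebraicClosure L)).injective
  have : Algebra.IsAlgebraic k L := inferInstance
  have : Algebra.IsAlgebraic k (AlgebraicClosure L) := Algebra.IsAlgebraic.trans k L _
  have hgeo := geo (k := k) (Ω := AlgebraicClosure L) f₀ hf₀ hXpos
    (algebraMap L (AlgebraicClosure L) y) (algebraMap L (AlgebraicClosure L) α)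
    (fun h => hy0 ((map_eq_zero _).1 h)) (fun h => hα ((map_eq_zero _).1 h))
    (by
      have h1 := ev_mp (RingHom.id k) (algebraMap L (AlgebraicClosure L))
        (fun c => by rw [RingHom.id_apply, ← IsScalarTower.algebraMap_apply]) y α f₀
      rw [mp_id, hf₀ev, map_zero] at h1
      exact h1.symm)
    (fun t : {t // t ∈ G} => nrm (𝔭 t.1)) (fun t => hq2 t.1)
    (fun s t hst => hcop fun h => hst (Subtype.ext h)) σ fp hf0 hσ
  have hcardG : m ≤ G.card + E₁.card + E₂.card := by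
    have h1 : (Finset.univ : Finset (Fin m)).card ≤ G.card + (E₁ ∪ E₂).card := by
      rw [hG]
      exact Finset.card_le_card_sdiff_add_card
    have h2 := Finset.card_union_le E₁ E₂
    simp only [Finset.card_univ, Fintype.card_fin] at h1
    omega
  have hy₀n : dY f₀ ≤ n := hf₀Y.trans (Nat.div_le_self _ _)
  have hE₂' : (E₂.card : ℝ) * ((n : ℝ) * d) ≤
      ((n * d * Z ^ 6 : ℕ) : ℝ) * (1 + Real.log ((d * (Q ^ 3 * Z ^ (18 * g + 20)) : ℕ) : ℝ)) := by
    rw [← hW]; exact hE₂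
  rcases hgeo with ⟨Bad, hBad, hsum⟩ | ⟨u, v, hv, huv⟩
  · -- Case I
    have hcount := hZ₂ Z (by omega) n d Q m E₁.card E₂.card Bad.card (dX f₀) (dY f₀) hn1 hd1 hQ2
      hQZ' hlogn hlogd hm hE₁ hE₂' hBad hf₀X hy₀n
    have hcard : (Finset.univ \ Bad).card + Bad.card = G.card := by
      rw [Finset.card_sdiff_add_card_eq_card (Finset.subset_univ _), Finset.card_univ,
        Fintype.card_coe]
    have hbound : (Finset.univ \ Bad).card * (Q * d) ≤ 4 ^ g * (d * (Q * Z ^ 6)) := by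
      calc (Finset.univ \ Bad).card * (Q * d)
          = ∑ t ∈ Finset.univ \ Bad, Q * d := by rw [Finset.sum_const, smul_eq_mul]
        _ ≤ ∑ t ∈ Finset.univ \ Bad, 4 ^ g * (nrm (𝔭 t.1) * dX f₀) := by
            refine Finset.sum_le_sum fun t _ => ?_
            have h1 : Q ≤ 4 ^ g * nrm (𝔭 t.1) := by
              rw [hgdef]; exact (hp t.1).2.2.2.2.2.2
            calc Q * d ≤ (4 ^ g * nrm (𝔭 t.1)) * dX f₀ := Nat.mul_le_mul h1 hf₀d
              _ = _ := by ring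
        _ = 4 ^ g * ∑ t ∈ Finset.univ \ Bad, nrm (𝔭 t.1) * dX f₀ := by rw [Finset.mul_sum]
        _ ≤ 4 ^ g * dX fp := Nat.mul_le_mul_left _ hsum
        _ ≤ 4 ^ g * (d * (Q * Z ^ 6)) := by
            refine Nat.mul_le_mul_left _ (hfX.trans ?_)
            rw [hM]
            exact numB_a g Z n d Q hZ4 hn1 hd1 hQ2
    have hle : (Finset.univ \ Bad).card ≤ 4 ^ g * Z ^ 6 := by
      have hpos : 0 < Q * d := Nat.mul_pos (by omega) hd1
      refine Nat.le_of_mul_le_mul_right ?_ hpos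
      calc (Finset.univ \ Bad).card * (Q * d) ≤ 4 ^ g * (d * (Q * Z ^ 6)) := hbound
        _ = 4 ^ g * Z ^ 6 * (Q * d) := by ring
    omega
  · -- Case II
    obtain ⟨ρ₀, hρ₀⟩ : ∃ ρ₀ : L, ρ₀ = α ^ v * y ^ u := ⟨_, rfl⟩
    have hρ0 : ρ₀ ≠ 0 := by
      rw [hρ₀]
      exact mul_ne_zero (pow_ne_zero _ hα) (zpow_ne_zero _ hy0)
    have himg : algebraMap L (AlgebraicClosure L) α ^ v * algebraMap L (AlgebraicClosure L) y ^ u =
        algebraMap L (AlgebraicClosure L) ρ₀ := by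
      rw [hρ₀, map_mul, map_pow, map_zpow₀]
    have hdeg : ∀ t : {t // t ∈ G},
        (minpoly k ((algebraMap L (AlgebraicClosure L) α ^ v *
          algebraMap L (AlgebraicClosure L) y ^ u) ^ nrm (𝔭 t.1))).natDegree =
        (minpoly k (ρ₀ ^ nrm (𝔭 t.1))).natDegree := by
      intro t
      rw [himg, ← map_pow, minpoly.algebraMap_eq hinjL]
    obtain ⟨s, hs⟩ : ∃ s, s = (minpoly k ρ₀).natDegree := ⟨_, rfl⟩
    have hs1 : 1 ≤ s := by
      rw [hs]
      exact minpoly.natDegree_pos (Algebra.IsIntegral.isIntegral ρ₀)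
    have hsnd : s ≤ n * d := by
      rw [hs, hρ₀, hn, hd]
      exact deg_rho_le k E y α hE v u
    have hlogs : Real.log s ≤ 2 * Z := by
      have h1 : Real.log s ≤ Real.log ((n : ℝ) * d) :=
        Real.log_le_log (by exact_mod_cast hs1) (by exact_mod_cast hsnd)
      rw [Real.log_mul (by positivity) (by positivity)] at h1
      linarith
    -- a good prime
    obtain ⟨t, htG, hts⟩ : ∃ t, ∃ ht : t ∈ G, (minpoly k (ρ₀ ^ nrm (𝔭 t))).natDegree = s := by
      by_contra hno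
      push Not at hno
      have hinjq : Function.Injective fun t : Fin m => nrm (𝔭 t) := by
        intro a c hac
        by_contra hne
        have h1 : Nat.Coprime (nrm (𝔭 a)) (nrm (𝔭 c)) := hcop hne
        simp only at hac
        rw [hac, Nat.coprime_self] at h1
        have := hq2 c
        omega
      have hdrop := drop_lemma k ρ₀ hρ0 (G.image fun t => nrm (𝔭 t))
        (by
          intro q hq
          obtain ⟨t, -, rfl⟩ := Finset.mem_image.1 hq
          have := hq2 t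
          omega)
        (by
          intro a ha c hc hne
          obtain ⟨t, -, rfl⟩ := Finset.mem_image.1 (Finset.mem_coe.1 ha)
          obtain ⟨t', -, rfl⟩ := Finset.mem_image.1 (Finset.mem_coe.1 hc)
          exact hcop fun h => hne (by rw [h]))
        (by
          intro q hq
          obtain ⟨t, ht, rfl⟩ := Finset.mem_image.1 hq
          rw [← hs]
          exact hno t ht)
      rw [Finset.card_image_of_injective _ hinjq, ← hs] at hdrop
      have hG3 : G.card ≤ 3 * Z := numC_log Z s G.card hs1 hlogs hdrop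
      have hcount := hZ₂ Z (by omega) n d Q m E₁.card E₂.card 0 (dX f₀) (dY f₀) hn1 hd1 hQ2
        hQZ' hlogn hlogd hm hE₁ hE₂' (by
          have : 1 ≤ (2 * ((dX f₀ + 1) * (dY f₀ + 1))) ^ 2 := Nat.one_le_pow _ _ (by positivity)
          simpa using this) hf₀X hy₀n
      omega
    obtain ⟨h1, h2⟩ := huv ⟨t, htG⟩
    rw [hdeg ⟨t, htG⟩, hts] at h1 h2
    have hend := hZ₃ Z (by omega) n d Q s v u.natAbs (absLogHeight₁ α) (absLogHeight₁ y) hn1 hd1
      hQ2 hhα0 hhy0 hhyn hsmall (by rw [← hM]; exact h1.trans hfX) (by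
        rw [← hW]
        exact (Nat.mul_le_mul_right W h2).trans hfY)
    have hρtors : ∀ j : ℕ, 1 ≤ j → ρ₀ ^ j ≠ 1 := by
      intro j hj h
      rw [hρ₀] at h
      have h3 : (α ^ v * y ^ u) ^ (j * N) = 1 := by rw [pow_mul, h, one_pow]
      have h4 : α ^ (v * j * N) * (algebraMap K L b) ^ (u * j) = 1 := by
        rw [← h3, mul_pow, ← pow_mul, ← hy]
        congr 1
        · congr 1
          ring
        · rw [← zpow_natCast (y ^ u) (j * N), ← zpow_mul, ← zpow_natCast y N, ← zpow_mul]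
          congr 1
          push_cast
          ring
      refine hsat (v * j * N) (Nat.mul_pos (Nat.mul_pos (by omega) (by omega)) (by omega))
        (-(u * j)) ?_
      rw [zpow_neg]
      exact eq_inv_of_mul_eq_one_left h4
    have hR0 := hZ₄ (2 * Z) (by omega) L N ζ ρ₀ hN hζ hρ0 hρtors (by
      push_cast
      linarith) (by
      rw [← hk, ← hs]
      push_cast
      exact hlogs)
    rw [← hk, ← hs, ← hgdef] at hR0
    have hh : absLogHeight₁ ρ₀ ≤ (v : ℝ) * absLogHeight₁ α + (u.natAbs : ℝ) * absLogHeight₁ y := by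
      rw [hρ₀]
      refine (absHeight_mul _ _).trans ?_
      have e1 : absLogHeight₁ (α ^ v) = v * absLogHeight₁ α := by
        have := absHeight_zpow α (v : ℤ)
        simpa using this
      rw [e1, absHeight_zpow y u]
      have e2 : |(u : ℝ)| = (u.natAbs : ℝ) := by
        rw [Nat.cast_natAbs, Int.cast_abs]
      rw [e2]
    have : (s : ℝ) * absLogHeight₁ ρ₀ ≤
        (s : ℝ) * ((v : ℝ) * absLogHeight₁ α + (u.natAbs : ℝ) * absLogHeight₁ y) :=
      mul_le_mul_of_nonneg_left hh (Nat.cast_nonneg _)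
    linarith

end Pool.Agent.H72.PL
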