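import Mathlib

/-!
# Definitions (MP_187c26_nt, rank one groups, all primes, modules H72 PL)

Paper proof: proposal 65 (table `proposals`).

`BP k = k[Y][X]`: bivariate polynomials, inner variable `Y` (it will be evaluated at the radical
`y = b^(1/N)`), outer variable `X` (it will be evaluated at the number `α` whose height is studied).
-/

set_option autoImplicit false

open Polynomial NumberField IsDedekindDomain

namespace Pool.Agent.H72.PL

/-- bivariate polynomials, inner variable `Y`, outer variable `X` -/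
abbrev BP (k : Type) [CommRing k] : Type := Polynomial (Polynomial k)

section

variable {k : Type} [CommRing k]

/-- degree in `X` (outer variable) -/
noncomputable def dX (G : BP k) : ℕ := G.natDegree

/-- degree in `Y` (inner variable) -/
noncomputable def dY (G : BP k) : ℕ := (Polynomial.Bivariate.swap G).natDegree

/-- evaluation at `Y = y`, `X = x` in a `k`-algebra `L` -/
noncomputable abbrev ev (k : Type) [CommRing k] {L : Type} [CommRing L] [Algebra k L] (y x : L) :
    BP k →ₐ[k] L :=
  Polynomial.aevalAeval y x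

/-- polynomials of degree at most `M` in `Y` and at most `W` in `X` -/
noncomputable def Box (k : Type) [CommRing k] (M W : ℕ) : Submodule k (BP k) where
  carrier := {G | ∀ a b : ℕ, M < a ∨ W < b → (G.coeff b).coeff a = 0}
  zero_mem' := by intro a b _; simp
  add_mem' := by
    intro G H hG hH a b hab
    rw [coeff_add, coeff_add, hG a b hab, hH a b hab, add_zero]
  smul_mem' := by
    intro c G hG a b hab
    rw [coeff_smul, coeff_smul, hG a b hab, smul_zero]

/-- an ideal, cut down to the box -/
noncomputable def IB (I : Ideal (BP k)) (M W : ℕ) : Submodule k (BP k) :=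
  I.restrictScalars k ⊓ Box k M W

/-- apply a ring homomorphism to the coefficients -/
noncomputable def mp {k' : Type} [CommRing k'] (φ : k →+* k') : BP k →+* BP k' :=
  Polynomial.mapRingHom (Polynomial.mapRingHom φ)

/-- the substitution `Y ↦ Y^q`, `X ↦ X^q` -/
noncomputable def ex (q : ℕ) : BP k →+* BP k :=
  (Polynomial.expand (Polynomial k) q).toRingHom.comp
    (Polynomial.mapRingHom (Polynomial.expand k q).toRingHom)

/-- the substitution `Y ↦ ξ₁ Y`, `X ↦ ξ₂ X` -/
noncomputable def tw (ξ : k × k) : BP k →+* BP k :=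
  (Polynomial.compRingHom (C (C ξ.2) * X : Polynomial (Polynomial k))).comp
    (Polynomial.mapRingHom (Polynomial.compRingHom (C ξ.1 * X : Polynomial k)))

/-- the binomial `X^v Y^(u⁺) - ρ Y^(u⁻)` -/
noncomputable def bin (u : ℤ) (v : ℕ) (ρ : k) : BP k :=
  X ^ v * C (X ^ u.toNat) - C (C ρ * X ^ (-u).toNat)

/-- the matrix of the coefficients (with respect to `X`) of a family of polynomials -/
noncomputable def cmat {m : ℕ} (g : Fin m → BP k) : Matrix (Fin m) (Fin m) (Polynomial k) :=
  Matrix.of fun i j => (g i).coeff j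

end

section Frac

variable (k : Type) [Field k]

/-- the field `k(Y)` -/
abbrev Fr : Type := FractionRing (Polynomial k)

variable {k}

/-- `k[Y][X] → k(Y)[X]` -/
noncomputable def toF : BP k →+* Polynomial (Fr k) :=
  Polynomial.mapRingHom (algebraMap (Polynomial k) (Fr k))

/-- the `k(Y)`-span of a set of polynomials -/
noncomputable def spF (V : Submodule k (BP k)) : Submodule (Fr k) (Polynomial (Fr k)) :=
  Submodule.span (Fr k) (toF '' (V : Set (BP k)))

end Frac

section Grid

/-- the ideal of the polynomials over `k` which vanish at all points `P t` -/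
noncomputable def vanI (k : Type) [Field k] {L : Type} [Field L] [Algebra k L] {ι : Type}
    (P : ι → L × L) : Ideal (BP k) :=
  ⨅ t, RingHom.ker (ev k (P t).1 (P t).2 : BP k →+* L)

/-- `S` is a set of `n` second coordinates (values of `Y`), `R η` a set of `d` values of `X` above
`η ∈ S`; every polynomial over `k` vanishing at `(y, x)` vanishes at all these points. -/
structure IsGrid (k : Type) [Field k] {L : Type} [Field L] [Algebra k L] (y x : L)
    (S : Finset L) (R : L → Finset L) (n d : ℕ) : Prop where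
  cardS : S.card = n
  cardR : ∀ η ∈ S, (R η).card = d
  conj : ∀ η ∈ S, ∀ ξ ∈ R η, ∀ G : BP k, ev k y x G = 0 → ev k η ξ G = 0

end Grid

section Rows

variable {L : Type} [Field L]

/-- the row of the divided derivative `∂_Y^i ∂_X^l` at the point `(y, x)`, in the monomials
`Y^a X^b`, `a ≤ M`, `b ≤ W` -/
def jrow (M W : ℕ) (y x : L) (i l : ℕ) : Fin (M + 1) × Fin (W + 1) → L := fun j =>
  ((j.1 : ℕ).choose i : L) * ((j.2 : ℕ).choose l : L) * y ^ ((j.1 : ℕ) - i) * x ^ ((j.2 : ℕ) - l)

/-- value of a row on a coefficient vector -/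
def dot {J : Type} [Fintype J] (r G : J → L) : L := ∑ j, r j * G j

/-- indices of the derivatives of order less than `T` -/
abbrev TI (T : ℕ) : Type := {p : Fin T × Fin T // (p.1 : ℕ) + (p.2 : ℕ) < T}

end Rows

section RowSystems

variable {K L : Type} [Field K] [Field L] [Algebra K L]

/-- the rows `A`: all divided derivatives of order less than `T` at all `(σ y, σ α)`,
`σ ∈ Gal(L/k)` -/
def arow (k : IntermediateField K L) (M W T : ℕ) (y α : L) :
    k.fixingSubgroup × TI T → Fin (M + 1) × Fin (W + 1) → L :=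
  fun s => jrow M W (s.1.1 y) (s.1.1 α) s.2.1.1 s.2.1.2

/-- the rows `B`: values at the points `((σ F_t⁻¹ y)^(q_t), (σ F_t⁻¹ α)^(q_t))`,
`σ ∈ Gal(L/k)` -/
def brow (k : IntermediateField K L) {ι : Type} (M W : ℕ) (y α : L) (F : ι → (L ≃ₐ[K] L))
    (q : ι → ℕ) : k.fixingSubgroup × ι → Fin (M + 1) × Fin (W + 1) → L :=
  fun s => jrow M W ((s.1.1 ((F s.2).symm y)) ^ q s.2) ((s.1.1 ((F s.2).symm α)) ^ q s.2) 0 0

/-- rank of the rows `A` -/
noncomputable def rkA (k : IntermediateField K L) (M W T : ℕ) (y α : L) : ℕ :=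
  Module.finrank L (Submodule.span L (Set.range (arow k M W T y α)))

/-- rank of the rows `A` and `B` together -/
noncomputable def rkAB (k : IntermediateField K L) {ι : Type} (M W T : ℕ) (y α : L)
    (F : ι → (L ≃ₐ[K] L)) (q : ι → ℕ) : ℕ :=
  Module.finrank L (Submodule.span L (Set.range (arow k M W T y α) ∪
    Set.range (brow k M W y α F q)))

end RowSystems

section Places

variable {K L : Type} [Field K] [NumberField K] [Field L] [NumberField L] [Algebra K L]

/-- the extension of the prime `𝔭` of `K` to `L` -/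
noncomputable def pL (L : Type) [Field L] [NumberField L] [Algebra K L]
    (𝔭 : HeightOneSpectrum (𝓞 K)) : Ideal (𝓞 L) :=
  𝔭.asIdeal.map (algebraMap (𝓞 K) (𝓞 L))

/-- the norm of the prime `𝔭` -/
noncomputable def nrm (𝔭 : HeightOneSpectrum (𝓞 K)) : ℕ := Ideal.absNorm 𝔭.asIdeal

/-- `‖π‖_w` for a local generator `π` of `𝔭`, i.e. `N(w)^(-e)` where `e` is the multiplicity of `w`
in `𝔭 𝓞_L`; it is `1` if `w` does not divide `𝔭` -/
noncomputable def epsw (𝔭 : HeightOneSpectrum (𝓞 K)) (w : FinitePlace L) : ℝ :=
  ((Ideal.absNorm w.maximalIdeal.asIdeal : ℝ)⁻¹) ^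
    multiplicity w.maximalIdeal.asIdeal (pL L 𝔭)

/-- `w` lies above `𝔭` -/
def Above (𝔭 : HeightOneSpectrum (𝓞 K)) (w : FinitePlace L) : Prop :=
  pL L 𝔭 ≤ w.maximalIdeal.asIdeal

/-- `F` behaves as a Frobenius automorphism at `w | 𝔭`, with good approximation on `E` -/
structure FrobAt (E : IntermediateField K L) (𝔭 : HeightOneSpectrum (𝓞 K)) (w : FinitePlace L)
    (F : L ≃ₐ[K] L) : Prop where
  iso : ∀ z : L, w (F z) = w z
  close : ∀ z ∈ E, w z ≤ 1 → w (F z - z ^ nrm 𝔭) ≤ epsw 𝔭 w

end Places

end Pool.Agent.H72.PL
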