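import Pool.Agent.H72.PL.EpsB

/-!
# Module Eps: the numbers `epsw` (paper proof: proposal 65, section 1)

`epsw 𝔭 w = N(w)^(-e)`, `e = multiplicity of w in 𝔭 𝓞_L` (`pL L 𝔭 ≠ ⊥`: it contains the image of a nonzero
element, so the multiplicity is finite).
* `epsw_prod`: `∏ᶠ w, epsw 𝔭 w = (N(𝔭 𝓞_L))⁻¹` (`FinitePlace.finprod_finitePlace_pow_multiplicity`, map
  `Ideal.absNorm`, inverse; see the proof of `absNorm_mul_finprod_finitePlace_eq_one` in
  Mathlib `NumberTheory/Height/NumberField.lean`) and `N(𝔭 𝓞_L) = N(𝔭)^[L:K]` (`Ideal.absNorm_algebraMap`).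
* `epsw_bound`: for `z ∈ pL L 𝔭`: `w z ≤ epsw 𝔭 w` (`FinitePlace.apply_mul_absNorm_pow_eq_one`:
  `w z * N(w)^(mult of w in (z)) = 1` and `(z) ≤ pL`, so the multiplicity in `(z)` is at least `e`).
* `epsw_of_not_above`: multiplicity zero.
-/

set_option autoImplicit false

open NumberField IsDedekindDomain Module

namespace Pool.Agent.H72.PL

variable {K L : Type} [Field K] [NumberField K] [Field L] [NumberField L] [Algebra K L]

theorem one_lt_nrmw (w : FinitePlace L) : 1 < Ideal.absNorm w.maximalIdeal.asIdeal :=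
  NumberField.HeightOneSpectrum.one_lt_absNorm _

theorem pL_ne_bot (𝔭 : HeightOneSpectrum (𝓞 K)) : pL L 𝔭 ≠ ⊥ := by
  intro h
  have h1 := (Ideal.map_eq_bot_iff_of_injective
    (FaithfulSMul.algebraMap_injective (𝓞 K) (𝓞 L))).1 h
  exact 𝔭.ne_bot h1

theorem epsw_pos (𝔭 : HeightOneSpectrum (𝓞 K)) (w : FinitePlace L) : 0 < epsw 𝔭 w := by
  have h := one_lt_nrmw w
  have h' : (0 : ℝ) < Ideal.absNorm w.maximalIdeal.asIdeal := by exact_mod_cast (by omega)
  exact pow_pos (inv_pos.2 h') _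

theorem epsw_le_one (𝔭 : HeightOneSpectrum (𝓞 K)) (w : FinitePlace L) : epsw 𝔭 w ≤ 1 := by
  have h := one_lt_nrmw w
  have h' : (1 : ℝ) ≤ Ideal.absNorm w.maximalIdeal.asIdeal := by exact_mod_cast h.le
  exact pow_le_one₀ (inv_nonneg.2 (by linarith)) (inv_le_one_of_one_le₀ h')

theorem epsw_of_not_above (𝔭 : HeightOneSpectrum (𝓞 K)) (w : FinitePlace L)
    (h : ¬ Above 𝔭 w) : epsw 𝔭 w = 1 := by
  rw [epsw, multiplicity_eq_zero.2, pow_zero]
  rwa [Ideal.dvd_iff_le]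

theorem epsw_finite (𝔭 : HeightOneSpectrum (𝓞 K)) :
    (Function.mulSupport fun w : FinitePlace L => epsw 𝔭 w).Finite :=
  FinitePlace.hasFiniteMulSupport_fun_pow_multiplicity (pL_ne_bot 𝔭)
    (fun I => ((Ideal.absNorm I : ℝ)⁻¹))

theorem epsw_prod (𝔭 : HeightOneSpectrum (𝓞 K)) :
    ∏ᶠ w : FinitePlace L, epsw 𝔭 w = ((nrm 𝔭 : ℝ)⁻¹) ^ finrank K L := by
  have h1 := FinitePlace.finprod_finitePlace_pow_multiplicity (pL_ne_bot (L := L) 𝔭)
  have h2 := congrArg Ideal.absNorm h1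
  rw [map_finprod _ (FinitePlace.hasFiniteMulSupport_fun_pow_multiplicity
    (pL_ne_bot (L := L) 𝔭) (·))] at h2
  have h3 : Ideal.absNorm (pL L 𝔭) = nrm 𝔭 ^ finrank K L := by
    rw [IsFractionRing.finrank_eq (𝓞 K) K (𝓞 L) L]
    exact Ideal.absNorm_algebraMap _ _ _
  rw [h3] at h2
  have h4 := congrArg (Nat.cast : ℕ → ℝ) h2
  rw [Nat.cast_finprod', Nat.cast_pow] at h4
  rw [inv_pow, ← h4, ← finprod_inv_distrib]
  refine finprod_congr fun w => ?_
  rw [epsw, map_pow, Nat.cast_pow, inv_pow]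

theorem epsw_bound (𝔭 : HeightOneSpectrum (𝓞 K)) (w : FinitePlace L) (z : 𝓞 L)
    (hz : z ∈ pL L 𝔭) : w (z : L) ≤ epsw 𝔭 w := by
  by_cases hz0 : z = 0
  · rw [hz0]
    simp only [map_zero]
    exact (epsw_pos 𝔭 w).le
  have h1 := FinitePlace.apply_mul_absNorm_pow_eq_one w hz0
  have hs : Ideal.span {z} ≠ ⊥ := mt Submodule.span_singleton_eq_bot.mp hz0
  have hle : Ideal.span {z} ≤ pL L 𝔭 := (Ideal.span_singleton_le_iff_mem _).2 hz
  have hmul := w.maximalIdeal.multiplicity_le_of_ideal_ge hle hs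
  have h := one_lt_nrmw w
  have h' : (1 : ℝ) ≤ Ideal.absNorm w.maximalIdeal.asIdeal := by exact_mod_cast h.le
  have h0 : (0 : ℝ) < Ideal.absNorm w.maximalIdeal.asIdeal := by linarith
  have h2 : w (z : L) = ((Ideal.absNorm w.maximalIdeal.asIdeal : ℝ)⁻¹) ^
      multiplicity w.maximalIdeal.asIdeal (Ideal.span {z}) := by
    rw [inv_pow]
    exact eq_inv_of_mul_eq_one_left h1
  rw [h2, epsw]
  exact pow_le_pow_of_le_one (inv_nonneg.2 h0.le) (inv_le_one_of_one_le₀ h') hmul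

end Pool.Agent.H72.PL
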