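import Pool.Agent.H72.PL.Defs

/-!
# Module EpsB: places above a prime (paper proof: proposal 65, section 1)

* `above_unique`: `pL 𝔭, pL 𝔭' ≤ w`: the contraction of `w` to `𝓞 K` is a prime containing both maximal
  ideals.
* `above_unit`: `𝔭.valuation K b = 1`: write `b = u/v` with `u, v ∈ 𝓞 K` not in `𝔭`
  (`IsDedekindDomain.HeightOneSpectrum.valuation..`, localization at `𝔭`:
  `exists_div_eq..`/`valuation_le_one → ∃ ...`; or: `w ∘ algebraMap K L` and the `𝔭`-adic absolute value are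
  equivalent) and images of elements of `𝓞 K` outside `𝔭 = w ∩ 𝓞 K` have `w`-absolute value `1`.
* `exists_above`: `pL L 𝔭 ≠ ⊤` (lying over, `Ideal.exists_ideal_over_prime_of_isIntegral` or
  `absNorm_algebraMap`), a maximal ideal containing it gives `w = FinitePlace.mk ..`.
-/

set_option autoImplicit false

open NumberField IsDedekindDomain Module

namespace Pool.Agent.H72.PL

variable {K L : Type} [Field K] [NumberField K] [Field L] [NumberField L] [Algebra K L]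

theorem above_comap (𝔭 : HeightOneSpectrum (𝓞 K)) (w : FinitePlace L) (h : Above 𝔭 w) :
    𝔭.asIdeal = w.maximalIdeal.asIdeal.comap (algebraMap (𝓞 K) (𝓞 L)) := by
  have hp : (w.maximalIdeal.asIdeal.comap (algebraMap (𝓞 K) (𝓞 L))).IsPrime :=
    Ideal.IsPrime.comap _
  exact 𝔭.isMaximal.eq_of_le hp.ne_top (Ideal.map_le_iff_le_comap.1 h)

theorem above_unique (𝔭 𝔭' : HeightOneSpectrum (𝓞 K)) (w : FinitePlace L) (h : Above 𝔭 w)
    (h' : Above 𝔭' w) : 𝔭 = 𝔭' := by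
  apply HeightOneSpectrum.ext
  rw [above_comap 𝔭 w h, above_comap 𝔭' w h']

theorem above_unit (𝔭 : HeightOneSpectrum (𝓞 K)) (w : FinitePlace L) (h : Above 𝔭 w) (b : K)
    (hb : 𝔭.valuation K b = 1) : w (algebraMap K L b) = 1 := by
  obtain ⟨n, d, hnd⟩ := 𝔭.exists_primeCompl_mul_eq_of_integer b hb.le
  have hd : 𝔭.valuation K (algebraMap (𝓞 K) K (d : 𝓞 K)) = 1 :=
    (𝔭.valuation_eq_one_iff_notMem (K := K)).2 d.2
  have hn : n ∉ 𝔭.asIdeal := by
    rw [← 𝔭.valuation_eq_one_iff_notMem (K := K), ← hnd, map_mul, hb, one_mul, hd]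
  have key : ∀ c : 𝓞 K, c ∉ 𝔭.asIdeal → w (algebraMap K L (algebraMap (𝓞 K) K c)) = 1 := by
    intro c hc
    have e : algebraMap K L (algebraMap (𝓞 K) K c) =
        algebraMap (𝓞 L) L (algebraMap (𝓞 K) (𝓞 L) c) := by
      rw [← IsScalarTower.algebraMap_apply (𝓞 K) K L, ← IsScalarTower.algebraMap_apply (𝓞 K) (𝓞 L) L]
    rw [e, ← FinitePlace.norm_embedding_eq w, FinitePlace.norm_eq_one_iff_notMem]
    intro hc'
    apply hc
    rw [above_comap 𝔭 w h]
    exact hc'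
  have h1 := key n hn
  rw [← hnd, map_mul, map_mul, key d d.2, mul_one] at h1
  exact h1

theorem nrm_pos (𝔭 : HeightOneSpectrum (𝓞 K)) : 2 ≤ nrm 𝔭 :=
  NumberField.HeightOneSpectrum.one_lt_absNorm 𝔭

theorem exists_above (𝔭 : HeightOneSpectrum (𝓞 K)) : ∃ w : FinitePlace L, Above 𝔭 w := by
  have hne : pL L 𝔭 ≠ ⊤ := by
    intro h
    have h1 : Ideal.absNorm (Ideal.map (algebraMap (𝓞 K) (𝓞 L)) 𝔭.asIdeal) =
        Ideal.absNorm 𝔭.asIdeal ^ finrank (𝓞 K) (𝓞 L) := Ideal.absNorm_algebraMap _ _ _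
    have h2 : Ideal.map (algebraMap (𝓞 K) (𝓞 L)) 𝔭.asIdeal = ⊤ := h
    rw [h2, Ideal.absNorm_top] at h1
    have h3 : 1 < Ideal.absNorm 𝔭.asIdeal := nrm_pos 𝔭
    have h4 : 0 < Module.finrank (𝓞 K) (𝓞 L) := by
      rw [← IsFractionRing.finrank_eq (𝓞 K) K (𝓞 L) L]
      have : FiniteDimensional K L := Module.Finite.of_restrictScalars_finite ℚ K L
      exact Module.finrank_pos
    have h5 := Nat.one_lt_pow h4.ne' h3
    omega
  obtain ⟨m, hm, hle⟩ := Ideal.exists_le_maximal _ hne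
  have hmb : m ≠ ⊥ := by
    intro hb
    rw [hb, le_bot_iff] at hle
    have h1 := (Ideal.map_eq_bot_iff_of_injective
      (FaithfulSMul.algebraMap_injective (𝓞 K) (𝓞 L))).1 hle
    exact 𝔭.ne_bot h1
  let v : HeightOneSpectrum (𝓞 L) := ⟨m, hm.isPrime, hmb⟩
  refine ⟨FinitePlace.mk v, ?_⟩
  rw [Above, FinitePlace.maximalIdeal_mk]
  exact hle

end Pool.Agent.H72.PL
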