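import Pool.Agent.H72.PL.Frob

/-!
# Module FD: Frobenius data for a family of primes (paper proof: proposal 65, sections 1, 3)

`FD` collects what the rank inequality needs.
`fd_exists`: for each `t` choose a place `w_t` above `𝔭 t` (`exists_above`) and let `F t` be the
automorphism of `frob_exists` at `w_t`. For any `w` above `𝔭 t` let `Fw` be the automorphism of
`frob_exists`: `Fw ζ = ζ^q = F t ζ`, so `Fw = F t` on `k = K(ζ)`. The rest: `unit_y` (for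
`σ y`, which also satisfies `(σ y)^N = b`), `stable_k`, `stable_E`.
`FD.comp` (proved below): subfamilies.
-/

set_option autoImplicit false

open NumberField IsDedekindDomain Module

namespace Pool.Agent.H72.PL

variable {K L : Type} [Field K] [NumberField K] [Field L] [NumberField L] [Algebra K L]

/-- Frobenius data for a family of primes -/
structure FD (k E : IntermediateField K L) (y : L) {ι : Type}
    (𝔭 : ι → HeightOneSpectrum (𝓞 K)) (F : ι → (L ≃ₐ[K] L)) : Prop where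
  inj : Function.Injective 𝔭
  prime : ∀ t, ∃ p f : ℕ, p.Prime ∧ 1 ≤ f ∧ (p : 𝓞 K) ∈ (𝔭 t).asIdeal ∧ nrm (𝔭 t) = p ^ f
  frob : ∀ t, ∀ w : FinitePlace L, Above (𝔭 t) w →
    ∃ Fw : L ≃ₐ[K] L, FrobAt E (𝔭 t) w Fw ∧ ∀ z ∈ k, Fw z = F t z
  unit : ∀ t, ∀ w : FinitePlace L, Above (𝔭 t) w → ∀ σ : L ≃ₐ[K] L, w (σ y) = 1
  stabk : ∀ σ : L ≃ₐ[K] L, ∀ z ∈ k, σ z ∈ k
  stabE : ∀ σ : L ≃ₐ[K] L, ∀ z ∈ E, σ z ∈ E
  yE : y ∈ E
  kE : k ≤ E

theorem FD.comp {k E : IntermediateField K L} {y : L} {ι : Type}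
    {𝔭 : ι → HeightOneSpectrum (𝓞 K)} {F : ι → (L ≃ₐ[K] L)} (h : FD k E y 𝔭 F) {ι' : Type}
    (e : ι' → ι) (he : Function.Injective e) :
    FD k E y (fun t => 𝔭 (e t)) (fun t => F (e t)) :=
  ⟨h.inj.comp he, fun t => h.prime (e t), fun t => h.frob (e t), fun t => h.unit (e t), h.stabk,
    h.stabE, h.yE, h.kE⟩

/-- one variable: a place-free version with `E = k`, `y = 1` -/
theorem FD.one {k E : IntermediateField K L} {y : L} {ι : Type}
    {𝔭 : ι → HeightOneSpectrum (𝓞 K)} {F : ι → (L ≃ₐ[K] L)} (h : FD k E y 𝔭 F) :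
    FD k k (1 : L) 𝔭 F := by
  refine ⟨h.inj, h.prime, ?_, ?_, h.stabk, h.stabk, k.one_mem, le_refl k⟩
  · intro t w hw
    obtain ⟨Fw, h1, h2⟩ := h.frob t w hw
    exact ⟨Fw, h1.mono h.kE, h2⟩
  · intro t w _ σ
    rw [map_one]
    exact map_one w.1

theorem fd_exists [IsGalois K L] (N : ℕ) (hN : 1 ≤ N) (ζ y : L) (hζ : IsPrimitiveRoot ζ N)
    (b : K) (hy : y ^ N = algebraMap K L b) {ι : Type} (𝔭 : ι → HeightOneSpectrum (𝓞 K))
    (hinj : Function.Injective 𝔭)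
    (hp : ∀ t, ∃ p f : ℕ, p.Prime ∧ 1 ≤ f ∧ (p : 𝓞 K) ∈ (𝔭 t).asIdeal ∧ nrm (𝔭 t) = p ^ f)
    (hN𝔭 : ∀ t, (N : 𝓞 K) ∉ (𝔭 t).asIdeal) (hb : ∀ t, (𝔭 t).valuation K b = 1) :
    ∃ F : ι → (L ≃ₐ[K] L), FD (IntermediateField.adjoin K {ζ})
      (IntermediateField.adjoin K {ζ, y}) y 𝔭 F ∧ ∀ t, F t ζ = ζ ^ nrm (𝔭 t) := by
  classical
  choose wt hwt using fun t => exists_above (L := L) (𝔭 t)
  choose F hF1 hF2 using fun t =>
    frob_exists N hN ζ y hζ b hy (𝔭 t) (hN𝔭 t) (hb t) (wt t) (hwt t)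
  refine ⟨F, ⟨hinj, hp, ?_, ?_, ?_, ?_, ?_, ?_⟩, hF2⟩
  · intro t w hw
    obtain ⟨Fw, h1, h2⟩ := frob_exists N hN ζ y hζ b hy (𝔭 t) (hN𝔭 t) (hb t) w hw
    refine ⟨Fw, h1, ?_⟩
    intro z hz
    induction hz using IntermediateField.adjoin_induction with
    | mem x hx =>
      rw [Set.mem_singleton_iff] at hx
      rw [hx, h2, hF2]
    | algebraMap x => rw [AlgEquiv.commutes, AlgEquiv.commutes]
    | add x y _ _ hx hy => rw [map_add, map_add, hx, hy]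
    | inv x _ hx => rw [map_inv₀, map_inv₀, hx]
    | mul x y _ _ hx hy => rw [map_mul, map_mul, hx, hy]
  · intro t w hw σ
    refine unit_y N hN (σ y) b ?_ (𝔭 t) (hb t) w hw
    rw [← map_pow, hy, AlgEquiv.commutes]
  · intro σ z hz
    exact stable_k N hN ζ hζ σ z hz
  · intro σ z hz
    exact stable_E N hN ζ y hζ b hy σ z hz
  · exact IntermediateField.subset_adjoin K _ (by simp)
  · exact IntermediateField.adjoin.mono K _ _ (by simp)

end Pool.Agent.H72.PL
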