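import Pool.Agent.H72.PL.Defs

/-!
# Module Gauss: Gauss' lemma for `k[Y][X] ⊂ k(Y)[X]`

`k[Y]` is a normalized gcd domain. Mathlib: `Polynomial.IsPrimitive.dvd_iff_fraction_map_dvd_fraction_map`
(for primitive polynomials), `IsPrimitive.irreducible_iff_irreducible_map_fraction_map`,
`Polynomial.content`, `Polynomial.primPart`, `IsLocalization.integerNormalization`.
1. `dvd_of_toF_dvd`: `f` primitive, `toF f ∣ toF g` ⟹ `f ∣ g` (`g = C (content) * primPart`; then the
   primitive case; `content ≠ 0` is a unit in `k(Y)`).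
2. `exists_primitive`: every nonzero `p ∈ k(Y)[X]` is a nonzero constant times `toF f`, `f` primitive.
3. `irr_primitive`: an irreducible `f` with `natDegree f > 0` is primitive.
4. `toF_coprime`: `f` irreducible, `dX f > 0`, `f ∤ g` ⟹ `toF f`, `toF g` are coprime (`toF f` is
   irreducible, and does not divide `toF g` by 1).
-/

set_option autoImplicit false

open Polynomial Module

namespace Pool.Agent.H72.PL

variable {k : Type} [Field k]

theorem toF_injective : Function.Injective (toF (k := k)) :=
  map_injective _ (IsFractionRing.injective (Polynomial k) (Fr k))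

theorem dvd_of_toF_dvd (f g : BP k) (hf : f.IsPrimitive) (h : toF f ∣ toF g) : f ∣ g := by
  classical
  let _ : NormalizedGCDMonoid (Polynomial k) := Nonempty.some inferInstance
  by_cases hg : g = 0
  · rw [hg]
    exact dvd_zero _
  have h1 := g.eq_C_content_mul_primPart
  have hc : g.content ≠ 0 := by
    rw [Ne, content_eq_zero_iff]
    exact hg
  have hc' : (algebraMap (Polynomial k) (Fr k)) g.content ≠ 0 := by
    intro h0
    exact hc (IsFractionRing.injective (Polynomial k) (Fr k) (by rw [h0, map_zero]))
  have hu : IsUnit (C ((algebraMap (Polynomial k) (Fr k)) g.content) : Polynomial (Fr k)) :=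
    isUnit_C.2 (isUnit_iff_ne_zero.2 hc')
  have h2 : toF g = C ((algebraMap (Polynomial k) (Fr k)) g.content) * toF g.primPart := by
    conv_lhs => rw [h1]
    unfold toF
    rw [map_mul, coe_mapRingHom, map_C]
  have h3 : toF f ∣ toF g.primPart := by
    rw [h2] at h
    exact (hu.dvd_mul_left).1 h
  have h4 : f ∣ g.primPart :=
    (IsPrimitive.dvd_iff_fraction_map_dvd_fraction_map (Fr k) hf).2 h3
  rw [h1]
  exact h4.mul_left _

theorem exists_primitive (p : Polynomial (Fr k)) (hp : p ≠ 0) :
    ∃ (f : BP k) (c : Fr k), f.IsPrimitive ∧ c ≠ 0 ∧ p = C c * toF f := by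
  classical
  let _ : NormalizedGCDMonoid (Polynomial k) := Nonempty.some inferInstance
  obtain ⟨b, hb, hmap⟩ := IsLocalization.integerNormalization_spec
    (nonZeroDivisors (Polynomial k)) p
  set q := IsLocalization.integerNormalization (nonZeroDivisors (Polynomial k)) p with hq
  have hinj := IsFractionRing.injective (Polynomial k) (Fr k)
  have hb0 : b ≠ 0 := nonZeroDivisors.ne_zero hb
  have hb' : (algebraMap (Polynomial k) (Fr k)) b ≠ 0 := by
    intro h0
    exact hb0 (hinj (by rw [h0, map_zero]))
  have hbp : b • p = C ((algebraMap (Polynomial k) (Fr k)) b) * p := by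
    rw [← smul_eq_C_mul, algebraMap_smul]
  have hq0 : q ≠ 0 := by
    intro h0
    rw [h0, Polynomial.map_zero, hbp] at hmap
    rcases mul_eq_zero.1 hmap.symm with h | h
    · exact hb' (C_eq_zero.1 h)
    · exact hp h
  have hc : q.content ≠ 0 := by
    rw [Ne, content_eq_zero_iff]
    exact hq0
  have hc' : (algebraMap (Polynomial k) (Fr k)) q.content ≠ 0 := by
    intro h0
    exact hc (hinj (by rw [h0, map_zero]))
  have h1 := q.eq_C_content_mul_primPart
  have h2 : q.map (algebraMap (Polynomial k) (Fr k)) =
      C ((algebraMap (Polynomial k) (Fr k)) q.content) * toF q.primPart := by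
    conv_lhs => rw [h1]
    unfold toF
    rw [Polynomial.map_mul, coe_mapRingHom, map_C]
  refine ⟨q.primPart, ((algebraMap (Polynomial k) (Fr k)) b)⁻¹ *
    (algebraMap (Polynomial k) (Fr k)) q.content, q.isPrimitive_primPart,
    mul_ne_zero (inv_ne_zero hb') hc', ?_⟩
  rw [C_mul, mul_assoc, ← h2, hmap, hbp, ← mul_assoc, ← C_mul, inv_mul_cancel₀ hb', C_1, one_mul]

theorem irr_primitive (f : BP k) (hf : Irreducible f) (hX : 0 < f.natDegree) : f.IsPrimitive :=
  hf.isPrimitive hX.ne'

theorem toF_coprime (f g : BP k) (hf : Irreducible f) (hX : 0 < f.natDegree) (h : ¬ f ∣ g) :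
    IsCoprime (toF f) (toF g) := by
  have hp := irr_primitive f hf hX
  have hirr : Irreducible (toF f) :=
    (hp.irreducible_iff_irreducible_map_fraction_map (K := Fr k)).1 hf
  exact (hirr.coprime_iff_not_dvd).2 fun hd => h (dvd_of_toF_dvd f g hp hd)

end Pool.Agent.H72.PL
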