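import Mathlib

/-!
# Module StructL: subspaces `U` of `F[X]` with `dim (U + X U) ≤ dim U + 1`

`U` a nonzero finite dimensional subspace of `F[X]`, `u = dim U`.
1. `dim (U + X U) ≥ u + 1`: `U` is not stable under `X` (take an element of `U` of maximal degree).
   (`dim (X U) = u`; if `dim (U + X U) ≤ u` then `X U ≤ U`, contradiction.)
2. If `dim (U + X U) = u + 1` then there is `f ≠ 0` with `U = {f h : deg h < u}`.
   Induction on `u`. `u = 1`: `U = F f`. `u ≥ 2`: `U₁ = {g ∈ U : X g ∈ U}` is isomorphic (via `X`) to
   `U ⊓ X U`, of dimension `u + u - (u + 1) = u - 1 ≥ 1` (`Submodule.finrank_sup_add_finrank_inf_eq`).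
   `U₁ + X U₁ ≤ U`, and it has dimension `≥ (u - 1) + 1 = u` by 1, so `U₁ + X U₁ = U` and the
   induction hypothesis applies to `U₁`: `U₁ = {f h : deg h < u - 1}`; hence `U = U₁ + X U₁ =
   {f h : deg h < u}`.
-/

set_option autoImplicit false

open Polynomial Module

namespace Pool.Agent.H72.PL

variable {F : Type} [Field F]

/-- multiplication by `X` -/
noncomputable def mulX (F : Type) [Field F] : F[X] →ₗ[F] F[X] := LinearMap.mulLeft F (X : F[X])

theorem structl_mulX (g : F[X]) : mulX F g = X * g := rfl

theorem structl_inj : Function.Injective (mulX F) := by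
  intro a b h
  rw [structl_mulX, structl_mulX] at h
  exact mul_left_cancel₀ X_ne_zero h

theorem structl_not_le (U : Submodule F F[X]) [FiniteDimensional F U] (hU : U ≠ ⊥) :
    ¬ U.map (mulX F) ≤ U := by
  intro hle
  obtain ⟨g, hg, hg0⟩ := U.ne_bot_iff.1 hU
  have hX : ∀ a ∈ U, X * a ∈ U := by
    intro a ha
    exact hle ⟨a, ha, rfl⟩
  have hXn : ∀ (n : ℕ), X ^ n * g ∈ U := by
    intro n
    induction n with
    | zero => rw [pow_zero, one_mul]; exact hg
    | succ n ih =>
      rw [pow_succ', mul_assoc]
      exact hX _ ih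
  have hmem : ∀ p : F[X], p * g ∈ U := by
    intro p
    induction p using Polynomial.induction_on' with
    | add p q hp hq =>
      rw [add_mul]
      exact U.add_mem hp hq
    | monomial n a =>
      rw [← C_mul_X_pow_eq_monomial, mul_assoc, ← smul_eq_C_mul]
      exact U.smul_mem a (hXn n)
  let φ : F[X] →ₗ[F] U :=
    { toFun := fun p => ⟨p * g, hmem p⟩
      map_add' := fun p q => Subtype.ext (add_mul p q g)
      map_smul' := fun a p => Subtype.ext (smul_mul_assoc a p g) }
  have hφ : Function.Injective φ := by
    intro p q h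
    have h1 : p * g = q * g := congrArg Subtype.val h
    exact mul_right_cancel₀ hg0 h1
  have hfin : Module.Finite F F[X] := Module.Finite.of_injective φ hφ
  exact Polynomial.not_finite hfin

theorem succ_le_finrank_sup (U : Submodule F F[X]) [FiniteDimensional F U] (hU : U ≠ ⊥) :
    finrank F U + 1 ≤ finrank F ↥(U ⊔ U.map (mulX F)) := by
  have hlt : U < U ⊔ U.map (mulX F) := by
    apply lt_of_le_of_ne le_sup_left
    intro h
    apply structl_not_le U hU
    exact (sup_eq_left.1 h.symm)
  exact Submodule.finrank_lt_finrank_of_lt hlt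

theorem structl_ind (n : ℕ) : ∀ (U : Submodule F F[X]) [FiniteDimensional F U], U ≠ ⊥ →
    finrank F U = n → finrank F ↥(U ⊔ U.map (mulX F)) = n + 1 →
    ∃ f : F[X], f ≠ 0 ∧ ∀ g : F[X], g ∈ U ↔
      ∃ e : F[X], e.degree < ((n : ℕ) : WithBot ℕ) ∧ g = f * e := by
  induction n with
  | zero =>
    intro U _ hU h0 _
    exact absurd (Submodule.finrank_eq_zero.1 h0) hU
  | succ n ih =>
    intro U _ hU hn hs
    rcases Nat.eq_zero_or_pos n with h0 | h0
    · subst h0
      obtain ⟨v, hv, hvw⟩ := finrank_eq_one_iff'.1 hn
      refine ⟨(v : F[X]), fun h => hv (Subtype.ext h), ?_⟩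
      intro g
      constructor
      · intro hg
        obtain ⟨c, hc⟩ := hvw ⟨g, hg⟩
        refine ⟨C c, ?_, ?_⟩
        · refine lt_of_le_of_lt degree_C_le ?_
          norm_num
        · have h1 : c • (v : F[X]) = g := congrArg Subtype.val hc
          rw [← h1, smul_eq_C_mul, mul_comm]
      · rintro ⟨e, he, rfl⟩
        have h1 : e.degree < 1 := by simpa using he
        have h2 : e = C (e.coeff 0) := by
          by_cases he0 : e = 0
          · rw [he0, coeff_zero, C_0]
          · rw [degree_eq_natDegree he0] at h1
            have h3 : e.natDegree < 1 := by exact_mod_cast h1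
            exact eq_C_of_natDegree_eq_zero (by omega)
        rw [h2, mul_comm, ← smul_eq_C_mul]
        exact U.smul_mem _ v.2
    · -- the smaller space
      set U1 : Submodule F F[X] := U ⊓ U.comap (mulX F) with hU1
      have hmap : U1.map (mulX F) = U ⊓ U.map (mulX F) := by
        ext g
        constructor
        · rintro ⟨a, ha, rfl⟩
          exact ⟨ha.2, a, ha.1, rfl⟩
        · rintro ⟨hg, a, ha, rfl⟩
          exact ⟨a, ⟨ha, hg⟩, rfl⟩
      have hfU1 : FiniteDimensional F U1 :=
        Submodule.finiteDimensional_of_le (inf_le_left : U1 ≤ U)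
      have hr1 : finrank F ↥(U1.map (mulX F)) = finrank F U1 :=
        (Submodule.equivMapOfInjective (mulX F) structl_inj U1).finrank_eq.symm
      have hr2 : finrank F ↥(U.map (mulX F)) = finrank F U :=
        (Submodule.equivMapOfInjective (mulX F) structl_inj U).finrank_eq.symm
      have hdim := Submodule.finrank_sup_add_finrank_inf_eq U (U.map (mulX F))
      rw [← hmap, hr1, hr2, hs, hn] at hdim
      have hn1 : finrank F U1 = n := by omega
      have hU1ne : U1 ≠ ⊥ := by
        intro h
        rw [h, finrank_bot] at hn1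
        omega
      have hle : U1 ⊔ U1.map (mulX F) ≤ U := by
        apply sup_le inf_le_left
        rw [hmap]
        exact inf_le_left
      have hge := succ_le_finrank_sup U1 hU1ne
      have heq : U1 ⊔ U1.map (mulX F) = U := by
        apply Submodule.eq_of_le_of_finrank_le hle
        omega
      obtain ⟨f, hf, hfU⟩ := ih U1 hU1ne hn1 (by rw [heq, hn])
      refine ⟨f, hf, ?_⟩
      intro g
      rw [← heq, Submodule.mem_sup]
      constructor
      · rintro ⟨y, hy, z, ⟨w, hw, rfl⟩, rfl⟩
        obtain ⟨e1, he1, rfl⟩ := (hfU y).1 hy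
        obtain ⟨e2, he2, rfl⟩ := (hfU w).1 hw
        refine ⟨e1 + X * e2, ?_, ?_⟩
        · refine lt_of_le_of_lt (degree_add_le _ _) (max_lt ?_ ?_)
          · refine lt_of_lt_of_le he1 ?_
            exact_mod_cast Nat.le_succ n
          · rw [mul_comm]
            by_cases h2 : e2 = 0
            · rw [h2, zero_mul, degree_zero]
              exact WithBot.bot_lt_coe _
            · rw [degree_mul_X]
              rw [degree_eq_natDegree h2] at he2 ⊢
              have h3 : e2.natDegree < n := by exact_mod_cast he2
              exact_mod_cast Nat.succ_lt_succ h3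
        · rw [structl_mulX]
          ring
      · rintro ⟨e, he, rfl⟩
        refine ⟨f * C (e.coeff 0), (hfU _).2 ⟨C (e.coeff 0), ?_, rfl⟩, X * (f * e.divX),
          ⟨f * e.divX, (hfU _).2 ⟨e.divX, ?_, rfl⟩, rfl⟩, ?_⟩
        · refine lt_of_le_of_lt degree_C_le ?_
          exact_mod_cast h0
        · by_cases h2 : e.divX = 0
          · rw [h2, degree_zero]
            exact WithBot.bot_lt_coe _
          · have h3 : e ≠ 0 := by
              rintro rfl
              exact h2 divX_zero
            rw [degree_eq_natDegree h2]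
            rw [degree_eq_natDegree h3] at he
            have h4 : e.natDegree < n + 1 := by exact_mod_cast he
            have h5 : e.divX.natDegree = e.natDegree - 1 := natDegree_divX_eq_natDegree_tsub_one
            have h6 : e.divX.natDegree < n := by omega
            exact_mod_cast h6
        · have h7 := divX_mul_X_add e
          calc f * C (e.coeff 0) + X * (f * e.divX) = f * (e.divX * X + C (e.coeff 0)) := by ring
            _ = f * e := by rw [h7]

theorem struct_lemma (U : Submodule F F[X]) [FiniteDimensional F U] (hU : U ≠ ⊥)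
    (h : finrank F ↥(U ⊔ U.map (mulX F)) = finrank F U + 1) :
    ∃ f : F[X], f ≠ 0 ∧ ∀ g : F[X], g ∈ U ↔
      ∃ e : F[X], e.degree < ((finrank F U : ℕ) : WithBot ℕ) ∧ g = f * e := by
  exact structl_ind (finrank F U) U hU rfl h

end Pool.Agent.H72.PL
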