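import Pool.Agent.H72.PL.RankBox
import Pool.Agent.H72.PL.StructL
import Pool.Agent.H72.PL.Gauss

/-!
# Module FindF: the common divisor (paper proof: proposal 65, section 5)

`r = ρ / (M+1)`, `W_l = IB I M l`, `U_l = spF W_l`, `u_l = finrank U_l` (`l ≤ W`).
1. `rank_box` and `box_codim` (with `e = M`): `(M+1)(l+1) ≤ (M+1) u_l + ρ`, so `l + 1 ≤ u_l + r`.
   `U_l` lies in the polynomials of degree `≤ l`, so `u_l ≤ l + 1`. Put `δ_l = l + 1 - u_l ≤ r`.
2. `W_l ≤ W_(l+1)`, `X W_l ≤ W_(l+1)`, so `U_l + X U_l ≤ U_(l+1)`; if `l + 1 > r` then `u_l > 0`,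
   `U_l ≠ 0` and `u_l + 1 ≤ finrank (U_l + X U_l) ≤ u_(l+1)` (`succ_le_finrank_sup`), i.e.
   `δ_(l+1) ≤ δ_l`.
3. `l₀ = (W+1)/2` (so `W ≤ 2 l₀`, `l₀ > r`), and `l₀ + r + 1 ≤ W` by `hW`. If `δ_(l+1) < δ_l` for all
   `l ∈ [l₀, l₀ + r]` then `δ_(l₀) ≥ r + 1`, contradiction. So there is `l ∈ [l₀, l₀+r]`, `l < W`, with
   `δ_(l+1) = δ_l`, `u_(l+1) = u_l + 1` and `finrank (U_l + X U_l) = u_l + 1`. `m := u_l > 0`.
4. `struct_lemma`: `U_l = p {deg < m}`; by `exists_primitive` we may take `p = toF f` with `f` primitive.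
   `p X^(m-1) ∈ U_l` has degree `≤ l`, so `dX f + m ≤ l + 1` (`natDegree (toF f) = natDegree f`,
   `toF` injective on coefficients). For `g ∈ W_l`: `toF g = toF f * e`, `deg e < m`; `f ∣ g` by
   `dvd_of_toF_dvd`, `g = f h`, `toF h = e` (cancel), so `natDegree h < m`.
5. `spF (quoV I M l f)`: multiplication by `toF f` maps it onto `spF W_l` (every `g ∈ W_l` is `f h`,
   `h ∈ quoV`) and is injective, so its dimension is `m`.
-/

set_option autoImplicit false

open Polynomial Module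

namespace Pool.Agent.H72.PL

variable {k : Type} [Field k]

theorem findf_natDegree (g : BP k) : (toF g).natDegree = g.natDegree := by
  unfold toF
  exact natDegree_map_eq_of_injective (IsFractionRing.injective (Polynomial k) (Fr k)) g

theorem findf_le_degreeLT (I : Ideal (BP k)) (M l : ℕ) :
    spF (IB I M l) ≤ degreeLT (Fr k) (l + 1) := by
  refine Submodule.span_le.2 ?_
  rintro _ ⟨g, hg, rfl⟩
  have h1 : dX g ≤ l := ((mem_box g M l).1 hg.2).2
  change toF g ∈ degreeLT (Fr k) (l + 1)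
  rw [mem_degreeLT]
  refine lt_of_le_of_lt degree_le_natDegree ?_
  rw [findf_natDegree]
  exact_mod_cast Nat.lt_succ_of_le h1

theorem findf_le (I : Ideal (BP k)) (M l : ℕ) :
    finrank (Fr k) ↥(spF (IB I M l)) ≤ l + 1 := by
  have h1 : finrank (Fr k) ↥(degreeLT (Fr k) (l + 1)) = l + 1 := by
    rw [(degreeLTEquiv (Fr k) (l + 1)).finrank_eq, finrank_fintype_fun_eq_card, Fintype.card_fin]
  have h2 : FiniteDimensional (Fr k) ↥(degreeLT (Fr k) (l + 1)) :=
    Module.Finite.equiv (degreeLTEquiv (Fr k) (l + 1)).symm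
  calc finrank (Fr k) ↥(spF (IB I M l)) ≤ finrank (Fr k) ↥(degreeLT (Fr k) (l + 1)) :=
        Submodule.finrank_mono (findf_le_degreeLT I M l)
    _ = l + 1 := h1

theorem findf_step (I : Ideal (BP k)) (M l : ℕ) :
    spF (IB I M l) ⊔ (spF (IB I M l)).map (mulX (Fr k)) ≤ spF (IB I M (l + 1)) := by
  refine sup_le ?_ ?_
  · refine Submodule.span_mono ?_
    rintro _ ⟨g, hg, rfl⟩
    exact ⟨g, ⟨hg.1, box_mono le_rfl (Nat.le_succ l) hg.2⟩, rfl⟩
  · unfold spF
    rw [Submodule.map_span]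
    refine Submodule.span_mono ?_
    rintro _ ⟨_, ⟨g, hg, rfl⟩, rfl⟩
    refine ⟨X * g, ⟨?_, ?_⟩, ?_⟩
    · exact I.mul_mem_left X hg.1
    · intro a b hab
      rcases b with _ | b
      · rw [coeff_X_mul_zero, coeff_zero]
      · rw [coeff_X_mul]
        exact hg.2 a b (by omega)
    · rw [map_mul]
      have h1 : toF (X : BP k) = X := by
        unfold toF
        simp
      rw [h1]
      rfl

theorem find_f (I : Ideal (BP k)) (M W ρ : ℕ)
    (hcod : (M + 1) * (W + 1) ≤ finrank k ↥(IB I M W) + ρ) (hW : 2 * (ρ / (M + 1)) + 4 ≤ W) :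
    ∃ (l m : ℕ) (f : BP k), W ≤ 2 * l ∧ l < W ∧ f.IsPrimitive ∧ 0 < m ∧ dX f + m ≤ l + 1 ∧
      l + 1 ≤ m + ρ / (M + 1) ∧
      (∀ g ∈ IB I M l, ∃ h : BP k, g = f * h ∧ h.natDegree < m) ∧
      finrank (Fr k) ↥(spF (IB I M l)) = m ∧
      finrank (Fr k) ↥(spF (quoV I M l f)) = m := by
  set r : ℕ := ρ / (M + 1) with hr
  have ha : ∀ l, l ≤ W → l + 1 ≤ finrank (Fr k) ↥(spF (IB I M l)) + r := by
    intro l hl
    have h1 := box_codim I M W ρ hcod M l le_rfl hl
    have h2 := rank_box (IB I M l) M l inf_le_right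
    by_contra h3
    have h4 : finrank (Fr k) ↥(spF (IB I M l)) + r + 1 ≤ l + 1 := by omega
    have h5 : (M + 1) * (finrank (Fr k) ↥(spF (IB I M l)) + r + 1) ≤ (M + 1) * (l + 1) :=
      Nat.mul_le_mul_left _ h4
    have h6 : ρ < (M + 1) * (ρ / (M + 1) + 1) := Nat.lt_mul_div_succ ρ (Nat.succ_pos M)
    rw [← hr] at h6
    have h7 : (M + 1) * (finrank (Fr k) ↥(spF (IB I M l)) + r + 1) =
        (M + 1) * finrank (Fr k) ↥(spF (IB I M l)) + (M + 1) * (r + 1) := by ring
    omega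
  have hfin : ∀ l, FiniteDimensional (Fr k) ↥(spF (IB I M l)) := fun l =>
    spF_finite (IB I M l) M l inf_le_right
  have hd : ∀ l, l ≤ W → r < l + 1 → spF (IB I M l) ≠ ⊥ ∧
      finrank (Fr k) ↥(spF (IB I M l)) + 1 ≤
        finrank (Fr k) ↥(spF (IB I M l) ⊔ (spF (IB I M l)).map (mulX (Fr k))) ∧
      finrank (Fr k) ↥(spF (IB I M l) ⊔ (spF (IB I M l)).map (mulX (Fr k))) ≤
        finrank (Fr k) ↥(spF (IB I M (l + 1))) := by
    intro l hl hrl
    have h1 := ha l hl
    have h2 : spF (IB I M l) ≠ ⊥ := by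
      intro h3
      rw [h3, finrank_bot] at h1
      omega
    have := hfin l
    have := hfin (l + 1)
    exact ⟨h2, succ_le_finrank_sup _ h2, Submodule.finrank_mono (findf_step I M l)⟩
  obtain ⟨l, hl1, hl2, hl3⟩ : ∃ l, (W + 1) / 2 ≤ l ∧ l < W ∧
      finrank (Fr k) ↥(spF (IB I M (l + 1))) = finrank (Fr k) ↥(spF (IB I M l)) + 1 := by
    by_contra hcon
    push Not at hcon
    have h1 : ∀ j, j ≤ r + 1 → finrank (Fr k) ↥(spF (IB I M ((W + 1) / 2))) + 2 * j ≤
        finrank (Fr k) ↥(spF (IB I M ((W + 1) / 2 + j))) := by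
      intro j
      induction j with
      | zero =>
        intro _
        simp
      | succ j ih =>
        intro hj
        have h2 := ih (by omega)
        have h3 := hcon ((W + 1) / 2 + j) (by omega) (by omega)
        obtain ⟨-, h4, h5⟩ := hd ((W + 1) / 2 + j) (by omega) (by omega)
        have h6 : (W + 1) / 2 + (j + 1) = (W + 1) / 2 + j + 1 := by ring
        rw [h6]
        omega
    have h2 := h1 (r + 1) le_rfl
    have h3 := ha ((W + 1) / 2) (by omega)
    have h4 := findf_le I M ((W + 1) / 2 + (r + 1))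
    omega
  have hrl : r < l + 1 := by omega
  obtain ⟨hne, h4, h5⟩ := hd l (by omega) hrl
  have hsup : finrank (Fr k) ↥(spF (IB I M l) ⊔ (spF (IB I M l)).map (mulX (Fr k))) =
      finrank (Fr k) ↥(spF (IB I M l)) + 1 := by omega
  have hfl := hfin l
  set m : ℕ := finrank (Fr k) ↥(spF (IB I M l)) with hm
  have hm0 : 0 < m := by
    rcases Nat.eq_zero_or_pos m with h6 | h6
    · exact absurd (Submodule.finrank_eq_zero.1 (hm ▸ h6)) hne
    · exact h6
  obtain ⟨p, hp0, hpU⟩ := struct_lemma (spF (IB I M l)) hne hsup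
  rw [← hm] at hpU
  obtain ⟨f, c, hfp, hc, hpf⟩ := exists_primitive p hp0
  have hU1 : ∀ e : Polynomial (Fr k), e.degree < ((m : ℕ) : WithBot ℕ) →
      toF f * e ∈ spF (IB I M l) := by
    intro e he
    rw [hpU]
    refine ⟨C c⁻¹ * e, ?_, ?_⟩
    · rw [degree_C_mul (inv_ne_zero hc)]
      exact he
    · rw [hpf]
      have h6 : (C c : Polynomial (Fr k)) * C c⁻¹ = 1 := by
        rw [← C_mul, mul_inv_cancel₀ hc, C_1]
      calc toF f * e = (C c * C c⁻¹) * (toF f * e) := by rw [h6, one_mul]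
        _ = C c * toF f * (C c⁻¹ * e) := by ring
  have hU2 : ∀ g ∈ spF (IB I M l), ∃ e : Polynomial (Fr k), e.degree < ((m : ℕ) : WithBot ℕ) ∧
      g = toF f * e := by
    intro g hg
    obtain ⟨e, he, rfl⟩ := (hpU g).1 hg
    refine ⟨C c * e, ?_, ?_⟩
    · rw [degree_C_mul hc]
      exact he
    · rw [hpf]
      ring
  have hf0 : f ≠ 0 := hfp.ne_zero
  have htf0 : toF f ≠ 0 := fun h => hf0 (toF_injective (by rw [h, map_zero]))
  have hquo : ∀ g ∈ IB I M l, ∃ h : BP k, g = f * h ∧ h.natDegree < m := by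
    intro g hg
    obtain ⟨e, he, hge⟩ := hU2 (toF g) (Submodule.subset_span ⟨g, hg, rfl⟩)
    obtain ⟨h, rfl⟩ := dvd_of_toF_dvd f g hfp ⟨e, hge⟩
    refine ⟨h, rfl, ?_⟩
    rw [map_mul] at hge
    have h6 : toF h = e := mul_left_cancel₀ htf0 hge
    rw [← findf_natDegree h, h6]
    by_cases h7 : e = 0
    · rw [h7, natDegree_zero]
      exact hm0
    · exact (natDegree_lt_iff_degree_lt h7).2 he
  refine ⟨l, m, f, by omega, hl2, hfp, hm0, ?_, ?_, hquo, rfl, ?_⟩
  · -- degree of `f`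
    have h6 := hU1 (X ^ (m - 1)) (by
      rw [degree_X_pow]
      exact_mod_cast (by omega : m - 1 < m))
    have h7 := findf_le_degreeLT I M l h6
    rw [mem_degreeLT, degree_mul, degree_X_pow, degree_eq_natDegree htf0, findf_natDegree] at h7
    have h8 : f.natDegree + (m - 1) < l + 1 := by exact_mod_cast h7
    unfold dX
    omega
  · have := ha l (by omega)
    omega
  · -- the quotients
    set μ : Polynomial (Fr k) →ₗ[Fr k] Polynomial (Fr k) := LinearMap.mulLeft (Fr k) (toF f) with hμ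
    have hμi : Function.Injective μ := fun a b h => mul_left_cancel₀ htf0 h
    have hmap : (spF (quoV I M l f)).map μ = spF (IB I M l) := by
      unfold spF
      rw [Submodule.map_span]
      congr 1
      ext g
      constructor
      · rintro ⟨_, ⟨h, hh, rfl⟩, rfl⟩
        refine ⟨f * h, hh, ?_⟩
        rw [map_mul]
        rfl
      · rintro ⟨g, hg, rfl⟩
        obtain ⟨h, rfl, -⟩ := hquo g hg
        refine ⟨toF h, ⟨h, hg, rfl⟩, ?_⟩
        rw [map_mul]
        rfl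
    rw [(Submodule.equivMapOfInjective μ hμi (spF (quoV I M l f))).finrank_eq, hmap]

end Pool.Agent.H72.PL
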