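import Pool.Agent.H72.PL.GDesc

/-!
# Module GBinA: degrees of binomials, coprimality (paper proof: proposal 65, section 7)

`bin u v ρ = X^v Y^(u⁺) - ρ Y^(u⁻)`, `v ≥ 1`, `ρ ≠ 0`.
`bin_conj`: the `bin u v ρ`, `ρ ∈ S` (distinct, nonzero), are pairwise relatively prime: a common
   divisor of two of them divides the difference `(ρ' - ρ) Y^(u⁻)`; if `u ≥ 0` this is a unit;
   if `u < 0` it is a power of `Y` up to a unit, and `Y ∤ bin`. So the product divides `G`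
   (`Finset.prod_dvd_of_isRelPrime` or by induction with `IsRelPrime`), and
   `dX bin = v`, `dY bin = |u|` (`dX_mul`, `dY_mul`).
-/

set_option autoImplicit false

open Polynomial Module

namespace Pool.Agent.H72.PL

variable {Ω : Type} [Field Ω]

theorem bin_ev (u : ℤ) (v : ℕ) (ρ y x : Ω) (hy : y ≠ 0) :
    ev Ω y x (bin u v ρ) = 0 ↔ x ^ v * y ^ u = ρ := by
  have h1 : ev Ω y x (bin u v ρ) = x ^ v * y ^ u.toNat - ρ * y ^ (-u).toNat := by
    simp only [ev, bin, map_sub, map_mul, map_pow, Polynomial.aevalAeval_Y,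
      Polynomial.aevalAeval_C, aeval_X, aeval_C, Algebra.algebraMap_self, RingHom.id_apply]
  rw [h1, sub_eq_zero]
  rcases le_total 0 u with hu | hu
  · obtain ⟨n, rfl⟩ := Int.eq_ofNat_of_zero_le hu
    simp
  · obtain ⟨n, hn⟩ := Int.eq_ofNat_of_zero_le (neg_nonneg.2 hu)
    have hu' : u = -(n : ℤ) := by omega
    subst hu'
    have e1 : (-(n : ℤ)).toNat = 0 := by simp
    have e2 : (-(-(n : ℤ))).toNat = n := by simp
    rw [e1, e2, pow_zero, mul_one, zpow_neg, zpow_natCast]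
    constructor
    · intro h
      rw [h, mul_assoc, mul_inv_cancel₀ (pow_ne_zero _ hy), mul_one]
    · intro h
      rw [← h, mul_assoc, inv_mul_cancel₀ (pow_ne_zero _ hy), mul_one]

theorem dX_bin (u : ℤ) (v : ℕ) (hv : 1 ≤ v) (ρ : Ω) (hρ : ρ ≠ 0) : dX (bin u v ρ) = v := by
  unfold dX bin
  rw [natDegree_sub_C, natDegree_mul_C (pow_ne_zero _ X_ne_zero), natDegree_X_pow]

theorem swap_bin (u : ℤ) (v : ℕ) (ρ : Ω) :
    Polynomial.Bivariate.swap (bin u v ρ) =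
      C (X ^ v) * X ^ u.toNat - C (C ρ) * X ^ (-u).toNat := by
  unfold bin
  rw [map_sub, map_mul, map_pow, Polynomial.Bivariate.swap_Y, Polynomial.Bivariate.swap_C,
    Polynomial.Bivariate.swap_C]
  simp

theorem dY_bin (u : ℤ) (v : ℕ) (hv : 1 ≤ v) (ρ : Ω) (hρ : ρ ≠ 0) :
    dY (bin u v ρ) = u.natAbs := by
  unfold dY
  rw [swap_bin]
  have hX : (X : Polynomial Ω) ^ v ≠ 0 := pow_ne_zero _ X_ne_zero
  have hC : (C ρ : Polynomial Ω) ≠ 0 := by simpa using hρ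
  rcases le_total 0 u with hu | hu
  · have e1 : (-u).toNat = 0 := by omega
    have e2 : u.toNat = u.natAbs := by omega
    rw [e1, e2, pow_zero, mul_one, natDegree_sub_C, natDegree_C_mul hX, natDegree_X_pow]
  · have e1 : u.toNat = 0 := by omega
    have e2 : (-u).toNat = u.natAbs := by omega
    rw [e1, e2, pow_zero, mul_one, natDegree_sub, natDegree_sub_C, natDegree_C_mul hC,
      natDegree_X_pow]

theorem bin_ne_zero (u : ℤ) (v : ℕ) (hv : 1 ≤ v) (ρ : Ω) (hρ : ρ ≠ 0) : bin u v ρ ≠ 0 := by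
  intro h
  have h1 := dX_bin u v hv ρ hρ
  rw [h] at h1
  unfold dX at h1
  rw [natDegree_zero] at h1
  omega

theorem bin_relPrime (u : ℤ) (v : ℕ) (ρ ρ' : Ω) (hne : ρ ≠ ρ') :
    IsRelPrime (bin u v ρ) (bin u v ρ') := by
  intro d hd hd'
  have h1 : d ∣ (C (C (ρ' - ρ) * X ^ (-u).toNat) : BP Ω) := by
    have h2 := dvd_sub hd hd'
    have h3 : bin u v ρ - bin u v ρ' = C (C (ρ' - ρ) * X ^ (-u).toNat) := by
      unfold bin
      rw [map_sub, sub_mul, C_sub]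
      ring
    rwa [h3] at h2
  have hunit : IsUnit (C (C (ρ' - ρ)) : BP Ω) := by
    rw [isUnit_C, isUnit_C]
    exact isUnit_iff_ne_zero.2 (sub_ne_zero.2 (Ne.symm hne))
  have h4 : d ∣ (C X : BP Ω) ^ (-u).toNat := by
    rw [C_mul, hunit.dvd_mul_left, C_pow] at h1
    exact h1
  have hprime : Prime (C X : BP Ω) := prime_C_iff.2 prime_X
  obtain ⟨i, hi, hdi⟩ := (dvd_prime_pow hprime _).1 h4
  rcases Nat.eq_zero_or_pos i with h0 | hpos
  · rw [h0, pow_zero] at hdi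
    exact hdi.isUnit_iff.2 isUnit_one
  · exfalso
    have hXd : (C X : BP Ω) ∣ d := (dvd_pow_self _ (by omega)).trans hdi.symm.dvd
    have hXb := hXd.trans hd
    have hu : u.toNat = 0 := by omega
    have hX2 : (C X : BP Ω) ∣ C (C ρ * X ^ (-u).toNat) := by
      rw [C_mul, C_pow]
      exact Dvd.dvd.mul_left (dvd_pow_self _ (by omega)) _
    have hX3 : (C X : BP Ω) ∣ X ^ v := by
      have h5 := dvd_add hXb hX2
      unfold bin at h5
      rw [hu, pow_zero, C_1, mul_one, sub_add_cancel] at h5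
      exact h5
    rw [C_dvd_iff_dvd_coeff] at hX3
    have h6 := hX3 v
    rw [coeff_X_pow, if_pos rfl] at h6
    exact not_isUnit_X (isUnit_of_dvd_one h6)

theorem prod_bin_dvd (u : ℤ) (v : ℕ) (S : Finset Ω) (G : BP Ω)
    (h : ∀ ρ ∈ S, bin u v ρ ∣ G) : ∏ ρ ∈ S, bin u v ρ ∣ G := by
  refine Finset.prod_dvd_of_isRelPrime ?_ h
  intro ρ _ ρ' _ hne
  exact bin_relPrime u v ρ ρ' hne

theorem dXY_prod (u : ℤ) (v : ℕ) (hv : 1 ≤ v) (S : Finset Ω) (hS : ∀ ρ ∈ S, ρ ≠ 0) :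
    dX (∏ ρ ∈ S, bin u v ρ) = S.card * v ∧ dY (∏ ρ ∈ S, bin u v ρ) = S.card * u.natAbs ∧
      (∏ ρ ∈ S, bin u v ρ) ≠ 0 := by
  classical
  induction S using Finset.induction_on with
  | empty =>
    refine ⟨?_, ?_, ?_⟩
    · simp [dX]
    · simp [dY]
    · simp
  | insert a S ha ih =>
    obtain ⟨h1, h2, h3⟩ := ih (fun ρ hρ => hS ρ (Finset.mem_insert_of_mem hρ))
    have ha0 : a ≠ 0 := hS a (Finset.mem_insert_self a S)
    have hb := bin_ne_zero u v hv a ha0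
    rw [Finset.prod_insert ha, Finset.card_insert_of_notMem ha]
    refine ⟨?_, ?_, mul_ne_zero hb h3⟩
    · rw [dX_mul _ _ hb h3, h1, dX_bin u v hv a ha0]; ring
    · rw [dY_mul _ _ hb h3, h2, dY_bin u v hv a ha0]; ring

theorem bin_conj (u : ℤ) (v : ℕ) (hv : 1 ≤ v) (S : Finset Ω) (hS : ∀ ρ ∈ S, ρ ≠ 0) (G : BP Ω)
    (hG : G ≠ 0) (h : ∀ ρ ∈ S, bin u v ρ ∣ G) :
    S.card * v ≤ dX G ∧ S.card * u.natAbs ≤ dY G := by
  obtain ⟨h1, h2, h3⟩ := dXY_prod u v hv S hS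
  obtain ⟨H, hH⟩ := prod_bin_dvd u v S G h
  have hH0 : H ≠ 0 := by
    intro h0
    rw [h0, mul_zero] at hH
    exact hG hH
  rw [hH, dX_mul _ _ h3 hH0, dY_mul _ _ h3 hH0, h1, h2]
  omega

end Pool.Agent.H72.PL
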