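import Pool.Agent.H72.PL.BoxB
import Pool.Agent.H72.PL.BoxC

/-!
# Module GDesc: descent of divisibility and of products (paper proof: proposal 65, section 7)

1. `dvd_of_mp_dvd`: `k ⊆ Ω` fields, `mp g ∣ mp f` over `Ω` ⟹ `g ∣ f` over `k`. Let `mp f = mp g * h`,
   `λ : Ω → k` a `k`-linear map with `λ 1 = 1` (exists: complement of `k` in `Ω`,
   `LinearMap.exists_leftInverse_of_injective` for `Algebra.linearMap k Ω`). Apply `λ` to all
   coefficients (`h' = λ(h)`): `f = g * h'`, because `λ(mp g * h) = g * λ(h)` (`k`-linearity).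
2. `exists_mp_of_fixed`: a polynomial over `Ω` (an algebraic closure of `k`, characteristic 0, so `Ω/k` is
   Galois) whose coefficients are fixed by all `σ : Ω ≃ₐ[k] Ω` comes from `k`
   (`IsGalois.mem_bot_iff_fixed` / `InfiniteGalois`..., `IntermediateField` lemmas for `⊥`; see
   `mem_of_fixed` in `Pool/Agent/H72/RM/Defs.lean`).
3. `prod_dvd`: pairwise non-associated irreducible elements dividing `f` in a factorial domain: their
   product divides `f` (`Finset.prod_dvd_of_isRelPrime`/`Finset.prod_dvd_of_coprime`; induction).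
4. `assoc_eq_of_lead`: associated elements of `BP Ω` with `leadingCoeff (leadingCoeff _) = 1` are equal
   (units of `BP Ω` are constants `C (C c)`).
-/

set_option autoImplicit false

open Polynomial Module

namespace Pool.Agent.H72.PL

/-- a retraction of coefficient rings gives a retraction of polynomial rings -/
theorem retract_poly {R A : Type} [CommRing R] [CommRing A] (φ : R →+* A)
    (h : ∃ l : A →+ R, (∀ r a, l (φ r * a) = r * l a) ∧ ∀ r, l (φ r) = r) :
    ∃ l : A[X] →+ R[X], (∀ r a, l (mapRingHom φ r * a) = r * l a) ∧ ∀ r, l (mapRingHom φ r) = r := by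
  obtain ⟨l, h1, h2⟩ := h
  have hc : ∀ (p : A[X]) (n : ℕ),
      (∑ i ∈ p.support, monomial i (l (p.coeff i))).coeff n = l (p.coeff n) := by
    intro p n
    rw [finsetSum_coeff]
    simp only [coeff_monomial]
    rw [Finset.sum_ite_eq' p.support n]
    split_ifs with hn
    · rfl
    · rw [notMem_support_iff.1 hn, map_zero]
  let L : A[X] →+ R[X] :=
    { toFun := fun p => ∑ i ∈ p.support, monomial i (l (p.coeff i))
      map_zero' := by simp
      map_add' := by
        intro p q
        ext n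
        rw [hc, coeff_add, coeff_add, hc, hc, map_add] }
  have hL : ∀ (p : A[X]) (n : ℕ), (L p).coeff n = l (p.coeff n) := hc
  refine ⟨L, ?_, ?_⟩
  · intro r a
    ext n
    rw [hL, coeff_mul, coeff_mul, map_sum]
    refine Finset.sum_congr rfl fun x _ => ?_
    rw [coe_mapRingHom, coeff_map, h1, hL]
  · intro r
    ext n
    rw [hL, coe_mapRingHom, coeff_map, h2]

theorem dvd_of_mp_dvd {k Ω : Type} [Field k] [Field Ω] [Algebra k Ω] (g f : BP k)
    (h : mp (algebraMap k Ω) g ∣ mp (algebraMap k Ω) f) : g ∣ f := by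
  have h0 : ∃ l : Ω →+ k, (∀ r a, l (algebraMap k Ω r * a) = r * l a) ∧
      ∀ r, l (algebraMap k Ω r) = r := by
    obtain ⟨l, hl⟩ := LinearMap.exists_leftInverse_of_injective (Algebra.linearMap k Ω)
      (LinearMap.ker_eq_bot.2 (algebraMap k Ω).injective)
    refine ⟨l.toAddMonoidHom, fun r a => ?_, fun r => ?_⟩
    · show l (algebraMap k Ω r * a) = r * l a
      rw [← Algebra.smul_def, map_smul, smul_eq_mul]
    · exact LinearMap.congr_fun hl r
  obtain ⟨l, h1, h2⟩ := retract_poly _ (retract_poly _ h0)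
  obtain ⟨q, hq⟩ := h
  refine ⟨l q, ?_⟩
  have h3 : l (mp (algebraMap k Ω) f) = f := h2 f
  rw [← h3, hq]
  exact h1 g q

theorem exists_mp_of_fixed {k Ω : Type} [Field k] [CharZero k] [Field Ω] [IsAlgClosed Ω]
    [Algebra k Ω] [Algebra.IsAlgebraic k Ω] (G : BP Ω)
    (h : ∀ σ : Ω ≃ₐ[k] Ω, mp (σ : Ω →+* Ω) G = G) : ∃ g : BP k, mp (algebraMap k Ω) g = G := by
  have h1 : IsAlgClosure k Ω := ⟨inferInstance, inferInstance⟩
  have h2 : Normal k Ω := IsAlgClosure.normal k Ω
  have h3 : IsGalois k Ω := ⟨⟩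
  have hcoef : ∀ a b : ℕ, (G.coeff b).coeff a ∈ (algebraMap k Ω).range := by
    intro a b
    have h4 : ∀ σ : Ω ≃ₐ[k] Ω, σ ((G.coeff b).coeff a) = (G.coeff b).coeff a := by
      intro σ
      have h5 := congrArg (fun P : BP Ω => (P.coeff b).coeff a) (h σ)
      simpa [mp, coeff_map] using h5
    have h6 : (G.coeff b).coeff a ∈ (⊥ : IntermediateField k Ω) := by
      rw [← InfiniteGalois.fixedField_fixingSubgroup (⊥ : IntermediateField k Ω),
        IntermediateField.mem_fixedField_iff]
      intro σ _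
      exact h4 σ
    rw [IntermediateField.mem_bot] at h6
    obtain ⟨x, hx⟩ := h6
    exact ⟨x, hx⟩
  have h7 : G ∈ (mapRingHom (mapRingHom (algebraMap k Ω))).range := by
    rw [mem_map_range]
    intro b
    rw [mem_map_range]
    intro a
    exact hcoef a b
  obtain ⟨g, hg⟩ := h7
  exact ⟨g, hg⟩

theorem prod_dvd {Ω : Type} [Field Ω] {I : Type} (S : Finset I) (a : I → BP Ω) (f : BP Ω)
    (hirr : ∀ i ∈ S, Irreducible (a i))
    (hne : ∀ i ∈ S, ∀ j ∈ S, Associated (a i) (a j) → i = j) (h : ∀ i ∈ S, a i ∣ f) :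
    ∏ i ∈ S, a i ∣ f := by
  refine Finset.prod_dvd_of_isRelPrime ?_ h
  intro i hi j hj hij
  show IsRelPrime (a i) (a j)
  rw [(hirr i hi).isRelPrime_iff_not_dvd]
  intro hd
  exact hij (hne i hi j hj ((hirr i hi).associated_of_dvd (hirr j hj) hd))

theorem assoc_eq_of_lead {Ω : Type} [Field Ω] (F G : BP Ω) (h : Associated F G)
    (hF : F.leadingCoeff.leadingCoeff = 1) (hG : G.leadingCoeff.leadingCoeff = 1) : F = G := by
  obtain ⟨u, hu⟩ := h
  obtain ⟨r, hr, hru⟩ := Polynomial.isUnit_iff.1 u.isUnit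
  obtain ⟨c, hc, hcr⟩ := Polynomial.isUnit_iff.1 hr
  rw [← hu, ← hru, ← hcr, leadingCoeff_mul, leadingCoeff_mul, hF, leadingCoeff_C, leadingCoeff_C,
    one_mul] at hG
  rw [← hu, ← hru, ← hcr, hG, map_one, map_one, mul_one]

end Pool.Agent.H72.PL
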