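import Pool.Agent.H72.PL.GDesc

/-!
# Module GFactor: geometric irreducible factors (paper proof: proposal 65, section 7)

`f' = mp (algebraMap k Ω) f₀ ∈ BP Ω` is not zero and vanishes at `(y, x)` (`ev_mp` with `σ = id`), so
it has an irreducible factor `ψ` vanishing at `(y, x)` (factorial domain; `ev` multiplicative, units have
nonzero values). For `σ ∈ Gal(Ω/k)`: `mp σ ψ` is irreducible and divides `mp σ f' = f'`. Up to
associates `f'` has finitely many irreducible factors (`UniqueFactorizationMonoid`, e.g. the finite multiset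
`factors f'`), so there is a finset `Ψ ∋ ψ` of representatives of the classes of the `mp σ ψ`
(e.g. `Ψ` = image of the finite set `{Associates.mk (mp σ ψ)}` under a choice function which sends the
class of `ψ` to `ψ`). Let `Π = ∏ Ψ`; `Π ∣ f'` (`prod_dvd`). For `σ`: `mp σ Π` is associated to `Π` (`σ`
permutes the classes). Let `c = leadingCoeff (leadingCoeff Π)`, `Π' = C (C c⁻¹) Π`; `mp σ Π'` is
associated to `Π'` and both have `leadingCoeff.leadingCoeff = 1`, so they are equal (`assoc_eq_of_lead`);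
`Π' = mp g` with `g ∈ BP k` (`exists_mp_of_fixed`), `g ∣ f₀` (`dvd_of_mp_dvd`), `g` is not a unit (`Π` is
not), so `g` is associated to `f₀` and `dX f₀ = dX g = dX Π = #Ψ * dX ψ` (`dX_mp`; all elements of `Ψ`
have the degrees of `ψ`), the same for `dY`. Since `dX f₀ > 0` also `dX ψ > 0`.
-/

set_option autoImplicit false

open Polynomial Module

namespace Pool.Agent.H72.PL

theorem gf_dX_prod {Ω : Type} [Field Ω] (S : Finset (BP Ω)) (h : ∀ χ ∈ S, χ ≠ 0) :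
    dX (∏ χ ∈ S, χ) = ∑ χ ∈ S, dX χ := by
  classical
  induction S using Finset.induction_on with
  | empty => simp [dX]
  | insert a s ha ih =>
    rw [Finset.prod_insert ha, Finset.sum_insert ha, dX_mul, ih]
    · exact fun χ hχ => h χ (Finset.mem_insert_of_mem hχ)
    · exact h a (Finset.mem_insert_self _ _)
    · exact Finset.prod_ne_zero_iff.2 fun χ hχ => h χ (Finset.mem_insert_of_mem hχ)

theorem gf_dY_prod {Ω : Type} [Field Ω] (S : Finset (BP Ω)) (h : ∀ χ ∈ S, χ ≠ 0) :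
    dY (∏ χ ∈ S, χ) = ∑ χ ∈ S, dY χ := by
  classical
  induction S using Finset.induction_on with
  | empty => simp [dY]
  | insert a s ha ih =>
    rw [Finset.prod_insert ha, Finset.sum_insert ha, dY_mul, ih]
    · exact fun χ hχ => h χ (Finset.mem_insert_of_mem hχ)
    · exact h a (Finset.mem_insert_self _ _)
    · exact Finset.prod_ne_zero_iff.2 fun χ hχ => h χ (Finset.mem_insert_of_mem hχ)

theorem gf_mp_mul {k Ω : Type} [Field k] [Field Ω] [Algebra k Ω] (σ τ : Ω ≃ₐ[k] Ω) (G : BP Ω) :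
    mp (σ : Ω →+* Ω) (mp (τ : Ω →+* Ω) G) = mp ((σ * τ : Ω ≃ₐ[k] Ω) : Ω →+* Ω) G := by
  rw [mp_mp]
  congr 1

theorem gf_mp_one {k Ω : Type} [Field k] [Field Ω] [Algebra k Ω] (G : BP Ω) :
    mp ((1 : Ω ≃ₐ[k] Ω) : Ω →+* Ω) G = G := by
  have h : ((1 : Ω ≃ₐ[k] Ω) : Ω →+* Ω) = RingHom.id Ω := by
    ext z
    rfl
  rw [h, mp_id]

/-- `mp σ` as a ring isomorphism -/
noncomputable def mpE {k Ω : Type} [Field k] [Field Ω] [Algebra k Ω] (σ : Ω ≃ₐ[k] Ω) :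
    BP Ω ≃+* BP Ω :=
  RingEquiv.ofRingHom (mp (σ : Ω →+* Ω)) (mp ((σ⁻¹ : Ω ≃ₐ[k] Ω) : Ω →+* Ω))
    (by
      refine RingHom.ext fun G => ?_
      rw [RingHom.comp_apply, gf_mp_mul, mul_inv_cancel, gf_mp_one]
      rfl)
    (by
      refine RingHom.ext fun G => ?_
      rw [RingHom.comp_apply, gf_mp_mul, inv_mul_cancel, gf_mp_one]
      rfl)

theorem mpE_apply {k Ω : Type} [Field k] [Field Ω] [Algebra k Ω] (σ : Ω ≃ₐ[k] Ω) (G : BP Ω) :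
    mpE σ G = mp (σ : Ω →+* Ω) G := rfl

theorem gf_irr {k Ω : Type} [Field k] [Field Ω] [Algebra k Ω] (σ : Ω ≃ₐ[k] Ω) (G : BP Ω)
    (h : Irreducible G) : Irreducible (mp (σ : Ω →+* Ω) G) := by
  rw [← mpE_apply]
  exact (MulEquiv.irreducible_iff (mpE σ)).2 h

theorem gf_mp_alg {k Ω : Type} [Field k] [Field Ω] [Algebra k Ω] (σ : Ω ≃ₐ[k] Ω) (f₀ : BP k) :
    mp (σ : Ω →+* Ω) (mp (algebraMap k Ω) f₀) = mp (algebraMap k Ω) f₀ := by
  have h : (σ : Ω →+* Ω).comp (algebraMap k Ω) = algebraMap k Ω :=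
    RingHom.ext fun c => σ.commutes c
  rw [mp_mp, h]

theorem gf_lead_mp {Ω : Type} [Field Ω] (φ : Ω →+* Ω) (G : BP Ω) :
    (mp φ G).leadingCoeff.leadingCoeff = φ G.leadingCoeff.leadingCoeff := by
  unfold mp
  have hinj : Function.Injective (Polynomial.mapRingHom φ) :=
    Polynomial.map_injective φ φ.injective
  rw [coe_mapRingHom, leadingCoeff_map_of_injective hinj, coe_mapRingHom,
    leadingCoeff_map_of_injective φ.injective]

theorem geo_factor {k Ω : Type} [Field k] [CharZero k] [Field Ω] [IsAlgClosed Ω]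
    [Algebra k Ω] [Algebra.IsAlgebraic k Ω] (f₀ : BP k) (hf₀ : Irreducible f₀) (hX : 0 < dX f₀)
    (y x : Ω) (h0 : ev k y x f₀ = 0) :
    ∃ (ψ : BP Ω) (Ψ : Finset (BP Ω)), ψ ∈ Ψ ∧ ev Ω y x ψ = 0 ∧ 0 < dX ψ ∧
      (∀ χ ∈ Ψ, Irreducible χ ∧ dX χ = dX ψ ∧ dY χ = dY ψ) ∧
      (∀ χ ∈ Ψ, ∃ σ : Ω ≃ₐ[k] Ω, Associated χ (mp (σ : Ω →+* Ω) ψ)) ∧
      (∀ σ : Ω ≃ₐ[k] Ω, ∃ χ ∈ Ψ, Associated χ (mp (σ : Ω →+* Ω) ψ)) ∧
      (∀ χ ∈ Ψ, ∀ χ' ∈ Ψ, Associated χ χ' → χ = χ') ∧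
      (∀ χ ∈ Ψ, χ ∣ mp (algebraMap k Ω) f₀) ∧
      Ψ.card * dX ψ = dX f₀ ∧ Ψ.card * dY ψ = dY f₀ := by
  classical
  set f' : BP Ω := mp (algebraMap k Ω) f₀ with hf'
  have hf0 : f₀ ≠ 0 := hf₀.ne_zero
  have hf'0 : f' ≠ 0 := mp_ne_zero _ _ hf0
  have hev : ev Ω y x f' = 0 := by
    have h1 := ev_mp (algebraMap k Ω) (RingHom.id Ω) (fun c => rfl) y x f₀
    rw [h0, map_zero] at h1
    exact h1.symm
  obtain ⟨ψ, hψf, hψ0⟩ : ∃ ψ ∈ UniqueFactorizationMonoid.factors f', ev Ω y x ψ = 0 := by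
    obtain ⟨u, hu⟩ := UniqueFactorizationMonoid.factors_prod hf'0
    rw [← hu, map_mul] at hev
    have h2 : ev Ω y x (u : BP Ω) ≠ 0 := by
      intro h3
      have h4 : IsUnit (ev Ω y x (u : BP Ω)) := u.isUnit.map (ev Ω y x)
      rw [h3] at h4
      exact not_isUnit_zero h4
    have h5 : ev Ω y x (UniqueFactorizationMonoid.factors f').prod = 0 :=
      (mul_eq_zero.1 hev).resolve_right h2
    rw [map_multiset_prod, Multiset.prod_eq_zero_iff] at h5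
    obtain ⟨ψ, h6, h7⟩ := Multiset.mem_map.1 h5
    exact ⟨ψ, h6, h7⟩
  have hψirr : Irreducible ψ := UniqueFactorizationMonoid.irreducible_of_factor ψ hψf
  have hψdvd : ψ ∣ f' := UniqueFactorizationMonoid.dvd_of_mem_factors hψf
  have hσdvd : ∀ σ : Ω ≃ₐ[k] Ω, mp (σ : Ω →+* Ω) ψ ∣ f' := by
    intro σ
    have h1 : mp (σ : Ω →+* Ω) ψ ∣ mp (σ : Ω →+* Ω) f' := _root_.map_dvd (mp (σ : Ω →+* Ω)) hψdvd
    rwa [hf', gf_mp_alg, ← hf'] at h1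
  -- the finite set of classes
  set cls : (Ω ≃ₐ[k] Ω) → Associates (BP Ω) := fun σ => Associates.mk (mp (σ : Ω →+* Ω) ψ)
    with hcls
  have hfin : (Set.range cls).Finite := by
    refine Set.Finite.subset (Finset.finite_toSet
      ((UniqueFactorizationMonoid.factors f').map Associates.mk).toFinset) ?_
    rintro _ ⟨σ, rfl⟩
    obtain ⟨r, hr, hr'⟩ := UniqueFactorizationMonoid.exists_mem_factors_of_dvd hf'0
      (gf_irr σ ψ hψirr) (hσdvd σ)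
    rw [Finset.mem_coe, Multiset.mem_toFinset, Multiset.mem_map]
    exact ⟨r, hr, (Associates.mk_eq_mk_iff_associated.2 hr').symm⟩
  set rep : Associates (BP Ω) → BP Ω := fun c => if c = Associates.mk ψ then ψ else Quotient.out c
    with hrep
  have hrepmk : ∀ c, Associates.mk (rep c) = c := by
    intro c
    by_cases hc : c = Associates.mk ψ
    · rw [hrep]
      simp only
      rw [if_pos hc, hc]
    · rw [hrep]
      simp only
      rw [if_neg hc]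
      exact Quotient.out_eq c
  set Ψ : Finset (BP Ω) := hfin.toFinset.image rep with hΨ
  have hmem : ∀ χ, χ ∈ Ψ ↔ ∃ σ : Ω ≃ₐ[k] Ω, χ = rep (cls σ) := by
    intro χ
    rw [hΨ, Finset.mem_image]
    constructor
    · rintro ⟨c, hc, rfl⟩
      obtain ⟨σ, rfl⟩ := hfin.mem_toFinset.1 hc
      exact ⟨σ, rfl⟩
    · rintro ⟨σ, rfl⟩
      exact ⟨cls σ, hfin.mem_toFinset.2 ⟨σ, rfl⟩, rfl⟩
  have hassoc : ∀ σ : Ω ≃ₐ[k] Ω, Associated (rep (cls σ)) (mp (σ : Ω →+* Ω) ψ) := by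
    intro σ
    exact Associates.mk_eq_mk_iff_associated.1 (hrepmk (cls σ))
  have hψΨ : ψ ∈ Ψ := by
    rw [hmem]
    refine ⟨1, ?_⟩
    have h1 : cls 1 = Associates.mk ψ := by
      rw [hcls]
      simp only
      rw [gf_mp_one]
    rw [h1]
    exact (if_pos rfl).symm
  have hA : ∀ χ ∈ Ψ, ∃ σ : Ω ≃ₐ[k] Ω, Associated χ (mp (σ : Ω →+* Ω) ψ) := by
    intro χ hχ
    obtain ⟨σ, rfl⟩ := (hmem χ).1 hχ
    exact ⟨σ, hassoc σ⟩
  have hB : ∀ σ : Ω ≃ₐ[k] Ω, ∃ χ ∈ Ψ, Associated χ (mp (σ : Ω →+* Ω) ψ) := fun σ =>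
    ⟨rep (cls σ), (hmem _).2 ⟨σ, rfl⟩, hassoc σ⟩
  have hC : ∀ χ ∈ Ψ, ∀ χ' ∈ Ψ, Associated χ χ' → χ = χ' := by
    intro χ hχ χ' hχ' h
    obtain ⟨σ, rfl⟩ := (hmem χ).1 hχ
    obtain ⟨τ, rfl⟩ := (hmem χ').1 hχ'
    have h1 := Associates.mk_eq_mk_iff_associated.2 h
    rw [hrepmk, hrepmk] at h1
    rw [h1]
  have hD : ∀ χ ∈ Ψ, Irreducible χ ∧ dX χ = dX ψ ∧ dY χ = dY ψ := by
    intro χ hχ
    obtain ⟨σ, hσ⟩ := hA χ hχ
    refine ⟨hσ.symm.irreducible (gf_irr σ ψ hψirr), ?_, ?_⟩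
    · rw [dX_assoc _ _ hσ, dX_mp]
    · rw [dY_assoc _ _ hσ, dY_mp]
  have hE : ∀ χ ∈ Ψ, χ ∣ f' := by
    intro χ hχ
    obtain ⟨σ, hσ⟩ := hA χ hχ
    exact hσ.dvd.trans (hσdvd σ)
  have hne : ∀ χ ∈ Ψ, χ ≠ 0 := fun χ hχ => (hD χ hχ).1.ne_zero
  set Q : BP Ω := ∏ χ ∈ Ψ, χ with hQ
  have hQ0 : Q ≠ 0 := Finset.prod_ne_zero_iff.2 hne
  have hQdvd : Q ∣ f' := prod_dvd Ψ (fun χ => χ) f' (fun χ hχ => (hD χ hχ).1) hC hE
  have hQσ : ∀ σ : Ω ≃ₐ[k] Ω, Q ∣ mp (σ : Ω →+* Ω) Q := by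
    intro σ
    refine prod_dvd Ψ (fun χ => χ) _ (fun χ hχ => (hD χ hχ).1) hC ?_
    intro χ hχ
    obtain ⟨τ, hτ⟩ := hA χ hχ
    obtain ⟨χ', hχ', hτ'⟩ := hB (σ⁻¹ * τ)
    have h1 : χ' ∣ Q := Finset.dvd_prod_of_mem (fun χ : BP Ω => χ) hχ'
    have h2 : mp (σ : Ω →+* Ω) χ' ∣ mp (σ : Ω →+* Ω) Q := _root_.map_dvd (mp (σ : Ω →+* Ω)) h1
    have h3 : Associated (mp (σ : Ω →+* Ω) χ')
        (mp (σ : Ω →+* Ω) (mp ((σ⁻¹ * τ : Ω ≃ₐ[k] Ω) : Ω →+* Ω) ψ)) :=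
      hτ'.map (mp (σ : Ω →+* Ω))
    rw [gf_mp_mul, mul_inv_cancel_left] at h3
    exact (hτ.trans h3.symm).dvd.trans h2
  have hQas : ∀ σ : Ω ≃ₐ[k] Ω, Associated (mp (σ : Ω →+* Ω) Q) Q := by
    intro σ
    refine associated_of_dvd_dvd ?_ (hQσ σ)
    have h1 : mp (σ : Ω →+* Ω) Q ∣
        mp (σ : Ω →+* Ω) (mp ((σ⁻¹ : Ω ≃ₐ[k] Ω) : Ω →+* Ω) Q) := _root_.map_dvd (mp (σ : Ω →+* Ω)) (hQσ σ⁻¹)
    rwa [gf_mp_mul, mul_inv_cancel, gf_mp_one] at h1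
  set c : Ω := Q.leadingCoeff.leadingCoeff with hc
  have hc0 : c ≠ 0 := leadingCoeff_ne_zero.2 (leadingCoeff_ne_zero.2 hQ0)
  set Q' : BP Ω := C (C c⁻¹) * Q with hQ'
  have hunit : IsUnit (C (C c⁻¹) : BP Ω) :=
    ((isUnit_iff_ne_zero.2 (inv_ne_zero hc0)).map (C : Ω →+* Polynomial Ω)).map
      (C : Polynomial Ω →+* BP Ω)
  have hQ'as : Associated Q' Q := by
    obtain ⟨u, hu⟩ := hunit
    rw [hQ', ← hu, mul_comm]
    exact associated_mul_unit_left _ _ u.isUnit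
  have hlead : Q'.leadingCoeff.leadingCoeff = 1 := by
    rw [hQ', leadingCoeff_mul, leadingCoeff_C, leadingCoeff_mul, leadingCoeff_C, ← hc,
      inv_mul_cancel₀ hc0]
  have hfix : ∀ σ : Ω ≃ₐ[k] Ω, mp (σ : Ω →+* Ω) Q' = Q' := by
    intro σ
    refine assoc_eq_of_lead _ _ ?_ ?_ hlead
    · exact (hQ'as.map (mp (σ : Ω →+* Ω))).trans ((hQas σ).trans hQ'as.symm)
    · rw [gf_lead_mp, hlead, map_one]
  obtain ⟨g, hg⟩ := exists_mp_of_fixed Q' hfix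
  have hgdvd : g ∣ f₀ := by
    refine dvd_of_mp_dvd (k := k) (Ω := Ω) g f₀ ?_
    rw [hg]
    exact hQ'as.dvd.trans hQdvd
  have hgu : ¬ IsUnit g := by
    intro h
    have h1 : IsUnit (mp (algebraMap k Ω) g) := h.map _
    rw [hg] at h1
    have h2 : IsUnit Q := hQ'as.isUnit h1
    have h3 : ψ ∣ Q := Finset.dvd_prod_of_mem (fun χ : BP Ω => χ) hψΨ
    exact hψirr.not_isUnit (isUnit_of_dvd_unit h3 h2)
  have hgas : Associated g f₀ := by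
    obtain ⟨e, he⟩ := hgdvd
    have h1 : IsUnit e := (hf₀.isUnit_or_isUnit he).resolve_left hgu
    rw [he]
    exact (associated_mul_unit_left g e h1).symm
  have hdX : Ψ.card * dX ψ = dX f₀ := by
    rw [← dX_assoc _ _ hgas, ← dX_mp (algebraMap k Ω) g, hg, dX_assoc _ _ hQ'as, hQ,
      gf_dX_prod _ hne, Finset.sum_congr rfl (fun χ hχ => (hD χ hχ).2.1), Finset.sum_const,
      smul_eq_mul]
  have hdY : Ψ.card * dY ψ = dY f₀ := by
    rw [← dY_assoc _ _ hgas, ← dY_mp (algebraMap k Ω) g, hg, dY_assoc _ _ hQ'as, hQ,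
      gf_dY_prod _ hne, Finset.sum_congr rfl (fun χ hχ => (hD χ hχ).2.2), Finset.sum_const,
      smul_eq_mul]
  refine ⟨ψ, Ψ, hψΨ, hψ0, ?_, hD, hA, hB, hC, hE, hdX, hdY⟩
  rcases Nat.eq_zero_or_pos (dX ψ) with h | h
  · rw [h, mul_zero] at hdX
    omega
  · exact h

end Pool.Agent.H72.PL
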