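import Pool.Agent.H72.PL.GDesc

/-!
# Module GPush: image of a curve under `(Y, X) ↦ (Y^q, X^q)` (paper proof: proposal 65, section 7)

`μ = μ_q(Ω)` has `q` elements (algebraically closed, characteristic 0). `Π = ∏_{ξ ∈ μ × μ} tw ξ ψ`.
* `tw η Π = Π` for `η ∈ μ × μ` (`tw_tw`, permutation of the factors). With a primitive `q`-th root `ζ` and
  `η = (ζ, 1)`, `(1, ζ)`: the coefficient of `Y^a X^b` in `Π` vanishes unless `q ∣ a` and `q ∣ b`
  (`coeff_tw`), so `Π = ex q π` for some `π` (lemma `exists_ex`: a polynomial invariant under `tw (ζ,1)` and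
  `tw (1,ζ)` is in the image of `ex q`).
* degrees: `dX (tw ξ ψ) = dX ψ` (`coeff_tw`), `dX Π = q^2 dX ψ`, `dX (ex q π) = q dX π`; so
  `dX π = q dX ψ`.
* `ψ ∣ Π = ex q π`.
* Let `ψ ∣ ex q G`, `G ≠ 0`. Then `tw ξ ψ ∣ tw ξ (ex q G) = ex q G` (`tw_ex`); the `q^2` polynomials
  `tw ξ ψ` are irreducible and pairwise non-associated (`hne`: `tw ξ ψ ~ tw ξ' ψ` gives
  `tw (ξ ξ'⁻¹) ψ ~ ψ`), so `Π ∣ ex q G` (`prod_dvd`), `ex q G = Π h`. `h` is invariant under the twists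
  (cancel `Π ≠ 0`), so `h = ex q h'` and `G = π h'` (`ex q` is injective, `ex_ne_zero`).
* `π` irreducible: not a unit, not zero (`dX`, or `ψ ∣ ex q π`). If `π = A B` then `ψ ∣ ex q A * ex q B`,
  `ψ` prime, say `ψ ∣ ex q A`, so `π ∣ A` and `B` is a unit.
* `χ` irreducible, `χ ∣ ex q π = Π`: `χ` is prime, divides some `tw ξ ψ`, associated.
-/

set_option autoImplicit false

open Polynomial Module

namespace Pool.Agent.H72.PL

variable {Ω : Type} [Field Ω]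

theorem gpush_inv_left (ξ : Ω × Ω) (h1 : ξ.1 ≠ 0) (h2 : ξ.2 ≠ 0) (G : BP Ω) :
    tw (ξ.1⁻¹, ξ.2⁻¹) (tw ξ G) = G := by
  rw [tw_tw]
  have e : ((ξ.1⁻¹, ξ.2⁻¹) : Ω × Ω) * ξ = 1 := by
    ext
    · simp [h1]
    · simp [h2]
  rw [e, tw_one]

theorem gpush_inv_right (ξ : Ω × Ω) (h1 : ξ.1 ≠ 0) (h2 : ξ.2 ≠ 0) (G : BP Ω) :
    tw ξ (tw (ξ.1⁻¹, ξ.2⁻¹) G) = G := by
  rw [tw_tw]
  have e : ξ * ((ξ.1⁻¹, ξ.2⁻¹) : Ω × Ω) = 1 := by
    ext
    · simp [h1]
    · simp [h2]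
  rw [e, tw_one]

/-- the twist as an automorphism -/
noncomputable def gpushTwE (ξ : Ω × Ω) (h1 : ξ.1 ≠ 0) (h2 : ξ.2 ≠ 0) : BP Ω ≃+* BP Ω :=
  RingEquiv.ofRingHom (tw ξ) (tw (ξ.1⁻¹, ξ.2⁻¹))
    (RingHom.ext fun G => gpush_inv_right ξ h1 h2 G) (RingHom.ext fun G => gpush_inv_left ξ h1 h2 G)

theorem gpushTwE_apply (ξ : Ω × Ω) (h1 : ξ.1 ≠ 0) (h2 : ξ.2 ≠ 0) (G : BP Ω) :
    gpushTwE ξ h1 h2 G = tw ξ G := rfl

theorem tw_irr (ξ : Ω × Ω) (h1 : ξ.1 ≠ 0) (h2 : ξ.2 ≠ 0) (ψ : BP Ω) (h : Irreducible ψ) :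
    Irreducible (tw ξ ψ) := by
  rw [← gpushTwE_apply ξ h1 h2]
  exact (MulEquiv.irreducible_iff (gpushTwE ξ h1 h2)).2 h

theorem dX_tw (ξ : Ω × Ω) (h1 : ξ.1 ≠ 0) (h2 : ξ.2 ≠ 0) (ψ : BP Ω) : dX (tw ξ ψ) = dX ψ := by
  have hc : ∀ b, (tw ξ ψ).coeff b = 0 ↔ ψ.coeff b = 0 := by
    intro b
    constructor
    · intro h
      ext a
      have h3 := coeff_tw ξ ψ a b
      rw [h, coeff_zero] at h3
      rcases mul_eq_zero.1 h3.symm with h4 | h4
      · exact absurd h4 (mul_ne_zero (pow_ne_zero _ h1) (pow_ne_zero _ h2))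
      · rw [h4, coeff_zero]
    · intro h
      ext a
      rw [coeff_tw, h, coeff_zero, mul_zero]
  unfold dX
  apply le_antisymm
  · rw [natDegree_le_iff_coeff_eq_zero]
    intro N hN
    rw [hc]
    exact coeff_eq_zero_of_natDegree_lt hN
  · rw [natDegree_le_iff_coeff_eq_zero]
    intro N hN
    rw [← hc]
    exact coeff_eq_zero_of_natDegree_lt hN

theorem gpush_prim [IsAlgClosed Ω] [CharZero Ω] (q : ℕ) (hq : 1 ≤ q) :
    ∃ ζ : Ω, IsPrimitiveRoot ζ q := by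
  haveI : NeZero q := ⟨by omega⟩
  haveI : NeZero (q : Ω) := ⟨by
    rw [Nat.cast_ne_zero]
    omega⟩
  exact HasEnoughRootsOfUnity.exists_primitiveRoot Ω q

theorem exists_ex [IsAlgClosed Ω] [CharZero Ω] (q : ℕ) (hq : 1 ≤ q) (G : BP Ω)
    (h : ∀ ξ : Ω × Ω, ξ.1 ^ q = 1 → ξ.2 ^ q = 1 → tw ξ G = G) : ∃ g : BP Ω, ex q g = G := by
  obtain ⟨ζ, hζ⟩ := gpush_prim (Ω := Ω) q hq
  have hq0 : q ≠ 0 := by omega
  have hdiv : ∀ a b, (G.coeff b).coeff a ≠ 0 → q ∣ a ∧ q ∣ b := by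
    intro a b hne
    constructor
    · have h1 := coeff_tw (ζ, 1) G a b
      rw [h (ζ, 1) hζ.pow_eq_one (one_pow q)] at h1
      simp only [one_pow, mul_one] at h1
      have h2 : ζ ^ a = 1 := by
        have h3 : (ζ ^ a - 1) * (G.coeff b).coeff a = 0 := by
          rw [sub_mul, one_mul, ← h1, sub_self]
        rcases mul_eq_zero.1 h3 with h4 | h4
        · exact sub_eq_zero.1 h4
        · exact absurd h4 hne
      exact (hζ.pow_eq_one_iff_dvd a).1 h2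
    · have h1 := coeff_tw (1, ζ) G a b
      rw [h (1, ζ) (one_pow q) hζ.pow_eq_one] at h1
      simp only [one_pow, one_mul] at h1
      have h2 : ζ ^ b = 1 := by
        have h3 : (ζ ^ b - 1) * (G.coeff b).coeff a = 0 := by
          rw [sub_mul, one_mul, ← h1, sub_self]
        rcases mul_eq_zero.1 h3 with h4 | h4
        · exact sub_eq_zero.1 h4
        · exact absurd h4 hne
      exact (hζ.pow_eq_one_iff_dvd b).1 h2
  let g : BP Ω := ∑ b ∈ Finset.range (G.natDegree + 1), monomial b (contract q (G.coeff (b * q)))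
  have hg : ∀ b, g.coeff b = contract q (G.coeff (b * q)) := by
    intro b
    simp only [g, finset_sum_coeff, coeff_monomial]
    rw [Finset.sum_ite_eq' (Finset.range (G.natDegree + 1)) b]
    split_ifs with hb
    · rfl
    · rw [Finset.mem_range] at hb
      have h1 : G.natDegree < b * q := by
        calc G.natDegree < b := by omega
          _ = b * 1 := (mul_one b).symm
          _ ≤ b * q := Nat.mul_le_mul_left b hq
      rw [coeff_eq_zero_of_natDegree_lt h1]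
      ext a
      rw [coeff_contract hq0, coeff_zero, coeff_zero]
  refine ⟨g, ?_⟩
  ext b a
  rw [coeff_ex q hq]
  split_ifs with hab
  · rw [hg, coeff_contract hq0, Nat.div_mul_cancel hab.1, Nat.div_mul_cancel hab.2]
  · by_contra hne
    exact hab (hdiv a b (Ne.symm hne))

theorem gpush_ex_inj (q : ℕ) (hq : 1 ≤ q) : Function.Injective (ex q : BP Ω →+* BP Ω) := by
  intro g g' h
  ext b a
  have h1 := coeff_ex q hq g (a * q) (b * q)
  have h2 := coeff_ex q hq g' (a * q) (b * q)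
  rw [h, h2, if_pos ⟨Dvd.intro_left a rfl, Dvd.intro_left b rfl⟩,
    if_pos ⟨Dvd.intro_left a rfl, Dvd.intro_left b rfl⟩, Nat.mul_div_cancel _ hq,
    Nat.mul_div_cancel _ hq] at h1
  exact h1.symm

theorem gpush_dX_ex (q : ℕ) (hq : 1 ≤ q) (g : BP Ω) : dX (ex q g) = q * dX g := by
  unfold dX ex
  rw [RingHom.comp_apply]
  have e1 : ((expand (Polynomial Ω) q).toRingHom : BP Ω →+* BP Ω)
      ((mapRingHom (expand Ω q).toRingHom) g) =
      expand (Polynomial Ω) q (Polynomial.map (expand Ω q).toRingHom g) := rfl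
  rw [e1, natDegree_expand, natDegree_map_eq_of_injective, mul_comm]
  intro x y hxy
  exact expand_injective hq hxy

theorem push [IsAlgClosed Ω] [CharZero Ω] (q : ℕ) (hq : 1 ≤ q) (ψ : BP Ω)
    (hψ : Irreducible ψ) (hne : ∀ ξ : Ω × Ω, ξ.1 ^ q = 1 → ξ.2 ^ q = 1 →
      Associated (tw ξ ψ) ψ → ξ = 1) :
    ∃ π : BP Ω, Irreducible π ∧ dX π = q * dX ψ ∧ ψ ∣ ex q π ∧
      (∀ G : BP Ω, ψ ∣ ex q G → π ∣ G) ∧
      ∀ χ : BP Ω, Irreducible χ → χ ∣ ex q π →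
        ∃ ξ : Ω × Ω, ξ.1 ^ q = 1 ∧ ξ.2 ^ q = 1 ∧ Associated χ (tw ξ ψ) := by
  classical
  obtain ⟨ζ, hζ⟩ := gpush_prim (Ω := Ω) q hq
  have hq0 : 0 < q := by omega
  let S : Finset (Ω × Ω) := nthRootsFinset q (1 : Ω) ×ˢ nthRootsFinset q (1 : Ω)
  have hS : ∀ ξ : Ω × Ω, ξ ∈ S ↔ ξ.1 ^ q = 1 ∧ ξ.2 ^ q = 1 := by
    intro ξ
    simp only [S, Finset.mem_product, mem_nthRootsFinset hq0]
  have hScard : S.card = q * q := by
    simp only [S, Finset.card_product, hζ.card_nthRootsFinset]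
  have hn0 : ∀ x : Ω, x ^ q = 1 → x ≠ 0 := by
    rintro x hx rfl
    rw [zero_pow hq0.ne'] at hx
    exact zero_ne_one hx
  have hinvq : ∀ x : Ω, x ^ q = 1 → (x⁻¹) ^ q = 1 := by
    intro x hx
    rw [inv_pow, hx, inv_one]
  let P : BP Ω := ∏ ξ ∈ S, tw ξ ψ
  have hirr : ∀ ξ ∈ S, Irreducible (tw ξ ψ) := by
    intro ξ hξ
    rw [hS] at hξ
    exact tw_irr ξ (hn0 _ hξ.1) (hn0 _ hξ.2) ψ hψ
  have hP0 : P ≠ 0 := Finset.prod_ne_zero_iff.2 fun ξ hξ => (hirr ξ hξ).ne_zero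
  have hPinv : ∀ η : Ω × Ω, η.1 ^ q = 1 → η.2 ^ q = 1 → tw η P = P := by
    intro η h1 h2
    show tw η (∏ ξ ∈ S, tw ξ ψ) = ∏ ξ ∈ S, tw ξ ψ
    rw [map_prod]
    refine Finset.prod_nbij' (fun ξ => η * ξ) (fun ξ => (η.1⁻¹, η.2⁻¹) * ξ) ?_ ?_ ?_ ?_ ?_
    · intro ξ hξ
      rw [hS] at hξ ⊢
      exact ⟨by rw [Prod.fst_mul, mul_pow, h1, hξ.1, one_mul],
        by rw [Prod.snd_mul, mul_pow, h2, hξ.2, one_mul]⟩
    · intro ξ hξ
      rw [hS] at hξ ⊢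
      exact ⟨by rw [Prod.fst_mul, mul_pow, hinvq _ h1, hξ.1, one_mul],
        by rw [Prod.snd_mul, mul_pow, hinvq _ h2, hξ.2, one_mul]⟩
    · intro ξ _
      ext
      · simp [hn0 _ h1]
      · simp [hn0 _ h2]
    · intro ξ _
      ext
      · simp [hn0 _ h1]
      · simp [hn0 _ h2]
    · intro ξ _
      exact tw_tw η ξ ψ
  obtain ⟨π, hπ⟩ := exists_ex q hq P hPinv
  have hone : (1 : Ω × Ω) ∈ S := by
    rw [hS]
    exact ⟨one_pow q, one_pow q⟩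
  have hψP : ψ ∣ P := by
    have h1 := Finset.dvd_prod_of_mem (fun ξ => tw ξ ψ) hone
    simp only [tw_one] at h1
    exact h1
  have hassoc : ∀ ξ ∈ S, ∀ ξ' ∈ S, Associated (tw ξ ψ) (tw ξ' ψ) → ξ = ξ' := by
    intro ξ hξ ξ' hξ' h
    rw [hS] at hξ hξ'
    have h1 : Associated (tw (ξ'.1⁻¹, ξ'.2⁻¹) (tw ξ ψ)) (tw (ξ'.1⁻¹, ξ'.2⁻¹) (tw ξ' ψ)) :=
      h.map (tw (ξ'.1⁻¹, ξ'.2⁻¹))
    rw [gpush_inv_left ξ' (hn0 _ hξ'.1) (hn0 _ hξ'.2), tw_tw] at h1
    have h2 := hne _ (by rw [Prod.fst_mul, mul_pow, hinvq _ hξ'.1, hξ.1, one_mul])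
      (by rw [Prod.snd_mul, mul_pow, hinvq _ hξ'.2, hξ.2, one_mul]) h1
    have h3 : ξ'.1⁻¹ * ξ.1 = 1 := congrArg Prod.fst h2
    have h4 : ξ'.2⁻¹ * ξ.2 = 1 := congrArg Prod.snd h2
    ext
    · rw [inv_mul_eq_one₀ (hn0 _ hξ'.1)] at h3
      exact h3.symm
    · rw [inv_mul_eq_one₀ (hn0 _ hξ'.2)] at h4
      exact h4.symm
  have hπ0 : π ≠ 0 := by
    rintro rfl
    rw [map_zero] at hπ
    exact hP0 hπ.symm
  have hdiv : ∀ G : BP Ω, ψ ∣ ex q G → π ∣ G := by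
    intro G hG
    have h1 : P ∣ ex q G := by
      refine prod_dvd S (fun ξ => tw ξ ψ) (ex q G) hirr hassoc ?_
      intro ξ hξ
      rw [hS] at hξ
      have h2 := map_dvd (tw ξ) hG
      rwa [tw_ex ξ q hξ.1 hξ.2] at h2
    obtain ⟨h, hh⟩ := h1
    have h2 : ∀ η : Ω × Ω, η.1 ^ q = 1 → η.2 ^ q = 1 → tw η h = h := by
      intro η h3 h4
      have h5 := congrArg (tw η) hh
      rw [tw_ex η q h3 h4, map_mul, hPinv η h3 h4, hh] at h5
      exact (mul_left_cancel₀ hP0 h5).symm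
    obtain ⟨h', hh'⟩ := exists_ex q hq h h2
    refine ⟨h', gpush_ex_inj q hq ?_⟩
    rw [hh, map_mul, hπ, hh']
  have hprime : Prime ψ := hψ.prime
  refine ⟨π, ?_, ?_, ?_, hdiv, ?_⟩
  · rw [irreducible_iff]
    constructor
    · intro hu
      have h1 : IsUnit P := by
        rw [← hπ]
        exact hu.map (ex q)
      exact hψ.not_isUnit (isUnit_of_dvd_unit hψP h1)
    · intro A B hAB
      have h1 : ψ ∣ ex q A * ex q B := by
        rw [← map_mul, ← hAB, hπ]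
        exact hψP
      have hA0 : A ≠ 0 := by
        rintro rfl
        rw [zero_mul] at hAB
        exact hπ0 hAB
      have hB0 : B ≠ 0 := by
        rintro rfl
        rw [mul_zero] at hAB
        exact hπ0 hAB
      rcases hprime.dvd_or_dvd h1 with h2 | h2
      · right
        obtain ⟨C', hC'⟩ := hdiv A h2
        have h3 : A * 1 = A * (B * C') := by
          rw [← mul_assoc, ← hAB, mul_one]
          exact hC'
        have h4 := mul_left_cancel₀ hA0 h3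
        exact IsUnit.of_mul_eq_one _ h4.symm
      · left
        obtain ⟨C', hC'⟩ := hdiv B h2
        have h3 : B * 1 = B * (A * C') := by
          rw [← mul_assoc, mul_comm B A, ← hAB, mul_one]
          exact hC'
        have h4 := mul_left_cancel₀ hB0 h3
        exact IsUnit.of_mul_eq_one _ h4.symm
  · have h1 : dX P = q * q * dX ψ := by
      show (∏ ξ ∈ S, tw ξ ψ).natDegree = q * q * dX ψ
      rw [natDegree_prod _ _ fun ξ hξ => (hirr ξ hξ).ne_zero]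
      have h2 : ∀ ξ ∈ S, (tw ξ ψ).natDegree = dX ψ := by
        intro ξ hξ
        rw [hS] at hξ
        exact dX_tw ξ (hn0 _ hξ.1) (hn0 _ hξ.2) ψ
      rw [Finset.sum_congr rfl h2, Finset.sum_const, hScard, smul_eq_mul]
    have h2 := gpush_dX_ex q hq π
    rw [hπ, h1, mul_assoc] at h2
    exact (Nat.eq_of_mul_eq_mul_left hq0 h2).symm
  · rw [hπ]
    exact hψP
  · intro χ hχ hχπ
    rw [hπ] at hχπ
    obtain ⟨ξ, hξ, h1⟩ := hχ.prime.exists_mem_finset_dvd hχπ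
    have h2 : Associated χ (tw ξ ψ) := (hχ.dvd_irreducible_iff_associated (hirr ξ hξ)).1 h1
    rw [hS] at hξ
    exact ⟨ξ, hξ.1, hξ.2, h2⟩

end Pool.Agent.H72.PL
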