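import Pool.Agent.H72.PL.GDesc

/-!
# Module GStab: twists fixing a polynomial with non collinear support (prop. 65, section 7)

`InSupp ψ p`: the coefficient of `Y^(p.1) X^(p.2)` is not zero. `area p₀ p₁ p₂` = the determinant of
the differences.
1. `stab_det`: `tw ξ ψ = u ψ`, `u` a unit of `BP Ω`, i.e. a constant `C (C c)`, `c ≠ 0`. Comparing
   coefficients at `p_i = (a_i, b_i)`: `ξ₁^(a_i) ξ₂^(b_i) = c` (`coeff_tw`). So
   `ξ₁^(a_i - a_0) ξ₂^(b_i - b_0) = 1` (integer exponents, `i = 1, 2`; `ξ₁, ξ₂ ≠ 0` since `ξ^q = 1`,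
   `q ≥ 1`), and by Cramer `ξ₁^D = ξ₂^D = 1`: take the first relation to the power `b_2 - b_0` and the
   second to the power `-(b_1 - b_0)`, etc. As also `ξ₁^q = 1` and `gcd(D, q) = 1`: `ξ₁ = 1`, `ξ₂ = 1`.
2. `area_le`: `a_i ≤ dY ψ`, `b_i ≤ dX ψ` (`dY_le`, `natDegree`), so `|D| ≤ 2 dX ψ dY ψ`.
3. `coprime_count`: `D ≠ 0`, `q` pairwise coprime on `S` and none coprime to `D`:
   `g_t = gcd(q_t, D) ≥ 2` are pairwise coprime divisors of `D`, so their product divides `D`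
   (`Finset.prod_dvd_of_coprime`), `2^#S ≤ |D|`.
-/

set_option autoImplicit false

open Polynomial Module

namespace Pool.Agent.H72.PL

/-- the coefficient of `Y^(p.1) X^(p.2)` is not zero -/
def InSupp {Ω : Type} [Field Ω] (ψ : BP Ω) (p : ℕ × ℕ) : Prop := (ψ.coeff p.2).coeff p.1 ≠ 0

/-- twice the signed area of a triangle -/
def area (p₀ p₁ p₂ : ℕ × ℕ) : ℤ :=
  ((p₁.1 : ℤ) - p₀.1) * ((p₂.2 : ℤ) - p₀.2) - ((p₂.1 : ℤ) - p₀.1) * ((p₁.2 : ℤ) - p₀.2)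

/-- the support contains three non collinear points -/
def NonCol {Ω : Type} [Field Ω] (ψ : BP Ω) : Prop :=
  ∃ p₀ p₁ p₂ : ℕ × ℕ, InSupp ψ p₀ ∧ InSupp ψ p₁ ∧ InSupp ψ p₂ ∧ area p₀ p₁ p₂ ≠ 0

theorem gstab_cramer {G : Type} [CommGroup G] (x y : G) (m1 n1 m2 n2 : ℤ)
    (h1 : x ^ m1 * y ^ n1 = 1) (h2 : x ^ m2 * y ^ n2 = 1) : x ^ (m1 * n2 - m2 * n1) = 1 := by
  have e1 : x ^ m1 = y ^ (-n1) := by rw [zpow_neg]; exact eq_inv_of_mul_eq_one_left h1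
  have e2 : x ^ m2 = y ^ (-n2) := by rw [zpow_neg]; exact eq_inv_of_mul_eq_one_left h2
  rw [zpow_sub, zpow_mul, zpow_mul, e1, e2, ← zpow_mul, ← zpow_mul]
  have : -n1 * n2 = -n2 * n1 := by ring
  rw [this, mul_inv_cancel]

theorem gstab_coprime {G : Type} [CommGroup G] (x : G) (D : ℤ) (q : ℕ)
    (hcop : IsCoprime D (q : ℤ)) (h1 : x ^ D = 1) (h2 : x ^ q = 1) : x = 1 := by
  obtain ⟨u, v, huv⟩ := hcop
  have h3 : x ^ (q : ℤ) = 1 := by rw [zpow_natCast]; exact h2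
  calc x = x ^ (u * D + v * q) := by rw [huv, zpow_one]
    _ = 1 := by rw [zpow_add, mul_comm u, mul_comm v, zpow_mul, zpow_mul, h1, h3, one_zpow,
      one_zpow, one_mul]

theorem stab_det {Ω : Type} [Field Ω] (ψ : BP Ω) (p₀ p₁ p₂ : ℕ × ℕ) (h0 : InSupp ψ p₀)
    (h1 : InSupp ψ p₁) (h2 : InSupp ψ p₂) (q : ℕ) (hq : 1 ≤ q)
    (hcop : IsCoprime (area p₀ p₁ p₂) (q : ℤ)) (ξ : Ω × Ω) (hξ1 : ξ.1 ^ q = 1)
    (hξ2 : ξ.2 ^ q = 1) (h : Associated (tw ξ ψ) ψ) : ξ = 1 := by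
  obtain ⟨u, hu⟩ := h
  obtain ⟨r, hr, hru⟩ := Polynomial.isUnit_iff.1 u.isUnit
  obtain ⟨c, hc, hcr⟩ := Polynomial.isUnit_iff.1 hr
  rw [← hru, ← hcr] at hu
  have hx0 : ξ.1 ≠ 0 := by
    intro h0
    rw [h0, zero_pow (by omega)] at hξ1
    exact zero_ne_one hξ1
  have hy0 : ξ.2 ≠ 0 := by
    intro h0
    rw [h0, zero_pow (by omega)] at hξ2
    exact zero_ne_one hξ2
  have key : ∀ p : ℕ × ℕ, InSupp ψ p → ξ.1 ^ p.1 * ξ.2 ^ p.2 * c = 1 := by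
    intro p hp
    have h3 : ((tw ξ ψ * C (C c)).coeff p.2).coeff p.1 = (ψ.coeff p.2).coeff p.1 := by rw [hu]
    rw [coeff_mul_C, coeff_mul_C, coeff_tw] at h3
    have h4 : (ξ.1 ^ p.1 * ξ.2 ^ p.2 * c - 1) * (ψ.coeff p.2).coeff p.1 = 0 := by
      linear_combination h3
    rcases mul_eq_zero.1 h4 with h5 | h5
    · exact sub_eq_zero.1 h5
    · exact absurd h5 hp
  obtain ⟨x, hx⟩ : ∃ x : Ωˣ, (x : Ω) = ξ.1 := ⟨Units.mk0 ξ.1 hx0, rfl⟩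
  obtain ⟨y, hy⟩ : ∃ y : Ωˣ, (y : Ω) = ξ.2 := ⟨Units.mk0 ξ.2 hy0, rfl⟩
  obtain ⟨c', hc'⟩ : ∃ c' : Ωˣ, (c' : Ω) = c := ⟨hc.unit, rfl⟩
  have key2 : ∀ p : ℕ × ℕ, InSupp ψ p → x ^ p.1 * y ^ p.2 * c' = 1 := by
    intro p hp
    apply Units.ext
    push_cast
    rw [hx, hy, hc']
    exact key p hp
  have key3 : ∀ p, InSupp ψ p → x ^ ((p.1 : ℤ) - p₀.1) * y ^ ((p.2 : ℤ) - p₀.2) = 1 := by
    intro p hp
    have e1 := (key2 p hp).trans (key2 p₀ h0).symm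
    have e2 := mul_right_cancel e1
    rw [zpow_sub, zpow_sub, zpow_natCast, zpow_natCast, zpow_natCast, zpow_natCast]
    calc x ^ p.1 * (x ^ p₀.1)⁻¹ * (y ^ p.2 * (y ^ p₀.2)⁻¹) =
        (x ^ p.1 * y ^ p.2) * (x ^ p₀.1 * y ^ p₀.2)⁻¹ := by
          rw [mul_inv]
          exact mul_mul_mul_comm _ _ _ _
      _ = 1 := by rw [e2, mul_inv_cancel]
  have hX : x ^ (area p₀ p₁ p₂) = 1 := gstab_cramer x y _ _ _ _ (key3 p₁ h1) (key3 p₂ h2)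
  have hY : y ^ (area p₀ p₁ p₂) = 1 := by
    have := gstab_cramer y x ((p₂.2 : ℤ) - p₀.2) ((p₂.1 : ℤ) - p₀.1) ((p₁.2 : ℤ) - p₀.2)
      ((p₁.1 : ℤ) - p₀.1) (by rw [mul_comm]; exact key3 p₂ h2) (by rw [mul_comm]; exact key3 p₁ h1)
    rw [← this]
    congr 1
    unfold area
    ring
  have hx1 : x = 1 := gstab_coprime x _ q hcop hX (by
    apply Units.ext
    push_cast
    rw [hx]
    exact hξ1)
  have hy1 : y = 1 := gstab_coprime y _ q hcop hY (by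
    apply Units.ext
    push_cast
    rw [hy]
    exact hξ2)
  refine Prod.ext ?_ ?_
  · rw [← hx, hx1]
    rfl
  · rw [← hy, hy1]
    rfl

theorem area_le {Ω : Type} [Field Ω] (ψ : BP Ω) (p₀ p₁ p₂ : ℕ × ℕ) (h0 : InSupp ψ p₀)
    (h1 : InSupp ψ p₁) (h2 : InSupp ψ p₂) :
    (area p₀ p₁ p₂).natAbs ≤ 2 * (dX ψ * dY ψ) := by
  have key : ∀ p : ℕ × ℕ, InSupp ψ p → p.1 ≤ dY ψ ∧ p.2 ≤ dX ψ := by
    intro p hp
    constructor
    · exact (le_natDegree_of_ne_zero hp).trans ((dY_le ψ (dY ψ)).1 le_rfl p.2)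
    · refine le_natDegree_of_ne_zero (fun h0 => hp ?_)
      rw [h0, coeff_zero]
  obtain ⟨a0, b0⟩ := key p₀ h0
  obtain ⟨a1, b1⟩ := key p₁ h1
  obtain ⟨a2, b2⟩ := key p₂ h2
  unfold area
  refine (Int.natAbs_sub_le _ _).trans ?_
  rw [Int.natAbs_mul, Int.natAbs_mul, two_mul]
  refine Nat.add_le_add ?_ ?_
  · rw [mul_comm (dX ψ)]
    exact Nat.mul_le_mul (by omega) (by omega)
  · rw [mul_comm (dX ψ)]
    exact Nat.mul_le_mul (by omega) (by omega)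

theorem coprime_count {ι : Type} (S : Finset ι) (q : ι → ℕ) (D : ℤ) (hD : D ≠ 0)
    (hcop : (S : Set ι).Pairwise fun s t => Nat.Coprime (q s) (q t))
    (h : ∀ t ∈ S, ¬ IsCoprime D (q t : ℤ)) : 2 ^ S.card ≤ D.natAbs := by
  have hDn : D.natAbs ≠ 0 := Int.natAbs_ne_zero.2 hD
  have h1 : ∀ t ∈ S, 2 ≤ Nat.gcd (q t) D.natAbs := by
    intro t ht
    have h2 := h t ht
    rw [Int.isCoprime_iff_gcd_eq_one] at h2
    have h3 : Int.gcd D (q t : ℤ) = Nat.gcd (q t) D.natAbs := by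
      rw [Int.gcd, Int.natAbs_natCast, Nat.gcd_comm]
    rw [h3] at h2
    have h4 : Nat.gcd (q t) D.natAbs ≠ 0 := fun h0 => hDn (Nat.eq_zero_of_gcd_eq_zero_right h0)
    omega
  have h2 : ∏ t ∈ S, Nat.gcd (q t) D.natAbs ∣ D.natAbs := by
    refine Finset.prod_dvd_of_isRelPrime ?_ (fun t _ => Nat.gcd_dvd_right _ _)
    intro s hs t ht hst
    show IsRelPrime (Nat.gcd (q s) D.natAbs) (Nat.gcd (q t) D.natAbs)
    rw [← Nat.coprime_iff_isRelPrime]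
    exact Nat.Coprime.coprime_dvd_left (Nat.gcd_dvd_left _ _)
      (Nat.Coprime.coprime_dvd_right (Nat.gcd_dvd_left _ _) (hcop hs ht hst))
  calc 2 ^ S.card ≤ ∏ t ∈ S, Nat.gcd (q t) D.natAbs := Finset.pow_card_le_prod _ _ _ h1
    _ ≤ D.natAbs := Nat.le_of_dvd (Nat.pos_of_ne_zero hDn) h2

end Pool.Agent.H72.PL
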