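import Pool.Agent.H72.PL.RankBox

/-!
# Module Greedy: independent elements of small degree in `Y` (paper proof: proposal 65, section 5)

Choose `g_0, g_1, ..` successively. Suppose `g_0 .. g_(i-1) ∈ V` (`i < m`) are chosen, with `toF g_j`
linearly independent over `F = k(Y)`, `D` their span, `dim D = i`. Let `e = min M (ρ / (m - i))` and
`V_e = V ⊓ Box k e (m-1)`. Claim: some `g ∈ V_e` has `toF g ∉ D`; then `g_i := g`, `dY g ≤ e ≤ ρ/(m-i)`
(`mem_box`).
 * `e = M`: `V_e = V`; if `toF V ⊆ D` then `spF V ≤ D`, `m ≤ i`, contradiction.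
 * `e < M`: `e = ρ / (m-i)`, so `ρ < (e+1)(m-i)`. If `toF V_e ⊆ D` then `spF V_e ≤ D`,
   `finrank k V_e ≤ (e+1) i` (`rank_box`, `V_e ≤ Box k e (m-1)`), and `hcod` gives
   `(e+1) m ≤ (e+1) i + ρ < (e+1) i + (e+1)(m-i) = (e+1) m`. Contradiction.
Formally: induction on `i ≤ m` for the statement 'there is `g : Fin i → BP k` with the three properties'
(`Fin.snoc`, `LinearIndependent.finSnoc`/`linearIndependent_finSnoc`).
-/

set_option autoImplicit false

open Polynomial Module

namespace Pool.Agent.H72.PL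

variable {k : Type} [Field k]

/-- one step of the choice -/
theorem greedy_step (V : Submodule k (BP k)) (M m ρ : ℕ) (hV : V ≤ Box k M (m - 1))
    (hrk : finrank (Fr k) ↥(spF V) = m)
    (hcod : ∀ e ≤ M, (e + 1) * m ≤ finrank k ↥(V ⊓ Box k e (m - 1)) + ρ) (i : ℕ) (hi : i < m)
    (D : Submodule (Fr k) (Polynomial (Fr k))) (hD : FiniteDimensional (Fr k) D)
    (hDi : finrank (Fr k) D = i) :
    ∃ g : BP k, g ∈ V ∧ dY g ≤ ρ / (m - i) ∧ toF g ∉ D := by
  by_contra hcon
  push Not at hcon
  have hmi : 0 < m - i := by omega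
  set e : ℕ := min M (ρ / (m - i)) with he
  have heM : e ≤ M := min_le_left _ _
  have heρ : e ≤ ρ / (m - i) := min_le_right _ _
  have hsp : spF (V ⊓ Box k e (m - 1)) ≤ D := by
    refine Submodule.span_le.2 ?_
    rintro _ ⟨g, hg, rfl⟩
    exact hcon g hg.1 (((mem_box g e (m - 1)).1 hg.2).1.trans heρ)
  have hle : finrank (Fr k) ↥(spF (V ⊓ Box k e (m - 1))) ≤ i := by
    rw [← hDi]
    exact Submodule.finrank_mono hsp
  rcases Nat.lt_or_ge (ρ / (m - i)) M with h1 | h1
  · have he' : e = ρ / (m - i) := min_eq_right h1.le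
    have h2 := rank_box (V ⊓ Box k e (m - 1)) e (m - 1) inf_le_right
    have h3 := hcod e heM
    have h4 : (e + 1) * finrank (Fr k) ↥(spF (V ⊓ Box k e (m - 1))) ≤ (e + 1) * i :=
      Nat.mul_le_mul_left _ hle
    have h5 : ρ < (m - i) * (ρ / (m - i) + 1) := Nat.lt_mul_div_succ ρ hmi
    rw [← he'] at h5
    have h6 : (e + 1) * m = (e + 1) * i + (m - i) * (e + 1) := by
      obtain ⟨c, rfl⟩ : ∃ c, m = i + c := ⟨m - i, by omega⟩
      rw [Nat.add_sub_cancel_left]
      ring
    omega
  · have he' : e = M := min_eq_left h1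
    have h2 : V ⊓ Box k e (m - 1) = V := by
      rw [he']
      exact inf_eq_left.2 hV
    rw [h2, hrk] at hle
    omega

theorem greedy (V : Submodule k (BP k)) (M m ρ : ℕ) (hm : 0 < m) (hV : V ≤ Box k M (m - 1))
    (hrk : finrank (Fr k) ↥(spF V) = m)
    (hcod : ∀ e ≤ M, (e + 1) * m ≤ finrank k ↥(V ⊓ Box k e (m - 1)) + ρ) :
    ∃ g : Fin m → BP k, (∀ i, g i ∈ V) ∧ (∀ i : Fin m, dY (g i) ≤ ρ / (m - (i : ℕ))) ∧
      LinearIndependent (Fr k) (fun i => toF (g i)) := by
  have h : ∀ i : ℕ, i ≤ m → ∃ g : Fin i → BP k, (∀ j, g j ∈ V) ∧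
      (∀ j : Fin i, dY (g j) ≤ ρ / (m - (j : ℕ))) ∧
      LinearIndependent (Fr k) (fun j => toF (g j)) := by
    intro i
    induction i with
    | zero =>
      intro _
      exact ⟨fun j => j.elim0, fun j => j.elim0, fun j => j.elim0, linearIndependent_empty_type⟩
    | succ i ih =>
      intro hi
      obtain ⟨g, hg1, hg2, hg3⟩ := ih (by omega)
      obtain ⟨a, ha1, ha2, ha3⟩ := greedy_step V M m ρ hV hrk hcod i (by omega)
        (Submodule.span (Fr k) (Set.range fun j => toF (g j)))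
        (FiniteDimensional.span_of_finite (Fr k) (Set.finite_range _)) (by
          rw [finrank_span_eq_card hg3, Fintype.card_fin])
      have hs : (fun j => toF ((Fin.snoc g a : Fin (i + 1) → BP k) j)) =
          Fin.snoc (fun j => toF (g j)) (toF a) := by
        funext j
        refine Fin.lastCases ?_ (fun j => ?_) j
        · rw [Fin.snoc_last, Fin.snoc_last]
        · rw [Fin.snoc_castSucc, Fin.snoc_castSucc]
      refine ⟨Fin.snoc g a, fun j => ?_, fun j => ?_, ?_⟩
      · refine Fin.lastCases ?_ (fun j => ?_) j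
        · rw [Fin.snoc_last]
          exact ha1
        · rw [Fin.snoc_castSucc]
          exact hg1 j
      · refine Fin.lastCases ?_ (fun j => ?_) j
        · rw [Fin.snoc_last]
          exact ha2
        · rw [Fin.snoc_castSucc]
          exact hg2 j
      · rw [hs, linearIndependent_finSnoc]
        exact ⟨hg3, ha3⟩
  exact h m le_rfl

end Pool.Agent.H72.PL
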