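import Pool.Agent.H72.PL.RankIneq
import Pool.Agent.H72.PL.Drop

/-!
# Module Herm: one variable, the rows span everything (paper proof: proposal 65, section 9)

`M = 0`, `y = 1`: identify `G : Fin 1 × Fin (W+1) → L` with `g = ∑_b G(0,b) X^b`, degree `≤ W`.
If `G` is killed by all rows `arow` (`i = 0`, `l < T`): `(hasseDeriv l g)(σ ρ) = 0` for `l < T`,
`σ ∈ H = k.fixingSubgroup`, so `(X - σ ρ)^T ∣ g` (Taylor coefficients at `σ ρ`). If `G` is killed by the
rows `brow`: `g((σ (F_t⁻¹ ρ))^(q t)) = 0`. The number of different `σ ρ` is `s` (`orbit_card`). For fixed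
`t` the elements `(σ F_t⁻¹ ρ)^(q t) = σ (F_t⁻¹ (ρ^(q t)))` are `natDegree (minpoly k (F_t⁻¹ (ρ^(q t)))) =
natDegree (minpoly k (ρ^(q t))) = s` in number (`natDegree_conj`). Elements belonging to different `t`, or
to some `t` and to the `σ ρ`, are different: their heights are `q t * h(ρ)`, `h(ρ)` (`absHeight_conj`,
`Height.logHeight₁_pow` with `logHeight_abs`), `h(ρ) > 0` (`height_pos`), `q` injective, `q t ≥ 2`.
So `g` is divisible by a product of pairwise coprime factors of total degree
`s T + s #ι ≥ W + 1 > deg g`, hence `g = 0`, `G = 0`. By `dot_dual` (with `A` = the span of all rows) the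
span is everything, of dimension `#(Fin 1 × Fin (W+1)) = W + 1`.
`arow_rank_one`: only `Submodule.finrank_le`/`finrank = W+1`.
-/

set_option autoImplicit false

open NumberField IsDedekindDomain Module

namespace Pool.Agent.H72.PL

open Polynomial in
/-- the polynomial of a coefficient vector -/
private noncomputable def hmP {L : Type} [Field L] (W : ℕ) (G : Fin (0 + 1) × Fin (W + 1) → L) :
    L[X] := ∑ b : Fin (W + 1), monomial (b : ℕ) (G (0, b))

open Polynomial in
private theorem hm_dot {L : Type} [Field L] (W : ℕ) (G : Fin (0 + 1) × Fin (W + 1) → L)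
    (x y : L) (l : ℕ) :
    dot (jrow 0 W y x 0 l) G = (hasseDeriv l (hmP W G)).eval x := by
  unfold dot jrow hmP
  rw [Fintype.sum_prod_type, map_sum, eval_finsetSum]
  simp only [hasseDeriv_monomial, eval_monomial]
  rw [Fin.sum_univ_succ, Fin.sum_univ_zero, add_zero]
  apply Finset.sum_congr rfl
  intro b _
  simp
  ring

open Polynomial in
private theorem hm_deg {L : Type} [Field L] (W : ℕ) (G : Fin (0 + 1) × Fin (W + 1) → L) :
    (hmP W G).natDegree ≤ W := by
  unfold hmP
  apply natDegree_sum_le_of_forall_le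
  intro b _
  exact (natDegree_monomial_le _).trans (by omega)

open Polynomial in
private theorem hm_zero {L : Type} [Field L] (W : ℕ) (G : Fin (0 + 1) × Fin (W + 1) → L)
    (h : hmP W G = 0) : G = 0 := by
  funext j
  obtain ⟨a, b⟩ := j
  have ha : a = 0 := by
    apply Fin.ext
    have := a.2
    simp
  have h1 : (hmP W G).coeff b = G (0, b) := by
    unfold hmP
    rw [finsetSum_coeff]
    simp only [coeff_monomial]
    rw [Finset.sum_eq_single b]
    · rw [if_pos rfl]
    · intro c _ hc
      rw [if_neg]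
      intro hcb
      exact hc (Fin.ext hcb)
    · intro hb
      exact absurd (Finset.mem_univ b) hb
  rw [ha, ← h1, h, coeff_zero]
  rfl

open Polynomial in
/-- counting roots with multiplicities -/
private theorem hm_count {L : Type} [Field L] [DecidableEq L] (g : L[X]) (hg : g ≠ 0) (T : ℕ)
    {ι : Type} [Fintype ι] (R0 : Finset L) (R : ι → Finset L)
    (h0 : ∀ a ∈ R0, ∀ l < T, (hasseDeriv l g).eval a = 0) (h1 : ∀ t, ∀ a ∈ R t, g.eval a = 0)
    (hd0 : ∀ t, Disjoint R0 (R t)) (hd : ∀ t t', t ≠ t' → Disjoint (R t) (R t')) :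
    R0.card * T + ∑ t, (R t).card ≤ g.natDegree := by
  classical
  have hm0 : ∀ a ∈ R0, T ≤ g.roots.count a := by
    intro a ha
    rw [count_roots, le_rootMultiplicity_iff hg, X_sub_C_pow_dvd_iff, ← taylor_apply,
      X_pow_dvd_iff]
    intro l hl
    rw [taylor_coeff]
    exact h0 a ha l hl
  have hm1 : ∀ t, ∀ a ∈ R t, 1 ≤ g.roots.count a := by
    intro t a ha
    rw [Multiset.one_le_count_iff_mem, mem_roots hg]
    exact h1 t a ha
  have hdis : Disjoint R0 (Finset.univ.biUnion R) := by
    rw [Finset.disjoint_biUnion_right]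
    intro t _
    exact hd0 t
  have hpd : (↑(Finset.univ : Finset ι) : Set ι).PairwiseDisjoint R :=
    fun t _ t' _ htt => hd t t' htt
  obtain ⟨V, hV⟩ : ∃ V : Finset L, V = R0 ∪ Finset.univ.biUnion R := ⟨_, rfl⟩
  have hsum : ∑ a ∈ V, g.roots.count a ≤ g.roots.card := by
    calc ∑ a ∈ V, g.roots.count a ≤ ∑ a ∈ V ∪ g.roots.toFinset, g.roots.count a :=
          Finset.sum_le_sum_of_subset Finset.subset_union_left
      _ = g.roots.card := by
          apply Multiset.sum_count_eq_card
          intro a ha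
          exact Finset.mem_union_right _ (Multiset.mem_toFinset.mpr ha)
  have hsum2 : R0.card * T + ∑ t, (R t).card ≤ ∑ a ∈ V, g.roots.count a := by
    rw [hV, Finset.sum_union hdis, Finset.sum_biUnion hpd]
    apply add_le_add
    · calc R0.card * T = ∑ _a ∈ R0, T := by rw [Finset.sum_const, smul_eq_mul]
        _ ≤ _ := Finset.sum_le_sum hm0
    · apply Finset.sum_le_sum
      intro t _
      calc (R t).card = ∑ _a ∈ R t, 1 := by rw [Finset.sum_const, smul_eq_mul, mul_one]
        _ ≤ _ := Finset.sum_le_sum (hm1 t)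
  exact hsum2.trans (hsum.trans (card_roots' g))

theorem herm {K L : Type} [Field K] [NumberField K] [Field L] [NumberField L] [Algebra K L]
    [IsGalois K L] (k : IntermediateField K L) (hk : ∀ σ : L ≃ₐ[K] L, ∀ z ∈ k, σ z ∈ k)
    (ρ : L) (hρ : ρ ≠ 0) (htors : ∀ n : ℕ, 1 ≤ n → ρ ^ n ≠ 1) {ι : Type} [Fintype ι]
    (F : ι → (L ≃ₐ[K] L)) (q : ι → ℕ) (hq : ∀ t, 2 ≤ q t) (hinj : Function.Injective q)
    (hs : ∀ t, (minpoly k (ρ ^ q t)).natDegree = (minpoly k ρ).natDegree) (T W : ℕ)
    (hW : W + 1 ≤ (minpoly k ρ).natDegree * (T + Fintype.card ι)) :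
    rkAB k 0 W T 1 ρ F q = W + 1 := by
  classical
  have : FiniteDimensional K L := Module.Finite.of_restrictScalars_finite ℚ K L
  obtain ⟨n, hn⟩ : ∃ n, n = (minpoly k ρ).natDegree := ⟨_, rfl⟩
  -- the orbits
  have hfin : ∀ z : L, (Set.range fun σ : k.fixingSubgroup => σ.1 z).Finite := by
    intro z
    exact Set.finite_range _
  obtain ⟨R0, hR0⟩ : ∃ R0 : Finset L, R0 = (hfin ρ).toFinset := ⟨_, rfl⟩
  obtain ⟨R, hR⟩ : ∃ R : ι → Finset L, R = fun t => (hfin ((F t).symm (ρ ^ q t))).toFinset :=
    ⟨_, rfl⟩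
  have hcard : ∀ z : L, (hfin z).toFinset.card = (minpoly k z).natDegree := by
    intro z
    rw [← Set.ncard_eq_toFinset_card _ (hfin z)]
    exact orbit_card k z
  have hc0 : R0.card = n := by rw [hR0, hcard, hn]
  have hc1 : ∀ t, (R t).card = n := by
    intro t
    rw [hR]
    show (hfin ((F t).symm (ρ ^ q t))).toFinset.card = n
    rw [hcard, natDegree_conj k hk (F t).symm (ρ ^ q t), hs t, hn]
  -- heights
  have hpos : 0 < absLogHeight₁ ρ := height_pos ρ hρ htors
  have hh0 : ∀ a ∈ R0, absLogHeight₁ a = absLogHeight₁ ρ := by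
    intro a ha
    rw [hR0, Set.Finite.mem_toFinset] at ha
    obtain ⟨σ, rfl⟩ := ha
    exact absHeight_conj (σ.1 : L ≃+* L) ρ
  have hh1 : ∀ t, ∀ a ∈ R t, absLogHeight₁ a = (q t : ℝ) * absLogHeight₁ ρ := by
    intro t a ha
    rw [hR] at ha
    have ha' : a ∈ (hfin ((F t).symm (ρ ^ q t))).toFinset := ha
    rw [Set.Finite.mem_toFinset] at ha'
    obtain ⟨σ, rfl⟩ := ha'
    have e1 : absLogHeight₁ (σ.1 ((F t).symm (ρ ^ q t))) = absLogHeight₁ ((F t).symm (ρ ^ q t)) :=
      absHeight_conj (σ.1 : L ≃+* L) _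
    have e2 : absLogHeight₁ ((F t).symm (ρ ^ q t)) = absLogHeight₁ (ρ ^ q t) :=
      absHeight_conj ((F t).symm : L ≃+* L) _
    have e3 := absHeight_zpow ρ (q t : ℤ)
    rw [zpow_natCast] at e3
    show absLogHeight₁ (σ.1 ((F t).symm (ρ ^ q t))) = _
    rw [e1, e2, e3]
    congr 1
    rw [Int.cast_natCast, abs_of_nonneg (Nat.cast_nonneg _)]
  have hd0 : ∀ t, Disjoint R0 (R t) := by
    intro t
    rw [Finset.disjoint_left]
    intro a ha ha'
    have h1 := hh0 a ha
    have h2 := hh1 t a ha'
    have h3 : (2 : ℝ) ≤ q t := by exact_mod_cast hq t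
    rw [h1] at h2
    nlinarith
  have hd : ∀ t t', t ≠ t' → Disjoint (R t) (R t') := by
    intro t t' htt
    rw [Finset.disjoint_left]
    intro a ha ha'
    have h1 := hh1 t a ha
    have h2 := hh1 t' a ha'
    rw [h1] at h2
    have h3 := mul_right_cancel₀ hpos.ne' h2
    exact htt (hinj (by exact_mod_cast h3))
  -- the span is everything
  have htop : Submodule.span L (Set.range (arow k 0 W T 1 ρ) ∪
      Set.range (brow k 0 W 1 ρ F q)) = ⊤ := by
    rw [eq_top_iff]
    intro b _
    apply dot_dual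
    intro G hG
    have hG0 : G = 0 := by
      by_contra hne
      have hgne : hmP W G ≠ 0 := fun h => hne (hm_zero W G h)
      have h0 : ∀ a ∈ R0, ∀ l < T, (Polynomial.hasseDeriv l (hmP W G)).eval a = 0 := by
        intro a ha l hl
        rw [hR0, Set.Finite.mem_toFinset] at ha
        obtain ⟨σ, rfl⟩ := ha
        have hT : 0 < T := by omega
        have h1 := hG (arow k 0 W T 1 ρ (σ, ⟨(⟨0, hT⟩, ⟨l, hl⟩), by simpa using hl⟩))
          (Submodule.subset_span (Or.inl (Set.mem_range_self _)))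
        unfold arow at h1
        rw [hm_dot] at h1
        exact h1
      have h1 : ∀ t, ∀ a ∈ R t, (hmP W G).eval a = 0 := by
        intro t a ha
        rw [hR] at ha
        have ha' : a ∈ (hfin ((F t).symm (ρ ^ q t))).toFinset := ha
        rw [Set.Finite.mem_toFinset] at ha'
        obtain ⟨σ, rfl⟩ := ha'
        have h1 := hG (brow k 0 W 1 ρ F q (σ, t))
          (Submodule.subset_span (Or.inr (Set.mem_range_self _)))
        unfold brow at h1
        rw [hm_dot, Polynomial.hasseDeriv_zero, ← map_pow, ← map_pow] at h1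
        exact h1
      have h2 := hm_count (hmP W G) hgne T R0 R h0 h1 hd0 hd
      have h3 := hm_deg W G
      rw [hc0, Finset.sum_congr rfl (fun t _ => hc1 t), Finset.sum_const, smul_eq_mul,
        Finset.card_univ] at h2
      rw [← hn, mul_add] at hW
      have h4 : Fintype.card ι * n = n * Fintype.card ι := mul_comm _ _
      omega
    rw [hG0]
    unfold dot
    simp
  unfold rkAB
  rw [htop, finrank_top, Module.finrank_fintype_fun_eq_card]
  simp

end Pool.Agent.H72.PL
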