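import Pool.Agent.H72.PL.BoxB
import Pool.Agent.H72.PL.Corank
import Pool.Agent.H72.PL.Gauss

/-!
# Module Inter: the intersection lemma (paper proof: proposal 65, section 6)

`f` irreducible with `dX f = s > 0`, `g ≠ 0`, `dX g = r`. Suppose `f ∤ g`. Consider the `m = r + s`
polynomials `X^i f` (`i < r`) and `X^j g` (`j < s`), all of degree `< m` in `X`. They are linearly
independent over `k(Y)`: a relation is `toF f * a + toF g * b = 0` with `deg a < r`, `deg b < s`;
`toF f` is coprime to `toF g` (`toF_coprime`), so `toF f ∣ b`, `b = 0`, `a = 0`. So the determinant of the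
coefficient matrix is not zero (`cmat_det_ne_zero`), its degree is at most `r * dY f + s * dY g`
(`natDegree_cmat_det`; the coefficients of `X^i f` have degree `≤ dY f`, `dY_le`). All the `m` polynomials
vanish at the `(η, x)`, `η ∈ S`, `x ∈ R η`; `d ≤ dX f ≤ m`, so `grid_det` gives
`n * d ≤ #S * d ≤ r * dY f + s * dY g < n * d`. Contradiction.
(Index the family by `Fin r ⊕ Fin s ≃ Fin (r + s)`, `finSumFinEquiv`.)
-/

set_option autoImplicit false

open Polynomial Module

namespace Pool.Agent.H72.PL

private noncomputable def fam {k : Type} [Field k] (f g : BP k) (r s : ℕ) :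
    Fin r ⊕ Fin s → BP k :=
  Sum.elim (fun i => X ^ (i : ℕ) * f) (fun j => X ^ (j : ℕ) * g)

private theorem natDegree_toF {k : Type} [Field k] (f : BP k) :
    (toF f).natDegree = f.natDegree :=
  natDegree_map_eq_of_injective (IsFractionRing.injective (Polynomial k) (Fr k)) f

private theorem toF_X {k : Type} [Field k] (i : ℕ) (f : BP k) :
    toF (X ^ i * f) = X ^ i * toF f := by
  rw [map_mul, map_pow]
  congr 2
  unfold toF
  simp

private theorem fam_indep {k : Type} [Field k] (f g : BP k) (hf : Irreducible f)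
    (hfX : 0 < dX f) (hdiv : ¬ f ∣ g) (r : ℕ) :
    LinearIndependent (Fr k) (fun t : Fin r ⊕ Fin (dX f) => toF (fam f g r (dX f) t)) := by
  rw [Fintype.linearIndependent_iff]
  intro c hc
  set a : Polynomial (Fr k) := ∑ i : Fin r, C (c (Sum.inl i)) * X ^ (i : ℕ) with ha
  set b : Polynomial (Fr k) := ∑ j : Fin (dX f), C (c (Sum.inr j)) * X ^ (j : ℕ) with hb
  have hrel : a * toF f + b * toF g = 0 := by
    rw [← hc, Fintype.sum_sum_type, ha, hb, Finset.sum_mul, Finset.sum_mul]
    congr 1
    · refine Finset.sum_congr rfl fun i _ => ?_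
      simp only [fam, Sum.elim_inl]
      rw [toF_X, smul_eq_C_mul, mul_assoc]
    · refine Finset.sum_congr rfl fun i _ => ?_
      simp only [fam, Sum.elim_inr]
      rw [toF_X, smul_eq_C_mul, mul_assoc]
  have hcop := toF_coprime f g hf hfX hdiv
  have hdvd : toF f ∣ b := by
    refine hcop.dvd_of_dvd_mul_right ⟨-a, ?_⟩
    linear_combination hrel
  have hfne : toF f ≠ 0 := by
    intro h
    have := natDegree_toF f
    rw [h, natDegree_zero] at this
    unfold dX at hfX
    omega
  have hbdeg : b.degree < (toF f).degree := by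
    rw [degree_eq_natDegree hfne, natDegree_toF]
    refine lt_of_le_of_lt (degree_sum_le _ _) ?_
    rw [Finset.sup_lt_iff (WithBot.bot_lt_coe _)]
    intro j _
    refine lt_of_le_of_lt (degree_C_mul_X_pow_le _ _) ?_
    exact_mod_cast j.2
  have hb0 : b = 0 := eq_zero_of_dvd_of_degree_lt hdvd hbdeg
  have ha0 : a = 0 := by
    rw [hb0, zero_mul, add_zero] at hrel
    exact (mul_eq_zero.1 hrel).resolve_right hfne
  have hcoef : ∀ (n : ℕ) (d : Fin n → Fr k) (i : Fin n),
      (∑ i : Fin n, C (d i) * X ^ (i : ℕ) : Polynomial (Fr k)).coeff i = d i := by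
    intro n d i
    rw [finset_sum_coeff, Finset.sum_eq_single i]
    · simp
    · intro j _ hji
      rw [coeff_C_mul_X_pow, if_neg]
      exact fun h => hji (Fin.ext h.symm)
    · simp
  rintro (i | j)
  · have := hcoef r (fun i => c (Sum.inl i)) i
    rw [← ha, ha0, coeff_zero] at this
    exact this.symm
  · have := hcoef (dX f) (fun i => c (Sum.inr i)) j
    rw [← hb, hb0, coeff_zero] at this
    exact this.symm

theorem inter_lemma {k Ω : Type} [Field k] [Field Ω] [Algebra k Ω] (f g : BP k)
    (hf : Irreducible f) (hfX : 0 < dX f) (hg : g ≠ 0) (n d : ℕ) (hd : d ≤ dX f)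
    (S : Finset Ω) (R : Ω → Finset Ω) (hS : n ≤ S.card) (hR : ∀ η ∈ S, d ≤ (R η).card)
    (h0 : ∀ η ∈ S, ∀ x ∈ R η, ev k η x f = 0 ∧ ev k η x g = 0)
    (hlt : dX f * dY g + dX g * dY f < n * d) : f ∣ g := by
  by_contra hdiv
  set r := dX g with hr
  set s := dX f with hs
  set G : Fin (r + s) → BP k := fun t => fam f g r s (finSumFinEquiv.symm t) with hG
  have hfam : ∀ t, (fam f g r s t).natDegree < r + s := by
    rintro (i | j)
    · have h1 : (X ^ (i : ℕ) * f).natDegree ≤ i + f.natDegree :=
        natDegree_mul_le_of_le (natDegree_X_pow_le _) le_rfl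
      have h2 := i.2
      simp only [fam, Sum.elim_inl]
      have h3 : f.natDegree = s := rfl
      omega
    · have h1 : (X ^ (j : ℕ) * g).natDegree ≤ j + g.natDegree :=
        natDegree_mul_le_of_le (natDegree_X_pow_le _) le_rfl
      have h2 := j.2
      simp only [fam, Sum.elim_inr]
      have h3 : g.natDegree = r := rfl
      omega
  have hdeg : ∀ i, (G i).natDegree < r + s := fun i => hfam _
  have hlin : LinearIndependent (Fr k) (fun i => toF (G i)) := by
    have h := fam_indep f g hf hfX hdiv r
    exact h.comp finSumFinEquiv.symm finSumFinEquiv.symm.injective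
  have hdet := cmat_det_ne_zero (r + s) G hdeg hlin
  have hle := grid_det (r + s) d (by omega) G hdeg hdet S R hR (by
    intro η hη x hx i
    obtain ⟨h1, h2⟩ := h0 η hη x hx
    simp only [hG]
    rcases finSumFinEquiv.symm i with i | j
    · simp only [fam, Sum.elim_inl]
      rw [map_mul, h1, mul_zero]
    · simp only [fam, Sum.elim_inr]
      rw [map_mul, h2, mul_zero])
  have hle2 := natDegree_cmat_det (r + s) G
    (fun t => Sum.elim (fun _ : Fin r => dY f) (fun _ : Fin s => dY g) (finSumFinEquiv.symm t)) (by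
    intro i b
    simp only [hG]
    rcases finSumFinEquiv.symm i with i | j
    · simp only [fam, Sum.elim_inl]
      rw [coeff_X_pow_mul']
      split_ifs
      · exact (dY_le f (dY f)).1 le_rfl _
      · simp
    · simp only [fam, Sum.elim_inr]
      rw [coeff_X_pow_mul']
      split_ifs
      · exact (dY_le g (dY g)).1 le_rfl _
      · simp)
  have hsum : ∑ t : Fin (r + s), Sum.elim (fun _ : Fin r => dY f) (fun _ : Fin s => dY g)
      (finSumFinEquiv.symm t) = r * dY f + s * dY g := by
    rw [Equiv.sum_comp finSumFinEquiv.symm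
      (fun t => Sum.elim (fun _ : Fin r => dY f) (fun _ : Fin s => dY g) t), Fintype.sum_sum_type]
    simp
  rw [hsum] at hle2
  have h5 : n * d ≤ S.card * d := Nat.mul_le_mul_right _ hS
  omega

end Pool.Agent.H72.PL
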