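import Pool.Agent.H72.PL.Defs

/-!
# Module KSb: values of multiples of `P^j` (paper proof: prop. 65, section 2)

`G = P^j Q`. If `G = 0` the claim is clear (`B ≥ 0` as `B ≥ ‖G‖`). Otherwise `‖G‖ = ‖P‖^j ‖Q‖`
(`gaussNorm_mul`, `c = 1`), `natDegree Q = natDegree G - j natDegree P`, `‖P‖ > 0`,
`v (Q(z)) ≤ ‖Q‖ mx^(natDegree Q)` (ultrametric inequality, `v z ≤ mx`, `1 ≤ mx`; lemma `eval_le`),
`v (G(z)) = v (P(z))^j v (Q(z)) ≤ ε^j ‖P‖^j mx^(j natDegree P) ‖Q‖ mx^(natDegree Q) = ε^j ‖G‖ mx^(natDegree G)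
≤ ε^j B mx^W`.
`pow_dvd_of_hasse`: `g` a polynomial, `R'` a finite set, `(hasseDeriv l g)(r) = 0` for `l < j`, `r ∈ R'`; then
`(∏_{r∈R'} (X - r))^j ∣ g`: for each `r` the Taylor expansion at `r` is divisible by `X^j`
(`Polynomial.taylor_coeff`), so `(X - r)^j ∣ g`; the `(X - r)^j` are pairwise coprime.
-/

set_option autoImplicit false

open Polynomial Module

namespace Pool.Agent.H72.PL

theorem ksb_sum {L : Type} [Field L] (v : AbsoluteValue L ℝ) (hv : IsNonarchimedean v)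
    {ι : Type*} (s : Finset ι) (f : ι → L) (B : ℝ) (hB : 0 ≤ B) (h : ∀ i ∈ s, v (f i) ≤ B) :
    v (∑ i ∈ s, f i) ≤ B := by
  classical
  induction s using Finset.induction_on with
  | empty => simpa using hB
  | insert a s ha ih =>
    rw [Finset.sum_insert ha]
    refine (hv _ _).trans (max_le (h a (Finset.mem_insert_self _ _)) ?_)
    exact ih fun i hi => h i (Finset.mem_insert_of_mem hi)

theorem eval_le {L : Type} [Field L] (v : AbsoluteValue L ℝ) (hv : IsNonarchimedean v)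
    (G : L[X]) (z : L) (mx : ℝ) (hmx : 1 ≤ mx) (hz : v z ≤ mx) (W : ℕ) (hW : G.natDegree ≤ W) :
    v (G.eval z) ≤ G.gaussNorm v 1 * mx ^ W := by
  have hg0 : 0 ≤ G.gaussNorm v 1 := G.gaussNorm_nonneg v zero_le_one
  rw [eval_eq_sum_range]
  apply ksb_sum v hv _ _ _ (by positivity)
  intro i hi
  rw [Finset.mem_range] at hi
  rw [map_mul, map_pow]
  have h1 : v (G.coeff i) ≤ G.gaussNorm v 1 := by
    have := G.le_gaussNorm v (c := 1) zero_le_one i
    simpa using this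
  have h2 : v z ^ i ≤ mx ^ W := by
    calc v z ^ i ≤ mx ^ i := pow_le_pow_left₀ (v.nonneg z) hz i
      _ ≤ mx ^ W := pow_le_pow_right₀ hmx (by omega)
  exact mul_le_mul h1 h2 (pow_nonneg (v.nonneg z) i) hg0

theorem ksb_norm_pow {L : Type} [Field L] (v : AbsoluteValue L ℝ) (hv : IsNonarchimedean v)
    (P : L[X]) (j : ℕ) : (P ^ j).gaussNorm v 1 = P.gaussNorm v 1 ^ j := by
  induction j with
  | zero =>
    rw [pow_zero, pow_zero, ← C_1, gaussNorm_C]
    exact map_one v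
  | succ j ih => rw [pow_succ, gaussNorm_mul hv one_pos, ih, pow_succ]

theorem ks_div {L : Type} [Field L] (v : AbsoluteValue L ℝ) (hv : IsNonarchimedean v)
    (P G : L[X]) (j W : ℕ) (B ε mx : ℝ) (z : L) (hε : 0 ≤ ε) (hmx : 1 ≤ mx) (hz : v z ≤ mx)
    (hdvd : P ^ j ∣ G) (hG : G.gaussNorm v 1 ≤ B) (hW : G.natDegree ≤ W)
    (hP : v (P.eval z) ≤ ε * P.gaussNorm v 1 * mx ^ P.natDegree) :
    v (G.eval z) ≤ ε ^ j * B * mx ^ W := by
  have hB : 0 ≤ B := (G.gaussNorm_nonneg v zero_le_one).trans hG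
  by_cases hG0 : G = 0
  · rw [hG0, eval_zero, map_zero]
    positivity
  obtain ⟨Q, rfl⟩ := hdvd
  have hPj : P ^ j ≠ 0 := left_ne_zero_of_mul hG0
  have hQ : Q ≠ 0 := right_ne_zero_of_mul hG0
  have hdeg : (P ^ j * Q).natDegree = j * P.natDegree + Q.natDegree := by
    rw [natDegree_mul hPj hQ, natDegree_pow]
  have hnorm : (P ^ j * Q).gaussNorm v 1 = P.gaussNorm v 1 ^ j * Q.gaussNorm v 1 := by
    rw [gaussNorm_mul hv one_pos, ksb_norm_pow v hv]
  have hQz := eval_le v hv Q z mx hmx hz Q.natDegree le_rfl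
  have hP0 : 0 ≤ P.gaussNorm v 1 := P.gaussNorm_nonneg v zero_le_one
  have hQ0 : 0 ≤ Q.gaussNorm v 1 := Q.gaussNorm_nonneg v zero_le_one
  rw [eval_mul, eval_pow, map_mul, map_pow]
  calc v (P.eval z) ^ j * v (Q.eval z)
      ≤ (ε * P.gaussNorm v 1 * mx ^ P.natDegree) ^ j * (Q.gaussNorm v 1 * mx ^ Q.natDegree) := by
        apply mul_le_mul (pow_le_pow_left₀ (v.nonneg _) hP j) hQz (v.nonneg _) (by positivity)
    _ = ε ^ j * (P.gaussNorm v 1 ^ j * Q.gaussNorm v 1) * mx ^ (j * P.natDegree + Q.natDegree) := by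
        rw [mul_pow, mul_pow, pow_add, mul_comm j, pow_mul]
        ring
    _ ≤ ε ^ j * B * mx ^ W := by
        rw [← hnorm, ← hdeg]
        have h1 : mx ^ (P ^ j * Q).natDegree ≤ mx ^ W := pow_le_pow_right₀ hmx hW
        gcongr

theorem pow_dvd_of_hasse {L : Type} [Field L] (g : L[X]) (R : Finset L) (j : ℕ)
    (h : ∀ r ∈ R, ∀ l < j, (hasseDeriv l g).eval r = 0) : (∏ r ∈ R, (X - C r)) ^ j ∣ g := by
  have hone : ∀ r ∈ R, (X - C r) ^ j ∣ g := by
    intro r hr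
    have h1 : X ^ j ∣ taylor r g := by
      rw [X_pow_dvd_iff]
      intro l hl
      rw [taylor_coeff]
      exact h r hr l hl
    obtain ⟨q, hq⟩ := h1
    refine ⟨taylor (-r) q, ?_⟩
    have h2 : taylor (-r) (taylor r g) = g := by
      rw [taylor_taylor, neg_add_cancel, taylor_zero]
    rw [← h2, hq, taylor_mul, taylor_X_pow, map_neg, ← sub_eq_add_neg]
  rw [← Finset.prod_pow]
  apply Finset.prod_dvd_of_coprime
  · intro r _ r' _ hrr
    apply IsCoprime.pow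
    apply isCoprime_X_sub_C_of_isUnit_sub
    exact (sub_ne_zero.2 hrr).isUnit
  · exact hone

end Pool.Agent.H72.PL
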