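import Pool.Agent.H72.PL.KSa
import Pool.Agent.H72.PL.KSb

/-!
# Module KS: the local lemma (paper proof: proposal 65, section 2)

Let `f₁ = ∏_{r∈R}(X - r) ∈ E[X]`, monic, `P = f₁.map F = ∏_{r∈R} (X - F r)`, `mx = (max 1 (v α₁))^q`,
`z = α₁^q`, `v z ≤ mx`. `‖·‖` is the Gauss norm (`gaussNorm v 1`).
1. `ks_frob` (with `f₁(α₁) = 0`) and `gauss_map`: `v (P(z)) ≤ ε ‖P‖ mx^(deg P)`.
2. `v (y₁^q - F y₁) ≤ ε` (`hE`), `v (F y₁) = 1`.
3. Taylor in `Y`: let `G_i(X) = ∑_b (∑_a choose a i (F y₁)^(a-i) G_(a,b)) X^b`, degree `≤ W`, `‖G_i‖ ≤ B`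
   (`v (n : L) ≤ 1`, ultrametric), and for all `x`:
   `dot (jrow M W (y₁^q) x 0 0) G = ∑_{i ≤ M} (y₁^q - F y₁)^i G_i(x)` (binomial theorem for
   `(F y₁ + (y₁^q - F y₁))^a`).
4. For `i < T`: `(hasseDeriv l G_i)(F r) = dot (jrow M W (F y₁) (F r) i l) G = 0` for `l < T - i`, `r ∈ R`, so
   `P^(T-i) ∣ G_i` (`pow_dvd_of_hasse` for `R.image F`; `F` injective), and `ks_div` gives
   `v (G_i(z)) ≤ ε^(T-i) B mx^W`; with `v (y₁^q - F y₁)^i ≤ ε^i` the term `i` is `≤ ε^T B mx^W`.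
5. For `i ≥ T`: `v (G_i(z)) ≤ B mx^W` (`eval_le`), `ε^i ≤ ε^T` (`ε ≤ 1`).
Ultrametric sum of the terms. `mx^W = (max 1 (v α₁))^(q W)`.
-/

set_option autoImplicit false

open Polynomial Module

namespace Pool.Agent.H72.PL

private lemma ks_sum_le {L : Type} [Field L] (v : AbsoluteValue L ℝ) (hv : IsNonarchimedean v)
    {J : Type} (s : Finset J) (f : J → L) (B : ℝ) (hB : 0 ≤ B) (h : ∀ i ∈ s, v (f i) ≤ B) :
    v (∑ i ∈ s, f i) ≤ B := by
  classical
  induction s using Finset.induction_on with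
  | empty => simpa using hB
  | insert a s ha ih =>
    rw [Finset.sum_insert ha]
    refine (hv _ _).trans (max_le (h a (Finset.mem_insert_self a s)) (ih fun i hi => ?_))
    exact h i (Finset.mem_insert_of_mem hi)

private lemma ks_nat_le {L : Type} [Field L] (v : AbsoluteValue L ℝ) (hv : IsNonarchimedean v)
    (n : ℕ) : v (n : L) ≤ 1 := hv.apply_natCast_le_one

/-- the polynomial `G_i` of the Taylor expansion in `Y` at `y` -/
private noncomputable def ksG {L : Type} [Field L] (M W : ℕ) (y : L)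
    (G : Fin (M + 1) × Fin (W + 1) → L) (i : ℕ) : L[X] :=
  ∑ b : Fin (W + 1), monomial (b : ℕ)
    (∑ a : Fin (M + 1), (((a : ℕ).choose i : ℕ) : L) * y ^ ((a : ℕ) - i) * G (a, b))

private lemma ksG_hasse {L : Type} [Field L] (M W : ℕ) (y x : L)
    (G : Fin (M + 1) × Fin (W + 1) → L) (i l : ℕ) :
    (hasseDeriv l (ksG M W y G i)).eval x = dot (jrow M W y x i l) G := by
  unfold ksG dot jrow
  rw [map_sum, eval_finsetSum, Fintype.sum_prod_type_right]
  refine Finset.sum_congr rfl fun b _ => ?_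
  rw [hasseDeriv_monomial, eval_monomial, Finset.mul_sum, Finset.sum_mul]
  refine Finset.sum_congr rfl fun a _ => ?_
  ring

private lemma ksG_eval {L : Type} [Field L] (M W : ℕ) (y x : L)
    (G : Fin (M + 1) × Fin (W + 1) → L) (i : ℕ) :
    (ksG M W y G i).eval x = dot (jrow M W y x i 0) G := by
  rw [← ksG_hasse, hasseDeriv_zero']

private lemma ksG_taylor {L : Type} [Field L] (M W : ℕ) (y y' x : L)
    (G : Fin (M + 1) × Fin (W + 1) → L) :
    dot (jrow M W y' x 0 0) G =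
      ∑ i ∈ Finset.range (M + 1), (y' - y) ^ i * (ksG M W y G i).eval x := by
  have h1 : ∀ i ∈ Finset.range (M + 1), (y' - y) ^ i * (ksG M W y G i).eval x =
      ∑ j : Fin (M + 1) × Fin (W + 1),
        (y' - y) ^ i * (jrow M W y x i 0 j * G j) := by
    intro i _
    rw [ksG_eval, dot, Finset.mul_sum]
  rw [Finset.sum_congr rfl h1, Finset.sum_comm, dot]
  refine Finset.sum_congr rfl fun j _ => ?_
  unfold jrow
  simp only [Nat.choose_zero_right, Nat.cast_one, one_mul, Nat.sub_zero, mul_one]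
  have h2 : y' ^ (j.1 : ℕ) = ∑ i ∈ Finset.range (M + 1),
      (y' - y) ^ i * y ^ ((j.1 : ℕ) - i) * (((j.1 : ℕ).choose i : ℕ) : L) := by
    have h3 : y' ^ (j.1 : ℕ) = ((y' - y) + y) ^ (j.1 : ℕ) := by rw [sub_add_cancel]
    rw [h3, add_pow]
    refine Finset.sum_subset ?_ ?_
    · intro i hi
      rw [Finset.mem_range] at hi ⊢
      have := j.1.2
      omega
    · intro i _ hi
      rw [Finset.mem_range, not_lt] at hi
      rw [Nat.choose_eq_zero_of_lt (by omega)]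
      simp
  rw [h2, Finset.sum_mul, Finset.sum_mul]
  refine Finset.sum_congr rfl fun i _ => ?_
  ring

private lemma ksG_coeff {L : Type} [Field L] (M W : ℕ) (y : L)
    (G : Fin (M + 1) × Fin (W + 1) → L) (i n : ℕ) :
    (ksG M W y G i).coeff n = ∑ b : Fin (W + 1), if (b : ℕ) = n then
      (∑ a : Fin (M + 1), (((a : ℕ).choose i : ℕ) : L) * y ^ ((a : ℕ) - i) * G (a, b)) else 0 := by
  unfold ksG
  rw [finsetSum_coeff]
  exact Finset.sum_congr rfl fun b _ => coeff_monomial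

private lemma ksG_norm {L : Type} [Field L] (v : AbsoluteValue L ℝ) (hv : IsNonarchimedean v)
    (M W : ℕ) (y : L) (hy : v y = 1) (G : Fin (M + 1) × Fin (W + 1) → L) (B : ℝ)
    (hB : ∀ j, v (G j) ≤ B) (i : ℕ) : (ksG M W y G i).gaussNorm v 1 ≤ B := by
  have hB0 : 0 ≤ B := (v.nonneg _).trans (hB (0, 0))
  obtain ⟨n, hn⟩ := exists_eq_gaussNorm v 1 (ksG M W y G i)
  rw [hn, one_pow, mul_one, ksG_coeff]
  refine ks_sum_le v hv _ _ B hB0 fun b _ => ?_
  split_ifs with hb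
  · refine ks_sum_le v hv _ _ B hB0 fun a _ => ?_
    rw [map_mul, map_mul, map_pow, hy, one_pow, mul_one]
    calc v (((a : ℕ).choose i : ℕ) : L) * v (G (a, b)) ≤ 1 * B :=
          mul_le_mul (ks_nat_le v hv _) (hB _) (v.nonneg _) zero_le_one
      _ = B := one_mul B
  · rw [map_zero]
    exact hB0

private lemma ksG_degree {L : Type} [Field L] (M W : ℕ) (y : L)
    (G : Fin (M + 1) × Fin (W + 1) → L) (i : ℕ) : (ksG M W y G i).natDegree ≤ W := by
  unfold ksG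
  refine natDegree_sum_le_of_forall_le _ _ fun b _ => ?_
  refine (natDegree_monomial_le _).trans ?_
  have := b.2
  omega

theorem ks_lemma {L : Type} [Field L] (v : AbsoluteValue L ℝ) (hv : IsNonarchimedean v)
    (F : L ≃+* L) (hF : ∀ z, v (F z) = v z) (E : Subfield L) (p q : ℕ) (hp : p.Prime)
    (hq : ∃ f : ℕ, q = p ^ f) (ε : ℝ) (hε0 : 0 ≤ ε) (hε1 : ε ≤ 1) (hpε : v (p : L) ≤ ε)
    (hE : ∀ z ∈ E, v z ≤ 1 → v (F z - z ^ q) ≤ ε) (M W T : ℕ) (y₁ α₁ : L) (hyE : y₁ ∈ E)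
    (hy1 : v y₁ = 1) (R : Finset L) (hR : ∀ i, (∏ r ∈ R, (X - C r) : L[X]).coeff i ∈ E)
    (hαR : α₁ ∈ R) (G : Fin (M + 1) × Fin (W + 1) → L)
    (hG : ∀ r ∈ R, ∀ i l, i + l < T → dot (jrow M W (F y₁) (F r) i l) G = 0)
    (B : ℝ) (hB : ∀ j, v (G j) ≤ B) :
    v (dot (jrow M W (y₁ ^ q) (α₁ ^ q) 0 0) G) ≤ ε ^ T * (max 1 (v α₁)) ^ (q * W) * B := by
  classical
  have hB0 : 0 ≤ B := (v.nonneg _).trans (hB (0, 0))
  have hFy : v (F y₁) = 1 := by rw [hF, hy1]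
  set mx : ℝ := (max 1 (v α₁)) ^ q with hmxdef
  have hmx : 1 ≤ mx := one_le_pow₀ (le_max_left _ _)
  have hmx0 : 0 ≤ mx := zero_le_one.trans hmx
  have hz : v (α₁ ^ q) ≤ mx := by
    rw [map_pow]
    exact pow_le_pow_left₀ (v.nonneg _) (le_max_right _ _) q
  have hpm : ∀ n : ℕ, (max 1 (v α₁)) ^ (q * n) = mx ^ n := fun n => pow_mul _ _ _
  set f₁ : L[X] := ∏ r ∈ R, (X - C r) with hf₁
  have hroot : f₁.eval α₁ = 0 := by
    rw [hf₁, eval_prod]
    exact Finset.prod_eq_zero hαR (by simp)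
  set P : L[X] := f₁.map (F : L →+* L) with hPdef
  have hPprod : ∏ r ∈ R.image F, (X - C r) = P := by
    rw [Finset.prod_image (fun a _ b _ h => F.injective h), hPdef, hf₁, Polynomial.map_prod]
    refine Finset.prod_congr rfl fun r _ => ?_
    simp
  have hPdeg : P.natDegree = f₁.natDegree :=
    natDegree_map_eq_of_injective F.injective f₁
  have hPnorm : P.gaussNorm v 1 = f₁.gaussNorm v 1 := gauss_map v F hF f₁
  have hPz : v (P.eval (α₁ ^ q)) ≤ ε * P.gaussNorm v 1 * mx ^ P.natDegree := by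
    have h := ks_frob v hv F hF E p q hp hq ε hε0 hpε hE f₁ hR α₁ hroot
    rw [hPnorm, hPdeg, ← hpm]
    exact h
  have hyy : v (y₁ ^ q - F y₁) ≤ ε := by
    rw [AbsoluteValue.map_sub]
    exact hE y₁ hyE hy1.le
  rw [ksG_taylor M W (F y₁) (y₁ ^ q) (α₁ ^ q) G, hpm]
  have hC0 : 0 ≤ ε ^ T * mx ^ W * B := mul_nonneg (mul_nonneg (pow_nonneg hε0 _)
    (pow_nonneg hmx0 _)) hB0
  refine ks_sum_le v hv _ _ _ hC0 fun i _ => ?_
  have hpow : v ((y₁ ^ q - F y₁) ^ i) ≤ ε ^ i := by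
    rw [map_pow]
    exact pow_le_pow_left₀ (v.nonneg _) hyy i
  have hnorm := ksG_norm v hv M W (F y₁) hFy G B hB i
  have hdeg := ksG_degree M W (F y₁) G i
  rw [map_mul]
  rcases lt_or_ge i T with hi | hi
  · have hdvd : P ^ (T - i) ∣ ksG M W (F y₁) G i := by
      rw [← hPprod]
      refine pow_dvd_of_hasse _ _ _ fun r hr l hl => ?_
      obtain ⟨s, hs, rfl⟩ := Finset.mem_image.1 hr
      rw [ksG_hasse]
      exact hG s hs i l (by omega)
    have h1 := ks_div v hv P (ksG M W (F y₁) G i) (T - i) W B ε mx (α₁ ^ q) hε0 hmx hz hdvd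
      hnorm hdeg hPz
    calc v ((y₁ ^ q - F y₁) ^ i) * v ((ksG M W (F y₁) G i).eval (α₁ ^ q))
        ≤ ε ^ i * (ε ^ (T - i) * B * mx ^ W) :=
          mul_le_mul hpow h1 (v.nonneg _) (pow_nonneg hε0 _)
      _ = ε ^ (i + (T - i)) * mx ^ W * B := by rw [pow_add]; ring
      _ = ε ^ T * mx ^ W * B := by rw [Nat.add_sub_cancel' hi.le]
  · have h1 := eval_le v hv (ksG M W (F y₁) G i) (α₁ ^ q) mx hmx hz W hdeg
    have h2 : ε ^ i ≤ ε ^ T := pow_le_pow_of_le_one hε0 hε1 hi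
    calc v ((y₁ ^ q - F y₁) ^ i) * v ((ksG M W (F y₁) G i).eval (α₁ ^ q))
        ≤ ε ^ i * ((ksG M W (F y₁) G i).gaussNorm v 1 * mx ^ W) :=
          mul_le_mul hpow h1 (v.nonneg _) (pow_nonneg hε0 _)
      _ ≤ ε ^ T * (B * mx ^ W) := by
          refine mul_le_mul h2 (mul_le_mul_of_nonneg_right hnorm (pow_nonneg hmx0 _)) ?_
            (pow_nonneg hε0 _)
          exact mul_nonneg (gaussNorm_nonneg v _ zero_le_one) (pow_nonneg hmx0 _)
      _ = ε ^ T * mx ^ W * B := by ring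

end Pool.Agent.H72.PL
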