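import Pool.Agent.H72.PL.Defs

/-!
# Module KSa: the Frobenius estimate for a polynomial over `E` (paper proof: prop. 65, section 2)

`‖f‖ = f.gaussNorm v 1 = max v (coefficients)` (Mathlib `RingTheory/Polynomial/GaussNorm.lean`).
Let `H = ‖f₁‖ > 0`, `c ∈ E` a coefficient of `f₁` with `v c = H` (`exists_eq_gaussNorm`), `f₂ = f₁/c`: its
coefficients `c_b` lie in `E`, `v c_b ≤ 1`, so `v (F c_b - c_b^q) ≤ ε`. `mx = max 1 (v α₁)`,
`D = natDegree f₁`. `f₂(α₁) = 0`. Claim `v (∑_b F(c_b) α₁^(q b)) ≤ ε mx^(q D)`; multiplying by `v (F c) = H`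
gives the statement (`f₁.map F = (F c) (f₂.map F)`).
Put `e_b = c_b α₁^b`, `v e_b ≤ mx^D`, `∑ e_b = 0`. Case `v α₁ ≤ 1`: all `e_b` are in the valuation ring,
`0 = (∑ e_b)^q = ∑ e_b^q + p g`, `v g ≤ 1` (iterate `exists_add_pow_prime_pow_eq`-type identity in the
subring `{z | v z ≤ 1}`: `(∑ e_b)^(p^f) - ∑ e_b^(p^f) ∈ p R`; e.g. in `R/pR` the Frobenius is additive:
`sum_pow_char_pow`), so `v (∑ e_b^q) ≤ v p ≤ ε`. And `∑ F(c_b) α₁^(qb) = ∑ (F c_b - c_b^q) α₁^(qb) + ∑ e_b^q`.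
Case `v α₁ > 1`: divide by `α₁^D`: `e'_b = e_b/α₁^D` are in the valuation ring with sum zero, so
`v (∑ e_b^q) ≤ ε mx^(q D)`, and `v ((F c_b - c_b^q) α₁^(qb)) ≤ ε mx^(q D)`.
-/

set_option autoImplicit false

open Polynomial Module

namespace Pool.Agent.H72.PL

private lemma ksa_sum_le {L : Type} [Field L] (v : AbsoluteValue L ℝ) (hv : IsNonarchimedean v)
    {J : Type*} (s : Finset J) (f : J → L) (B : ℝ) (hB : 0 ≤ B) (h : ∀ i ∈ s, v (f i) ≤ B) :
    v (∑ i ∈ s, f i) ≤ B := by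
  classical
  induction s using Finset.induction_on with
  | empty => simpa using hB
  | insert a s ha ih =>
    rw [Finset.sum_insert ha]
    refine (hv _ _).trans (max_le (h a (Finset.mem_insert_self a s)) (ih fun i hi => ?_))
    exact h i (Finset.mem_insert_of_mem hi)

/-- the Frobenius power is additive modulo `p` -/
private lemma ksa_pow_sum {R : Type*} [CommRing R] (p : ℕ) (hp : p.Prime) (f : ℕ) {J : Type*}
    (s : Finset J) (e : J → R) :
    ∃ r : R, (∑ i ∈ s, e i) ^ p ^ f = ∑ i ∈ s, e i ^ p ^ f + p * r := by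
  classical
  induction s using Finset.induction_on with
  | empty =>
    refine ⟨0, ?_⟩
    rw [Finset.sum_empty, Finset.sum_empty, zero_pow (pow_pos hp.pos f).ne']
    ring
  | insert a s ha ih =>
    obtain ⟨r, hr⟩ := ih
    rw [Finset.sum_insert ha, Finset.sum_insert ha]
    obtain ⟨r', hr'⟩ := exists_add_pow_prime_pow_eq hp (e a) (∑ i ∈ s, e i) f
    refine ⟨r + e a * (∑ i ∈ s, e i) * r', ?_⟩
    rw [hr', hr]
    ring

/-- the valuation ring of a nonarchimedean absolute value -/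
private def ksaO {L : Type} [Field L] (v : AbsoluteValue L ℝ) (hv : IsNonarchimedean v) :
    Subring L where
  carrier := {z | v z ≤ 1}
  mul_mem' := by
    intro a b ha hb
    simp only [Set.mem_ofPred_eq, map_mul] at *
    exact mul_le_one₀ ha (v.nonneg _) hb
  one_mem' := by simp
  add_mem' := by
    intro a b ha hb
    simp only [Set.mem_ofPred_eq] at *
    exact (hv a b).trans (max_le ha hb)
  zero_mem' := by simp
  neg_mem' := by
    intro a ha
    simp only [Set.mem_ofPred_eq] at *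
    rwa [AbsoluteValue.map_neg]

private lemma ksa_zero_sum {L : Type} [Field L] (v : AbsoluteValue L ℝ) (hv : IsNonarchimedean v)
    (p : ℕ) (hp : p.Prime) (f : ℕ) {J : Type*} (s : Finset J) (e : J → L) (β : L) (hβ : β ≠ 0)
    (h : ∀ i ∈ s, v (e i) ≤ v β) (h0 : ∑ i ∈ s, e i = 0) :
    v (∑ i ∈ s, e i ^ p ^ f) ≤ v (p : L) * v β ^ p ^ f := by
  classical
  have hβ0 : 0 < v β := v.pos hβ
  have hmem : ∀ i : s, e i / β ∈ ksaO v hv := by
    intro i
    show v (e i / β) ≤ 1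
    rw [map_div₀]
    exact (div_le_one hβ0).2 (h i i.2)
  obtain ⟨r, hr⟩ := ksa_pow_sum (R := ksaO v hv) p hp f (Finset.univ : Finset s)
    (fun i => ⟨e i / β, hmem i⟩)
  have h1 := congrArg (ksaO v hv).subtype hr
  simp only [map_pow, map_sum, map_add, map_mul, map_natCast, Subring.subtype_apply] at h1
  have h2 : ∑ i : s, e i / β = 0 := by
    rw [← Finset.sum_div, Finset.sum_coe_sort s e, h0, zero_div]
  rw [h2, zero_pow (pow_pos hp.pos f).ne'] at h1
  have h3 : ∑ i ∈ s, e i ^ p ^ f = β ^ p ^ f * ∑ i : s, (e i / β) ^ p ^ f := by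
    rw [Finset.mul_sum, ← Finset.sum_coe_sort s (fun i => e i ^ p ^ f)]
    refine Finset.sum_congr rfl fun i _ => ?_
    rw [div_pow]
    field_simp
  have h4 : ∑ i : s, (e i / β) ^ p ^ f = -((p : L) * (r : L)) := by
    linear_combination -h1
  rw [h3, h4, map_mul, AbsoluteValue.map_neg, map_mul, map_pow, mul_comm]
  refine mul_le_mul_of_nonneg_right ?_ (pow_nonneg hβ0.le _)
  have h5 : v (r : L) ≤ 1 := r.2
  calc v (p : L) * v (r : L) ≤ v (p : L) * 1 := mul_le_mul_of_nonneg_left h5 (v.nonneg _)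
    _ = v (p : L) := mul_one _

theorem ks_frob {L : Type} [Field L] (v : AbsoluteValue L ℝ) (hv : IsNonarchimedean v)
    (F : L ≃+* L) (hF : ∀ z, v (F z) = v z) (E : Subfield L) (p q : ℕ) (hp : p.Prime)
    (hq : ∃ f : ℕ, q = p ^ f) (ε : ℝ) (hε0 : 0 ≤ ε) (hpε : v (p : L) ≤ ε)
    (hE : ∀ z ∈ E, v z ≤ 1 → v (F z - z ^ q) ≤ ε) (f₁ : L[X]) (hf : ∀ i, f₁.coeff i ∈ E)
    (α₁ : L) (hroot : f₁.eval α₁ = 0) :
    v ((f₁.map (F : L →+* L)).eval (α₁ ^ q)) ≤
      ε * f₁.gaussNorm v 1 * (max 1 (v α₁)) ^ (q * f₁.natDegree) := by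
  classical
  set mx : ℝ := max 1 (v α₁) with hmx
  have hmx1 : 1 ≤ mx := le_max_left _ _
  have hmx0 : 0 ≤ mx := zero_le_one.trans hmx1
  have hαmx : v α₁ ≤ mx := le_max_right _ _
  by_cases hf0 : f₁ = 0
  · subst hf0
    simp
  obtain ⟨f, rfl⟩ := hq
  set q := p ^ f with hqdef
  set D := f₁.natDegree with hD
  obtain ⟨j, hj⟩ := exists_eq_gaussNorm v 1 f₁
  rw [one_pow, mul_one] at hj
  set c := f₁.coeff j with hc
  have hH0 : f₁.gaussNorm v 1 ≠ 0 := by
    rw [Ne, gaussNorm_eq_zero_iff v (p := f₁) (fun x hx => v.eq_zero.1 hx) one_pos]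
    exact hf0
  have hvc : v c ≠ 0 := by rw [← hj]; exact hH0
  have hc0 : c ≠ 0 := by
    intro h
    exact hvc (by rw [h, map_zero])
  have hvc0 : 0 < v c := v.pos hc0
  set cb : ℕ → L := fun b => f₁.coeff b / c with hcb
  have hcbE : ∀ b, cb b ∈ E := fun b => E.div_mem (hf b) (hf j)
  have hcb1 : ∀ b, v (cb b) ≤ 1 := by
    intro b
    rw [hcb]
    simp only
    rw [map_div₀, div_le_one hvc0, ← hj]
    have := f₁.le_gaussNorm v (c := 1) zero_le_one b
    simpa using this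
  -- the scaling element
  obtain ⟨β, hβ0, hβ⟩ : ∃ β : L, β ≠ 0 ∧ v β = mx ^ D := by
    rcases le_or_gt (v α₁) 1 with h | h
    · refine ⟨1, one_ne_zero, ?_⟩
      rw [hmx, max_eq_left h, one_pow, map_one]
    · refine ⟨α₁ ^ D, ?_, ?_⟩
      · apply pow_ne_zero
        rintro rfl
        rw [map_zero] at h
        linarith
      · rw [map_pow, hmx, max_eq_right h.le]
  have hsum0 : ∑ b ∈ Finset.range (D + 1), cb b * α₁ ^ b = 0 := by
    rw [eval_eq_sum_range] at hroot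
    have : ∑ b ∈ Finset.range (D + 1), cb b * α₁ ^ b =
        (∑ b ∈ Finset.range (D + 1), f₁.coeff b * α₁ ^ b) / c := by
      rw [Finset.sum_div]
      exact Finset.sum_congr rfl fun b _ => by rw [hcb]; ring
    rw [this, hroot, zero_div]
  have hpowb : ∀ b ≤ D, v (α₁ ^ b) ≤ mx ^ D := by
    intro b hb
    rw [map_pow]
    exact (pow_le_pow_left₀ (v.nonneg _) hαmx b).trans (pow_le_pow_right₀ hmx1 hb)
  have hA : v (∑ b ∈ Finset.range (D + 1), (cb b * α₁ ^ b) ^ q) ≤ ε * mx ^ (q * D) := by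
    have h1 := ksa_zero_sum v hv p hp f (Finset.range (D + 1)) (fun b => cb b * α₁ ^ b) β hβ0
      (by
        intro b hb
        rw [Finset.mem_range] at hb
        rw [map_mul, hβ]
        calc v (cb b) * v (α₁ ^ b) ≤ 1 * mx ^ D :=
              mul_le_mul (hcb1 b) (hpowb b (by omega)) (v.nonneg _) zero_le_one
          _ = mx ^ D := one_mul _) hsum0
    refine h1.trans ?_
    rw [hβ, ← pow_mul, mul_comm D]
    exact mul_le_mul_of_nonneg_right hpε (pow_nonneg hmx0 _)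
  have hB : v (∑ b ∈ Finset.range (D + 1), (F (cb b) - cb b ^ q) * (α₁ ^ b) ^ q) ≤
      ε * mx ^ (q * D) := by
    refine ksa_sum_le v hv _ _ _ (mul_nonneg hε0 (pow_nonneg hmx0 _)) fun b hb => ?_
    rw [Finset.mem_range] at hb
    rw [map_mul, map_pow, mul_comm q, pow_mul]
    refine mul_le_mul (hE _ (hcbE b) (hcb1 b)) ?_ (pow_nonneg (v.nonneg _) _) hε0
    exact pow_le_pow_left₀ (v.nonneg _) (hpowb b (by omega)) q
  have hev : (f₁.map (F : L →+* L)).eval (α₁ ^ q) =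
      F c * (∑ b ∈ Finset.range (D + 1), (F (cb b) - cb b ^ q) * (α₁ ^ b) ^ q +
        ∑ b ∈ Finset.range (D + 1), (cb b * α₁ ^ b) ^ q) := by
    have hdeg : (f₁.map (F : L →+* L)).natDegree = D :=
      natDegree_map_eq_of_injective F.injective f₁
    rw [eval_eq_sum_range, hdeg, ← Finset.sum_add_distrib, Finset.mul_sum]
    refine Finset.sum_congr rfl fun b _ => ?_
    rw [coeff_map]
    have h1 : F (f₁.coeff b) = F c * F (cb b) := by
      rw [← map_mul]
      congr 1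
      rw [hcb]
      field_simp
    show F (f₁.coeff b) * (α₁ ^ q) ^ b = _
    rw [h1, mul_pow, ← pow_mul, ← pow_mul, mul_comm q b]
    ring
  rw [hev, map_mul, hF, ← hj]
  have h2 : v (∑ b ∈ Finset.range (D + 1), (F (cb b) - cb b ^ q) * (α₁ ^ b) ^ q +
        ∑ b ∈ Finset.range (D + 1), (cb b * α₁ ^ b) ^ q) ≤ ε * mx ^ (q * D) :=
    (hv _ _).trans (max_le hB hA)
  have hH : 0 ≤ f₁.gaussNorm v 1 := f₁.gaussNorm_nonneg v zero_le_one
  calc f₁.gaussNorm v 1 * v (∑ b ∈ Finset.range (D + 1), (F (cb b) - cb b ^ q) * (α₁ ^ b) ^ q +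
        ∑ b ∈ Finset.range (D + 1), (cb b * α₁ ^ b) ^ q)
      ≤ f₁.gaussNorm v 1 * (ε * mx ^ (q * D)) := mul_le_mul_of_nonneg_left h2 hH
    _ = ε * f₁.gaussNorm v 1 * mx ^ (q * D) := by ring

/-- applying an isometry to the coefficients does not change the Gauss norm -/
theorem gauss_map {L : Type} [Field L] (v : AbsoluteValue L ℝ) (F : L ≃+* L)
    (hF : ∀ z, v (F z) = v z) (f₁ : L[X]) :
    (f₁.map (F : L →+* L)).gaussNorm v 1 = f₁.gaussNorm v 1 := by
  have hc : ∀ i, v ((f₁.map (F : L →+* L)).coeff i) = v (f₁.coeff i) := by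
    intro i
    rw [coeff_map]
    exact hF _
  apply le_antisymm
  · obtain ⟨i, hi⟩ := exists_eq_gaussNorm v 1 (f₁.map (F : L →+* L))
    rw [hi, hc]
    exact f₁.le_gaussNorm v zero_le_one i
  · obtain ⟨i, hi⟩ := exists_eq_gaussNorm v 1 f₁
    rw [hi, ← hc]
    exact (f₁.map (F : L →+* L)).le_gaussNorm v zero_le_one i

end Pool.Agent.H72.PL
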