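import Pool.Agent.H72.PL.FD
import Pool.Agent.H72.PL.KS

/-!
# Module Kill: the local lemma for the row systems (paper proof: proposal 65, sections 2, 3)

`w` above `𝔭 t`, `q = nrm (𝔭 t)`, `σ ∈ H = k.fixingSubgroup`, `G` in the common kernel of the rows `arow`.
Let `Fw` be the automorphism of `FD.frob` for `w`; `y₁ = σ (F_t⁻¹ y)`, `α₁ = σ (F_t⁻¹ α)`.
* `y₁ ∈ E` (`yE`, `stabE`); `w y₁ = 1` (`FD.unit` for the automorphism `σ F_t⁻¹`).
* `R` = the finset of the conjugates of `α₁` over `E` (`{θ α₁ : θ ∈ E.fixingSubgroup}`);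
  `∏_{r∈R} (X - r)` is `minpoly E α₁`, its coefficients lie in `E` (they are fixed by `E.fixingSubgroup`).
* For `r = θ α₁`, `θ ∈ E.fixingSubgroup ≤ H`: `(Fw y₁, Fw r) = (τ y, τ α)` with
  `τ = Fw θ σ F_t⁻¹`; `θ y₁ = y₁` since `y₁ ∈ E`. And `τ ∈ H`: for `z ∈ k`: `F_t⁻¹ z ∈ k` (`stabk`), `σ`, `θ`
  fix it, and `Fw (F_t⁻¹ z) = F_t (F_t⁻¹ z) = z`. So `dot (jrow M W (Fw y₁) (Fw r) i l) G = 0` for
  `i + l < T`: it is the row `arow (τ, (i,l))`.
* `ks_lemma` with `E.toSubfield`, `F = Fw` (as ring isomorphism), `v = w.1`, `ε = epsw (𝔭 t) w` (`Eps`: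
  `0 < ε ≤ 1`, `w p ≤ ε` by `epsw_bound`: the image of `p` lies in `pL`), `q = nrm (𝔭 t) = p^f`.
-/

set_option autoImplicit false

open NumberField IsDedekindDomain Module

namespace Pool.Agent.H72.PL

variable {K L : Type} [Field K] [NumberField K] [Field L] [NumberField L] [Algebra K L]

theorem kill_bound [IsGalois K L] {k E : IntermediateField K L} {y : L} {ι : Type}
    {𝔭 : ι → HeightOneSpectrum (𝓞 K)} {F : ι → (L ≃ₐ[K] L)} (h : FD k E y 𝔭 F) (M W T : ℕ)
    (α : L) (t : ι) (w : FinitePlace L) (hw : Above (𝔭 t) w) (σ : k.fixingSubgroup)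
    (G : Fin (M + 1) × Fin (W + 1) → L) (hG : ∀ s, dot (arow k M W T y α s) G = 0)
    (B : ℝ) (hB : ∀ j, w (G j) ≤ B) :
    w (dot (brow k M W y α F (fun t => nrm (𝔭 t)) (σ, t)) G) ≤
      (epsw (𝔭 t) w) ^ T * (max 1 (w (σ.1 ((F t).symm α)))) ^ (nrm (𝔭 t) * W) * B := by
  classical
  obtain ⟨Fw, hFw, hFwk⟩ := h.frob t w hw
  obtain ⟨p, f, hp, hf1, hpmem, hnrm⟩ := h.prime t
  set y₁ : L := σ.1 ((F t).symm y) with hy₁
  set α₁ : L := σ.1 ((F t).symm α) with hα₁
  have hyE : y₁ ∈ E := h.stabE σ.1 _ (h.stabE (F t).symm _ h.yE)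
  have hy1 : w y₁ = 1 := h.unit t w hw ((F t).symm.trans σ.1)
  have hna : IsNonarchimedean (w.1 : L → ℝ) := fun a b => FinitePlace.add_le w a b
  haveI : Fintype E.fixingSubgroup := Fintype.ofFinite _
  set R : Finset L := Finset.univ.image (fun θ : E.fixingSubgroup => θ.1 α₁) with hR
  have hαR : α₁ ∈ R := by
    rw [hR, Finset.mem_image]
    exact ⟨1, Finset.mem_univ _, rfl⟩
  have hRim : ∀ θ : E.fixingSubgroup, R.image θ.1 = R := by
    intro θ
    apply Finset.eq_of_subset_of_card_le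
    · intro x hx
      rw [Finset.mem_image] at hx
      obtain ⟨r, hr, rfl⟩ := hx
      rw [hR, Finset.mem_image] at hr ⊢
      obtain ⟨θ', _, rfl⟩ := hr
      exact ⟨θ * θ', Finset.mem_univ _, rfl⟩
    · rw [Finset.card_image_of_injective _ θ.1.injective]
  have hRE : ∀ i, (∏ r ∈ R, (Polynomial.X - Polynomial.C r) : Polynomial L).coeff i ∈
      E.toSubfield := by
    intro i
    have h1 : (∏ r ∈ R, (Polynomial.X - Polynomial.C r) : Polynomial L).coeff i ∈
        IntermediateField.fixedField E.fixingSubgroup := by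
      rw [IntermediateField.mem_fixedField_iff]
      intro θ hθ
      have h2 : ((∏ r ∈ R, (Polynomial.X - Polynomial.C r) : Polynomial L)).map
          (θ : L →+* L) = ∏ r ∈ R, (Polynomial.X - Polynomial.C r) := by
        rw [Polynomial.map_prod]
        have h3 : ∏ r ∈ R, (Polynomial.X - Polynomial.C r : Polynomial L) =
            ∏ r ∈ R.image θ, (Polynomial.X - Polynomial.C r) := by
          rw [hRim ⟨θ, hθ⟩]
        rw [h3, Finset.prod_image (fun a _ b _ hab => θ.injective hab)]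
        refine Finset.prod_congr ?_ (fun r _ => ?_)
        · rfl
        · simp
      have h4 := congrArg (fun P => Polynomial.coeff P i) h2
      simp only [Polynomial.coeff_map] at h4
      exact h4
    rw [IsGalois.fixedField_fixingSubgroup] at h1
    exact h1
  have hkill : ∀ r ∈ R, ∀ i l, i + l < T →
      dot (jrow M W (Fw y₁) (Fw r) i l) G = 0 := by
    intro r hr i l hil
    rw [hR, Finset.mem_image] at hr
    obtain ⟨θ, _, rfl⟩ := hr
    have hτ : (((F t).symm.trans σ.1).trans θ.1).trans Fw ∈ k.fixingSubgroup := by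
      rw [IntermediateField.mem_fixingSubgroup_iff]
      intro z hz
      have h1 : (F t).symm z ∈ k := h.stabk (F t).symm z hz
      have h2 : σ.1 ((F t).symm z) = (F t).symm z :=
        (IntermediateField.mem_fixingSubgroup_iff _ _).1 σ.2 _ h1
      have h3 : θ.1 ((F t).symm z) = (F t).symm z :=
        (IntermediateField.mem_fixingSubgroup_iff _ _).1 θ.2 _ (h.kE h1)
      change Fw (θ.1 (σ.1 ((F t).symm z))) = z
      rw [h2, h3, hFwk _ h1]
      exact (F t).apply_symm_apply z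
    have h5 := hG (⟨_, hτ⟩, ⟨(⟨i, by omega⟩, ⟨l, by omega⟩), hil⟩)
    have h6 : θ.1 y₁ = y₁ := (IntermediateField.mem_fixingSubgroup_iff _ _).1 θ.2 _ hyE
    have h7 : arow k M W T y α (⟨(((F t).symm.trans σ.1).trans θ.1).trans Fw, hτ⟩,
        ⟨(⟨i, by omega⟩, ⟨l, by omega⟩), hil⟩) = jrow M W (Fw (θ.1 y₁)) (Fw (θ.1 α₁)) i l := rfl
    rw [h7, h6] at h5
    exact h5
  have hpε : w.1 (p : L) ≤ epsw (𝔭 t) w := by
    have h1 : ((p : ℕ) : 𝓞 L) ∈ pL L (𝔭 t) := by
      have h2 := Ideal.mem_map_of_mem (algebraMap (𝓞 K) (𝓞 L)) hpmem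
      rw [map_natCast] at h2
      exact h2
    have h3 := epsw_bound (𝔭 t) w (p : 𝓞 L) h1
    have h4 : (((p : ℕ) : 𝓞 L) : L) = (p : L) := by simp
    rw [h4] at h3
    exact h3
  exact ks_lemma w.1 hna (Fw : L ≃+* L) (fun z => hFw.iso z) E.toSubfield p (nrm (𝔭 t)) hp
    ⟨f, hnrm⟩ (epsw (𝔭 t) w) (epsw_pos _ _).le (epsw_le_one _ _) hpε
    (fun z hz hz1 => hFw.close z hz hz1) M W T y₁ α₁ hyE hy1 R hRE hαR G hkill B hB

end Pool.Agent.H72.PL
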