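import Pool.Agent.H72.PL.Defs

/-!
# Module MinorB: replacing rows (paper proof: proposal 65, section 3)

`det_replace`: rows outside `base` are changed by linear combinations of the rows in `base`: the
   determinant does not change. (Change one row at a time: multilinearity, and the determinant with a row
   replaced by a row in `span (R '' base)` is zero: `Matrix.det_updateRow_add`,
   `Matrix.det_zero_of_row_eq`; or write `R' = U R` with `U` unipotent, `det U = 1`. One may assume `base` and
   its complement ordered: `Matrix.det_of_lowerTriangular`/`BlockTriangular`.)
-/

set_option autoImplicit false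

open Module

namespace Pool.Agent.H72.PL

variable {L : Type} [Field L]

theorem det_replace {I J : Type} [Fintype I] [DecidableEq I] (col : I → J) (R R' : I → J → L)
    (base : Set I) (h1 : ∀ i ∈ base, R' i = R i)
    (h2 : ∀ i, i ∉ base → R' i - R i ∈ Submodule.span L (R '' base)) :
    (Matrix.of fun i j => R' i (col j)).det = (Matrix.of fun i j => R i (col j)).det := by
  classical
  have key : ∀ S : Finset I, (∀ i ∈ S, i ∉ base) →
      (Matrix.of fun i j : I => (if i ∈ S then R' i else R i) (col j)).det =
        (Matrix.of fun i j : I => R i (col j)).det := by
    intro S
    induction S using Finset.induction_on with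
    | empty =>
      intro _
      simp
    | insert a S ha ih =>
      intro h
      have ih' := ih (fun i hi => h i (Finset.mem_insert_of_mem hi))
      obtain ⟨M, hM⟩ : ∃ M : Matrix I I L,
        M = Matrix.of fun i j : I => (if i ∈ S then R' i else R i) (col j) := ⟨_, rfl⟩
      rw [← hM] at ih'
      have ha' : a ∉ base := h a (Finset.mem_insert_self _ _)
      have hM' : (Matrix.of fun i j : I => (if i ∈ insert a S then R' i else R i) (col j)) =
          M.updateRow a (M a + (fun j => (R' a - R a) (col j))) := by
        ext i j
        by_cases hi : i = a
        · subst hi
          rw [Matrix.updateRow_self, Matrix.of_apply, if_pos (Finset.mem_insert_self _ _),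
            Pi.add_apply, hM, Matrix.of_apply, if_neg ha, Pi.sub_apply]
          ring
        · rw [Matrix.updateRow_ne hi, Matrix.of_apply, hM, Matrix.of_apply]
          by_cases hiS : i ∈ S
          · rw [if_pos hiS, if_pos (Finset.mem_insert_of_mem hiS)]
          · rw [if_neg hiS, if_neg (by
              rw [Finset.mem_insert]
              rintro (h3 | h3)
              · exact hi h3
              · exact hiS h3)]
      have hzero : ∀ d ∈ Submodule.span L (R '' base),
          (M.updateRow a (fun j => d (col j))).det = 0 := by
        intro d hd
        induction hd using Submodule.span_induction with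
        | mem d hd =>
          obtain ⟨i, hi, rfl⟩ := hd
          have hia : i ≠ a := by
            rintro rfl
            exact ha' hi
          apply Matrix.det_zero_of_row_eq hia.symm
          rw [Matrix.updateRow_self, Matrix.updateRow_ne hia]
          funext j
          have hiS : i ∉ S := fun h3 => h i (Finset.mem_insert_of_mem h3) hi
          rw [hM, Matrix.of_apply, if_neg hiS]
        | zero =>
          apply Matrix.det_eq_zero_of_row_eq_zero a
          intro j
          rw [Matrix.updateRow_self]
          rfl
        | add x y _ _ hx hy =>
          have h3 : (fun j => (x + y) (col j)) = (fun j => x (col j)) + (fun j => y (col j)) := rfl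
          rw [h3, Matrix.det_updateRow_add, hx, hy, add_zero]
        | smul c x _ hx =>
          have h3 : (fun j => (c • x) (col j)) = c • (fun j => x (col j)) := rfl
          rw [h3, Matrix.det_updateRow_smul, hx, mul_zero]
      rw [hM', Matrix.det_updateRow_add, Matrix.updateRow_eq_self, hzero _ (h2 a ha'), add_zero]
      exact ih'
  rw [← key (Finset.univ.filter (fun i => i ∉ base)) (fun i hi => (Finset.mem_filter.1 hi).2)]
  congr 1
  ext i j
  rw [Matrix.of_apply, Matrix.of_apply]
  by_cases hi : i ∈ base
  · rw [if_neg (by simp [hi]), h1 i hi]
  · rw [if_pos (by simp [hi])]

end Pool.Agent.H72.PL
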