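import Pool.Agent.H72.PL.MinorA
import Pool.Agent.H72.PL.MinorB

/-!
# Module Minor: determinant bounds (paper proof: proposal 65, section 3)

3. `det_arch`: Leibniz formula `Matrix.det_apply`, triangle inequality, `#(Perm I) = (card I)!`.
   `det_nonarch`: the same with the ultrametric inequality. (If `I` is empty the determinant is `1`.)
4. `jrow_arch`: `v (choose a i) ≤ choose a i ≤ M^i ≤ Ms^i` for `a ≤ M` (`Nat.choose_le_pow..`), similarly
   `choose b l ≤ Ms^l`; `v (n : L) ≤ n` for every absolute value. `v y^(a-i) ≤ max 1 (v y)^M`.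
   `jrow_nonarch`: `v (n : L) ≤ 1`.
-/

set_option autoImplicit false

open Module

namespace Pool.Agent.H72.PL

variable {L : Type} [Field L]

/-- one term of the Leibniz formula -/
theorem det_term (v : AbsoluteValue L ℝ) {I : Type} [Fintype I] [DecidableEq I]
    (A : Matrix I I L) (c : I → ℝ) (h : ∀ i j, v (A i j) ≤ c i) (σ : Equiv.Perm I) :
    v (Equiv.Perm.sign σ • ∏ i, A (σ i) i) ≤ ∏ i, c i := by
  have h1 : v (Equiv.Perm.sign σ • ∏ i, A (σ i) i) = v (∏ i, A (σ i) i) := by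
    rcases Int.units_eq_one_or (Equiv.Perm.sign σ) with h2 | h2
    · rw [h2, one_smul]
    · rw [h2, Units.neg_smul, one_smul, v.map_neg]
  rw [h1, map_prod]
  calc ∏ i, v (A (σ i) i) ≤ ∏ i, c (σ i) :=
        Finset.prod_le_prod (fun i _ => v.nonneg _) fun i _ => h _ _
    _ = ∏ i, c i := Equiv.prod_comp σ c

theorem det_arch (v : AbsoluteValue L ℝ) {I : Type} [Fintype I] [DecidableEq I]
    (A : Matrix I I L) (c : I → ℝ) (h : ∀ i j, v (A i j) ≤ c i) :
    v A.det ≤ (Fintype.card I).factorial * ∏ i, c i := by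
  rw [Matrix.det_apply]
  calc v (∑ σ : Equiv.Perm I, Equiv.Perm.sign σ • ∏ i, A (σ i) i)
      ≤ ∑ σ : Equiv.Perm I, v (Equiv.Perm.sign σ • ∏ i, A (σ i) i) := v.sum_le _ _
    _ ≤ ∑ _σ : Equiv.Perm I, ∏ i, c i := Finset.sum_le_sum fun σ _ => det_term v A c h σ
    _ = (Fintype.card I).factorial * ∏ i, c i := by
        rw [Finset.sum_const, Finset.card_univ, Fintype.card_perm, nsmul_eq_mul]

theorem nonarch_sum_le (v : AbsoluteValue L ℝ) (hv : IsNonarchimedean v) {ι : Type} (s : Finset ι)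
    (f : ι → L) (c : ℝ) (hc : 0 ≤ c) (h : ∀ i ∈ s, v (f i) ≤ c) : v (∑ i ∈ s, f i) ≤ c := by
  classical
  induction s using Finset.induction_on with
  | empty => simpa using hc
  | insert a s ha ih =>
    rw [Finset.sum_insert ha]
    refine (hv _ _).trans (max_le (h a (Finset.mem_insert_self _ _)) ?_)
    exact ih fun i hi => h i (Finset.mem_insert_of_mem hi)

theorem det_nonarch (v : AbsoluteValue L ℝ) (hv : IsNonarchimedean v) {I : Type} [Fintype I]
    [DecidableEq I] (A : Matrix I I L) (c : I → ℝ) (h : ∀ i j, v (A i j) ≤ c i) :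
    v A.det ≤ ∏ i, c i := by
  rw [Matrix.det_apply]
  refine nonarch_sum_le v hv _ _ _ ?_ fun σ _ => det_term v A c h σ
  exact Finset.prod_nonneg fun i _ => (v.nonneg (A i i)).trans (h i i)

theorem abv_natCast_le (v : AbsoluteValue L ℝ) (n : ℕ) : v (n : L) ≤ n := by
  induction n with
  | zero => simp
  | succ n ih =>
    rw [Nat.cast_succ, Nat.cast_succ]
    refine (v.add_le _ _).trans ?_
    rw [v.map_one]
    linarith

theorem abv_natCast_le_one (v : AbsoluteValue L ℝ) (hv : IsNonarchimedean v) (n : ℕ) :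
    v (n : L) ≤ 1 := by
  induction n with
  | zero => simp
  | succ n ih =>
    rw [Nat.cast_succ]
    refine (hv _ _).trans ?_
    rw [v.map_one]
    exact max_le ih le_rfl

theorem choose_le_pow_real (Ms : ℝ) (a M i : ℕ) (ha : a ≤ M) (hM : (M : ℝ) ≤ Ms) :
    ((a.choose i : ℕ) : ℝ) ≤ Ms ^ i := by
  have h1 : a.choose i ≤ a ^ i := Nat.choose_le_pow a i
  have h2 : ((a.choose i : ℕ) : ℝ) ≤ (a : ℝ) ^ i := by exact_mod_cast h1
  refine h2.trans (pow_le_pow_left₀ (Nat.cast_nonneg _) ?_ i)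
  exact le_trans (by exact_mod_cast ha) hM

theorem pow_sub_le_max (v : AbsoluteValue L ℝ) (y : L) (a M i : ℕ) (ha : a ≤ M) :
    v (y ^ (a - i)) ≤ (max 1 (v y)) ^ M := by
  rw [map_pow]
  calc v y ^ (a - i) ≤ (max 1 (v y)) ^ (a - i) :=
        pow_le_pow_left₀ (v.nonneg _) (le_max_right _ _) _
    _ ≤ (max 1 (v y)) ^ M := pow_le_pow_right₀ (le_max_left _ _) (by omega)

theorem jrow_arch (v : AbsoluteValue L ℝ) (M W : ℕ) (Ms : ℝ) (hM : (M : ℝ) ≤ Ms)
    (hW : (W : ℝ) ≤ Ms) (h1 : 1 ≤ Ms) (y x : L) (i l : ℕ) (j : Fin (M + 1) × Fin (W + 1)) :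
    v (jrow M W y x i l j) ≤ Ms ^ (i + l) * (max 1 (v y)) ^ M * (max 1 (v x)) ^ W := by
  have hMs : 0 ≤ Ms := by linarith
  have hj1 : (j.1 : ℕ) ≤ M := Nat.lt_succ_iff.1 j.1.2
  have hj2 : (j.2 : ℕ) ≤ W := Nat.lt_succ_iff.1 j.2.2
  have e1 : v (((j.1 : ℕ).choose i : ℕ) : L) ≤ Ms ^ i :=
    (abv_natCast_le v _).trans (choose_le_pow_real Ms _ M i hj1 hM)
  have e2 : v (((j.2 : ℕ).choose l : ℕ) : L) ≤ Ms ^ l :=
    (abv_natCast_le v _).trans (choose_le_pow_real Ms _ W l hj2 hW)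
  unfold jrow
  rw [map_mul, map_mul, map_mul, pow_add]
  refine mul_le_mul (mul_le_mul (mul_le_mul e1 e2 (v.nonneg _) (by positivity))
    (pow_sub_le_max v y _ M i hj1) (v.nonneg _) (by positivity))
    (pow_sub_le_max v x _ W l hj2) (v.nonneg _) (by positivity)

theorem jrow_nonarch (v : AbsoluteValue L ℝ) (hv : IsNonarchimedean v) (M W : ℕ) (y x : L)
    (i l : ℕ) (j : Fin (M + 1) × Fin (W + 1)) :
    v (jrow M W y x i l j) ≤ (max 1 (v y)) ^ M * (max 1 (v x)) ^ W := by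
  have hj1 : (j.1 : ℕ) ≤ M := Nat.lt_succ_iff.1 j.1.2
  have hj2 : (j.2 : ℕ) ≤ W := Nat.lt_succ_iff.1 j.2.2
  have e1 : v (((j.1 : ℕ).choose i : ℕ) : L) ≤ 1 := abv_natCast_le_one v hv _
  have e2 : v (((j.2 : ℕ).choose l : ℕ) : L) ≤ 1 := abv_natCast_le_one v hv _
  have e3 : v (((j.1 : ℕ).choose i : ℕ) : L) * v (((j.2 : ℕ).choose l : ℕ) : L) ≤ 1 :=
    mul_le_one₀ e1 (v.nonneg _) e2
  unfold jrow
  rw [map_mul, map_mul, map_mul]
  calc v (((j.1 : ℕ).choose i : ℕ) : L) * v (((j.2 : ℕ).choose l : ℕ) : L) *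
        v (y ^ ((j.1 : ℕ) - i)) * v (x ^ ((j.2 : ℕ) - l))
      ≤ 1 * (max 1 (v y)) ^ M * (max 1 (v x)) ^ W :=
        mul_le_mul (mul_le_mul e3 (pow_sub_le_max v y _ M i hj1) (v.nonneg _) zero_le_one)
          (pow_sub_le_max v x _ W l hj2) (v.nonneg _) (by positivity)
    _ = _ := by rw [one_mul]

end Pool.Agent.H72.PL
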