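import Pool.Agent.H72.PL.Defs

/-!
# Module RowRepl: replacing a row by a small one (paper proof: proposal 65, section 3)

1. `row_proj`: `N ≤ L^J`, `c = dim N`. Let `n_1..n_c` be a basis of `N`. Among the maps `I : Fin c → J` with
   `det (n_a (I b)) ≠ 0` (they exist: the matrix has rank `c`; for `c = 0` everything is trivial, `π = 0`)
   choose one with `v (det)` maximal. Then the projection `N → L^c`, `x ↦ (x (I b))_b`, is an isomorphism;
   `π x` := the element of `N` with the same coordinates as `x` on `I`. For `x` with all `v (x j) ≤ B`: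
   `π x = ∑_b x(I b) e_b`, where `e_b ∈ N` has coordinates `δ` on `I`, and `v (e_b j) ≤ 1` for all `j`: by
   Cramer `e_b j = det (n_a (I with I b replaced by j)) / det (n_a (I b))`, a quotient of absolute value
   `≤ 1` by maximality. Ultrametric inequality.
2. `row_replace`: `b' = b ∘ π`, i.e. `b' j = dot b (π e_j)`. For `G ∈ N`: `dot b' G = dot b (π G) = dot b G`.
   `v (b' j) ≤ c * 1` since `π (Pi.single j 1) ∈ N` has sup norm `≤ 1`.
3. `dot_dual`: a row which kills the common kernel of `A` lies in `A` (`A` a subspace of `L^J`):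
   `dot` identifies `L^J` with its dual (`Module.Dual`, `LinearEquiv.piRing`, `Matrix.dotProduct`
   nondegenerate), `Subspace.dualAnnihilator_dualCoannihilator_eq` / `mem_span_of_iInf_ker_le_ker`.
-/

set_option autoImplicit false

open Module

namespace Pool.Agent.H72.PL

variable {L : Type} [Field L] {J : Type} [Fintype J]

private theorem rr_cols {I J : Type} [Fintype I] [DecidableEq I] [Fintype J] (M : Matrix I J L)
    (h : LinearIndependent L M.row) :
    ∃ col : I → J, (Matrix.of fun i j : I => M i (col j)).det ≠ 0 := by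
  have h1 : M.rank = Fintype.card I := by
    rw [Matrix.rank_eq_finrank_span_row, finrank_span_eq_card h]
  rw [Matrix.rank_eq_finrank_span_cols] at h1
  obtain ⟨κ, a, ha, hsp, hli⟩ := exists_linearIndependent' L M.col
  have hκ : Finite κ := Finite.of_injective a ha
  have := Fintype.ofFinite κ
  rw [← hsp, finrank_span_eq_card hli] at h1
  obtain ⟨e⟩ : Nonempty (I ≃ κ) := ⟨Fintype.equivOfCardEq h1.symm⟩
  refine ⟨a ∘ e, ?_⟩
  have h2 : LinearIndependent L (Matrix.of fun i j : I => M i ((a ∘ e) j)).col :=
    hli.comp e e.injective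
  rw [Matrix.linearIndependent_cols_iff_isUnit, Matrix.isUnit_iff_isUnit_det] at h2
  exact h2.ne_zero

private theorem rr_sum {ι : Type} (v : AbsoluteValue L ℝ) (hv : IsNonarchimedean v)
    (s : Finset ι) (f : ι → L) (B : ℝ) (hB : 0 ≤ B) (h : ∀ i ∈ s, v (f i) ≤ B) :
    v (∑ i ∈ s, f i) ≤ B := by
  classical
  induction s using Finset.induction_on with
  | empty => simpa using hB
  | insert a s ha ih =>
    rw [Finset.sum_insert ha]
    exact (hv _ _).trans (max_le (h a (Finset.mem_insert_self _ _))
      (ih fun i hi => h i (Finset.mem_insert_of_mem hi)))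

theorem row_proj (v : AbsoluteValue L ℝ) (hv : IsNonarchimedean v) (N : Submodule L (J → L)) :
    ∃ π : (J → L) →ₗ[L] (J → L), (∀ x, π x ∈ N) ∧ (∀ x ∈ N, π x = x) ∧
      ∀ (x : J → L) (B : ℝ), 0 ≤ B → (∀ j, v (x j) ≤ B) → ∀ j, v (π x j) ≤ B := by
  classical
  obtain ⟨c, hc⟩ : ∃ c, c = finrank L N := ⟨_, rfl⟩
  let bas : Basis (Fin c) L N := finBasisOfFinrankEq L N hc.symm
  let n : Matrix (Fin c) J L := Matrix.of fun a j => (bas a : J → L) j
  have hn : LinearIndependent L n.row := bas.linearIndependent.map' N.subtype N.ker_subtype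
  let D : (Fin c → J) → L := fun I => (Matrix.of fun a b : Fin c => n a (I b)).det
  obtain ⟨I₀, hI₀⟩ := rr_cols n hn
  obtain ⟨I, -, hI⟩ := Finset.exists_max_image (Finset.univ : Finset (Fin c → J))
    (fun I => v (D I)) ⟨I₀, Finset.mem_univ _⟩
  have hDI : D I ≠ 0 := by
    intro h
    have h1 := hI I₀ (Finset.mem_univ _)
    rw [h, map_zero] at h1
    exact hI₀ ((AbsoluteValue.eq_zero v).1 (le_antisymm h1 (v.nonneg _)))
  let P : Matrix (Fin c) (Fin c) L := Matrix.of fun a b : Fin c => n a (I b)
  have hPD : P.det = D I := rfl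
  have hPu : IsUnit P.det := isUnit_iff_ne_zero.2 hDI
  -- the dual vectors
  let E : Matrix (Fin c) J L := P⁻¹ * n
  have hEn : P * E = n := by
    show P * (P⁻¹ * n) = n
    rw [← Matrix.mul_assoc, Matrix.mul_nonsing_inv _ hPu, Matrix.one_mul]
  have hEv : ∀ b j, v (E b j) ≤ 1 := by
    intro b j
    have h1 : E b j = (P.det)⁻¹ * (P.updateCol b (fun a => n a j)).det := by
      have h2 : E b j = (P⁻¹.mulVec (fun a => n a j)) b := rfl
      rw [h2, Matrix.inv_def, Matrix.smul_mulVec, ← Matrix.cramer_eq_adjugate_mulVec,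
        Pi.smul_apply, Matrix.cramer_apply, Ring.inverse_eq_inv', smul_eq_mul]
    have h2 : (P.updateCol b (fun a => n a j)).det = D (Function.update I b j) := by
      show _ = (Matrix.of fun a b' : Fin c => n a (Function.update I b j b')).det
      congr 1
      ext a b'
      by_cases hb : b' = b
      · subst hb
        rw [Matrix.updateCol_self, Matrix.of_apply, Function.update_self]
      · rw [Matrix.updateCol_ne hb, Matrix.of_apply, Function.update_of_ne hb]
        rfl
    rw [h1, h2, map_mul, map_inv₀, hPD, inv_mul_le_iff₀ ((AbsoluteValue.pos_iff v).2 hDI), mul_one]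
    exact hI _ (Finset.mem_univ _)
  have hEN : ∀ b, (fun j => E b j) ∈ N := by
    intro b
    have h1 : (fun j => E b j) = ∑ a, P⁻¹ b a • (bas a : J → L) := by
      funext j
      rw [Finset.sum_apply]
      show (P⁻¹ * n) b j = _
      rw [Matrix.mul_apply]
      rfl
    rw [h1]
    exact Submodule.sum_mem _ fun a _ => Submodule.smul_mem _ _ (bas a).2
  let π : (J → L) →ₗ[L] (J → L) :=
    { toFun := fun x => ∑ b, x (I b) • (fun j => E b j)
      map_add' := fun x y => by
        rw [← Finset.sum_add_distrib]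
        exact Finset.sum_congr rfl fun b _ => add_smul _ _ _
      map_smul' := fun r x => by
        rw [RingHom.id_apply, Finset.smul_sum]
        exact Finset.sum_congr rfl fun b _ => mul_smul _ _ _ }
  have hπ : ∀ x, π x = ∑ b, x (I b) • (fun j => E b j) := fun x => rfl
  refine ⟨π, ?_, ?_, ?_⟩
  · intro x
    rw [hπ]
    exact Submodule.sum_mem _ fun b _ => Submodule.smul_mem _ _ (hEN b)
  · intro x hx
    have hbas : ∀ a, π (bas a : J → L) = (bas a : J → L) := by
      intro a
      rw [hπ]
      funext j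
      rw [Finset.sum_apply]
      have h1 := congrFun (congrFun hEn a) j
      rw [Matrix.mul_apply] at h1
      exact h1
    have h2 := bas.sum_repr ⟨x, hx⟩
    have h3 : x = ∑ a, bas.repr ⟨x, hx⟩ a • (bas a : J → L) := by
      have h4 := congrArg Subtype.val h2
      rw [Submodule.coe_sum] at h4
      exact h4.symm
    rw [h3, map_sum]
    refine Finset.sum_congr rfl fun a _ => ?_
    rw [map_smul, hbas]
  · intro x B hB hx j
    rw [hπ, Finset.sum_apply]
    apply rr_sum v hv _ _ _ hB
    intro b _
    rw [Pi.smul_apply, smul_eq_mul, map_mul]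
    calc v (x (I b)) * v (E b j) ≤ B * 1 :=
          mul_le_mul (hx _) (hEv b j) (v.nonneg _) hB
      _ = B := mul_one B

theorem row_replace (v : AbsoluteValue L ℝ) (hv : IsNonarchimedean v) (N : Submodule L (J → L))
    (b : J → L) (c : ℝ) (hc : 0 ≤ c)
    (hb : ∀ G ∈ N, ∀ B : ℝ, (∀ j, v (G j) ≤ B) → v (dot b G) ≤ c * B) :
    ∃ b' : J → L, (∀ G ∈ N, dot b' G = dot b G) ∧ ∀ j, v (b' j) ≤ c := by
  classical
  obtain ⟨π, h1, h2, h3⟩ := row_proj v hv N
  have hdot : ∀ r : J → L, ∀ G, dot r G = ∑ j, r j * G j := fun r G => rfl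
  refine ⟨fun j => dot b (π (Pi.single j 1)), ?_, ?_⟩
  · intro G hG
    have h4 : π G = ∑ j, G j • π (Pi.single j 1) := by
      have h5 : G = ∑ j, G j • (Pi.single j (1 : L) : J → L) := by
        funext i
        rw [Finset.sum_apply]
        simp [Pi.single_apply]
      conv_lhs => rw [h5]
      rw [map_sum]
      exact Finset.sum_congr rfl fun j _ => map_smul _ _ _
    have h6 : dot b G = dot b (π G) := by rw [h2 G hG]
    rw [h6, h4, hdot, hdot]
    simp only [Finset.sum_apply, Pi.smul_apply, smul_eq_mul, hdot]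
    rw [show (∑ j, (∑ i, b i * π (Pi.single j 1) i) * G j) =
        ∑ j, ∑ i, b i * (G j * π (Pi.single j 1) i) from
      Finset.sum_congr rfl fun j _ => by
        rw [Finset.sum_mul]
        exact Finset.sum_congr rfl fun i _ => by ring]
    rw [Finset.sum_comm]
    exact Finset.sum_congr rfl fun i _ => (Finset.mul_sum _ _ _).symm
  · intro j
    have h4 := hb (π (Pi.single j 1)) (h1 _) 1 (h3 _ 1 zero_le_one (by
      intro i
      by_cases hij : i = j
      · subst hij
        rw [Pi.single_eq_same, map_one]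
      · rw [Pi.single_eq_of_ne hij, map_zero]
        exact zero_le_one))
    rwa [mul_one] at h4

theorem dot_dual (A : Submodule L (J → L)) (b : J → L)
    (h : ∀ G : J → L, (∀ a ∈ A, dot a G = 0) → dot b G = 0) : b ∈ A := by
  classical
  rw [← Subspace.forall_mem_dualAnnihilator_apply_eq_zero_iff]
  intro φ hφ
  have hφd : ∀ a : J → L, φ a = dot a (fun j => φ (Pi.single j 1)) := by
    intro a
    have h5 : a = ∑ j, a j • (Pi.single j (1 : L) : J → L) := by
      funext i
      rw [Finset.sum_apply]
      simp [Pi.single_apply]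
    conv_lhs => rw [h5]
    rw [map_sum]
    exact Finset.sum_congr rfl fun j _ => by rw [map_smul, smul_eq_mul]
  rw [hφd]
  apply h
  intro a ha
  rw [← hφd]
  exact (Submodule.mem_dualAnnihilator φ).1 hφ a ha

end Pool.Agent.H72.PL
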