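import Pool.Agent.H72.PL.Kill
import Pool.Agent.H72.PL.RowRepl
import Pool.Agent.H72.PL.Minor

/-!
# Module LocDet: local bounds for the determinant at finite places (prop. 65, section 3)

`Δ = det` of the rows `A (ra i)` (`i < r₀`), `B (rb i)` (`i < s`) in the columns `col`, where the rows
`A (ra i)` span the span of all rows `A` (`hspan`). `w` a finite place.
Case 1: `w` lies above no `𝔭 t`: all `epsw (𝔭 t) w = 1` (`epsw_of_not_above`); `det_nonarch` and
`jrow_nonarch`: the row `A (ra i)` has entries `≤ max(1, w(σ y))^M max(1, w(σ α))^W`, the row `B (rb i)`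
(with `q = nrm`) entries `≤ max(1, w(y₂)^q)^M max(1, w(α₂)^q)^W = max(1, w y₂)^(qM) max(1, w α₂)^(qW)`,
`y₂ = σ F_t⁻¹ y`.
Case 2: `w` above `𝔭 t₀`; unique (`above_unique`, `inj`), so `epsw (𝔭 t) w = 1` for `t ≠ t₀`. Let `N` be
the common kernel of the rows `A`. For a row `b = B (rb i)` with `(rb i).2 = t₀`: `kill_bound`
gives the hypothesis of `row_replace` with `c = epsw^T max(1, w α₂)^(qW)`; get `b'` with
`v (b' j) ≤ c` and `b' - b` killing `N`, so `b' - b ∈ span A = span (A (ra i))` (`dot_dual`). Replace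
these rows (`det_replace`, base = the rows `A`), and apply `det_nonarch`
(`1 ≤ max(1, w y₂)^(qM)` can be inserted).
`IsNonarchimedean w.1`: `FinitePlace.add_le`.
-/

set_option autoImplicit false

open NumberField IsDedekindDomain Module

namespace Pool.Agent.H72.PL

variable {K L : Type} [Field K] [NumberField K] [Field L] [NumberField L] [Algebra K L]

theorem ld_nonarch (w : FinitePlace L) : IsNonarchimedean w.1 := fun x y =>
  FinitePlace.add_le w x y

omit [NumberField L] in
theorem ld_pow (a : ℝ) (ha : 0 ≤ a) (q : ℕ) : max 1 (a ^ q) = (max 1 a) ^ q := by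
  rcases le_total 1 a with h | h
  · rw [max_eq_right h, max_eq_right (one_le_pow₀ h)]
  · rw [max_eq_left h, max_eq_left (pow_le_one₀ ha h), one_pow]

theorem loc_det [IsGalois K L] {k E : IntermediateField K L} {y : L} {ι : Type}
    {𝔭 : ι → HeightOneSpectrum (𝓞 K)} {F : ι → (L ≃ₐ[K] L)} (h : FD k E y 𝔭 F) (M W T : ℕ)
    (α : L) (r₀ s : ℕ) (ra : Fin r₀ → k.fixingSubgroup × TI T)
    (rb : Fin s → k.fixingSubgroup × ι) (col : Fin r₀ ⊕ Fin s → Fin (M + 1) × Fin (W + 1))
    (hspan : Submodule.span L (Set.range fun i => arow k M W T y α (ra i)) =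
      Submodule.span L (Set.range (arow k M W T y α))) (w : FinitePlace L) :
    w (Matrix.of fun i j : Fin r₀ ⊕ Fin s =>
        Sum.elim (fun i => arow k M W T y α (ra i))
          (fun i => brow k M W y α F (fun t => nrm (𝔭 t)) (rb i)) i (col j)).det ≤
      (∏ i : Fin s, (epsw (𝔭 (rb i).2) w) ^ T) *
      ((∏ i : Fin r₀, ((max 1 (w ((ra i).1.1 y))) ^ M * (max 1 (w ((ra i).1.1 α))) ^ W)) *
       ∏ i : Fin s, ((max 1 (w ((rb i).1.1 ((F (rb i).2).symm y)))) ^ (nrm (𝔭 (rb i).2) * M) *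
         (max 1 (w ((rb i).1.1 ((F (rb i).2).symm α)))) ^ (nrm (𝔭 (rb i).2) * W))) := by
  classical
  have hv := ld_nonarch w
  -- the common kernel
  let N : Submodule L (Fin (M + 1) × Fin (W + 1) → L) :=
    { carrier := {G | ∀ s, dot (arow k M W T y α s) G = 0}
      zero_mem' := by
        intro s
        simp [dot]
      add_mem' := by
        intro G H hG hH s
        have h1 := hG s
        have h2 := hH s
        unfold dot at *
        simp only [Pi.add_apply, mul_add, Finset.sum_add_distrib]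
        rw [h1, h2, add_zero]
      smul_mem' := by
        intro c G hG s
        have h1 := hG s
        unfold dot at *
        simp only [Pi.smul_apply, smul_eq_mul]
        have h2 : ∀ j, arow k M W T y α s j * (c * G j) = c * (arow k M W T y α s j * G j) := by
          intro j; ring
        simp only [h2]
        rw [← Finset.mul_sum, h1, mul_zero] }
  -- the new rows
  have hex : ∀ i : Fin s, ∃ b' : Fin (M + 1) × Fin (W + 1) → L,
      b' - brow k M W y α F (fun t => nrm (𝔭 t)) (rb i) ∈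
        Submodule.span L (Set.range (arow k M W T y α)) ∧
      ∀ j, w.1 (b' j) ≤ (epsw (𝔭 (rb i).2) w) ^ T *
        ((max 1 (w ((rb i).1.1 ((F (rb i).2).symm y)))) ^ (nrm (𝔭 (rb i).2) * M) *
         (max 1 (w ((rb i).1.1 ((F (rb i).2).symm α)))) ^ (nrm (𝔭 (rb i).2) * W)) := by
    intro i
    obtain ⟨σ, t⟩ := rb i
    have he0 := epsw_pos (𝔭 t) w
    by_cases hw : Above (𝔭 t) w
    · obtain ⟨b', hb1, hb2⟩ := row_replace w.1 hv N
        (brow k M W y α F (fun t => nrm (𝔭 t)) (σ, t))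
        ((epsw (𝔭 t) w) ^ T * (max 1 (w (σ.1 ((F t).symm α)))) ^ (nrm (𝔭 t) * W))
        (by positivity) (fun G hG B hB => kill_bound h M W T α t w hw σ G hG B hB)
      refine ⟨b', ?_, fun j => (hb2 j).trans ?_⟩
      · apply dot_dual
        intro G hG
        have hGN : G ∈ N := fun s => hG _ (Submodule.subset_span ⟨s, rfl⟩)
        have h1 := hb1 G hGN
        unfold dot at *
        simp only [Pi.sub_apply, sub_mul, Finset.sum_sub_distrib]
        rw [h1, sub_self]
      · have h1 : 1 ≤ (max 1 (w (σ.1 ((F t).symm y)))) ^ (nrm (𝔭 t) * M) :=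
          one_le_pow₀ (le_max_left _ _)
        have h2 : (0 : ℝ) ≤ (max 1 (w (σ.1 ((F t).symm α)))) ^ (nrm (𝔭 t) * W) := by positivity
        apply mul_le_mul_of_nonneg_left _ (by positivity)
        exact le_mul_of_one_le_left h2 h1
    · refine ⟨brow k M W y α F (fun t => nrm (𝔭 t)) (σ, t), by
        rw [sub_self]; exact Submodule.zero_mem _, fun j => ?_⟩
      have h1 := jrow_nonarch w.1 hv M W ((σ.1 ((F t).symm y)) ^ nrm (𝔭 t))
        ((σ.1 ((F t).symm α)) ^ nrm (𝔭 t)) 0 0 j
      rw [epsw_of_not_above _ _ hw, one_pow, one_mul]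
      refine h1.trans (le_of_eq ?_)
      rw [map_pow, map_pow, ld_pow _ (apply_nonneg _ _), ld_pow _ (apply_nonneg _ _), ← pow_mul,
        ← pow_mul]
      rfl
  choose b' hb1 hb2 using hex
  set R : Fin r₀ ⊕ Fin s → Fin (M + 1) × Fin (W + 1) → L :=
    Sum.elim (fun i => arow k M W T y α (ra i))
      (fun i => brow k M W y α F (fun t => nrm (𝔭 t)) (rb i)) with hR
  set R' : Fin r₀ ⊕ Fin s → Fin (M + 1) × Fin (W + 1) → L :=
    Sum.elim (fun i => arow k M W T y α (ra i)) b' with hR'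
  have hdet := det_replace col R R' (Set.range Sum.inl) (by
    rintro _ ⟨i, rfl⟩
    rfl) (by
    intro i hi
    rcases i with i | i
    · exact absurd ⟨i, rfl⟩ hi
    · have h1 : R '' Set.range Sum.inl = Set.range fun i => arow k M W T y α (ra i) := by
        rw [← Set.range_comp]
        rfl
      rw [h1, hspan]
      exact hb1 i)
  rw [← hdet]
  have hmain := det_nonarch w.1 hv (Matrix.of fun i j => R' i (col j))
    (Sum.elim (fun i => (max 1 (w ((ra i).1.1 y))) ^ M * (max 1 (w ((ra i).1.1 α))) ^ W)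
      (fun i => (epsw (𝔭 (rb i).2) w) ^ T *
        ((max 1 (w ((rb i).1.1 ((F (rb i).2).symm y)))) ^ (nrm (𝔭 (rb i).2) * M) *
         (max 1 (w ((rb i).1.1 ((F (rb i).2).symm α)))) ^ (nrm (𝔭 (rb i).2) * W)))) (by
      intro i j
      rcases i with i | i
      · exact jrow_nonarch w.1 hv M W ((ra i).1.1 y) ((ra i).1.1 α) _ _ (col j)
      · exact hb2 i (col j))
  refine hmain.trans (le_of_eq ?_)
  rw [Fintype.prod_sum_type]
  simp only [Sum.elim_inl, Sum.elim_inr, Finset.prod_mul_distrib]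
  ring

omit [NumberField L] in
theorem inf_det {k : IntermediateField K L} {y : L} {ι : Type}
    {𝔭 : ι → HeightOneSpectrum (𝓞 K)} {F : ι → (L ≃ₐ[K] L)} (M W T : ℕ)
    (α : L) (r₀ s : ℕ) (ra : Fin r₀ → k.fixingSubgroup × TI T)
    (rb : Fin s → k.fixingSubgroup × ι) (col : Fin r₀ ⊕ Fin s → Fin (M + 1) × Fin (W + 1))
    (Ms : ℝ) (hM : (M : ℝ) ≤ Ms) (hW : (W : ℝ) ≤ Ms) (h1 : 1 ≤ Ms) (v : InfinitePlace L) :
    v (Matrix.of fun i j : Fin r₀ ⊕ Fin s =>
        Sum.elim (fun i => arow k M W T y α (ra i))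
          (fun i => brow k M W y α F (fun t => nrm (𝔭 t)) (rb i)) i (col j)).det ≤
      (((r₀ + s).factorial : ℝ) * Ms ^ (T * r₀)) *
      ((∏ i : Fin r₀, ((max 1 (v ((ra i).1.1 y))) ^ M * (max 1 (v ((ra i).1.1 α))) ^ W)) *
       ∏ i : Fin s, ((max 1 (v ((rb i).1.1 ((F (rb i).2).symm y)))) ^ (nrm (𝔭 (rb i).2) * M) *
         (max 1 (v ((rb i).1.1 ((F (rb i).2).symm α)))) ^ (nrm (𝔭 (rb i).2) * W))) := by
  classical
  have hmain := det_arch v.1 (Matrix.of fun i j : Fin r₀ ⊕ Fin s =>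
        Sum.elim (fun i => arow k M W T y α (ra i))
          (fun i => brow k M W y α F (fun t => nrm (𝔭 t)) (rb i)) i (col j))
    (Sum.elim (fun i => Ms ^ T *
        ((max 1 (v ((ra i).1.1 y))) ^ M * (max 1 (v ((ra i).1.1 α))) ^ W))
      (fun i =>
        ((max 1 (v ((rb i).1.1 ((F (rb i).2).symm y)))) ^ (nrm (𝔭 (rb i).2) * M) *
         (max 1 (v ((rb i).1.1 ((F (rb i).2).symm α)))) ^ (nrm (𝔭 (rb i).2) * W)))) (by
      intro i j
      rcases i with i | i
      · have h2 := jrow_arch v.1 M W Ms hM hW h1 ((ra i).1.1 y) ((ra i).1.1 α)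
          (ra i).2.1.1 (ra i).2.1.2 (col j)
        refine h2.trans ?_
        have h3 : Ms ^ (((ra i).2.1.1 : ℕ) + ((ra i).2.1.2 : ℕ)) ≤ Ms ^ T :=
          pow_le_pow_right₀ h1 (ra i).2.2.le
        rw [mul_assoc]
        apply mul_le_mul_of_nonneg_right h3
        have h4 : (0 : ℝ) < max 1 (v.1 ((ra i).1.1 y)) := lt_max_of_lt_left one_pos
        have h5 : (0 : ℝ) < max 1 (v.1 ((ra i).1.1 α)) := lt_max_of_lt_left one_pos
        positivity
      · have h2 := jrow_arch v.1 M W Ms hM hW h1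
          (((rb i).1.1 ((F (rb i).2).symm y)) ^ nrm (𝔭 (rb i).2))
          (((rb i).1.1 ((F (rb i).2).symm α)) ^ nrm (𝔭 (rb i).2)) 0 0 (col j)
        refine h2.trans (le_of_eq ?_)
        rw [map_pow, map_pow, ld_pow _ (apply_nonneg _ _), ld_pow _ (apply_nonneg _ _), ← pow_mul,
          ← pow_mul, add_zero, pow_zero, one_mul]
        rfl)
  refine hmain.trans (le_of_eq ?_)
  rw [Fintype.prod_sum_type]
  simp only [Sum.elim_inl, Sum.elim_inr, Finset.prod_mul_distrib, Finset.prod_const,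
    Finset.card_univ, Fintype.card_fin, Fintype.card_sum]
  rw [← pow_mul]
  ring

end Pool.Agent.H72.PL
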