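import Pool.Agent.H72.PL.Defs

/-!
# Module MinorA: nonzero minors (paper proof: proposal 65, section 3)

`exists_minor`: choose a maximal linearly independent subfamily of the rows `A` (it spans `span A`,
   `exists_linearIndependent`..., size `r₀`), complete it by rows of `B` to a maximal independent family
   spanning `span (A ∪ B)` (`exists_linearIndependent_extension`; the added rows can be taken among the
   `B i`, because the `A i` are already in the span). The resulting `(r₀+s) × J` matrix has independent
   rows, so there are `r₀ + s` columns with nonzero minor (rank of the transpose;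
   `Matrix.rank`, or choose a basis of the dual of the span among the coordinate functionals).
-/

set_option autoImplicit false

open Module

namespace Pool.Agent.H72.PL

variable {L : Type} [Field L]

theorem minorA_cols {I J : Type} [Fintype I] [DecidableEq I] [Fintype J] (M : Matrix I J L)
    (h : LinearIndependent L M.row) :
    ∃ col : I → J, (Matrix.of fun i j : I => M i (col j)).det ≠ 0 := by
  have h1 : M.rank = Fintype.card I := by
    rw [Matrix.rank_eq_finrank_span_row, finrank_span_eq_card h]
  rw [Matrix.rank_eq_finrank_span_cols] at h1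
  obtain ⟨κ, a, ha, hsp, hli⟩ := exists_linearIndependent' L M.col
  have hκ : Finite κ := Finite.of_injective a ha
  have := Fintype.ofFinite κ
  rw [← hsp, finrank_span_eq_card hli] at h1
  obtain ⟨e⟩ : Nonempty (I ≃ κ) := ⟨Fintype.equivOfCardEq h1.symm⟩
  refine ⟨a ∘ e, ?_⟩
  have h2 : LinearIndependent L (Matrix.of fun i j : I => M i ((a ∘ e) j)).col :=
    hli.comp e e.injective
  rw [Matrix.linearIndependent_cols_iff_isUnit, Matrix.isUnit_iff_isUnit_det] at h2
  exact h2.ne_zero

theorem exists_minor {J IA IB : Type} [Fintype J] [Finite IA] [Finite IB] (A : IA → J → L)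
    (B : IB → J → L) :
    ∃ (r₀ s : ℕ) (ra : Fin r₀ → IA) (rb : Fin s → IB) (col : Fin r₀ ⊕ Fin s → J),
      finrank L ↥(Submodule.span L (Set.range A)) = r₀ ∧
      finrank L ↥(Submodule.span L (Set.range A ∪ Set.range B)) = r₀ + s ∧
      Submodule.span L (Set.range fun i => A (ra i)) = Submodule.span L (Set.range A) ∧
      (Matrix.of fun i j : Fin r₀ ⊕ Fin s =>
        Sum.elim (fun i => A (ra i)) (fun i => B (rb i)) i (col j)).det ≠ 0 := by
  obtain ⟨κ, a, ha, hsp, hli⟩ := exists_linearIndependent' L A
  have hκ : Finite κ := Finite.of_injective a ha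
  obtain ⟨S, hS⟩ : ∃ S, S = Submodule.span L (Set.range A) := ⟨_, rfl⟩
  obtain ⟨κ', b, hb, hsp', hli'⟩ := exists_linearIndependent' L (fun i => S.mkQ (B i))
  have hκ' : Finite κ' := Finite.of_injective b hb
  have := Fintype.ofFinite κ
  have := Fintype.ofFinite κ'
  let e := (Fintype.equivFin κ).symm
  let e' := (Fintype.equivFin κ').symm
  have hra : Submodule.span L (Set.range fun i => A (a (e i))) = S := by
    rw [hS, ← hsp]
    congr 1
    exact e.surjective.range_comp (A ∘ a)
  have hliA : LinearIndependent L fun i => A (a (e i)) := hli.comp e e.injective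
  have hmem : ∀ i, A (a (e i)) ∈ S := fun i => by
    rw [hS]
    exact Submodule.subset_span ⟨_, rfl⟩
  have hliA' : LinearIndependent L (fun i => (⟨A (a (e i)), hmem i⟩ : S)) := by
    apply LinearIndependent.of_comp S.subtype
    exact hliA
  have hliB : LinearIndependent L (Submodule.Quotient.mk (p := S) ∘ fun i => B (b (e' i))) :=
    hli'.comp e' e'.injective
  have hall : LinearIndependent L
      (Sum.elim (fun i => A (a (e i))) (fun i => B (b (e' i)))) :=
    LinearIndependent.sumElim_of_quotient hliA' _ hliB
  have hspan : Submodule.span L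
      (Set.range (Sum.elim (fun i => A (a (e i))) (fun i => B (b (e' i))))) =
      Submodule.span L (Set.range A ∪ Set.range B) := by
    apply le_antisymm
    · apply Submodule.span_mono
      rintro _ ⟨i | i, rfl⟩
      · exact Or.inl ⟨_, rfl⟩
      · exact Or.inr ⟨_, rfl⟩
    · have hSle : S ≤ Submodule.span L
          (Set.range (Sum.elim (fun i => A (a (e i))) (fun i => B (b (e' i))))) := by
        rw [← hra]
        apply Submodule.span_mono
        rintro _ ⟨i, rfl⟩
        exact ⟨Sum.inl i, rfl⟩
      rw [Submodule.span_le]
      rintro x (⟨i, rfl⟩ | ⟨i, rfl⟩)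
      · apply hSle
        rw [hS]
        exact Submodule.subset_span ⟨_, rfl⟩
      · have h1 : S.mkQ (B i) ∈ Submodule.span L (Set.range ((fun i => S.mkQ (B i)) ∘ b)) := by
          rw [hsp']
          exact Submodule.subset_span ⟨i, rfl⟩
        have h2 : Set.range ((fun i => S.mkQ (B i)) ∘ b) =
            S.mkQ '' (Set.range fun i => B (b (e' i))) := by
          rw [← Set.range_comp]
          exact (e'.surjective.range_comp ((fun i => S.mkQ (B i)) ∘ b)).symm
        rw [h2, ← Submodule.map_span] at h1
        obtain ⟨y, hy, hyx⟩ := h1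
        have h3 : B i - y ∈ S := by
          rw [← Submodule.ker_mkQ S, LinearMap.mem_ker, map_sub, hyx, sub_self]
        have h4 : y ∈ Submodule.span L
            (Set.range (Sum.elim (fun i => A (a (e i))) (fun i => B (b (e' i))))) := by
          refine Submodule.span_mono ?_ hy
          rintro _ ⟨i, rfl⟩
          exact ⟨Sum.inr i, rfl⟩
        have h5 := Submodule.add_mem _ (hSle h3) h4
        rwa [sub_add_cancel] at h5
  obtain ⟨col, hcol⟩ := minorA_cols
    (Matrix.of (Sum.elim (fun i => A (a (e i))) (fun i => B (b (e' i))))) hall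
  refine ⟨Fintype.card κ, Fintype.card κ', fun i => a (e i), fun i => b (e' i), col, ?_, ?_, ?_, ?_⟩
  · rw [← hS, ← hra, finrank_span_eq_card hliA, Fintype.card_fin]
  · rw [← hspan, finrank_span_eq_card hall, Fintype.card_sum, Fintype.card_fin, Fintype.card_fin]
  · rw [hra, hS]
  · exact hcol

end Pool.Agent.H72.PL
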