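import Pool.Agent.H72.PL.BoxB

/-!
# Module RankBox: `dim_k V ≤ (M + 1) dim_{k(Y)} (span V)` (paper proof: proposal 65, section 5)

1. `rank_box`: `V ≤ Box k M W`, `u = finrank (Fr k) (spF V)`. `U = spF V` is a subspace of the space of
   polynomials of degree `≤ W` over `F = k(Y)`. Choose a set `J` of `u` exponents such that the projection
   `U → F^J` (coefficients of `X^j`, `j ∈ J`) is injective (a matrix of rank `u` has `u` independent
   columns; or: `J` minimal such that the projection is injective, or the restrictions of the coordinate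
   functionals to `U` span the dual of `U`, choose a basis among them). Then `V → (k[Y]_{deg ≤ M})^J`,
   `G ↦ (G.coeff j)_{j ∈ J}`, is injective and `k`-linear, so `dim_k V ≤ (M+1) u`.
2. `box_codim`: `e ≤ M`, `l ≤ W`: in `Box k M W` (dimension `(M+1)(W+1)`) the subspaces `IB I M W`
   (codimension `≤ ρ`) and `Box k e l` have intersection `IB I e l`; dimension formula
   `Submodule.finrank_sup_add_finrank_inf_eq`.
3. `comap_codim`: `f ≠ 0`, `dY f + e ≤ M`, `dX f + m ≤ l + 1`, `0 < m`: multiplication by `f` is an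
   injective map `Box k e (m-1) → Box k M l`; the codimension of the preimage of `IB I M l` is at most the
   codimension of `IB I M l`, i.e. `≤ ρ`.
-/

set_option autoImplicit false

open Polynomial Module

namespace Pool.Agent.H72.PL

variable {k : Type} [Field k]

/-- a few coefficients determine the elements of a finite dimensional space of polynomials -/
theorem rbx_coords {F : Type} [Field F] (n : ℕ) : ∀ (U : Submodule F F[X])
    [FiniteDimensional F U], finrank F U ≤ n →
    ∃ J : Finset ℕ, J.card ≤ n ∧ ∀ p ∈ U, (∀ j ∈ J, p.coeff j = 0) → p = 0 := by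
  induction n with
  | zero =>
    intro U _ h
    have hU : U = ⊥ := Submodule.finrank_eq_zero.1 (Nat.le_zero.1 h)
    refine ⟨∅, le_rfl, ?_⟩
    intro p hp _
    rw [hU, Submodule.mem_bot] at hp
    exact hp
  | succ n ih =>
    intro U _ h
    by_cases hU : U = ⊥
    · refine ⟨∅, Nat.zero_le _, ?_⟩
      intro p hp _
      rw [hU, Submodule.mem_bot] at hp
      exact hp
    · obtain ⟨q, hq, hq0⟩ := U.ne_bot_iff.1 hU
      obtain ⟨j, hj⟩ : ∃ j, q.coeff j ≠ 0 := by
        by_contra hcon
        push Not at hcon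
        exact hq0 (Polynomial.ext fun j => by rw [hcon j, coeff_zero])
      set U' : Submodule F F[X] := U ⊓ LinearMap.ker (lcoeff F j) with hU'
      have hlt : U' < U := by
        apply lt_of_le_of_ne inf_le_left
        intro heq
        have hqU : q ∈ U ⊓ LinearMap.ker (lcoeff F j) := by
          rw [heq]
          exact hq
        exact hj (LinearMap.mem_ker.1 hqU.2)
      have hfd : FiniteDimensional F U' := Submodule.finiteDimensional_of_le hlt.le
      have h1 := Submodule.finrank_lt_finrank_of_lt hlt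
      obtain ⟨J, hJ, hJ2⟩ := ih U' (by omega)
      refine ⟨insert j J, (Finset.card_insert_le _ _).trans (by omega), ?_⟩
      intro p hp hpJ
      apply hJ2 p ⟨hp, LinearMap.mem_ker.2 (hpJ j (Finset.mem_insert_self _ _))⟩
      intro i hi
      exact hpJ i (Finset.mem_insert_of_mem hi)

theorem rbx_toF_inj {k : Type} [Field k] : Function.Injective (toF (k := k)) :=
  Polynomial.map_injective _ (IsFractionRing.injective k[X] (Fr k))

theorem rbx_coeff_toF {k : Type} [Field k] (G : BP k) (j : ℕ) :
    (toF G).coeff j = algebraMap k[X] (Fr k) (G.coeff j) := by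
  show (Polynomial.map (algebraMap k[X] (Fr k)) G).coeff j = _
  rw [coeff_map]

theorem rbx_spF_le (V : Submodule k (BP k)) (M W : ℕ) (hV : V ≤ Box k M W) :
    spF V ≤ degreeLT (Fr k) (W + 1) := by
  unfold spF
  rw [Submodule.span_le]
  rintro p ⟨G, hG, rfl⟩
  rw [SetLike.mem_coe, mem_degreeLT, degree_lt_iff_coeff_zero]
  intro b hb
  have h1 : G.coeff b = 0 := by
    ext a
    rw [coeff_zero]
    exact hV hG a b (Or.inr (by omega))
  rw [rbx_coeff_toF, h1, map_zero]

theorem rbx_spF_fin (V : Submodule k (BP k)) (M W : ℕ) (hV : V ≤ Box k M W) :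
    FiniteDimensional (Fr k) ↥(spF V) := by
  have h1 : FiniteDimensional (Fr k) ↥(degreeLT (Fr k) (W + 1)) :=
    Module.Finite.equiv (degreeLTEquiv (Fr k) (W + 1)).symm
  exact Submodule.finiteDimensional_of_le (rbx_spF_le V M W hV)

/-- codimensions -/
theorem rbx_codim {E : Type} [AddCommGroup E] [Module k E] (S T B : Submodule k E)
    [FiniteDimensional k B] (hS : S ≤ B) (hT : T ≤ B) (ρ : ℕ) (h : finrank k B ≤ finrank k S + ρ) :
    finrank k T ≤ finrank k ↥(S ⊓ T) + ρ := by
  have hfS : FiniteDimensional k S := Submodule.finiteDimensional_of_le hS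
  have hfT : FiniteDimensional k T := Submodule.finiteDimensional_of_le hT
  have h1 := Submodule.finrank_sup_add_finrank_inf_eq S T
  have h2 : finrank k ↥(S ⊔ T) ≤ finrank k B := Submodule.finrank_mono (sup_le hS hT)
  omega

theorem rank_box (V : Submodule k (BP k)) (M W : ℕ) (hV : V ≤ Box k M W) :
    finrank k V ≤ (M + 1) * finrank (Fr k) ↥(spF V) := by
  have hfd := rbx_spF_fin V M W hV
  obtain ⟨J, hJ, hJ2⟩ := rbx_coords (finrank (Fr k) ↥(spF V)) (spF V) le_rfl
  let φ : V →ₗ[k] (J × Fin (M + 1) → k) :=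
    { toFun := fun G i => ((G : BP k).coeff i.1).coeff i.2
      map_add' := by
        intro G H
        ext i
        show (((G + H : V) : BP k).coeff i.1).coeff i.2 = _
        rw [Submodule.coe_add, coeff_add, coeff_add]
        rfl
      map_smul' := by
        intro c G
        ext i
        show (((c • G : V) : BP k).coeff i.1).coeff i.2 = _
        rw [Submodule.coe_smul, coeff_smul, coeff_smul]
        rfl }
  have hφ : Function.Injective φ := by
    rw [injective_iff_map_eq_zero]
    intro G hG
    have h1 : ∀ j ∈ J, (G : BP k).coeff j = 0 := by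
      intro j hj
      ext a
      rw [coeff_zero]
      rcases Nat.lt_or_ge M a with ha | ha
      · exact hV G.2 a j (Or.inl ha)
      · exact congrFun hG (⟨j, hj⟩, ⟨a, by omega⟩)
    have h2 : toF (G : BP k) = 0 := by
      apply hJ2
      · exact Submodule.subset_span ⟨G, G.2, rfl⟩
      · intro j hj
        rw [rbx_coeff_toF, h1 j hj, map_zero]
    apply Subtype.ext
    apply rbx_toF_inj
    rw [h2]
    exact (map_zero _).symm
  have h3 := LinearMap.finrank_le_finrank_of_injective hφ
  rw [Module.finrank_fintype_fun_eq_card, Fintype.card_prod, Fintype.card_coe,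
    Fintype.card_fin] at h3
  calc finrank k V ≤ J.card * (M + 1) := h3
    _ ≤ finrank (Fr k) ↥(spF V) * (M + 1) := Nat.mul_le_mul_right _ hJ
    _ = _ := mul_comm _ _

theorem spF_finite (V : Submodule k (BP k)) (M W : ℕ) (hV : V ≤ Box k M W) :
    FiniteDimensional (Fr k) ↥(spF V) := by
  exact rbx_spF_fin V M W hV

theorem box_codim (I : Ideal (BP k)) (M W ρ : ℕ)
    (hcod : (M + 1) * (W + 1) ≤ finrank k ↥(IB I M W) + ρ) (e l : ℕ) (he : e ≤ M) (hl : l ≤ W) :
    (e + 1) * (l + 1) ≤ finrank k ↥(IB I e l) + ρ := by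
  have h1 := rbx_codim (IB I M W) (Box k e l) (Box k M W) inf_le_right (box_mono he hl) ρ
    (by rw [finrank_box]; exact hcod)
  have h2 : IB I M W ⊓ Box k e l = IB I e l := by
    unfold IB
    rw [inf_assoc, inf_eq_right.2 (box_mono (k := k) he hl)]
  rw [h2, finrank_box] at h1
  exact h1

/-- the quotients of elements of `IB I M l` by `f` -/
noncomputable def quoV (I : Ideal (BP k)) (M l : ℕ) (f : BP k) : Submodule k (BP k) :=
  (IB I M l).comap (LinearMap.mulLeft k f)

theorem comap_codim (I : Ideal (BP k)) (M l ρ : ℕ)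
    (hcod : (M + 1) * (l + 1) ≤ finrank k ↥(IB I M l) + ρ) (f : BP k) (hf : f ≠ 0) (e m : ℕ)
    (hm : 0 < m) (he : dY f + e ≤ M) (hl : dX f + m ≤ l + 1) :
    (e + 1) * m ≤ finrank k ↥(quoV I M l f ⊓ Box k e (m - 1)) + ρ := by
  set φ : BP k →ₗ[k] BP k := LinearMap.mulLeft k f with hφ
  have hφa : ∀ g, φ g = f * g := fun g => rfl
  have hinj : Function.Injective φ := by
    intro a b h
    rw [hφa, hφa] at h
    exact mul_left_cancel₀ hf h
  have hT : (Box k e (m - 1)).map φ ≤ Box k M l := by
    rintro x ⟨g, hg, rfl⟩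
    rw [hφa]
    by_cases hg0 : g = 0
    · rw [hg0, mul_zero]
      exact Submodule.zero_mem _
    · have hg' := (mem_box g e (m - 1)).1 hg
      rw [mem_box, dX_mul f g hf hg0, dY_mul f g hf hg0]
      omega
  have h1 := rbx_codim (IB I M l) ((Box k e (m - 1)).map φ) (Box k M l) inf_le_right hT ρ
    (by rw [finrank_box]; exact hcod)
  have h2 : IB I M l ⊓ (Box k e (m - 1)).map φ = (quoV I M l f ⊓ Box k e (m - 1)).map φ := by
    ext x
    constructor
    · rintro ⟨hx, g, hg, rfl⟩
      exact ⟨g, ⟨hx, hg⟩, rfl⟩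
    · rintro ⟨g, ⟨hg1, hg2⟩, rfl⟩
      exact ⟨hg1, g, hg2, rfl⟩
  have h3 : finrank k ↥((Box k e (m - 1)).map φ) = finrank k ↥(Box k e (m - 1)) :=
    (Submodule.equivMapOfInjective φ hinj _).finrank_eq.symm
  have h4 : finrank k ↥((quoV I M l f ⊓ Box k e (m - 1)).map φ) =
      finrank k ↥(quoV I M l f ⊓ Box k e (m - 1)) :=
    (Submodule.equivMapOfInjective φ hinj _).finrank_eq.symm
  rw [h2, h3, h4, finrank_box] at h1
  have h5 : m - 1 + 1 = m := by omega
  rw [h5] at h1
  exact h1

end Pool.Agent.H72.PL
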