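import Pool.Agent.H72.PL.LocDet
import Pool.Agent.H72.PL.PF

/-!
# Module RankIneq: the rank inequality (paper proof: proposal 65, section 3)

`exists_minor` for the rows `arow`, `brow` (with `q t = nrm (𝔭 t)`) gives `Δ ≠ 0`, `r₀ = rkA`,
`r₀ + s = rkAB`. Apply `pf_ineq` with index type `Fin r₀ ⊕ Fin s`, `C = (r₀+s)! Ms^(T r₀)`
(`Ms = max M (max W 2)`), `e w = ∏_{i<s} (epsw (𝔭 (rb i).2) w)^T`, using `loc_det`, `inf_det`
(`Fintype.prod_sum_type`). `e` is positive, its multiplicative support is finite (`epsw_finite`), and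
`log ∏ᶠ e = ∑_i T log ∏ᶠ epsw = -∑_i T [L:K] log (nrm (𝔭 (rb i).2)) ≤ -s T [L:K] log qmin`
(`epsw_prod`, `finprod_prod_comm`, `finprod_pow`).
Heights: `logHeight₁ (σ z) = logHeight₁ z = [L:ℚ] h(z)` (`height_conj`, `logHeight_abs`), so with
`c = M h(y) + W h(α)`:
`0 ≤ [L:ℚ] (log (r₁!) + T r₀ log Ms) + [L:ℚ] (r₀ c + ∑_i nrm(..) c) - s T [L:K] log qmin`,
`log r₁! ≤ r₁ log r₁` (`Nat.factorial_le_pow` / `factorial_lt..`; for `r₁ = 0` both are `0`),
`nrm ≤ qmax`, `[L:ℚ] = [K:ℚ] [L:K]`, `c ≥ 0`. Divide by `[L:ℚ]`.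
-/

set_option autoImplicit false

open NumberField IsDedekindDomain Module

namespace Pool.Agent.H72.PL

variable {K L : Type} [Field K] [NumberField K] [Field L] [NumberField L] [Algebra K L]

theorem ri_fact (n : ℕ) : Real.log (n.factorial : ℝ) ≤ n * Real.log n := by
  rcases Nat.eq_zero_or_pos n with h | h
  · subst h
    simp
  · have h1 : (n.factorial : ℝ) ≤ (n : ℝ) ^ n := by exact_mod_cast Nat.factorial_le_pow n
    have h2 : (0 : ℝ) < n.factorial := by exact_mod_cast n.factorial_pos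
    have h3 := Real.log_le_log h2 h1
    rwa [Real.log_pow] at h3

theorem rank_ineq [IsGalois K L] {k E : IntermediateField K L} {y : L} {ι : Type} [Finite ι]
    {𝔭 : ι → HeightOneSpectrum (𝓞 K)} {F : ι → (L ≃ₐ[K] L)} (h : FD k E y 𝔭 F) (M W T : ℕ)
    (α : L) (qmin qmax : ℝ) (h0 : 1 ≤ qmin) (h1 : ∀ t, qmin ≤ nrm (𝔭 t))
    (h2 : ∀ t, (nrm (𝔭 t) : ℝ) ≤ qmax) (hq : qmin ≤ qmax) :
    ((rkAB k M W T y α F (fun t => nrm (𝔭 t)) : ℝ) - rkA k M W T y α) *
        (T * Real.log qmin / finrank ℚ K -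
          qmax * (M * absLogHeight₁ y + W * absLogHeight₁ α)) ≤
      (rkAB k M W T y α F (fun t => nrm (𝔭 t)) : ℝ) *
          Real.log (rkAB k M W T y α F (fun t => nrm (𝔭 t))) +
        (rkA k M W T y α : ℝ) * (T * Real.log (max (M : ℝ) (max (W : ℝ) 2)) +
          (M * absLogHeight₁ y + W * absLogHeight₁ α)) := by
  classical
  have : FiniteDimensional K L := Module.Finite.of_restrictScalars_finite ℚ K L
  obtain ⟨r₀, s, ra, rb, col, hr, hrs, hspan, hdet⟩ := exists_minor (arow k M W T y α)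
    (brow k M W y α F (fun t => nrm (𝔭 t)))
  have hrA : rkA k M W T y α = r₀ := hr
  have hrAB : rkAB k M W T y α F (fun t => nrm (𝔭 t)) = r₀ + s := hrs
  rw [hrA, hrAB]
  set Ms : ℝ := max (M : ℝ) (max (W : ℝ) 2) with hMs
  have hMs1 : 1 ≤ Ms := by
    have h3 : (2 : ℝ) ≤ Ms := (le_max_right _ _).trans (le_max_right _ _)
    linarith
  have hMM : (M : ℝ) ≤ Ms := le_max_left _ _
  have hWM : (W : ℝ) ≤ Ms := (le_max_left _ _).trans (le_max_right _ _)
  set c : ℝ := M * absLogHeight₁ y + W * absLogHeight₁ α with hc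
  have hc0 : 0 ≤ c := by
    have h3 := absHeight_nonneg y
    have h4 := absHeight_nonneg α
    positivity
  set C : ℝ := ((r₀ + s).factorial : ℝ) * Ms ^ (T * r₀) with hC
  have hf1 : (1 : ℝ) ≤ ((r₀ + s).factorial : ℝ) := by
    exact_mod_cast Nat.one_le_iff_ne_zero.2 (Nat.factorial_ne_zero _)
  have hp1 : 1 ≤ Ms ^ (T * r₀) := one_le_pow₀ hMs1
  have hC1 : 1 ≤ C := by
    calc (1 : ℝ) = 1 * 1 := (one_mul 1).symm
      _ ≤ C := mul_le_mul hf1 hp1 zero_le_one (by positivity)
  -- the finite part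
  set e : FinitePlace L → ℝ := fun w => ∏ i : Fin s, (epsw (𝔭 (rb i).2) w) ^ T with he
  have he0 : ∀ p, 0 < e p := fun p => Finset.prod_pos fun i _ => pow_pos (epsw_pos _ _) _
  have hefin : (Function.mulSupport e).Finite := by
    have h3 : Function.mulSupport e ⊆ ⋃ i : Fin s,
        Function.mulSupport fun w : FinitePlace L => epsw (𝔭 (rb i).2) w := by
      intro w hw
      by_contra h4
      rw [Set.mem_iUnion] at h4
      push Not at h4
      apply hw
      refine Finset.prod_eq_one fun i _ => ?_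
      have h5 := h4 i
      rw [Function.mem_mulSupport, not_not] at h5
      rw [h5, one_pow]
    exact (Set.finite_iUnion fun i => epsw_finite _).subset h3
  have hpf := pf_ineq _ hdet
    (Sum.elim (fun i => (ra i).1.1 y) (fun i => (rb i).1.1 ((F (rb i).2).symm y)))
    (Sum.elim (fun i => (ra i).1.1 α) (fun i => (rb i).1.1 ((F (rb i).2).symm α)))
    (Sum.elim (fun _ => M) (fun i => nrm (𝔭 (rb i).2) * M))
    (Sum.elim (fun _ => W) (fun i => nrm (𝔭 (rb i).2) * W)) C hC1 e he0 hefin (by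
      intro v
      rw [Fintype.prod_sum_type]
      simp only [Sum.elim_inl, Sum.elim_inr]
      exact inf_det M W T α r₀ s ra rb col Ms hMM hWM hMs1 v) (by
      intro p
      rw [Fintype.prod_sum_type]
      simp only [Sum.elim_inl, Sum.elim_inr]
      exact loc_det h M W T α r₀ s ra rb col hspan p)
  rw [Fintype.sum_sum_type] at hpf
  simp only [Sum.elim_inl, Sum.elim_inr] at hpf
  -- heights
  set D : ℝ := (finrank ℚ L : ℝ) with hD
  have hD0 : 0 < D := by
    rw [hD]
    exact_mod_cast finrank_pos (R := ℚ) (M := L)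
  have hh : ∀ (σ : L ≃ₐ[K] L) (x : L), Height.logHeight₁ (σ x) = D * absLogHeight₁ x := by
    intro σ x
    have h3 := height_conj σ.toRingEquiv x
    have h4 : σ.toRingEquiv x = σ x := rfl
    rw [h4] at h3
    rw [h3, logHeight_abs]
  have e1 : ∑ i : Fin r₀, ((M : ℝ) * Height.logHeight₁ ((ra i).1.1 y) +
      (W : ℝ) * Height.logHeight₁ ((ra i).1.1 α)) = r₀ * (D * c) := by
    rw [Finset.sum_congr rfl (fun i _ => show _ = D * c by rw [hh, hh, hc]; ring)]
    rw [Finset.sum_const, Finset.card_univ, Fintype.card_fin, nsmul_eq_mul]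
  have e2 : ∑ i : Fin s, (((nrm (𝔭 (rb i).2) * M : ℕ) : ℝ) *
      Height.logHeight₁ ((rb i).1.1 ((F (rb i).2).symm y)) +
      ((nrm (𝔭 (rb i).2) * W : ℕ) : ℝ) * Height.logHeight₁ ((rb i).1.1 ((F (rb i).2).symm α))) ≤
      s * (D * (qmax * c)) := by
    have h3 : ∀ i ∈ (Finset.univ : Finset (Fin s)), (((nrm (𝔭 (rb i).2) * M : ℕ) : ℝ) *
        Height.logHeight₁ ((rb i).1.1 ((F (rb i).2).symm y)) +
        ((nrm (𝔭 (rb i).2) * W : ℕ) : ℝ) *
          Height.logHeight₁ ((rb i).1.1 ((F (rb i).2).symm α))) ≤ D * (qmax * c) := by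
      intro i _
      have hs : ∀ (t : ι) (x : L), absLogHeight₁ ((F t).symm x) = absLogHeight₁ x := fun t x =>
        absHeight_conj (F t).symm.toRingEquiv x
      rw [hh, hh, hs, hs]
      push_cast
      have h4 : (nrm (𝔭 (rb i).2) : ℝ) * c ≤ qmax * c := mul_le_mul_of_nonneg_right (h2 _) hc0
      calc _ = D * ((nrm (𝔭 (rb i).2) : ℝ) * c) := by rw [hc]; ring
        _ ≤ _ := mul_le_mul_of_nonneg_left h4 hD0.le
    refine (Finset.sum_le_sum h3).trans (le_of_eq ?_)
    rw [Finset.sum_const, Finset.card_univ, Fintype.card_fin, nsmul_eq_mul]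
  -- the finite part
  have e3 : Real.log (∏ᶠ p, e p) ≤ - (s * (T * (finrank K L * Real.log qmin))) := by
    have h3 : ∏ᶠ p, e p = ∏ i : Fin s, (((nrm (𝔭 (rb i).2) : ℝ)⁻¹) ^ finrank K L) ^ T := by
      rw [he, finprod_prod_comm _ _ (fun i _ => ?_)]
      · refine Finset.prod_congr rfl fun i _ => ?_
        rw [← finprod_pow (epsw_finite _), epsw_prod]
      · refine (epsw_finite (L := L) (𝔭 (rb i).2)).subset fun w hw => ?_
        rw [Function.mem_mulSupport] at hw ⊢
        intro h4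
        exact hw (by rw [h4, one_pow])
    have hn : ∀ i : Fin s, (0 : ℝ) < nrm (𝔭 (rb i).2) := fun i => by linarith [h1 (rb i).2]
    rw [h3, Real.log_prod (fun i _ => by have := hn i; positivity)]
    have h4 : ∀ i ∈ (Finset.univ : Finset (Fin s)),
        Real.log ((((nrm (𝔭 (rb i).2) : ℝ)⁻¹) ^ finrank K L) ^ T) ≤
          - (T * (finrank K L * Real.log qmin)) := by
      intro i _
      rw [Real.log_pow, Real.log_pow, Real.log_inv]
      have h5 : Real.log qmin ≤ Real.log (nrm (𝔭 (rb i).2)) :=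
        Real.log_le_log (by linarith) (h1 _)
      have h6 : (T : ℝ) * (finrank K L * Real.log qmin) ≤
          T * (finrank K L * Real.log (nrm (𝔭 (rb i).2))) := by gcongr
      linarith
    refine (Finset.sum_le_sum h4).trans (le_of_eq ?_)
    rw [Finset.sum_const, Finset.card_univ, Fintype.card_fin, nsmul_eq_mul]
    ring
  have e4 : Real.log C ≤ ((r₀ + s : ℕ) : ℝ) * Real.log ((r₀ + s : ℕ) : ℝ) +
      (T * r₀ : ℕ) * Real.log Ms := by
    rw [hC, Real.log_mul (by positivity) (by positivity), Real.log_pow]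
    have := ri_fact (r₀ + s)
    linarith
  have hK0 : (0 : ℝ) < (finrank ℚ K : ℝ) := by exact_mod_cast finrank_pos (R := ℚ) (M := K)
  have hKL : D = (finrank ℚ K : ℝ) * finrank K L := by
    rw [hD]
    exact_mod_cast (finrank_mul_finrank ℚ K L).symm
  have e5 : (s : ℝ) * (T * (finrank K L * Real.log qmin)) =
      D * (s * (T * Real.log qmin / finrank ℚ K)) := by
    rw [hKL]
    field_simp
  rw [e1] at hpf
  rw [e5] at e3
  have e6 : 0 ≤ D * (Real.log C + r₀ * c + s * (qmax * c) -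
      s * (T * Real.log qmin / finrank ℚ K)) := by
    have e8 : D * (Real.log C + r₀ * c + s * (qmax * c) -
        s * (T * Real.log qmin / finrank ℚ K)) = D * Real.log C + (r₀ * (D * c) +
        s * (D * (qmax * c))) + -(D * (s * (T * Real.log qmin / finrank ℚ K))) := by ring
    rw [e8]
    linarith
  have e7 := nonneg_of_mul_nonneg_right e6 hD0
  push_cast at e4 e7 ⊢
  have e9 : ((r₀ : ℝ) + s - r₀) * (T * Real.log qmin / finrank ℚ K - qmax * c) =
      s * (T * Real.log qmin / finrank ℚ K) - s * (qmax * c) := by ring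
  have e10 : (r₀ : ℝ) * (T * Real.log Ms + c) = T * r₀ * Real.log Ms + r₀ * c := by ring
  rw [e9, e10]
  linarith

end Pool.Agent.H72.PL
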