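import Pool.Agent.H72.PL.FrobB

/-!
# Module Unram: `E = K(ζ, y)` is unramified at primes not dividing `N b` (prop. 65, section 1)

`w | 𝔭`, `𝔓` the prime of `𝓞 L` belonging to `w`, `E = K(ζ, y)`, Galois over `K` (it is generated by all
roots of `X^N - 1` and `X^N - b`; the conjugates of `y` are the `ζ^i y`). Claim: `z ∈ E`, `w z < 1` ⟹
`w z ≤ epsw 𝔭 w`.
First way: `𝔓_E = 𝔓 ∩ 𝓞 E`. An element `σ` of the inertia group of `𝔓_E` in `Gal(E/K)` satisfies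
`w (σ ζ - ζ) < 1`, so `σ ζ = ζ` (`root_sep` with `ω = σ ζ / ζ`), and `σ y = ζ^i y` with
`w (ζ^i y - y) < 1`, `w y = 1` (`unit_y`), so `ζ^i = 1` (`root_sep`). (If `y` is not integral, multiply it
by an element `c` of `𝓞 K` outside `𝔭` which makes it integral; or argue with the valuation ring of `w`:
`σ` in the inertia group acts trivially modulo `w` on `w`-integral elements of `E`, which are quotients
of integers with `w`-unit denominator.) So the inertia group is trivial and the ramification index of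
`𝔓_E` over `𝔭` is `1` (`Ideal.card_inertia_eq_ramificationIdxIn`,
Mathlib `NumberTheory/RamificationInertia/Galois.lean`). Hence `𝔭 𝓞_E = 𝔓_E 𝔞` with `𝔞 ⊄ 𝔓_E`; choose
`a ∈ 𝔞`, `a ∉ 𝔓_E`, so `w a = 1`. `z = z₁/z₂`, `z_i ∈ 𝓞 E`, `w z₂ = 1`, `z₁ ∈ 𝔓_E`; `z₁ a ∈ 𝔭 𝓞_E`, its
image lies in `pL L 𝔭`, so `w z = w (z₁ a) ≤ epsw` (`epsw_bound`).
Second way (no inertia groups): let `π ∈ K` be a uniformizer of `𝔭`. It suffices: `w z < 1 ⟹
w z ≤ w π` (`w π = epsw 𝔭 w`). Let `z ∈ E` with `w z < 1`. Discriminants: for the power basis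
`1, ζ, .., ζ^(m-1)` of `K(ζ)/K` the discriminant is a product of differences of distinct `N`-th roots of
unity, a unit at all places above `𝔭`; similarly for the power basis of `y` over `K(ζ)`. So the ring
`𝓞_(𝔭)[ζ, y]` is the integral closure of `𝓞_(𝔭)` in `E`, and is étale over it; its prime ideals above
`𝔭` are generated by `π` locally.
-/

set_option autoImplicit false

open NumberField IsDedekindDomain Module

namespace Pool.Agent.H72.PL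

variable {K L : Type} [Field K] [NumberField K] [Field L] [NumberField L] [Algebra K L]

/-! ### The base field

`O` is the valuation ring of `𝔭`, `π` a uniformizer. -/

/-- elements of the maximal ideal are multiples of the uniformizer -/
theorem un_dvd (𝔭 : HeightOneSpectrum (𝓞 K)) (π : (𝔭.valuation K).integer)
    (hπ : 𝔭.valuation K (π : K) = WithZero.exp (-1)) (c : (𝔭.valuation K).integer) :
    π ∣ c ↔ 𝔭.valuation K (c : K) < 1 := by
  have hπ0 : (π : K) ≠ 0 := by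
    intro h
    rw [h, map_zero] at hπ
    exact WithZero.exp_ne_zero hπ.symm
  constructor
  · rintro ⟨d, rfl⟩
    rw [Subring.coe_mul, map_mul, hπ]
    have h1 : 𝔭.valuation K (d : K) ≤ 1 := d.2
    calc WithZero.exp (-1) * 𝔭.valuation K (d : K) ≤ WithZero.exp (-1 : ℤ) * 1 := by gcongr
      _ = WithZero.exp (-1) := mul_one _
      _ < 1 := by
        rw [← WithZero.exp_zero, WithZero.exp_lt_exp]
        norm_num
  · intro h
    have h2 : 𝔭.valuation K ((c : K) / (π : K)) ≤ 1 := by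
      rw [map_div₀, hπ]
      by_cases h0 : 𝔭.valuation K (c : K) = 0
      · rw [h0, zero_div]; exact zero_le_one
      · obtain ⟨m, hm⟩ : ∃ m : ℤ, 𝔭.valuation K (c : K) = WithZero.exp m :=
          ⟨WithZero.log (𝔭.valuation K (c : K)), (WithZero.exp_log h0).symm⟩
        rw [hm] at h ⊢
        rw [← WithZero.exp_sub, ← WithZero.exp_zero, WithZero.exp_le_exp]
        rw [← WithZero.exp_zero, WithZero.exp_lt_exp] at h
        omega
    refine ⟨⟨(c : K) / (π : K), h2⟩, ?_⟩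
    apply Subtype.ext
    rw [Subring.coe_mul]
    show (c : K) = (π : K) * ((c : K) / (π : K))
    field_simp

theorem un_resid (𝔭 : HeightOneSpectrum (𝓞 K)) (r : 𝓞 K) : r ^ nrm 𝔭 - r ∈ 𝔭.asIdeal := by
  have := 𝔭.isMaximal
  let _ := Ideal.Quotient.field 𝔭.asIdeal
  let _ : Fintype (𝓞 K ⧸ 𝔭.asIdeal) := Fintype.ofFinite _
  have h1 : nrm 𝔭 = Fintype.card (𝓞 K ⧸ 𝔭.asIdeal) := by
    rw [nrm, Ideal.absNorm_apply, Submodule.cardQuot_apply, Nat.card_eq_fintype_card]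
  rw [← Ideal.Quotient.eq_zero_iff_mem, map_sub, map_pow, h1, FiniteField.pow_card, sub_self]

theorem un_frob (𝔭 : HeightOneSpectrum (𝓞 K)) (π : (𝔭.valuation K).integer)
    (hπ : 𝔭.valuation K (π : K) = WithZero.exp (-1)) (c : (𝔭.valuation K).integer) :
    π ∣ c ^ nrm 𝔭 - c := by
  obtain ⟨r, hr⟩ := 𝔭.exists_valuation_sub_lt_of_integer (K := K) (x := (c : K)) c.2 1
  rw [Units.val_one] at hr
  let ρ : (𝔭.valuation K).integer := ⟨algebraMap (𝓞 K) K r, 𝔭.valuation_le_one r⟩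
  have h1 : π ∣ ρ - c := by
    rw [un_dvd 𝔭 π hπ]
    exact hr
  have h2 : π ∣ ρ ^ nrm 𝔭 - ρ := by
    rw [un_dvd 𝔭 π hπ]
    have h3 : ((ρ ^ nrm 𝔭 - ρ : (𝔭.valuation K).integer) : K) =
        algebraMap (𝓞 K) K (r ^ nrm 𝔭 - r) := by
      rw [map_sub, map_pow]
      rfl
    rw [h3, 𝔭.valuation_lt_one_iff_mem]
    exact un_resid 𝔭 r
  have h4 : π ∣ ρ ^ nrm 𝔭 - c ^ nrm 𝔭 := h1.trans (sub_dvd_pow_sub_pow ρ c _)
  have h5 : c ^ nrm 𝔭 - c = (ρ ^ nrm 𝔭 - ρ) + (ρ - c) - (ρ ^ nrm 𝔭 - c ^ nrm 𝔭) := by ring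
  rw [h5]
  exact dvd_sub (dvd_add h2 h1) h4

theorem un_frob_pow (𝔭 : HeightOneSpectrum (𝓞 K)) (π : (𝔭.valuation K).integer)
    (hπ : 𝔭.valuation K (π : K) = WithZero.exp (-1)) (c : (𝔭.valuation K).integer) (f : ℕ) :
    π ∣ c ^ nrm 𝔭 ^ f - c := by
  induction f with
  | zero => simp
  | succ f ih =>
    have h1 := un_frob 𝔭 π hπ (c ^ nrm 𝔭 ^ f)
    rw [← pow_mul, ← pow_succ] at h1
    have h2 : c ^ nrm 𝔭 ^ (f + 1) - c = (c ^ nrm 𝔭 ^ (f + 1) - c ^ nrm 𝔭 ^ f) +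
        (c ^ nrm 𝔭 ^ f - c) := by ring
    rw [h2]
    exact dvd_add h1 ih

theorem un_unit (𝔭 : HeightOneSpectrum (𝓞 K)) (π : (𝔭.valuation K).integer)
    (hπ : 𝔭.valuation K (π : K) = WithZero.exp (-1)) (c : (𝔭.valuation K).integer)
    (hc : 𝔭.valuation K (c : K) = 1) (k : ℕ) : π ∣ c ^ ((nrm 𝔭 - 1) * k) - 1 := by
  have hq := nrm_pos 𝔭
  have h1 : π ∣ c ^ (nrm 𝔭 - 1) - 1 := by
    have h2 := un_frob 𝔭 π hπ c
    rw [un_dvd 𝔭 π hπ] at h2 ⊢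
    have h3 : ((c ^ nrm 𝔭 - c : (𝔭.valuation K).integer) : K) =
        (c : K) * ((c ^ (nrm 𝔭 - 1) - 1 : (𝔭.valuation K).integer) : K) := by
      have h4 : c ^ nrm 𝔭 - c = c * (c ^ (nrm 𝔭 - 1) - 1) := by
        rw [mul_sub, mul_one, ← pow_succ', Nat.sub_add_cancel (by omega)]
      rw [h4, Subring.coe_mul]
    rw [h3, map_mul, hc, one_mul] at h2
    exact h2
  have h5 := sub_dvd_pow_sub_pow (c ^ (nrm 𝔭 - 1)) 1 k
  rw [one_pow, ← pow_mul] at h5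
  exact h1.trans h5

/-- a power `Q` of the norm of `𝔭` with `Q ≡ 1` modulo `N (q - 1)` -/
theorem un_exp (𝔭 : HeightOneSpectrum (𝓞 K)) (N : ℕ) (hN : 1 ≤ N) (hNp : (N : 𝓞 K) ∉ 𝔭.asIdeal) :
    ∃ p m f k : ℕ, p.Prime ∧ (p : 𝓞 K) ∈ 𝔭.asIdeal ∧ nrm 𝔭 ^ f = p ^ m ∧
      nrm 𝔭 ^ f = 1 + N * ((nrm 𝔭 - 1) * k) ∧ 2 ≤ nrm 𝔭 ^ f := by
  have := 𝔭.isMaximal
  let _ := Ideal.Quotient.field 𝔭.asIdeal
  let _ : Fintype (𝓞 K ⧸ 𝔭.asIdeal) := Fintype.ofFinite _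
  have h1 : nrm 𝔭 = Fintype.card (𝓞 K ⧸ 𝔭.asIdeal) := by
    rw [nrm, Ideal.absNorm_apply, Submodule.cardQuot_apply, Nat.card_eq_fintype_card]
  obtain ⟨p, hp⟩ := CharP.exists (𝓞 K ⧸ 𝔭.asIdeal)
  obtain ⟨n, hpp, hn⟩ := FiniteField.card (𝓞 K ⧸ 𝔭.asIdeal) p
  have hq := nrm_pos 𝔭
  have hpmem : (p : 𝓞 K) ∈ 𝔭.asIdeal := by
    rw [← Ideal.Quotient.eq_zero_iff_mem, map_natCast]
    exact CharP.cast_eq_zero _ _
  have hpN : ¬ p ∣ N := by
    rintro ⟨d, rfl⟩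
    apply hNp
    push_cast
    exact Ideal.mul_mem_right _ _ hpmem
  have hcop : (nrm 𝔭).Coprime (N * (nrm 𝔭 - 1)) := by
    apply Nat.Coprime.mul_right
    · rw [h1, hn]
      exact Nat.Coprime.pow_left _ ((Nat.Prime.coprime_iff_not_dvd hpp).2 hpN)
    · obtain ⟨r, hr⟩ : ∃ r, nrm 𝔭 = r + 1 := ⟨nrm 𝔭 - 1, by omega⟩
      rw [hr, Nat.add_sub_cancel]
      simp
  have hmod := Nat.ModEq.pow_totient hcop
  set f := (N * (nrm 𝔭 - 1)).totient with hf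
  have hNq : 0 < N * (nrm 𝔭 - 1) := Nat.mul_pos (by omega) (by omega)
  have hfpos : 0 < f := Nat.totient_pos.2 hNq
  have hQ : 2 ≤ nrm 𝔭 ^ f := by
    calc 2 ≤ nrm 𝔭 := hq
      _ = nrm 𝔭 ^ 1 := (pow_one _).symm
      _ ≤ nrm 𝔭 ^ f := Nat.pow_le_pow_right (by omega) hfpos
  obtain ⟨k, hk⟩ := (Nat.modEq_iff_dvd' (by omega : 1 ≤ nrm 𝔭 ^ f)).1 hmod.symm
  refine ⟨p, n * f, f, k, hpp, hpmem, ?_, ?_, hQ⟩
  · rw [pow_mul, ← hn, ← h1]
  · rw [← mul_assoc, ← hk]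
    omega

/-! ### Places -/

theorem fp_int_le (w : FinitePlace L) (z : 𝓞 L) : w (z : L) ≤ 1 := by
  rw [← FinitePlace.norm_embedding_eq]
  exact FinitePlace.norm_le_one L w.maximalIdeal z

theorem fp_int_lt (w : FinitePlace L) (z : 𝓞 L) (hz : z ∈ w.maximalIdeal.asIdeal) :
    w (z : L) < 1 := by
  rw [← FinitePlace.norm_embedding_eq]
  exact (FinitePlace.norm_lt_one_iff_mem L w.maximalIdeal z).2 hz

/-- elements of the valuation ring of `𝔭` are integral at `w` -/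
theorem un_le (𝔭 : HeightOneSpectrum (𝓞 K)) (w : FinitePlace L) (hw : Above 𝔭 w)
    (c : (𝔭.valuation K).integer) : w (algebraMap K L (c : K)) ≤ 1 := by
  obtain ⟨n, d, hd⟩ := 𝔭.exists_primeCompl_mul_eq_of_integer (K := K) (c : K) c.2
  have h1 : w (algebraMap K L (algebraMap (𝓞 K) K (d : 𝓞 K))) = 1 :=
    above_unit 𝔭 w hw _ (𝔭.valuation_eq_one_iff_notMem.2 d.2)
  have h2 : w (algebraMap K L (algebraMap (𝓞 K) K n)) ≤ 1 := by
    have h3 : algebraMap K L (algebraMap (𝓞 K) K n) =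
        ((algebraMap (𝓞 K) (𝓞 L) n : 𝓞 L) : L) := rfl
    rw [h3]
    exact fp_int_le w _
  rw [← hd, map_mul, map_mul, h1, mul_one] at h2
  exact h2

/-! ### The ring `A = O[ζ, y]` -/

/-- the map `O → L` -/
noncomputable def unI (L : Type) [Field L] [NumberField L] [Algebra K L]
    (𝔭 : HeightOneSpectrum (𝓞 K)) : (𝔭.valuation K).integer →+* L :=
  (algebraMap K L).comp (𝔭.valuation K).integer.subtype

/-- the ring `A = O[ζ, y]` -/
noncomputable def unA (𝔭 : HeightOneSpectrum (𝓞 K)) (ζ y : L) : Subsemiring L :=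
  Subsemiring.closure (Set.range (unI L 𝔭) ∪ {ζ, y})

theorem unI_mem (𝔭 : HeightOneSpectrum (𝓞 K)) (ζ y : L) (c : (𝔭.valuation K).integer) :
    unI L 𝔭 c ∈ unA 𝔭 ζ y :=
  Subsemiring.subset_closure (Or.inl ⟨c, rfl⟩)

theorem unA_le (𝔭 : HeightOneSpectrum (𝓞 K)) (ζ y : L) (w : FinitePlace L) (hw : Above 𝔭 w)
    (h1 : w ζ = 1) (h2 : w y = 1) (a : L) (ha : a ∈ unA 𝔭 ζ y) : w a ≤ 1 := by
  unfold unA at ha
  induction ha using Subsemiring.closure_induction with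
  | mem x hx =>
    rcases hx with ⟨c, rfl⟩ | hx
    · exact un_le 𝔭 w hw c
    · rcases hx with rfl | hx
      · exact h1.le
      · rw [Set.mem_singleton_iff.1 hx]; exact h2.le
  | zero => rw [map_zero]; exact zero_le_one
  | one => rw [map_one]
  | add x x' _ _ hx hx' => exact (FinitePlace.add_le w x x').trans (max_le hx hx')
  | mul x x' _ _ hx hx' =>
    rw [map_mul]
    exact mul_le_one₀ hx (apply_nonneg w x') hx'

/-- raising to the power `Q` is the identity modulo `π` -/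
theorem unA_pow (𝔭 : HeightOneSpectrum (𝓞 K)) (π : (𝔭.valuation K).integer)
    (hπ : 𝔭.valuation K (π : K) = WithZero.exp (-1)) (N : ℕ) (ζ y : L) (hζ : ζ ^ N = 1) (b : K)
    (hy : y ^ N = algebraMap K L b) (hb : 𝔭.valuation K b = 1) (p m f k : ℕ) (hp : p.Prime)
    (hpp : (p : 𝓞 K) ∈ 𝔭.asIdeal) (h1 : nrm 𝔭 ^ f = p ^ m)
    (h2 : nrm 𝔭 ^ f = 1 + N * ((nrm 𝔭 - 1) * k)) (h3 : 2 ≤ nrm 𝔭 ^ f) (a : L)
    (ha : a ∈ unA 𝔭 ζ y) :
    ∃ a' ∈ unA 𝔭 ζ y, a ^ nrm 𝔭 ^ f = a + unI L 𝔭 π * a' := by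
  have hAζ : ζ ∈ unA 𝔭 ζ y := Subsemiring.subset_closure (Or.inr (by simp))
  have hAy : y ∈ unA 𝔭 ζ y := Subsemiring.subset_closure (Or.inr (by simp))
  have hAi := unI_mem 𝔭 ζ y
  -- `p` is a multiple of `π`
  obtain ⟨p', hp'⟩ : π ∣ (p : (𝔭.valuation K).integer) := by
    rw [un_dvd 𝔭 π hπ]
    have h4 : (((p : (𝔭.valuation K).integer) : (𝔭.valuation K).integer) : K) =
        algebraMap (𝓞 K) K (p : 𝓞 K) := by
      rw [map_natCast]
      rfl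
    rw [h4, 𝔭.valuation_lt_one_iff_mem]
    exact hpp
  have hpL : (p : L) = unI L 𝔭 π * unI L 𝔭 p' := by
    rw [← map_mul, ← hp', map_natCast]
  let bO : (𝔭.valuation K).integer := ⟨b, hb.le⟩
  obtain ⟨b', hb'⟩ := un_unit 𝔭 π hπ bO hb k
  have hbL : (algebraMap K L b) ^ ((nrm 𝔭 - 1) * k) = 1 + unI L 𝔭 π * unI L 𝔭 b' := by
    have h4 : algebraMap K L b = unI L 𝔭 bO := rfl
    rw [h4, ← map_pow, ← map_mul, ← hb', map_sub, map_one]
    ring
  have ha' := ha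
  unfold unA at ha'
  induction ha' using Subsemiring.closure_induction with
  | mem x hx =>
    rcases hx with ⟨c, rfl⟩ | hx
    · obtain ⟨c', hc'⟩ := un_frob_pow 𝔭 π hπ c f
      refine ⟨unI L 𝔭 c', hAi c', ?_⟩
      rw [← map_pow, ← map_mul, ← map_add, ← hc']
      congr 1
      ring
    · rcases hx with rfl | hx
      · refine ⟨0, zero_mem _, ?_⟩
        rw [h2, pow_add, pow_one, pow_mul, hζ, one_pow, mul_one, mul_zero, add_zero]
      · rw [Set.mem_singleton_iff.1 hx]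
        refine ⟨unI L 𝔭 b' * y, mul_mem (hAi b') hAy, ?_⟩
        rw [h2, pow_add, pow_one, pow_mul, hy, hbL]
        ring
  | zero => exact ⟨0, zero_mem _, by rw [zero_pow (by omega)]; ring⟩
  | one => exact ⟨0, zero_mem _, by rw [one_pow]; ring⟩
  | add x x' hx hx' ih ih' =>
    obtain ⟨u, hu, hu'⟩ := ih hx
    obtain ⟨u', hu2, hu2'⟩ := ih' hx'
    obtain ⟨r, hr⟩ := exists_add_pow_prime_pow_eq hp (⟨x, hx⟩ : unA 𝔭 ζ y) ⟨x', hx'⟩ m
    have hr' := congrArg (Subtype.val) hr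
    have hcast : ((p : ↥(unA 𝔭 ζ y)) : L) = (p : L) := map_natCast (unA 𝔭 ζ y).subtype p
    simp only [Subsemiring.coe_add, Subsemiring.coe_mul, Subsemiring.coe_pow, hcast] at hr'
    refine ⟨u + u' + unI L 𝔭 p' * x * x' * r, ?_, ?_⟩
    · exact add_mem (add_mem hu hu2) (mul_mem (mul_mem (mul_mem (hAi p') hx) hx') r.2)
    · rw [h1] at hu' hu2' ⊢
      rw [hr', hu', hu2', hpL]
      ring
  | mul x x' hx hx' ih ih' =>
    obtain ⟨u, hu, hu'⟩ := ih hx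
    obtain ⟨u', hu2, hu2'⟩ := ih' hx'
    refine ⟨x * u' + u * x' + unI L 𝔭 π * u * u', ?_, ?_⟩
    · exact add_mem (add_mem (mul_mem hx hu2) (mul_mem hu hx'))
        (mul_mem (mul_mem (hAi π) hu) hu2)
    · rw [mul_pow, hu', hu2']
      ring

/-- one step: an element of `A` of absolute value `< 1` is `π` times an element of `A`, up to units -/
theorem unA_step (𝔭 : HeightOneSpectrum (𝓞 K)) (π : (𝔭.valuation K).integer) (ζ y : L)
    (w : FinitePlace L) (Q : ℕ) (hQ : 2 ≤ Q)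
    (hA : ∀ a ∈ unA 𝔭 ζ y, ∃ a' ∈ unA 𝔭 ζ y, a ^ Q = a + unI L 𝔭 π * a')
    (a : L) (ha : a ∈ unA 𝔭 ζ y) (ha0 : a ≠ 0) (h1 : w a < 1) :
    ∃ a' ∈ unA 𝔭 ζ y, w a = w (unI L 𝔭 π) * w a' := by
  obtain ⟨a', ha', h2⟩ := hA a ha
  refine ⟨a', ha', ?_⟩
  have hpos : 0 < w a := FinitePlace.pos_iff.2 ha0
  have h3 : w (a + unI L 𝔭 π * a') < w a := by
    rw [← h2, map_pow]
    calc w a ^ Q ≤ w a ^ 2 := pow_le_pow_of_le_one hpos.le h1.le hQ
      _ = w a * w a := sq _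
      _ < w a * 1 := by gcongr
      _ = w a := mul_one _
  rw [← map_mul]
  apply le_antisymm
  · have h4 := FinitePlace.add_le w (a + unI L 𝔭 π * a') (-(unI L 𝔭 π * a'))
    rw [add_neg_cancel_right, map_neg_eq_map] at h4
    rcases le_max_iff.1 h4 with h5 | h5
    · exact absurd h3 (not_lt.2 h5)
    · exact h5
  · have h4 := FinitePlace.add_le w (a + unI L 𝔭 π * a') (-a)
    rw [map_neg_eq_map, add_neg_cancel_comm] at h4
    exact h4.trans (max_le h3.le le_rfl)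

/-- the values of the elements of `A` are powers of the value of `π` -/
theorem unA_val (𝔭 : HeightOneSpectrum (𝓞 K)) (π : (𝔭.valuation K).integer) (ζ y : L)
    (w : FinitePlace L) (Q : ℕ) (hQ : 2 ≤ Q)
    (hA : ∀ a ∈ unA 𝔭 ζ y, ∃ a' ∈ unA 𝔭 ζ y, a ^ Q = a + unI L 𝔭 π * a')
    (hA1 : ∀ a ∈ unA 𝔭 ζ y, w a ≤ 1) (hπ0 : 0 < w (unI L 𝔭 π)) (n : ℕ) :
    ∀ a ∈ unA 𝔭 ζ y, a ≠ 0 → w (unI L 𝔭 π) ^ n < w a → ∃ m : ℕ, w a = w (unI L 𝔭 π) ^ m := by
  induction n with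
  | zero =>
    intro a ha _ h
    rw [pow_zero] at h
    exact absurd h (not_lt.2 (hA1 a ha))
  | succ n ih =>
    intro a ha ha0 h
    rcases (hA1 a ha).lt_or_eq with h1 | h1
    · obtain ⟨a', ha', h2⟩ := unA_step 𝔭 π ζ y w Q hQ hA a ha ha0 h1
      have hpos : 0 < w a := FinitePlace.pos_iff.2 ha0
      have ha'0 : a' ≠ 0 := by
        rintro rfl
        rw [map_zero, mul_zero] at h2
        exact hpos.ne' h2
      rw [h2, pow_succ'] at h
      obtain ⟨m, hm⟩ := ih a' ha' ha'0 (lt_of_mul_lt_mul_left h hπ0.le)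
      exact ⟨m + 1, by rw [h2, hm, pow_succ']⟩
    · exact ⟨0, by rw [h1, pow_zero]⟩

/-- denominators -/
theorem unA_den (𝔭 : HeightOneSpectrum (𝓞 K)) (π : (𝔭.valuation K).integer)
    (hπ : 𝔭.valuation K (π : K) = WithZero.exp (-1)) (ζ y : L) (z : L)
    (hz : z ∈ Algebra.adjoin K {ζ, y}) : ∃ m : ℕ, unI L 𝔭 π ^ m * z ∈ unA 𝔭 ζ y := by
  have hAi := unI_mem 𝔭 ζ y
  induction hz using Algebra.adjoin_induction with
  | mem x hx =>
    refine ⟨0, ?_⟩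
    rw [pow_zero, one_mul]
    exact Subsemiring.subset_closure (Or.inr hx)
  | algebraMap c =>
    obtain ⟨n, d, hd, rfl⟩ := IsFractionRing.div_surjective (A := 𝓞 K) c
    have hd0 : d ≠ 0 := nonZeroDivisors.ne_zero hd
    refine ⟨(Associates.mk 𝔭.asIdeal).count (Associates.mk (Ideal.span {d})).factors, ?_⟩
    set m := (Associates.mk 𝔭.asIdeal).count (Associates.mk (Ideal.span {d})).factors with hm
    have h1 : 𝔭.valuation K ((π : K) ^ m * (algebraMap (𝓞 K) K n / algebraMap (𝓞 K) K d)) ≤ 1 := by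
      rw [map_mul, map_pow, map_div₀, hπ, 𝔭.valuation_of_algebraMap d,
        𝔭.intValuation_if_neg hd0, ← hm]
      have h2 : (WithZero.exp (-1 : ℤ)) ^ m = WithZero.exp (-(m : ℤ)) := by
        rw [← WithZero.exp_nsmul]
        congr 1
        simp
      rw [h2, mul_div_cancel₀ _ WithZero.exp_ne_zero]
      exact 𝔭.valuation_le_one n
    have h3 : algebraMap K L ((π : K) ^ m * (algebraMap (𝓞 K) K n / algebraMap (𝓞 K) K d)) =
        unI L 𝔭 π ^ m * algebraMap K L (algebraMap (𝓞 K) K n / algebraMap (𝓞 K) K d) := by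
      rw [map_mul, map_pow]
      rfl
    rw [← h3]
    exact hAi ⟨_, h1⟩
  | add x x' _ _ hx hx' =>
    obtain ⟨m, hm⟩ := hx
    obtain ⟨m', hm'⟩ := hx'
    refine ⟨m + m', ?_⟩
    have h1 : unI L 𝔭 π ^ (m + m') * (x + x') = unI L 𝔭 π ^ m' * (unI L 𝔭 π ^ m * x) +
        unI L 𝔭 π ^ m * (unI L 𝔭 π ^ m' * x') := by ring
    rw [h1]
    exact add_mem (mul_mem (pow_mem (hAi π) _) hm) (mul_mem (pow_mem (hAi π) _) hm')
  | mul x x' _ _ hx hx' =>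
    obtain ⟨m, hm⟩ := hx
    obtain ⟨m', hm'⟩ := hx'
    refine ⟨m + m', ?_⟩
    have h1 : unI L 𝔭 π ^ (m + m') * (x * x') = (unI L 𝔭 π ^ m * x) *
        (unI L 𝔭 π ^ m' * x') := by ring
    rw [h1]
    exact mul_mem hm hm'

/-- elements of `E = K(ζ, y)` of absolute value `< 1` at `w` have absolute value `≤ epsw` -/
theorem unram_E [IsGalois K L] (N : ℕ) (hN : 1 ≤ N) (ζ y : L) (hζ : IsPrimitiveRoot ζ N) (b : K)
    (hy : y ^ N = algebraMap K L b) (𝔭 : HeightOneSpectrum (𝓞 K))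
    (hNp : (N : 𝓞 K) ∉ 𝔭.asIdeal) (hb : 𝔭.valuation K b = 1) (w : FinitePlace L)
    (hw : Above 𝔭 w) (z : L) (hz : z ∈ IntermediateField.adjoin K {ζ, y}) (h1 : w z < 1) :
    w z ≤ epsw 𝔭 w := by
  rcases eq_or_ne z 0 with rfl | hz0
  · rw [map_zero]
    exact (epsw_pos 𝔭 w).le
  obtain ⟨ϖ, hϖ⟩ := 𝔭.valuation_exists_uniformizer' K
  let π : (𝔭.valuation K).integer := ⟨algebraMap (𝓞 K) K ϖ, 𝔭.valuation_le_one ϖ⟩
  have hπ : 𝔭.valuation K (π : K) = WithZero.exp (-1) := hϖ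
  have hϖmem : ϖ ∈ 𝔭.asIdeal := by
    rw [← 𝔭.valuation_lt_one_iff_mem (K := K)]
    have h2 : 𝔭.valuation K (algebraMap (𝓞 K) K ϖ) = WithZero.exp (-1) := hϖ
    rw [h2, ← WithZero.exp_zero, WithZero.exp_lt_exp]
    norm_num
  have hπL : unI L 𝔭 π = ((algebraMap (𝓞 K) (𝓞 L) ϖ : 𝓞 L) : L) := rfl
  have hpL : algebraMap (𝓞 K) (𝓞 L) ϖ ∈ pL L 𝔭 := Ideal.mem_map_of_mem _ hϖmem
  have hπ1 : w (unI L 𝔭 π) < 1 := by
    rw [hπL]
    exact fp_int_lt w _ (hw hpL)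
  have hπe : w (unI L 𝔭 π) ≤ epsw 𝔭 w := by
    rw [hπL]
    exact epsw_bound 𝔭 w _ hpL
  have hπ0 : 0 < w (unI L 𝔭 π) := by
    rw [FinitePlace.pos_iff]
    intro h
    have h2 : (π : K) = 0 := (algebraMap K L).injective (by rw [map_zero]; exact h)
    rw [h2, map_zero] at hπ
    exact WithZero.exp_ne_zero hπ.symm
  have hwζ : w ζ = 1 := by
    have h2 : w ζ ^ N = 1 := by rw [← map_pow, hζ.pow_eq_one, map_one]
    exact (pow_eq_one_iff_of_nonneg (apply_nonneg w ζ) (by omega)).1 h2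
  have hwy : w y = 1 := unit_y N hN y b hy 𝔭 hb w hw
  obtain ⟨p, m, f, k, hp, hpp, e1, e2, e3⟩ := un_exp 𝔭 N hN hNp
  have hA := unA_pow 𝔭 π hπ N ζ y hζ.pow_eq_one b hy hb p m f k hp hpp e1 e2 e3
  have hA1 := unA_le 𝔭 ζ y w hw hwζ hwy
  have hz' : z ∈ Algebra.adjoin K {ζ, y} := by
    rw [← IntermediateField.adjoin_toSubalgebra]
    exact hz
  obtain ⟨r, hr⟩ := unA_den 𝔭 π hπ ζ y z hz'
  have hne : unI L 𝔭 π ^ r * z ≠ 0 :=
    mul_ne_zero (pow_ne_zero _ (FinitePlace.pos_iff.1 hπ0)) hz0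
  obtain ⟨n, hn⟩ := exists_pow_lt_of_lt_one (FinitePlace.pos_iff (w := w).2 hne) hπ1
  obtain ⟨s, hs⟩ := unA_val 𝔭 π ζ y w _ e3 hA hA1 hπ0 n _ hr hne hn
  rw [map_mul, map_pow] at hs
  have hrs : r < s := by
    by_contra hcon
    push Not at hcon
    have h2 : w (unI L 𝔭 π) ^ r ≤ w (unI L 𝔭 π) ^ s := pow_le_pow_of_le_one hπ0.le hπ1.le hcon
    have h3 : w (unI L 𝔭 π) ^ r * w z < w (unI L 𝔭 π) ^ r * 1 := by gcongr
    rw [mul_one, hs] at h3
    exact absurd h2 (not_le.2 h3)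
  obtain ⟨t, rfl⟩ := Nat.exists_eq_add_of_lt hrs
  have h2 : w z = w (unI L 𝔭 π) ^ (t + 1) := by
    rw [add_assoc, pow_add] at hs
    exact mul_left_cancel₀ (pow_pos hπ0 r).ne' hs
  rw [h2, pow_succ]
  calc w (unI L 𝔭 π) ^ t * w (unI L 𝔭 π) ≤ 1 * w (unI L 𝔭 π) := by
        gcongr
        exact pow_le_one₀ hπ0.le hπ1.le
    _ = w (unI L 𝔭 π) := one_mul _
    _ ≤ epsw 𝔭 w := hπe

end Pool.Agent.H72.PL
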