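import Pool.Agent.H72.PL.FindF
import Pool.Agent.H72.PL.Greedy
import Pool.Agent.H72.PL.Corank

/-!
# Module ZE: the zero estimate (paper proof: proposal 65, section 5)

`ze_main`: take `l, m, f` from `find_f`.
* `dX f ≤ l + 1 - m ≤ ρ/(M+1)`. `m ≥ l + 1 - ρ/(M+1) ≥ W/2 + 1 - ρ/(M+1) ≥ d`, `m ≤ l + 1 ≤ W`.
* `dY f ≤ M`: `IB I M l` contains a nonzero element (`finrank (spF ..) = m > 0`), `g = f h`, so
  `dY f ≤ dY g ≤ M` (`dY_le_of_dvd`, `mem_box`).
* Counting: `h ↦ f h` maps `Box k (M - dY f) (m-1)` onto (a space containing) `IB I M l`: for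
  `g = f h ∈ IB I M l`, `g ≠ 0`: `dY h = dY g - dY f ≤ M - dY f` (`dY_mul`), `natDegree h < m`. So
  `finrank (IB I M l) ≤ (M - dY f + 1) m ≤ (M - dY f + 1)(l + 1)`, and `box_codim`
  gives `(M+1)(l+1) ≤ (M + 1 - dY f)(l+1) + ρ`, so `dY f (l+1) ≤ ρ` and `dY f * W ≤ 2 ρ`.
* `V = quoV I M l f`: `V ≤ Box k (M - dY f) (m-1)` (same argument), `finrank (spF V) = m`,
  `comap_codim` (with `box_codim` for `e = M`) gives the hypothesis of `greedy` (with `M - dY f` in the
  role of `M`). Take the `g_i`: `natDegree < m` since `g_i ∈ Box k _ (m-1)`; `f g_i ∈ I`;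
  `cmat_det_ne_zero`; `natDegree_cmat_det` with `e i = ρ / (m - i)` (`dY_le`).
-/

set_option autoImplicit false

open Polynomial Module

namespace Pool.Agent.H72.PL

variable {k : Type} [Field k]

theorem ze_main (I : Ideal (BP k)) (M W ρ d : ℕ)
    (hcod : (M + 1) * (W + 1) ≤ finrank k ↥(IB I M W) + ρ)
    (hW : 2 * (ρ / (M + 1) + d) + 4 ≤ W) :
    ∃ f : BP k, f ≠ 0 ∧ dX f ≤ ρ / (M + 1) ∧ dY f * W ≤ 2 * ρ ∧ ∃ m : ℕ, d ≤ m ∧ m ≤ W ∧
      ∃ g : Fin m → BP k, (∀ i, (g i).natDegree < m) ∧ (cmat g).det ≠ 0 ∧ (∀ i, f * g i ∈ I) ∧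
        (cmat g).det.natDegree ≤ ∑ i : Fin m, ρ / (m - (i : ℕ)) := by
  obtain ⟨l, m, f, h2l, hlW, hprim, hm, hfm, hlm, hdiv, hfr1, hfr2⟩ :=
    find_f I M W ρ hcod (by omega)
  have hf0 : f ≠ 0 := hprim.ne_zero
  have hIB : IB I M l ≠ ⊥ := by
    intro hbot
    rw [hbot] at hfr1
    have h1 : spF (⊥ : Submodule k (BP k)) = ⊥ := by
      unfold spF
      rw [Submodule.bot_coe, Set.image_singleton, map_zero, Submodule.span_singleton_eq_bot]
    rw [h1, finrank_bot] at hfr1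
    omega
  have hdYf : dY f ≤ M := by
    obtain ⟨g, hg, hg0⟩ := Submodule.exists_mem_ne_zero_of_ne_bot hIB
    obtain ⟨h, hgh, -⟩ := hdiv g hg
    exact (dY_le_of_dvd f g hg0 ⟨h, hgh⟩).trans ((mem_box g M l).mp hg.2).1
  have hV : quoV I M l f ≤ Box k (M - dY f) (m - 1) := by
    intro h hh
    have hfh : f * h ∈ IB I M l := hh
    by_cases h0 : h = 0
    · rw [h0]
      exact Submodule.zero_mem _
    obtain ⟨h', hh', hdeg⟩ := hdiv _ hfh
    have heq : h = h' := mul_left_cancel₀ hf0 hh'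
    rw [← heq] at hdeg
    rw [mem_box]
    have h1 := ((mem_box _ M l).mp hfh.2).1
    rw [dY_mul f h hf0 h0] at h1
    refine ⟨by omega, ?_⟩
    show h.natDegree ≤ m - 1
    omega
  have hcod' : (M + 1) * (l + 1) ≤ finrank k ↥(IB I M l) + ρ :=
    box_codim I M W ρ hcod M l le_rfl hlW.le
  have hfin : finrank k ↥(IB I M l) ≤ (M - dY f + 1) * m := by
    have h1 : IB I M l ≤ (Box k (M - dY f) (m - 1)).map (LinearMap.mulLeft k f) := by
      intro g hg
      obtain ⟨h, hgh, -⟩ := hdiv g hg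
      refine ⟨h, hV ?_, ?_⟩
      · show f * h ∈ IB I M l
        rw [← hgh]
        exact hg
      · rw [LinearMap.mulLeft_apply, ← hgh]
    have h2 := Submodule.finrank_mono h1
    have h3 := Submodule.finrank_map_le (LinearMap.mulLeft k f) (Box k (M - dY f) (m - 1))
    rw [finrank_box] at h3
    have h4 : m - 1 + 1 = m := by omega
    rw [h4] at h3
    exact h2.trans h3
  have hdYW : dY f * (l + 1) ≤ ρ := by
    have h1 : (M - dY f + 1) * m ≤ (M - dY f + 1) * (l + 1) :=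
      Nat.mul_le_mul_left _ (by omega)
    have h2 : (M - dY f + 1) + dY f = M + 1 := by omega
    have h3 : (M + 1) * (l + 1) = (M - dY f + 1) * (l + 1) + dY f * (l + 1) := by
      rw [← add_mul, h2]
    omega
  obtain ⟨g, hgV, hgY, hgli⟩ := greedy (quoV I M l f) (M - dY f) m ρ hm hV hfr2 (fun e he =>
    comap_codim I M l ρ hcod' f hf0 e m hm (by omega) hfm)
  have hgdeg : ∀ i, (g i).natDegree < m := by
    intro i
    have h1 := ((mem_box _ _ _).mp (hV (hgV i))).2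
    have h2 : (g i).natDegree ≤ m - 1 := h1
    omega
  refine ⟨f, hf0, by omega, ?_, m, by omega, by omega, g, hgdeg, cmat_det_ne_zero m g hgdeg hgli,
    fun i => ?_, natDegree_cmat_det m g (fun i => ρ / (m - (i : ℕ))) fun i b =>
      (dY_le (g i) _).mp (hgY i) b⟩
  · calc dY f * W ≤ dY f * (2 * (l + 1)) := Nat.mul_le_mul_left _ (by omega)
      _ = 2 * (dY f * (l + 1)) := by ring
      _ ≤ 2 * ρ := Nat.mul_le_mul_left _ hdYW
  · have h1 : f * g i ∈ IB I M l := hgV i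
    exact h1.1

end Pool.Agent.H72.PL
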